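import Pool.Agent.Q28.BP.Twf

/-!
# Artin twists of almost all elliptic curves, II
-/

set_option autoImplicit false

open Finset Filter Topology NumberField

namespace Pool.Agent.Q28.BP

open Pool.Agent.W263.BSD (pointCount GoodPrime)

section

variable {L : Type} [Field L] [NumberField L] [IsGalois ℚ L] {n : ℕ}

/-- the mean value of `Re tr ρ(g²)` -/
noncomputable def fs (ρ : Gal(L/ℚ) →* Matrix (Fin n) (Fin n) ℂ) : ℝ :=
  (∑ g : Gal(L/ℚ), (ρ (g ^ 2)).trace.re) / Nat.card Gal(L/ℚ)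

variable (ρ : Gal(L/ℚ) →* Matrix (Fin n) (Fin n) ℂ) (σ : ℕ → Gal(L/ℚ)) (S : Finset ℕ)
  (hσ : ∀ p : ℕ, p.Prime → p ∉ S → FrobAt L p (σ p)) (hS : ∀ p < 25, p ∈ S)

include hσ in
lemma tau_loglog {ε : ℝ} (hε : 0 < ε) :
    ∀ᶠ x : ℕ in atTop, |∑ p ∈ (range (x + 1)).filter Nat.Prime, tau S (fun p => ρ (σ p)) p / p -
      fs ρ * Real.log (Real.log x)| ≤ ε * Real.log (Real.log x) := by
  have h := frob_loglog L σ S hσ (fun g => (ρ (g ^ 2)).trace.re) (fun g k => by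
    have e : (k⁻¹ * g * k) ^ 2 = k⁻¹ * (g ^ 2 * k) := by
      rw [sq, sq]
      group
    rw [e, map_mul, Matrix.trace_mul_comm, ← map_mul, mul_assoc, mul_inv_cancel, mul_one]) hε
  filter_upwards [h] with x hx
  refine le_trans (le_of_eq ?_) hx
  congr 2
  refine sum_congr rfl fun p _ => ?_
  unfold tau
  rw [map_pow]

include hσ hS in
/-- **Almost all curves.** -/
theorem artin_all {ε η : ℝ} (hε : 0 < ε) (hη : 0 < η) : ∃ X₀ : ℕ, 16 ≤ X₀ ∧ ∀ X : ℕ, ∃ E ⊆ FF X,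
    (E.card : ℝ) ≤ η * (FF X).card ∧ ∀ q ∈ FF X, q ∉ E → ∀ x : ℕ, X₀ ≤ x → 27 * x ^ 20 ≤ X →
      |∑ p ∈ (range (x + 1)).filter Nat.Prime, twf S (fun p => ρ (σ p)) q.1 q.2 p -
        fs ρ / 2 * Real.log (Real.log x)| ≤ ε * Real.log (Real.log x) := by
  classical
  have hm : Nat.card Gal(L/ℚ) ≠ 0 := Nat.card_pos.ne'
  have hM : ∀ p, (fun p => ρ (σ p)) p ^ Nat.card Gal(L/ℚ) = 1 := fun p => by
    simp only
    rw [← map_pow, pow_card_eq_one', map_one]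
  obtain ⟨X₀, M, hX₀, hM0, H⟩ := height_all (7 * n + 1) (by
    have : (0 : ℝ) ≤ n := Nat.cast_nonneg n
    linarith) hη
  obtain ⟨K, hK, HK⟩ := sum_FE_mean S (fun p => ρ (σ p)) hm hM hS
  have hL : Tendsto (fun x : ℕ => Real.log (Real.log (x : ℝ)) ^ (1 / 6 : ℝ)) atTop atTop :=
    (tendsto_rpow_atTop (by norm_num)).comp tendsto_loglog
  obtain ⟨X₁, hX₁⟩ := eventually_atTop.1 ((tau_loglog ρ σ S hσ hε).and
    ((hL.eventually_ge_atTop (4 / ε)).and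
    (tendsto_loglog.eventually_ge_atTop (4 * (K * (1 + M)) / ε))))
  refine ⟨max X₀ X₁, hX₀.trans (le_max_left _ _), fun X => ?_⟩
  obtain ⟨E, hE, hEc, HE⟩ := H (FE S fun p => ρ (σ p))
    (fun A p hp z => twf_abs S (fun p => ρ (σ p)) hm hM hS A _ hp) X
  refine ⟨E, hE, hEc, fun q hq hne x hx hxX => ?_⟩
  obtain ⟨h1, h2⟩ := HE q hq hne x ((le_max_left _ _).trans hx) hxX
  obtain ⟨h3, h4, h5⟩ := hX₁ x ((le_max_right _ _).trans hx)
  have h6 := HK q.1 x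
  have h7 : K * (1 + wt q.1 x) ≤ K * (1 + M) := mul_le_mul_of_nonneg_left (by linarith) hK
  have e1 : ∑ p ∈ (range (x + 1)).filter Nat.Prime, FE S (fun p => ρ (σ p)) q.1 p (q.2 : ZMod p) =
      ∑ p ∈ (range (x + 1)).filter Nat.Prime, twf S (fun p => ρ (σ p)) q.1 q.2 p :=
    sum_congr rfl fun p hp => FE_eq S _ q.1 q.2 (mem_filter.1 hp).2
  rw [e1] at h1
  set l := Real.log (Real.log x) with hl
  have hl1 : 1 ≤ l := loglog_ge_one (hX₀.trans ((le_max_left _ _).trans hx))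
  have hl0 : 0 < l := by linarith
  have h8 : l ^ (5 / 6 : ℝ) ≤ ε / 4 * l := by
    have e3 : l = l ^ (1 / 6 : ℝ) * l ^ (5 / 6 : ℝ) := by
      rw [← Real.rpow_add hl0]
      norm_num
    have h9 : 0 < l ^ (5 / 6 : ℝ) := by positivity
    rw [div_le_iff₀ hε] at h4
    calc l ^ (5 / 6 : ℝ) = 1 * l ^ (5 / 6 : ℝ) := (one_mul _).symm
      _ ≤ (ε / 4 * l ^ (1 / 6 : ℝ)) * l ^ (5 / 6 : ℝ) := mul_le_mul_of_nonneg_right (by linarith) h9.le
      _ = ε / 4 * (l ^ (1 / 6 : ℝ) * l ^ (5 / 6 : ℝ)) := by ring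
      _ = ε / 4 * l := by rw [← e3]
  rw [div_le_iff₀ hε] at h5
  rw [abs_le] at h1 h3 h6 ⊢
  constructor <;> linarith [h1.1, h1.2, h3.1, h3.2, h6.1, h6.2]

include hσ hS in
/-- **The mean over all curves.** -/
theorem artin_mean {ε : ℝ} (hε : 0 < ε) : ∃ X₀ : ℕ, 16 ≤ X₀ ∧ ∀ X x : ℕ, X₀ ≤ x → 27 * x ^ 20 ≤ X →
    ∑ q ∈ FF X, |∑ p ∈ (range (x + 1)).filter Nat.Prime, twf S (fun p => ρ (σ p)) q.1 q.2 p -
        fs ρ / 2 * Real.log (Real.log x)| ≤ ε * Real.log (Real.log x) * (FF X).card := by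
  classical
  have hm : Nat.card Gal(L/ℚ) ≠ 0 := Nat.card_pos.ne'
  have hM : ∀ p, (fun p => ρ (σ p)) p ^ Nat.card Gal(L/ℚ) = 1 := fun p => by
    simp only
    rw [← map_pow, pow_card_eq_one', map_one]
  obtain ⟨K₁, hK₁, H⟩ := height_mean (7 * n + 1) (by
    have : (0 : ℝ) ≤ n := Nat.cast_nonneg n
    linarith)
  obtain ⟨K, hK, HK⟩ := sum_FE_mean S (fun p => ρ (σ p)) hm hM hS
  have hL : Tendsto (fun x : ℕ => Real.log (Real.log (x : ℝ)) ^ (1 / 2 : ℝ)) atTop atTop :=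
    (tendsto_rpow_atTop (by norm_num)).comp tendsto_loglog
  obtain ⟨X₁, hX₁⟩ := eventually_atTop.1 ((tau_loglog ρ σ S hσ hε).and
    ((hL.eventually_ge_atTop (4 * ((1 + K) * K₁) / ε)).and
    (tendsto_loglog.eventually_ge_atTop (4 * K / ε))))
  refine ⟨max 16 X₁, le_max_left _ _, fun X x hx hxX => ?_⟩
  have hx16 : 16 ≤ x := (le_max_left _ _).trans hx
  obtain ⟨h3, h4, h5⟩ := hX₁ x ((le_max_right _ _).trans hx)
  have h1 := H (FE S fun p => ρ (σ p))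
    (fun A p hp z => twf_abs S (fun p => ρ (σ p)) hm hM hS A _ hp) X x hx16 hxX
  set l := Real.log (Real.log x) with hl
  have hl1 : 1 ≤ l := loglog_ge_one hx16
  have hl0 : 0 < l := by linarith
  have hc : (0 : ℝ) ≤ (FF X).card := Nat.cast_nonneg _
  set V : ℤ × ℤ → ℝ := fun q => |∑ p ∈ (range (x + 1)).filter Nat.Prime,
    FE S (fun p => ρ (σ p)) q.1 p (q.2 : ZMod p) -
      ∑ p ∈ (range (x + 1)).filter Nat.Prime, mn (FE S (fun p => ρ (σ p)) q.1) p| + wt q.1 x with hV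
  have h6 : ∀ q ∈ FF X, |∑ p ∈ (range (x + 1)).filter Nat.Prime, twf S (fun p => ρ (σ p)) q.1 q.2 p -
      fs ρ / 2 * l| ≤ (1 + K) * V q + (K + ε / 2 * l) := by
    intro q _
    have e1 : ∑ p ∈ (range (x + 1)).filter Nat.Prime, FE S (fun p => ρ (σ p)) q.1 p (q.2 : ZMod p) =
        ∑ p ∈ (range (x + 1)).filter Nat.Prime, twf S (fun p => ρ (σ p)) q.1 q.2 p :=
      sum_congr rfl fun p hp => FE_eq S _ q.1 q.2 (mem_filter.1 hp).2
    have h7 := HK q.1 x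
    have hw := wt_nonneg q.1 x
    simp only [hV]
    rw [e1]
    set U := ∑ p ∈ (range (x + 1)).filter Nat.Prime, twf S (fun p => ρ (σ p)) q.1 q.2 p
    set m' := ∑ p ∈ (range (x + 1)).filter Nat.Prime, mn (FE S (fun p => ρ (σ p)) q.1) p
    set t' := ∑ p ∈ (range (x + 1)).filter Nat.Prime, tau S (fun p => ρ (σ p)) p / p
    have h8 : |U - fs ρ / 2 * l| ≤ |U - m'| + K * (1 + wt q.1 x) + ε / 2 * l := by
      have e2 : U - fs ρ / 2 * l = (U - m') + (m' - 1 / 2 * t') + 1 / 2 * (t' - fs ρ * l) := by ring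
      rw [e2]
      refine (abs_add_le _ _).trans (add_le_add ((abs_add_le _ _).trans (add_le_add le_rfl h7)) ?_)
      rw [abs_mul, abs_of_pos (by norm_num : (0 : ℝ) < 1 / 2)]
      linarith
    have h9 := abs_nonneg (U - m')
    nlinarith [mul_nonneg hK h9]
  refine (sum_le_sum h6).trans ?_
  rw [sum_add_distrib, ← mul_sum, sum_const, nsmul_eq_mul]
  have h7 : (1 + K) * ∑ q ∈ FF X, V q ≤ (1 + K) * (K₁ * l ^ (1 / 2 : ℝ) * (FF X).card) :=
    mul_le_mul_of_nonneg_left h1 (by linarith)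
  have h8 : (1 + K) * K₁ * l ^ (1 / 2 : ℝ) ≤ ε / 4 * l := by
    have e3 : l = l ^ (1 / 2 : ℝ) * l ^ (1 / 2 : ℝ) := by
      rw [← Real.rpow_add hl0]
      norm_num
    have h9 : 0 < l ^ (1 / 2 : ℝ) := by positivity
    rw [div_le_iff₀ hε] at h4
    calc (1 + K) * K₁ * l ^ (1 / 2 : ℝ) ≤ (ε / 4 * l ^ (1 / 2 : ℝ)) * l ^ (1 / 2 : ℝ) :=
          mul_le_mul_of_nonneg_right (by linarith) h9.le
      _ = ε / 4 * (l ^ (1 / 2 : ℝ) * l ^ (1 / 2 : ℝ)) := by ring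
      _ = ε / 4 * l := by rw [← e3]
  rw [div_le_iff₀ hε] at h5
  calc (1 + K) * ∑ q ∈ FF X, V q + (FF X).card * (K + ε / 2 * l)
      ≤ (1 + K) * (K₁ * l ^ (1 / 2 : ℝ) * (FF X).card) + (FF X).card * (K + ε / 2 * l) := by linarith
    _ = ((1 + K) * K₁ * l ^ (1 / 2 : ℝ) + K + ε / 2 * l) * (FF X).card := by ring
    _ ≤ (ε / 4 * l + ε / 4 * l + ε / 2 * l) * (FF X).card :=
        mul_le_mul_of_nonneg_right (by linarith) hc
    _ = _ := by ring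

end

end Pool.Agent.Q28.BP
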