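import Pool.Agent.Q28.BP.Asym

/-!
# Integers of both signs; products
-/

set_option autoImplicit false

open Finset Filter Topology

namespace Pool.Agent.Q28.BP

open Pool.Agent.W263.BSD (pointCount GoodPrime rsSum)

/-- a property of almost all integers `0 ≤ t < T` -/
def AA (η : ℝ) (Q : ℕ → ℕ → Prop) : Prop :=
  ∃ X₀ : ℕ, 3 ≤ X₀ ∧ ∀ T : ℕ, ∃ E ⊆ range T, (E.card : ℝ) ≤ η * T ∧
    ∀ t ∈ range T, t ∉ E → ∀ x : ℕ, X₀ ≤ x → x ^ 10 ≤ T → Q t x

/-- a property of almost all integers `|t| ≤ T` -/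
def AZ (η : ℝ) (Q : ℤ → ℕ → Prop) : Prop :=
  ∃ X₀ : ℕ, 3 ≤ X₀ ∧ ∀ T : ℕ, ∃ E : Finset ℤ, (E.card : ℝ) ≤ η * T ∧
    ∀ t : ℤ, |t| ≤ T → t ∉ E → ∀ x : ℕ, X₀ ≤ x → x ^ 10 ≤ T → Q t x

theorem both {η : ℝ} (hη : 0 < η) {Q : ℤ → ℕ → Prop} (h1 : AA (η / 4) fun t x => Q (t : ℤ) x)
    (h2 : AA (η / 4) fun t x => Q (-(t : ℤ)) x) : AZ η Q := by
  classical
  obtain ⟨X₁, h3, H1⟩ := h1
  obtain ⟨X₂, _, H2⟩ := h2
  refine ⟨max X₁ X₂, h3.trans (le_max_left _ _), fun T => ?_⟩
  rcases Nat.eq_zero_or_pos T with rfl | hT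
  · refine ⟨∅, by simp, fun t _ _ x hx hxT => ?_⟩
    exfalso
    have h4 : 3 ≤ x := h3.trans ((le_max_left _ _).trans hx)
    have h5 : 0 < x ^ 10 := by positivity
    omega
  obtain ⟨E1, hE1, hc1, H1⟩ := H1 (T + 1)
  obtain ⟨E2, hE2, hc2, H2⟩ := H2 (T + 1)
  refine ⟨E1.image (fun n : ℕ => (n : ℤ)) ∪ E2.image (fun n : ℕ => -(n : ℤ)), ?_, ?_⟩
  · have k1 : ((E1.image (fun n : ℕ => (n : ℤ)) ∪ E2.image (fun n : ℕ => -(n : ℤ))).card : ℝ) ≤
        E1.card + E2.card := by
      have := (card_union_le (E1.image (fun n : ℕ => (n : ℤ))) (E2.image (fun n : ℕ => -(n : ℤ)))).trans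
        (add_le_add card_image_le card_image_le)
      exact_mod_cast this
    have hT1 : (1 : ℝ) ≤ T := by exact_mod_cast hT
    push_cast at hc1 hc2
    nlinarith
  · intro t ht hne x hx hxT
    rw [mem_union, not_or, mem_image, mem_image] at hne
    have hxT' : x ^ 10 ≤ T + 1 := by omega
    rw [abs_le] at ht
    rcases le_total 0 t with h0 | h0
    · lift t to ℕ using h0
      have ht' : t ∈ range (T + 1) := by
        rw [mem_range]
        have := ht.2
        omega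
      exact H1 t ht' (fun h => hne.1 ⟨t, h, rfl⟩) x ((le_max_left _ _).trans hx) hxT'
    · obtain ⟨n, rfl⟩ : ∃ n : ℕ, t = -(n : ℤ) := ⟨t.natAbs, by omega⟩
      have ht' : n ∈ range (T + 1) := by
        rw [mem_range]
        have := ht.1
        omega
      exact H2 n ht' (fun h => hne.2 ⟨n, h, rfl⟩) x ((le_max_right _ _).trans hx) hxT'

/-- the logarithm of the product -/
lemma log_prod (a b : ℤ) (x : ℕ) [DecidablePred (GoodPrime a b)] :
    0 < ∏ p ∈ (range (x + 1)).filter (GoodPrime a b), (((pointCount a b p : ℝ) + 1) / p) ∧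
    Real.log (∏ p ∈ (range (x + 1)).filter (GoodPrime a b), (((pointCount a b p : ℝ) + 1) / p)) =
      ∑ p ∈ (range (x + 1)).filter Nat.Prime, lg a b p := by
  have hpos : ∀ p ∈ (range (x + 1)).filter (GoodPrime a b), 0 < ((pointCount a b p : ℝ) + 1) / p := by
    intro p hp
    have hp0 : (0 : ℝ) < p := by exact_mod_cast (mem_filter.1 hp).2.1.pos
    positivity
  refine ⟨prod_pos hpos, ?_⟩
  rw [Real.log_prod fun p hp => (hpos p hp).ne', sum_filter, sum_filter]
  refine sum_congr rfl fun p _ => ?_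
  unfold lg
  by_cases hg : GoodPrime a b p
  · rw [if_pos hg, if_pos hg.1, if_pos hg]
  · rw [if_neg hg, if_neg hg, ite_self]

/-- from logarithms to powers of `log x` -/
lemma pow_bounds {P L κ ε : ℝ} {x : ℕ} (hP : 0 < P) (hx : 3 ≤ x) (hL : L = Real.log (Real.log x))
    (h : |Real.log P - κ * L| ≤ ε * L) :
    Real.log x ^ (κ - ε) ≤ P ∧ P ≤ Real.log x ^ (κ + ε) := by
  have hx1 : (1 : ℝ) < x := by exact_mod_cast (by omega : 1 < x)
  have hlog : 0 < Real.log x := Real.log_pos hx1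
  rw [abs_le] at h
  constructor
  · rw [Real.rpow_def_of_pos hlog, ← hL]
    calc Real.exp (L * (κ - ε)) ≤ Real.exp (Real.log P) := Real.exp_le_exp.2 (by linarith [h.1])
      _ = P := Real.exp_log hP
  · rw [Real.rpow_def_of_pos hlog, ← hL]
    calc P = Real.exp (Real.log P) := (Real.exp_log hP).symm
      _ ≤ Real.exp (L * (κ + ε)) := Real.exp_le_exp.2 (by linarith [h.2])

/-- all the twists -/
theorem twists {a b : ℤ} (hΔ : 4 * a ^ 3 + 27 * b ^ 2 ≠ 0) (hrs : Tendsto (rsSum a b) atTop (𝓝 0))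
    {ε η : ℝ} (hε : 0 < ε) (hη : 0 < η) : AZ η fun d x =>
      |∑ p ∈ (range (x + 1)).filter Nat.Prime, lg (a * d ^ 2) (b * d ^ 3) p -
          1 / 2 * Real.log (Real.log x)| ≤ ε * Real.log (Real.log x) := by
  have hX : ∀ D : Polynomial ℤ, D = Polynomial.X ∨ D = -Polynomial.X → ∀ p, GoodPrime a b p →
      |nu (twA a D) (twB b D) p - (1 / 2 / p + -(1 / 2) * rho a b p)| ≤ 6 / (p : ℝ) ^ 2 := by
    intro D hD p hg
    refine le_trans (le_of_eq ?_) (nu_all hg D hD)
    congr 1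
    ring
  refine both hη ?_ ?_
  · have h := family hΔ hrs Polynomial.X (1 / 2) (-(1 / 2)) 6 (by norm_num) (by norm_num)
      (hX _ (Or.inl rfl)) hε (show 0 < η / 4 by positivity)
    simp only [Polynomial.eval_X] at h
    exact h
  · have h := family hΔ hrs (-Polynomial.X) (1 / 2) (-(1 / 2)) 6 (by norm_num) (by norm_num)
      (hX _ (Or.inr rfl)) hε (show 0 < η / 4 by positivity)
    simp only [Polynomial.eval_neg, Polynomial.eval_X] at h
    exact h

/-- the twists by the values of the cubic polynomial of the curve -/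
theorem self_twists {a b : ℤ} (hΔ : 4 * a ^ 3 + 27 * b ^ 2 ≠ 0)
    (hrs : Tendsto (rsSum a b) atTop (𝓝 0)) {ε η : ℝ} (hε : 0 < ε) (hη : 0 < η) : AZ η fun t x =>
      |∑ p ∈ (range (x + 1)).filter Nat.Prime,
          lg (a * (t ^ 3 + a * t + b) ^ 2) (b * (t ^ 3 + a * t + b) ^ 3) p -
          3 / 2 * Real.log (Real.log x)| ≤ ε * Real.log (Real.log x) := by
  have hX : ∀ D : Polynomial ℤ, (D = Polynomial.X ^ 3 + Polynomial.C a * Polynomial.X + Polynomial.C b ∨
      D = -Polynomial.X ^ 3 - Polynomial.C a * Polynomial.X + Polynomial.C b) → ∀ p, GoodPrime a b p →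
      |nu (twA a D) (twB b D) p - (3 / 2 / p + 1 / 2 * rho a b p)| ≤ 30 / (p : ℝ) ^ 2 := by
    intro D hD p hg
    refine le_trans (le_of_eq ?_) (nu_self hg D hD)
    congr 1
    ring
  refine both hη ?_ ?_
  · have h := family hΔ hrs _ (3 / 2) (1 / 2) 30 (by norm_num) (by norm_num)
      (hX _ (Or.inl rfl)) hε (show 0 < η / 4 by positivity)
    simp only [Polynomial.eval_add, Polynomial.eval_mul, Polynomial.eval_pow, Polynomial.eval_X,
      Polynomial.eval_C] at h
    exact h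
  · have h := family hΔ hrs _ (3 / 2) (1 / 2) 30 (by norm_num) (by norm_num)
      (hX _ (Or.inr rfl)) hε (show 0 < η / 4 by positivity)
    simp only [Polynomial.eval_add, Polynomial.eval_sub, Polynomial.eval_neg, Polynomial.eval_mul,
      Polynomial.eval_pow, Polynomial.eval_X, Polynomial.eval_C] at h
    have e : ∀ t : ℤ, (-t) ^ 3 + a * (-t) + b = -t ^ 3 - a * t + b := fun t => by ring
    simp only [e]
    exact h

end Pool.Agent.Q28.BP
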