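import Pool.Agent.Q28.BP.TwQ
import Pool.Agent.Helper112.MultLS

/-!
# Euler products of matrices at the centre, twisted by a family with a large sieve inequality
-/

set_option autoImplicit false

open Finset Filter Topology

namespace Pool.Agent.Q28.BP

/-- a family of completely multiplicative functions with a large sieve inequality of length `N₂` -/
structure LSI {α : Type} (W : Finset α) (c : α → ℕ → ℂ) (N₂ : ℕ) (K : ℝ) : Prop where
  mul : ∀ w ∈ W, ∀ m n, c w (m * n) = c w m * c w n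
  le : ∀ w ∈ W, ∀ n, ‖c w n‖ ≤ 1
  ls : ∀ β : ℕ → ℂ, ∑ w ∈ W, ‖∑ m ∈ Icc 1 N₂, β m * c w m‖ ^ 2 ≤ K * W.card * ∑ m ∈ Icc 1 N₂, ‖β m‖ ^ 2

section

variable {α : Type} {W : Finset α} {c : α → ℕ → ℂ} {N₂ : ℕ} {K : ℝ}

/-- the inequality for a finite set -/
lemma LSI.finset (h : LSI W c N₂ K) (J : Finset ℕ) (hJ : ∀ m ∈ J, 1 ≤ m ∧ m ≤ N₂) (β : ℕ → ℂ) :
    ∑ w ∈ W, ‖∑ m ∈ J, β m * c w m‖ ^ 2 ≤ K * W.card * ∑ m ∈ J, ‖β m‖ ^ 2 := by
  classical
  have hsub : J ⊆ Icc 1 N₂ := fun m hm => mem_Icc.2 (hJ m hm)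
  have h1 := h.ls fun m => if m ∈ J then β m else 0
  have e1 : ∀ w, ∑ m ∈ Icc 1 N₂, (if m ∈ J then β m else 0) * c w m = ∑ m ∈ J, β m * c w m := by
    intro w
    rw [← sum_subset hsub]
    · exact sum_congr rfl fun m hm => by rw [if_pos hm]
    · intro m _ hm
      rw [if_neg hm, zero_mul]
  have e2 : ∑ m ∈ Icc 1 N₂, ‖(if m ∈ J then β m else 0 : ℂ)‖ ^ 2 = ∑ m ∈ J, ‖β m‖ ^ 2 := by
    rw [← sum_subset hsub]
    · exact sum_congr rfl fun m hm => by rw [if_pos hm]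
    · intro m _ hm
      rw [if_neg hm, norm_zero]
      norm_num
  simp only [e1, e2] at h1
  exact h1

/-- the fourth moment of a sum over primes -/
lemma LSI.fourth (h : LSI W c N₂ K) (hK : 0 ≤ K) {N : ℕ} (hN : N ^ 2 ≤ N₂) (J : Finset ℕ)
    (hJ : ∀ p ∈ J, p.Prime ∧ p ≤ N) (β : ℕ → ℂ) :
    ∑ w ∈ W, ‖∑ p ∈ J, β p * c w p‖ ^ 4 ≤ 2 * K * W.card * (∑ p ∈ J, ‖β p‖ ^ 2) ^ 2 := by
  classical
  set R : Finset (ℕ × ℕ) := J ×ˢ J with hR
  set M : Finset ℕ := R.image fun q => q.1 * q.2 with hM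
  set γ : ℕ → ℂ := fun m => ∑ q ∈ R.filter (fun q => q.1 * q.2 = m), β q.1 * β q.2 with hγ
  have hsq : ∀ w ∈ W, ‖∑ p ∈ J, β p * c w p‖ ^ 4 = ‖∑ m ∈ M, γ m * c w m‖ ^ 2 := by
    intro w hw
    have e1 : (∑ p ∈ J, β p * c w p) ^ 2 = ∑ m ∈ M, γ m * c w m := by
      rw [sq, sum_mul_sum, ← sum_product']
      rw [← sum_fiberwise_of_maps_to (s := R) (t := M) (g := fun q => q.1 * q.2)
        fun q hq => mem_image_of_mem _ hq]
      refine sum_congr rfl fun m _ => ?_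
      rw [hγ]
      simp only
      rw [sum_mul]
      refine sum_congr rfl fun q hq => ?_
      rw [← (mem_filter.1 hq).2, h.mul w hw]
      ring
    rw [← e1, norm_pow, ← pow_mul]
  rw [sum_congr rfl hsq]
  have hMN : ∀ m ∈ M, 1 ≤ m ∧ m ≤ N₂ := by
    intro m hm
    rw [hM, mem_image] at hm
    obtain ⟨q, hq, rfl⟩ := hm
    rw [hR, mem_product] at hq
    have h1 := hJ _ hq.1
    have h2 := hJ _ hq.2
    refine ⟨Nat.mul_pos h1.1.pos h2.1.pos, (Nat.mul_le_mul h1.2 h2.2).trans ?_⟩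
    rw [← sq]
    exact hN
  refine (h.finset M hMN γ).trans ?_
  have hcard : ∀ m ∈ M, ((R.filter fun q => q.1 * q.2 = m).card : ℝ) ≤ 2 := by
    intro m hm
    rw [hM, mem_image] at hm
    obtain ⟨q, hq, rfl⟩ := hm
    rw [hR, mem_product] at hq
    have h1 := (hJ _ hq.1).1
    have h2 := (hJ _ hq.2).1
    have hsub : (R.filter fun r => r.1 * r.2 = q.1 * q.2) ⊆ {q, (q.2, q.1)} := by
      intro r hr
      rw [mem_filter, hR, mem_product] at hr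
      obtain ⟨⟨hr1, hr2⟩, hr3⟩ := hr
      have g1 := (hJ _ hr1).1
      have g2 := (hJ _ hr2).1
      rw [mem_insert, mem_singleton]
      have hd : r.1 ∣ q.1 * q.2 := ⟨r.2, hr3.symm⟩
      rcases (g1.dvd_mul).1 hd with k | k
      · left
        have k1 := (Nat.prime_dvd_prime_iff_eq g1 h1).1 k
        rw [k1] at hr3
        have k2 := Nat.eq_of_mul_eq_mul_left h1.pos hr3
        exact Prod.ext k1 k2
      · right
        have k1 := (Nat.prime_dvd_prime_iff_eq g1 h2).1 k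
        rw [k1, mul_comm q.1 q.2] at hr3
        have k2 := Nat.eq_of_mul_eq_mul_left h2.pos hr3
        exact Prod.ext k1 k2
    have := (card_le_card hsub).trans card_le_two
    exact_mod_cast this
  have hγb : ∀ m ∈ M, ‖γ m‖ ^ 2 ≤ 2 * ∑ q ∈ R.filter (fun q => q.1 * q.2 = m), ‖β q.1‖ ^ 2 * ‖β q.2‖ ^ 2 := by
    intro m hm
    have k1 : ‖γ m‖ ≤ ∑ q ∈ R.filter (fun q => q.1 * q.2 = m), ‖β q.1‖ * ‖β q.2‖ := by
      refine (norm_sum_le _ _).trans (le_of_eq (sum_congr rfl fun q _ => norm_mul _ _))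
    have k2 := sq_sum_le_card_mul_sum_sq (s := R.filter (fun q => q.1 * q.2 = m))
      (f := fun q => ‖β q.1‖ * ‖β q.2‖)
    have k3 : ‖γ m‖ ^ 2 ≤ (∑ q ∈ R.filter (fun q => q.1 * q.2 = m), ‖β q.1‖ * ‖β q.2‖) ^ 2 :=
      pow_le_pow_left₀ (norm_nonneg _) k1 2
    refine k3.trans (k2.trans ?_)
    refine mul_le_mul (hcard m hm) (le_of_eq (sum_congr rfl fun q _ => by ring))
      (sum_nonneg fun _ _ => by positivity) (by norm_num)
  have htot : ∑ m ∈ M, ‖γ m‖ ^ 2 ≤ 2 * (∑ p ∈ J, ‖β p‖ ^ 2) ^ 2 := by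
    refine (sum_le_sum hγb).trans (le_of_eq ?_)
    rw [← mul_sum, sum_fiberwise_of_maps_to (s := R) (t := M) (g := fun q => q.1 * q.2)
      fun q hq => mem_image_of_mem _ hq]
    rw [hR, sum_product, sq, sum_mul_sum]
  calc K * W.card * ∑ m ∈ M, ‖γ m‖ ^ 2 ≤ K * W.card * (2 * (∑ p ∈ J, ‖β p‖ ^ 2) ^ 2) :=
        mul_le_mul_of_nonneg_left htot (by positivity)
    _ = _ := by ring

/-- the sum of the squares -/
noncomputable def kap : ℝ := ∑' n : ℕ, (n : ℝ) ^ (-(2 : ℝ))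

lemma kap_summable : Summable fun n : ℕ => (n : ℝ) ^ (-(2 : ℝ)) := Real.summable_nat_rpow.2 (by norm_num)

lemma kap_nonneg : 0 ≤ kap := tsum_nonneg fun n => by positivity

lemma sum_sq_le (J : Finset ℕ) : ∑ p ∈ J, 1 / (p : ℝ) ^ 2 ≤ kap := by
  refine le_trans (le_of_eq (sum_congr rfl fun p _ => ?_)) (kap_summable.sum_le_tsum J fun n _ => by positivity)
  rw [Real.rpow_neg (Nat.cast_nonneg p), ← Real.rpow_natCast]
  norm_num

/-- the fourth moment of a sum over the squares of primes -/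
lemma LSI.fourth_sq (h : LSI W c N₂ K) (hK : 0 ≤ K) {N : ℕ} (hN : N ^ 2 ≤ N₂) (J : Finset ℕ)
    (hJ : ∀ p ∈ J, p.Prime ∧ p ≤ N) (β : ℕ → ℂ) {A : ℝ} (hA : 0 ≤ A) (hβ : ∀ p ∈ J, ‖β p‖ ≤ A / p) :
    ∑ w ∈ W, ‖∑ p ∈ J, β p * c w p ^ 2‖ ^ 4 ≤
      A ^ 4 * kap * K * W.card * (∑ p ∈ J, 1 / (p : ℝ)) ^ 2 := by
  classical
  set G : ℝ := ∑ p ∈ J, 1 / (p : ℝ) with hG
  have hG0 : 0 ≤ G := sum_nonneg fun p _ => by positivity
  have h1 : ∀ w ∈ W, ‖∑ p ∈ J, β p * c w p ^ 2‖ ≤ A * G := by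
    intro w hw
    refine (norm_sum_le _ _).trans ?_
    rw [hG, mul_sum]
    refine sum_le_sum fun p hp => ?_
    rw [norm_mul, norm_pow, mul_one_div]
    have k1 := h.le w hw p
    have k2 : ‖c w p‖ ^ 2 ≤ 1 := pow_le_one₀ (norm_nonneg _) k1
    calc ‖β p‖ * ‖c w p‖ ^ 2 ≤ (A / p) * 1 :=
          mul_le_mul (hβ p hp) k2 (by positivity) (by positivity)
      _ = _ := mul_one _
  have h2 : ∑ w ∈ W, ‖∑ p ∈ J, β p * c w p ^ 2‖ ^ 2 ≤ K * W.card * (A ^ 2 * kap) := by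
    set M : Finset ℕ := J.image fun p => p ^ 2 with hM
    have hinj : Set.InjOn (fun p : ℕ => p ^ 2) J := by
      intro p _ q _ hpq
      exact Nat.pow_left_injective (by norm_num) hpq
    have e1 : ∀ w ∈ W, ∑ p ∈ J, β p * c w p ^ 2 = ∑ m ∈ M, β (Nat.sqrt m) * c w m := by
      intro w hw
      rw [hM, sum_image hinj]
      refine sum_congr rfl fun p _ => ?_
      rw [sq p, h.mul w hw, Nat.sqrt_eq, sq]
    have e2 : ∑ m ∈ M, ‖β (Nat.sqrt m)‖ ^ 2 ≤ A ^ 2 * kap := by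
      rw [hM, sum_image hinj]
      refine le_trans (sum_le_sum fun p hp => ?_) (mul_le_mul_of_nonneg_left
        (sum_sq_le J) (by positivity : 0 ≤ A ^ 2) |> le_trans (le_of_eq (mul_sum _ _ _).symm))
      rw [sq p, Nat.sqrt_eq]
      refine (pow_le_pow_left₀ (norm_nonneg _) (hβ p hp) 2).trans (le_of_eq ?_)
      rw [div_pow]
      ring
    rw [sum_congr rfl fun w hw => by rw [e1 w hw]]
    have hMN : ∀ m ∈ M, 1 ≤ m ∧ m ≤ N₂ := by
      intro m hm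
      rw [hM, mem_image] at hm
      obtain ⟨p, hp, rfl⟩ := hm
      have := hJ p hp
      exact ⟨Nat.pow_pos this.1.pos, (Nat.pow_le_pow_left this.2 2).trans hN⟩
    exact (h.finset M hMN _).trans (mul_le_mul_of_nonneg_left e2 (by positivity))
  calc ∑ w ∈ W, ‖∑ p ∈ J, β p * c w p ^ 2‖ ^ 4
      ≤ ∑ w ∈ W, (A * G) ^ 2 * ‖∑ p ∈ J, β p * c w p ^ 2‖ ^ 2 := by
        refine sum_le_sum fun w hw => ?_
        have e : ‖∑ p ∈ J, β p * c w p ^ 2‖ ^ 4 =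
          ‖∑ p ∈ J, β p * c w p ^ 2‖ ^ 2 * ‖∑ p ∈ J, β p * c w p ^ 2‖ ^ 2 := by ring
        rw [e]
        exact mul_le_mul_of_nonneg_right (pow_le_pow_left₀ (norm_nonneg _) (h1 w hw) 2) (by positivity)
    _ = (A * G) ^ 2 * ∑ w ∈ W, ‖∑ p ∈ J, β p * c w p ^ 2‖ ^ 2 := (mul_sum W _ _).symm
    _ ≤ (A * G) ^ 2 * (K * W.card * (A ^ 2 * kap)) := mul_le_mul_of_nonneg_left h2 (by positivity)
    _ = _ := by ring

end

/-! ### Local factors -/

lemma eigLe_norm {n : ℕ} {M : Matrix (Fin n) (Fin n) ℂ} (h : EigLe M) (k : ℕ) : ‖(M ^ k).trace‖ ≤ n := by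
  obtain ⟨a, h1, _, h3⟩ := h
  rw [← h3 k]
  refine (norm_sum_le _ _).trans ?_
  refine (Finset.sum_le_sum fun j _ => (norm_pow (a j) k).le.trans (pow_le_one₀ (norm_nonneg _) (h1 j))).trans
    (le_of_eq ?_)
  simp

/-- the local factor -/
lemma local_c {n : ℕ} {M : Matrix (Fin n) (Fin n) ℂ} (h : EigLe M) {z : ℂ} (hz : ‖z‖ ≤ 1 / 2) :
    0 < ‖(1 - z • M).det‖ ∧ |Real.log ‖(1 - z • M).det‖ -
      (-(M.trace * z).re - ((M ^ 2).trace * z ^ 2).re / 2)| ≤ n * ‖z‖ ^ 3 := by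
  obtain ⟨a, h1, h2, h3⟩ := h
  have hb : ∀ j, ‖a j * z‖ ≤ ‖z‖ := by
    intro j
    rw [norm_mul]
    exact mul_le_of_le_one_left (norm_nonneg _) (h1 j)
  have hl := fun j => log_two ((hb j).trans hz)
  have hpos : ∀ j, 0 < ‖1 - a j * z‖ := fun j => norm_pos_iff.2 (sub_ne_zero.2 (Ne.symm (hl j).1))
  refine ⟨?_, ?_⟩
  · rw [h2, norm_prod]
    exact Finset.prod_pos fun j _ => hpos j
  · rw [h2, norm_prod, Real.log_prod fun j _ => (hpos j).ne']
    have h4 : -(M.trace * z).re - ((M ^ 2).trace * z ^ 2).re / 2 =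
        ∑ j, (-(a j * z).re - ((a j * z) ^ 2).re / 2) := by
      have e1 : (M.trace * z).re = ∑ j, (a j * z).re := by
        have := h3 1
        simp only [pow_one] at this
        rw [← this, Finset.sum_mul, Complex.re_sum]
      have e2 : ((M ^ 2).trace * z ^ 2).re = ∑ j, ((a j * z) ^ 2).re := by
        rw [← h3 2, Finset.sum_mul, Complex.re_sum]
        exact Finset.sum_congr rfl fun j _ => by rw [mul_pow]
      rw [e1, e2, Finset.sum_div, ← Finset.sum_neg_distrib, ← Finset.sum_sub_distrib]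
    rw [h4, ← Finset.sum_sub_distrib]
    refine (Finset.abs_sum_le_sum_abs _ _).trans ?_
    refine (Finset.sum_le_sum fun j _ => ((hl j).2.trans
      (pow_le_pow_left₀ (norm_nonneg _) (hb j) 3))).trans (le_of_eq ?_)
    simp

/-- the logarithm of the local factor of the twist -/
noncomputable def lc {n : ℕ} (S : Finset ℕ) (M : ℕ → Matrix (Fin n) (Fin n) ℂ) (z : ℂ) (p : ℕ) : ℝ :=
  if p ∈ S then 0 else Real.log ‖(1 - (z / Real.sqrt p) • M p).det‖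

/-- the main part of the logarithm, up to the sign -/
noncomputable def xc {n : ℕ} (S : Finset ℕ) (M : ℕ → Matrix (Fin n) (Fin n) ℂ) (z : ℂ) (p : ℕ) : ℂ :=
  if p.Prime ∧ p ∉ S then (M p).trace / Real.sqrt p * z + (M p ^ 2).trace / (2 * p) * z ^ 2 else 0

section

variable {n : ℕ} {S : Finset ℕ} {M : ℕ → Matrix (Fin n) (Fin n) ℂ}

lemma xc_not_prime {z : ℂ} {p : ℕ} (hp : ¬ p.Prime) : xc S M z p = 0 := by
  unfold xc
  rw [if_neg fun h => hp h.1]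

lemma lc_main (hM : ∀ p : ℕ, p.Prime → p ∉ S → EigLe (M p)) (hS : ∀ p < 4, p ∈ S) {z : ℂ} (hz : ‖z‖ ≤ 1)
    {p : ℕ} (hp : p.Prime) : |lc S M z p + (xc S M z p).re| ≤ n * (p : ℝ) ^ (-(3 / 2) : ℝ) := by
  by_cases hpS : p ∈ S
  · unfold lc xc
    rw [if_pos hpS, if_neg fun h => h.2 hpS, Complex.zero_re, add_zero, abs_zero]
    positivity
  have hp0 : (0 : ℝ) < p := by exact_mod_cast hp.pos
  have h4 : (4 : ℝ) ≤ p := by
    have : 4 ≤ p := by
      by_contra h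
      exact hpS (hS p (by omega))
    exact_mod_cast this
  have hs : 0 < Real.sqrt p := Real.sqrt_pos.2 hp0
  have hs2 : 2 ≤ Real.sqrt p := by
    rw [show (2 : ℝ) = Real.sqrt 4 by
      rw [show (4 : ℝ) = 2 ^ 2 by norm_num, Real.sqrt_sq (by norm_num)]]
    exact Real.sqrt_le_sqrt h4
  have hss : Real.sqrt p * Real.sqrt p = p := Real.mul_self_sqrt hp0.le
  have hzn : ‖z / (Real.sqrt p : ℂ)‖ ≤ 1 / Real.sqrt p := by
    rw [norm_div, Complex.norm_real, Real.norm_eq_abs, abs_of_pos hs]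
    exact div_le_div_of_nonneg_right hz hs.le
  have hz2 : ‖z / (Real.sqrt p : ℂ)‖ ≤ 1 / 2 := hzn.trans (one_div_le_one_div_of_le (by norm_num) hs2)
  have h1 := (local_c (hM p hp hpS) hz2).2
  unfold lc xc
  rw [if_neg hpS, if_pos ⟨hp, hpS⟩]
  have hsc : (Real.sqrt p : ℂ) ≠ 0 := by
    intro h
    rw [Complex.ofReal_eq_zero] at h
    exact hs.ne' h
  have hssc : (Real.sqrt p : ℂ) ^ 2 = p := by
    rw [sq]
    exact_mod_cast hss
  have e1 : ((M p).trace * (z / (Real.sqrt p : ℂ))).re + ((M p ^ 2).trace * (z / (Real.sqrt p : ℂ)) ^ 2).re / 2 =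
      ((M p).trace / Real.sqrt p * z + (M p ^ 2).trace / (2 * p) * z ^ 2).re := by
    rw [Complex.add_re]
    congr 1
    · congr 1
      field_simp
    · have : ((M p ^ 2).trace / (2 * p) * z ^ 2) = ((M p ^ 2).trace * (z / (Real.sqrt p : ℂ)) ^ 2) / (2 : ℝ) := by
        rw [div_pow, hssc]
        push_cast
        ring
      rw [this, Complex.div_ofReal_re]
  have e2 : Real.log ‖(1 - (z / (Real.sqrt p : ℂ)) • M p).det‖ +
      ((M p).trace / Real.sqrt p * z + (M p ^ 2).trace / (2 * p) * z ^ 2).re =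
      Real.log ‖(1 - (z / (Real.sqrt p : ℂ)) • M p).det‖ - (-((M p).trace * (z / (Real.sqrt p : ℂ))).re -
        ((M p ^ 2).trace * (z / (Real.sqrt p : ℂ)) ^ 2).re / 2) := by
    rw [← e1]
    ring
  rw [e2]
  refine h1.trans ?_
  rw [rpow32 hp.pos]
  refine mul_le_mul_of_nonneg_left ?_ (Nat.cast_nonneg n)
  refine (pow_le_pow_left₀ (norm_nonneg _) hzn 3).trans (le_of_eq ?_)
  rw [div_pow, one_pow]
  congr 1
  calc Real.sqrt p ^ 3 = (Real.sqrt p * Real.sqrt p) * Real.sqrt p := by ring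
    _ = _ := by rw [hss]

lemma xc_norm (hM : ∀ p : ℕ, p.Prime → p ∉ S → EigLe (M p)) {z : ℂ} (hz : ‖z‖ ≤ 1) (p : ℕ) :
    ‖xc S M z p‖ ≤ 2 * n := by
  have hn : (0 : ℝ) ≤ n := Nat.cast_nonneg n
  unfold xc
  split_ifs with h
  · have h1 := eigLe_norm (hM p h.1 h.2) 1
    have h2 := eigLe_norm (hM p h.1 h.2) 2
    rw [pow_one] at h1
    have hp1 : (1 : ℝ) ≤ p := by exact_mod_cast h.1.one_lt.le
    have hs1 : 1 ≤ Real.sqrt p := by rwa [Real.one_le_sqrt]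
    have hz2 : ‖z‖ ^ 2 ≤ 1 := pow_le_one₀ (norm_nonneg _) hz
    refine (norm_add_le _ _).trans ?_
    rw [norm_mul, norm_mul, norm_div, norm_div, norm_pow, Complex.norm_real, Real.norm_eq_abs,
      abs_of_pos (by linarith), norm_mul, Complex.norm_natCast, Complex.norm_ofNat]
    have k1 : ‖(M p).trace‖ / Real.sqrt p ≤ n := (div_le_self (norm_nonneg _) hs1).trans h1
    have k2 : ‖(M p ^ 2).trace‖ / (2 * p) ≤ n := (div_le_self (norm_nonneg _) (by linarith)).trans h2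
    have k3 : ‖(M p).trace‖ / Real.sqrt p * ‖z‖ ≤ n * 1 := mul_le_mul k1 hz (norm_nonneg _) hn
    have k4 : ‖(M p ^ 2).trace‖ / (2 * p) * ‖z‖ ^ 2 ≤ n * 1 := mul_le_mul k2 hz2 (by positivity) hn
    linarith
  · rw [norm_zero]
    positivity

end

/-! ### The theorem -/

section

variable {α : Type} {W : Finset α} {c : α → ℕ → ℂ} {N₂ : ℕ} {K : ℝ}

/-- the fourth moment of the main part -/
lemma LSI.fourth_xc (h : LSI W c N₂ K) (hK : 0 ≤ K) {N : ℕ} (hN : N ^ 2 ≤ N₂) {n : ℕ} {S : Finset ℕ}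
    {M : ℕ → Matrix (Fin n) (Fin n) ℂ} (hM : ∀ p : ℕ, p.Prime → p ∉ S → EigLe (M p)) (J : Finset ℕ)
    (hJ : ∀ p ∈ J, p ≤ N) :
    ∑ w ∈ W, ‖∑ p ∈ J, xc S M (c w p) p‖ ^ 4 ≤
      (16 + 8 * kap) * n ^ 4 * K * W.card * (∑ p ∈ J, gp p) ^ 2 := by
  classical
  set J' : Finset ℕ := J.filter fun p => p.Prime ∧ p ∉ S with hJ'
  have hJ1 : ∀ p ∈ J', p.Prime ∧ p ≤ N := fun p hp => ⟨(mem_filter.1 hp).2.1, hJ p (mem_filter.1 hp).1⟩
  have hG : ∑ p ∈ J', 1 / (p : ℝ) ≤ ∑ p ∈ J, gp p := by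
    have e : ∀ p ∈ J', 1 / (p : ℝ) = gp p := fun p hp => by
      unfold gp
      rw [if_pos (hJ1 p hp).1]
    rw [sum_congr rfl e]
    exact sum_le_sum_of_subset_of_nonneg (filter_subset _ _) fun p _ _ => gp_nonneg p
  have hG0 : 0 ≤ ∑ p ∈ J', 1 / (p : ℝ) := sum_nonneg fun p _ => by positivity
  have hsplit : ∀ w, ∑ p ∈ J, xc S M (c w p) p = ∑ p ∈ J', (M p).trace / Real.sqrt p * c w p +
      ∑ p ∈ J', (M p ^ 2).trace / (2 * p) * c w p ^ 2 := by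
    intro w
    rw [← sum_add_distrib, hJ', sum_filter]
    rfl
  have h1 := h.fourth hK hN J' hJ1 fun p => (M p).trace / Real.sqrt p
  have hn : (0 : ℝ) ≤ n := Nat.cast_nonneg n
  have h2 := h.fourth_sq hK hN J' hJ1 (fun p => (M p ^ 2).trace / (2 * p)) hn (fun p hp => by
    have hp' := (mem_filter.1 hp).2
    have hp0 : (0 : ℝ) < p := by exact_mod_cast hp'.1.pos
    rw [norm_div, norm_mul, Complex.norm_natCast, Complex.norm_ofNat]
    refine div_le_div₀ hn (eigLe_norm (hM p hp'.1 hp'.2) 2) hp0 (by linarith))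
  have h3 : ∑ p ∈ J', ‖(M p).trace / (Real.sqrt p : ℂ)‖ ^ 2 ≤ n ^ 2 * ∑ p ∈ J', 1 / (p : ℝ) := by
    rw [mul_sum]
    refine sum_le_sum fun p hp => ?_
    have hp' := (mem_filter.1 hp).2
    have hp0 : (0 : ℝ) < p := by exact_mod_cast hp'.1.pos
    have k1 := eigLe_norm (hM p hp'.1 hp'.2) 1
    rw [pow_one] at k1
    rw [norm_div, Complex.norm_real, Real.norm_eq_abs, div_pow, sq_abs, Real.sq_sqrt hp0.le, mul_one_div]
    exact div_le_div_of_nonneg_right (pow_le_pow_left₀ (norm_nonneg _) k1 2) hp0.le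
  have h4 : (∑ p ∈ J', ‖(M p).trace / (Real.sqrt p : ℂ)‖ ^ 2) ^ 2 ≤ n ^ 4 * (∑ p ∈ J', 1 / (p : ℝ)) ^ 2 := by
    refine (pow_le_pow_left₀ (sum_nonneg fun p _ => by positivity) h3 2).trans (le_of_eq ?_)
    ring
  have h5 : (∑ p ∈ J', 1 / (p : ℝ)) ^ 2 ≤ (∑ p ∈ J, gp p) ^ 2 := pow_le_pow_left₀ hG0 hG 2
  have hk := kap_nonneg
  calc ∑ w ∈ W, ‖∑ p ∈ J, xc S M (c w p) p‖ ^ 4
      ≤ ∑ w ∈ W, (8 * ‖∑ p ∈ J', (M p).trace / Real.sqrt p * c w p‖ ^ 4 +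
          8 * ‖∑ p ∈ J', (M p ^ 2).trace / (2 * p) * c w p ^ 2‖ ^ 4) := by
        refine sum_le_sum fun w _ => ?_
        rw [hsplit]
        set u := ‖∑ p ∈ J', (M p).trace / Real.sqrt p * c w p‖ with hu
        set v := ‖∑ p ∈ J', (M p ^ 2).trace / (2 * p) * c w p ^ 2‖ with hv
        have hu0 : 0 ≤ u := norm_nonneg _
        have hv0 : 0 ≤ v := norm_nonneg _
        refine (pow_le_pow_left₀ (norm_nonneg _) (norm_add_le _ _) 4).trans ?_
        rw [← hu, ← hv]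
        have e1 : (u + v) ^ 2 ≤ 2 * u ^ 2 + 2 * v ^ 2 := by nlinarith [sq_nonneg (u - v)]
        have e2 : (2 * u ^ 2 + 2 * v ^ 2) ^ 2 ≤ 8 * u ^ 4 + 8 * v ^ 4 := by
          nlinarith [sq_nonneg (u ^ 2 - v ^ 2)]
        calc (u + v) ^ 4 = ((u + v) ^ 2) ^ 2 := by ring
          _ ≤ (2 * u ^ 2 + 2 * v ^ 2) ^ 2 := pow_le_pow_left₀ (sq_nonneg _) e1 2
          _ ≤ _ := e2
    _ = 8 * ∑ w ∈ W, ‖∑ p ∈ J', (M p).trace / Real.sqrt p * c w p‖ ^ 4 +
          8 * ∑ w ∈ W, ‖∑ p ∈ J', (M p ^ 2).trace / (2 * p) * c w p ^ 2‖ ^ 4 := by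
        rw [sum_add_distrib, mul_sum, mul_sum]
    _ ≤ 8 * (2 * K * W.card * (n ^ 4 * (∑ p ∈ J', 1 / (p : ℝ)) ^ 2)) +
          8 * (n ^ 4 * kap * K * W.card * (∑ p ∈ J', 1 / (p : ℝ)) ^ 2) :=
        add_le_add (mul_le_mul_of_nonneg_left (h1.trans (mul_le_mul_of_nonneg_left h4 (by positivity)))
          (by norm_num)) (mul_le_mul_of_nonneg_left h2 (by norm_num))
    _ = (16 + 8 * kap) * n ^ 4 * K * W.card * (∑ p ∈ J', 1 / (p : ℝ)) ^ 2 := by ring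
    _ ≤ _ := mul_le_mul_of_nonneg_left h5 (by positivity)

end

/-- **Almost all members of a family with a large sieve inequality.** -/
theorem lsi_all (n : ℕ) (K : ℝ) (hK : 0 ≤ K) {η : ℝ} (hη : 0 < η) : ∃ X₀ : ℕ, 16 ≤ X₀ ∧
    ∀ {α : Type} (W : Finset α) (c : α → ℕ → ℂ) (N₂ : ℕ), LSI W c N₂ K → ∀ (S : Finset ℕ)
    (M : ℕ → Matrix (Fin n) (Fin n) ℂ), (∀ p : ℕ, p.Prime → p ∉ S → EigLe (M p)) → (∀ p < 4, p ∈ S) →
    ∃ E ⊆ W, (E.card : ℝ) ≤ η * W.card ∧ ∀ w ∈ W, w ∉ E → ∀ x : ℕ, X₀ ≤ x → x ^ 2 ≤ N₂ →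
      |∑ p ∈ (range (x + 1)).filter Nat.Prime, lc S M (c w p) p| ≤
        2 * Real.log (Real.log x) ^ (5 / 6 : ℝ) := by
  classical
  have hk := kap_nonneg
  have hn : (0 : ℝ) ≤ n := Nat.cast_nonneg n
  set C : ℝ := 1 + 2 * n + (16 + 8 * kap) * n ^ 4 * K with hC
  have hC0 : 0 ≤ (16 + 8 * kap) * (n : ℝ) ^ 4 * K := by positivity
  have hC1 : 1 ≤ C := by rw [hC]; linarith
  obtain ⟨X₀, hX₀, H⟩ := all_lengths C η hC1 hη
  have hL : Tendsto (fun x : ℕ => Real.log (Real.log (x : ℝ)) ^ (5 / 6 : ℝ)) atTop atTop :=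
    (tendsto_rpow_atTop (by norm_num)).comp tendsto_loglog
  obtain ⟨X₁, hX₁⟩ := eventually_atTop.1 (hL.eventually_ge_atTop
    (n * ∑' k : ℕ, (k : ℝ) ^ (-(3 / 2) : ℝ)))
  refine ⟨max 16 (max X₀ X₁), le_max_left _ _, fun {α} W c N₂ h S M hM hS => ?_⟩
  obtain ⟨E, hE, hEc, HE⟩ := H W (Nat.sqrt N₂) (fun p w => xc S M (c w p) p) (fun p w hw => by
      refine (xc_norm hM (h.le w hw p) p).trans ?_
      rw [hC]
      linarith) (fun u v _ hv => by
      have h1 := h.fourth_xc hK (N := Nat.sqrt N₂) (Nat.sqrt_le' N₂) hM (Ico u v) (fun p hp => by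
        rw [mem_Ico] at hp
        omega)
      refine h1.trans ?_
      refine mul_le_mul_of_nonneg_right (mul_le_mul_of_nonneg_right ?_ (Nat.cast_nonneg _)) (sq_nonneg _)
      rw [hC]
      linarith)
  refine ⟨E, hE, hEc, fun w hw hne x hx hxN => ?_⟩
  have hx0 : X₀ ≤ x := ((le_max_left _ _).trans (le_max_right _ _)).trans hx
  have hx1 : X₁ ≤ x := ((le_max_right _ _).trans (le_max_right _ _)).trans hx
  have h1 := HE w hw hne x hx0 (Nat.le_sqrt'.2 hxN)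
  have h2 : |∑ p ∈ (range (x + 1)).filter Nat.Prime, (lc S M (c w p) p + (xc S M (c w p) p).re)| ≤
      n * ∑' k : ℕ, (k : ℝ) ^ (-(3 / 2) : ℝ) :=
    sum32 n hn _ (fun p hp => lc_main hM hS (h.le w hw p) hp) x
  have h3 := hX₁ x hx1
  have e : SS (fun p w => xc S M (c w p) p) 0 (x + 1) w =
      ∑ p ∈ (range (x + 1)).filter Nat.Prime, xc S M (c w p) p := by
    unfold SS
    rw [← range_eq_Ico, sum_filter]
    refine sum_congr rfl fun p _ => ?_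
    split_ifs with hp
    · rfl
    · exact xc_not_prime hp
  rw [e] at h1
  have h4 : |∑ p ∈ (range (x + 1)).filter Nat.Prime, (xc S M (c w p) p).re| ≤
      Real.log (Real.log x) ^ (5 / 6 : ℝ) := by
    rw [← Complex.re_sum]
    exact (Complex.abs_re_le_norm _).trans h1
  rw [sum_add_distrib] at h2
  rw [abs_le] at h2 h4 ⊢
  constructor <;> linarith [h2.1, h2.2, h4.1, h4.2]

/-- **The mean over a family with a large sieve inequality.** -/
theorem lsi_mean (n : ℕ) (K : ℝ) (hK : 0 ≤ K) : ∃ C : ℝ, 0 ≤ C ∧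
    ∀ {α : Type} (W : Finset α) (c : α → ℕ → ℂ) (N₂ : ℕ), LSI W c N₂ K → ∀ (S : Finset ℕ)
    (M : ℕ → Matrix (Fin n) (Fin n) ℂ), (∀ p : ℕ, p.Prime → p ∉ S → EigLe (M p)) → (∀ p < 4, p ∈ S) →
    ∀ x : ℕ, 16 ≤ x → x ^ 2 ≤ N₂ →
      ∑ w ∈ W, |∑ p ∈ (range (x + 1)).filter Nat.Prime, lc S M (c w p) p| ≤
        C * W.card * Real.log (Real.log x) ^ (1 / 2 : ℝ) := by
  classical
  obtain ⟨C', hC'0, hC'⟩ := sum_inv_loglog
  have hk := kap_nonneg
  have hn : (0 : ℝ) ≤ n := Nat.cast_nonneg n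
  set D : ℝ := (16 + 8 * kap) * n ^ 4 * K with hD
  have hD0 : 0 ≤ D := by positivity
  set Z : ℝ := n * ∑' k : ℕ, (k : ℝ) ^ (-(3 / 2) : ℝ) with hZ
  have hZ0 : 0 ≤ Z := mul_nonneg hn (tsum_nonneg fun k => by positivity)
  refine ⟨1 + D * (1 + C') ^ 2 + Z, by positivity, fun {α} W c N₂ h S M hM hS x hx hxN => ?_⟩
  set L := Real.log (Real.log x) with hL
  have hL1 : 1 ≤ L := loglog_ge_one hx
  have hL0 : 0 < L := by linarith
  set l := L ^ (1 / 2 : ℝ) with hl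
  have hl1 : 1 ≤ l := Real.one_le_rpow hL1 (by norm_num)
  have hl0 : 0 < l := by linarith
  have hll : l ^ 2 = L := by
    rw [hl, ← Real.rpow_natCast, ← Real.rpow_mul hL0.le]
    norm_num
  have hW : (0 : ℝ) ≤ W.card := Nat.cast_nonneg _
  let u : α → ℂ := fun w => ∑ p ∈ range (x + 1), xc S M (c w p) p
  have h4 : ∑ w ∈ W, ‖u w‖ ^ 4 ≤ D * W.card * ((1 + C') * L) ^ 2 := by
    refine (h.fourth_xc hK (N := x) hxN hM (range (x + 1)) (fun p hp => by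
      rw [mem_range] at hp
      omega)).trans ?_
    rw [← hD]
    refine mul_le_mul_of_nonneg_left (pow_le_pow_left₀ (sum_nonneg fun p _ => gp_nonneg p) ?_ 2)
      (by positivity)
    have h5 := hC' x (by omega)
    rw [abs_le] at h5
    have e : ∑ p ∈ range (x + 1), gp p = ∑ p ∈ (range (x + 1)).filter Nat.Prime, 1 / (p : ℝ) := by
      rw [sum_filter]
      rfl
    rw [e]
    have h6 : C' ≤ C' * L := le_mul_of_one_le_right hC'0 hL1
    linarith [h5.2]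
  have h5 : ∀ w ∈ W, |∑ p ∈ (range (x + 1)).filter Nat.Prime, lc S M (c w p) p| ≤ ‖u w‖ + Z := by
    intro w hw
    have h2 : |∑ p ∈ (range (x + 1)).filter Nat.Prime, (lc S M (c w p) p + (xc S M (c w p) p).re)| ≤ Z :=
      sum32 n hn _ (fun p hp => lc_main hM hS (h.le w hw p) hp) x
    have e : u w = ∑ p ∈ (range (x + 1)).filter Nat.Prime, xc S M (c w p) p := by
      simp only [u]
      rw [sum_filter]
      refine sum_congr rfl fun p _ => ?_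
      split_ifs with hp
      · rfl
      · exact xc_not_prime hp
    have h3 : |∑ p ∈ (range (x + 1)).filter Nat.Prime, (xc S M (c w p) p).re| ≤ ‖u w‖ := by
      rw [← Complex.re_sum, ← e]
      exact Complex.abs_re_le_norm _
    rw [sum_add_distrib] at h2
    rw [abs_le] at h2 h3 ⊢
    constructor <;> linarith [h2.1, h2.2, h3.1, h3.2]
  have h6 : ∀ w ∈ W, ‖u w‖ ≤ l + ‖u w‖ ^ 4 / l ^ 3 := by
    intro w _
    have := abs_le_fourth ‖u w‖ hl0
    rwa [abs_norm] at this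
  calc ∑ w ∈ W, |∑ p ∈ (range (x + 1)).filter Nat.Prime, lc S M (c w p) p|
      ≤ ∑ w ∈ W, (l + ‖u w‖ ^ 4 / l ^ 3 + Z) :=
        sum_le_sum fun w hw => (h5 w hw).trans (by linarith [h6 w hw])
    _ = W.card * (l + Z) + (∑ w ∈ W, ‖u w‖ ^ 4) / l ^ 3 := by
        rw [sum_div]
        simp only [sum_add_distrib, sum_const, nsmul_eq_mul]
        ring
    _ ≤ W.card * (l + Z * l) + D * W.card * (1 + C') ^ 2 * l := by
        refine add_le_add (mul_le_mul_of_nonneg_left (add_le_add le_rfl (le_mul_of_one_le_right hZ0 hl1)) hW) ?_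
        rw [div_le_iff₀ (by positivity)]
        refine h4.trans (le_of_eq ?_)
        rw [← hll]
        ring
    _ = _ := by ring

end Pool.Agent.Q28.BP
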