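import Pool.Agent.Q28.BP.Gen

/-!
# Elliptic curves with rational coefficients, ordered by the height of the coefficients
-/

set_option autoImplicit false

open Finset Filter Topology

namespace Pool.Agent.Q28.BP

open Pool.Agent.W263.BSD (pointCount GoodPrime)

/-- the residue class of the fraction `m / n` as an integer -/
noncomputable def frc (m : ℤ) (n p : ℕ) : ℤ := (((m : ZMod p) * (n : ZMod p)⁻¹).val : ℕ)

lemma frc_cast (m : ℤ) (n : ℕ) {p : ℕ} (hp : p.Prime) :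
    ((frc m n p : ℤ) : ZMod p) = (m : ZMod p) * (n : ZMod p)⁻¹ := by
  have : NeZero p := ⟨hp.ne_zero⟩
  unfold frc
  rw [Int.cast_natCast, ZMod.natCast_zmod_val]

/-- the logarithm of the local factor of `y² = x³ + (m/n) x + u/v` -/
noncomputable def lr (m : ℤ) (n : ℕ) (u : ℤ) (v p : ℕ) : ℝ :=
  if p ∣ n ∨ p ∣ v then 0 else lg (frc m n p) (frc u v p) p

/-- as a function of the residue class of `u` -/
noncomputable def gr (m : ℤ) (n v p : ℕ) (z : ZMod p) : ℝ := lr m n ((z.val : ℕ) : ℤ) v p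

lemma gr_eq (m : ℤ) (n : ℕ) (u : ℤ) (v : ℕ) {p : ℕ} (hp : p.Prime) :
    gr m n v p (u : ZMod p) = lr m n u v p := by
  have : NeZero p := ⟨hp.ne_zero⟩
  unfold gr lr
  split_ifs
  · rfl
  · refine lg_congr rfl ?_
    rw [frc_cast _ _ hp, frc_cast _ _ hp, Int.cast_natCast, ZMod.natCast_zmod_val]

lemma lr_abs (m : ℤ) (n : ℕ) (u : ℤ) (v : ℕ) {p : ℕ} (hp : p.Prime) :
    |lr m n u v p| ≤ 20 / Real.sqrt p := by
  unfold lr
  split_ifs
  · rw [abs_zero]; positivity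
  · exact lg_abs _ _ hp

/-- the sum of the reciprocals of the prime divisors, for a natural number -/
lemma ite_dvd (n p : ℕ) : (if (p : ℤ) ∣ (n : ℤ) then 1 / (p : ℝ) else 0) = if p ∣ n then 1 / (p : ℝ) else 0 := by
  simp only [Int.natCast_dvd_natCast]

/-- the mean value -/
lemma gr_mean (m : ℤ) (n v : ℕ) {p : ℕ} (hp : p.Prime) :
    |mn (gr m n v) p - 1 / (2 * p)| ≤ 1100000 * (p : ℝ) ^ (-(3 / 2) : ℝ) +
      ((if (p : ℤ) ∣ m then 1 / (p : ℝ) else 0) + (if (p : ℤ) ∣ (n : ℤ) then 1 / (p : ℝ) else 0) +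
        (if (p : ℤ) ∣ (v : ℤ) then 1 / (p : ℝ) else 0)) := by
  classical
  have : Fact p.Prime := ⟨hp⟩
  have : NeZero p := ⟨hp.ne_zero⟩
  have hp0 : (0 : ℝ) < p := by exact_mod_cast hp.pos
  have hp1 : (1 : ℝ) ≤ p := by exact_mod_cast hp.one_lt.le
  have i1 : (0 : ℝ) ≤ (if (p : ℤ) ∣ m then 1 / (p : ℝ) else 0) := by split_ifs <;> positivity
  have i2 : (0 : ℝ) ≤ (if (p : ℤ) ∣ (n : ℤ) then 1 / (p : ℝ) else 0) := by split_ifs <;> positivity
  have i3 : (0 : ℝ) ≤ (if (p : ℤ) ∣ (v : ℤ) then 1 / (p : ℝ) else 0) := by split_ifs <;> positivity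
  have i4 : (0 : ℝ) ≤ 1100000 * (p : ℝ) ^ (-(3 / 2) : ℝ) := by positivity
  have hhalf : |1 / (2 * (p : ℝ))| ≤ 1 / p := by
    rw [abs_of_pos (by positivity)]
    exact one_div_le_one_div_of_le hp0 (by linarith)
  by_cases hn : p ∣ n ∨ p ∣ v
  · have h1 : mn (gr m n v) p = 0 := by
      unfold mn
      have : ∀ j ∈ range p, gr m n v p (j : ZMod p) = 0 := by
        intro j _
        unfold gr lr
        rw [if_pos hn]
      rw [sum_congr rfl this, sum_const_zero, zero_div]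
    rw [h1, zero_sub, abs_neg]
    rcases hn with h | h
    · have : (if (p : ℤ) ∣ (n : ℤ) then 1 / (p : ℝ) else 0) = 1 / p := if_pos (Int.natCast_dvd_natCast.2 h)
      rw [this] at i2 ⊢
      linarith
    · have : (if (p : ℤ) ∣ (v : ℤ) then 1 / (p : ℝ) else 0) = 1 / p := if_pos (Int.natCast_dvd_natCast.2 h)
      rw [this] at i3 ⊢
      linarith
  · rw [not_or] at hn
    have hn0 : (n : ZMod p) ≠ 0 := fun h => hn.1 ((ZMod.natCast_eq_zero_iff n p).1 h)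
    have hv0 : (v : ZMod p) ≠ 0 := fun h => hn.2 ((ZMod.natCast_eq_zero_iff v p).1 h)
    set A := frc m n p with hA
    have hAc : ((A : ℤ) : ZMod p) = (m : ZMod p) * (n : ZMod p)⁻¹ := frc_cast m n hp
    have h1 : mn (gr m n v) p = mu (Polynomial.C A) Polynomial.X p := by
      unfold mn mu
      congr 1
      have e1 : ∑ j ∈ range p, gr m n v p (j : ZMod p) =
          ∑ z : ZMod p, lg A ((z.val : ℕ) : ℤ) p := by
        rw [sum_range_zmod (fun z => gr m n v p z)]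
        rw [← Equiv.sum_comp (Equiv.mulRight₀ ((v : ZMod p)⁻¹) (inv_ne_zero hv0))
          (fun z : ZMod p => lg A ((z.val : ℕ) : ℤ) p)]
        refine sum_congr rfl fun z _ => ?_
        unfold gr lr
        rw [if_neg (not_or.2 hn)]
        refine lg_congr rfl ?_
        rw [frc_cast _ _ hp, Int.cast_natCast, ZMod.natCast_zmod_val, Int.cast_natCast,
          ZMod.natCast_zmod_val]
        rfl
      rw [e1, ← sum_range_zmod (fun z : ZMod p => lg A ((z.val : ℕ) : ℤ) p)]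
      refine sum_congr rfl fun j _ => ?_
      rw [Polynomial.eval_C, Polynomial.eval_X]
      refine lg_congr rfl ?_
      rw [Int.cast_natCast, ZMod.natCast_zmod_val, Int.cast_natCast]
    rw [h1]
    have h2 := mu_nu (Polynomial.C A) Polynomial.X hp
    have h3 := nu_curve' A hp Polynomial.X (Or.inl rfl)
    have h4 : ((p : ℤ) ∣ A) ↔ (p : ℤ) ∣ m := by
      rw [← ZMod.intCast_zmod_eq_zero_iff_dvd, ← ZMod.intCast_zmod_eq_zero_iff_dvd, hAc]
      rw [mul_eq_zero, or_iff_left (inv_ne_zero hn0)]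
    simp only [h4] at h3
    have h5 : 1000000 / (p : ℝ) ^ 2 ≤ 1000000 * (p : ℝ) ^ (-(3 / 2) : ℝ) := by
      rw [rpow32 hp.pos, mul_one_div]
      refine div_le_div_of_nonneg_left (by norm_num) (by positivity) ?_
      have hs1 : 1 ≤ Real.sqrt p := by rwa [Real.one_le_sqrt]
      have hss : Real.sqrt p * Real.sqrt p = p := Real.mul_self_sqrt hp0.le
      nlinarith [mul_nonneg (sub_nonneg.2 hs1) hp0.le]
    have e : 1100000 * (p : ℝ) ^ (-(3 / 2) : ℝ) = 100000 * (p : ℝ) ^ (-(3 / 2) : ℝ) +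
        1000000 * (p : ℝ) ^ (-(3 / 2) : ℝ) := by ring
    rw [e]
    rw [abs_le] at h2 h3 ⊢
    constructor <;> linarith [h2.1, h2.2, h3.1, h3.2]

lemma sum_gr_mean : ∃ K : ℝ, 0 ≤ K ∧ ∀ (m : ℤ) (n v : ℕ) (x : ℕ), 3 ≤ x →
    |∑ p ∈ (range (x + 1)).filter Nat.Prime, mn (gr m n v) p - 1 / 2 * Real.log (Real.log x)| ≤
      K + (wt m x + wt n x + wt v x) := by
  obtain ⟨C, hC0, hC⟩ := sum_inv_loglog
  set Z : ℝ := 1100000 * ∑' n : ℕ, (n : ℝ) ^ (-(3 / 2) : ℝ) with hZ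
  have hZ0 : 0 ≤ Z := mul_nonneg (by norm_num) (tsum_nonneg fun n => by positivity)
  refine ⟨Z + C / 2, by positivity, fun m n v x hx => ?_⟩
  have h1 := hC x hx
  have h2 : |∑ p ∈ (range (x + 1)).filter Nat.Prime, (mn (gr m n v) p - 1 / (2 * p))| ≤
      Z + (wt m x + wt n x + wt v x) := by
    refine (abs_sum_le_sum_abs _ _).trans ?_
    refine (sum_le_sum fun p hp => gr_mean m n v (mem_filter.1 hp).2).trans ?_
    rw [sum_add_distrib, sum_add_distrib, sum_add_distrib]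
    refine add_le_add ?_ le_rfl
    have h4 := sum32 1100000 (by norm_num) (fun p => 1100000 * (p : ℝ) ^ (-(3 / 2) : ℝ)) (fun p hp => by
      rw [abs_of_nonneg (by positivity)]) x
    exact (le_abs_self _).trans h4
  have e1 : ∑ p ∈ (range (x + 1)).filter Nat.Prime, (mn (gr m n v) p - 1 / (2 * p)) =
      ∑ p ∈ (range (x + 1)).filter Nat.Prime, mn (gr m n v) p -
        1 / 2 * ∑ p ∈ (range (x + 1)).filter Nat.Prime, 1 / (p : ℝ) := by
    rw [sum_sub_distrib, mul_sum]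
    congr 1
    exact sum_congr rfl fun p _ => by ring
  rw [e1] at h2
  rw [abs_le] at h1 h2 ⊢
  constructor <;> linarith [h1.1, h1.2, h2.1, h2.2]

/-! ### The family -/

/-- the rational numbers of height at most `B` -/
noncomputable def rats (B : ℕ) : Finset ℚ :=
  ((Icc (-(B : ℤ)) B ×ˢ Ioc 0 B).image fun q : ℤ × ℕ => (q.1 : ℚ) / (q.2 : ℚ))

lemma mem_rats {B : ℕ} {a : ℚ} : a ∈ rats B ↔ |a.num| ≤ B ∧ a.den ≤ B := by
  unfold rats
  rw [mem_image]
  constructor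
  · rintro ⟨⟨m, n⟩, hq, rfl⟩
    rw [mem_product, mem_Icc, mem_Ioc] at hq
    obtain ⟨⟨h1, h2⟩, h3, h4⟩ := hq
    simp only at h1 h2 h3 h4
    have e : ((m : ℚ) / (n : ℚ)) = Rat.divInt m (n : ℤ) := by
      rw [Rat.divInt_eq_div]
      push_cast
      rfl
    have hn0 : (n : ℤ) ≠ 0 := by exact_mod_cast h3.ne'
    constructor
    · have h5 : (Rat.divInt m (n : ℤ)).num ∣ m := Rat.num_dvd m hn0
      have h7 : |(Rat.divInt m (n : ℤ)).num| ≤ B := by
        by_cases hm : m = 0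
        · subst hm
          simp
        · have h6 := Int.le_of_dvd (abs_pos.2 hm) ((abs_dvd_abs _ _).2 h5)
          refine h6.trans ?_
          rw [abs_le]
          exact ⟨h1, h2⟩
      simp only
      rw [e]
      exact h7
    · have h5 : ((Rat.divInt m (n : ℤ)).den : ℤ) ∣ n := Rat.den_dvd m n
      have h6 := Int.le_of_dvd (by exact_mod_cast h3) h5
      simp only
      rw [e]
      omega
  · rintro ⟨h1, h2⟩
    refine ⟨(a.num, a.den), ?_, Rat.num_div_den a⟩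
    rw [mem_product, mem_Icc, mem_Ioc]
    rw [abs_le] at h1
    exact ⟨h1, a.den_pos, h2⟩

open scoped Classical in
/-- the pairs of the family -/
noncomputable def RF (B : ℕ) : Finset (ℚ × ℚ) :=
  (rats B ×ˢ rats B).filter fun q => 4 * q.1 ^ 3 + 27 * q.2 ^ 2 ≠ 0

open scoped Classical in
lemma coprime_card (B : ℕ) : (B : ℝ) ^ 2 ≤ 4 * ((Ioc 0 B ×ˢ Ioc 0 B).filter fun q : ℕ × ℕ =>
    Nat.Coprime q.1 q.2).card := by
  rcases Nat.eq_zero_or_pos B with rfl | hB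
  · simp
  have h1 : ((Ioc 0 B ×ˢ Ioc 0 B).filter fun q : ℕ × ℕ => ¬ Nat.Coprime q.1 q.2) ⊆
      (Ioc 1 B).biUnion fun p => (Ioc 0 B).filter (fun n => p ∣ n) ×ˢ (Ioc 0 B).filter (fun n => p ∣ n) := by
    intro q hq
    rw [mem_filter, mem_product, mem_Ioc, mem_Ioc] at hq
    obtain ⟨⟨⟨h1, h2⟩, h3, h4⟩, h5⟩ := hq
    rw [Nat.Prime.not_coprime_iff_dvd] at h5
    obtain ⟨p, hp, h6, h7⟩ := h5
    rw [mem_biUnion]
    refine ⟨p, mem_Ioc.2 ⟨hp.one_lt, (Nat.le_of_dvd h1 h6).trans h2⟩, ?_⟩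
    rw [mem_product, mem_filter, mem_filter, mem_Ioc, mem_Ioc]
    exact ⟨⟨⟨h1, h2⟩, h6⟩, ⟨h3, h4⟩, h7⟩
  have h2 : (((Ioc 0 B ×ˢ Ioc 0 B).filter fun q : ℕ × ℕ => ¬ Nat.Coprime q.1 q.2).card : ℝ) ≤
      ∑ p ∈ Ioc 1 B, ((((Ioc 0 B).filter (fun n => p ∣ n) ×ˢ
        (Ioc 0 B).filter (fun n => p ∣ n)).card : ℕ) : ℝ) := by
    exact_mod_cast (card_le_card h1).trans card_biUnion_le
  have h3 : ∀ p ∈ Ioc 1 B, ((((Ioc 0 B).filter (fun n => p ∣ n) ×ˢ
      (Ioc 0 B).filter (fun n => p ∣ n)).card : ℕ) : ℝ) ≤ (B : ℝ) ^ 2 * ((p : ℝ) ^ 2)⁻¹ := by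
    intro p hp
    rw [card_product, Nat.Ioc_filter_dvd_card_eq_div]
    push_cast
    have k1 : ((B / p : ℕ) : ℝ) ≤ B / p := Nat.cast_div_le
    calc ((B / p : ℕ) : ℝ) * ((B / p : ℕ) : ℝ) ≤ B / p * (B / p) :=
          mul_le_mul k1 k1 (Nat.cast_nonneg _) (by positivity)
      _ = _ := by ring
  have h4 : ∑ k ∈ Ioc 1 B, ((k : ℝ) ^ 2)⁻¹ ≤ 3 / 4 := by
    rcases Nat.lt_or_ge B 2 with h | h
    · have : B = 1 := by omega
      subst this
      simp
      norm_num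
    · have h5 := sum_Ioc_inv_sq_le_sub (α := ℝ) (k := 2) (n := B) (by norm_num) h
      have e : Ioc 1 B = insert 2 (Ioc 2 B) := by
        ext k
        rw [mem_insert, mem_Ioc, mem_Ioc]
        omega
      rw [e, sum_insert (by simp)]
      have h6 : (0 : ℝ) ≤ (B : ℝ)⁻¹ := by positivity
      push_cast at h5 ⊢
      norm_num at h5 ⊢
      linarith
  have h5 := card_filter_add_card_filter_not (s := Ioc 0 B ×ˢ Ioc 0 B)
    (p := fun q : ℕ × ℕ => Nat.Coprime q.1 q.2)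
  rw [card_product, Nat.card_Ioc, Nat.sub_zero] at h5
  have h6 : (((Ioc 0 B ×ˢ Ioc 0 B).filter fun q : ℕ × ℕ => Nat.Coprime q.1 q.2).card : ℝ) +
      (((Ioc 0 B ×ˢ Ioc 0 B).filter fun q : ℕ × ℕ => ¬ Nat.Coprime q.1 q.2).card : ℝ) = B * B := by
    exact_mod_cast h5
  have h7 : (((Ioc 0 B ×ˢ Ioc 0 B).filter fun q : ℕ × ℕ => ¬ Nat.Coprime q.1 q.2).card : ℝ) ≤
      3 / 4 * (B : ℝ) ^ 2 := by
    refine h2.trans ((sum_le_sum h3).trans ?_)
    rw [← mul_sum]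
    have : (0 : ℝ) ≤ (B : ℝ) ^ 2 := by positivity
    nlinarith
  nlinarith

lemma RF_card (B : ℕ) : (B : ℝ) ^ 4 ≤ 16 * (RF B).card := by
  classical
  set P := (Ioc 0 B ×ˢ Ioc 0 B).filter fun q : ℕ × ℕ => Nat.Coprime q.1 q.2 with hP
  have h1 := coprime_card B
  rw [← hP] at h1
  have h2 : (P ×ˢ P).card ≤ (RF B).card := by
    refine card_le_card_of_injOn (fun q => (((q.1.1 : ℚ) / (q.1.2 : ℚ)), ((q.2.1 : ℚ) / (q.2.2 : ℚ)))) ?_ ?_
    · intro q hq
      rw [mem_coe, mem_product, hP, mem_filter, mem_filter, mem_product, mem_product] at hq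
      obtain ⟨⟨⟨a1, a2⟩, _⟩, ⟨⟨a3, a4⟩, _⟩⟩ := hq
      have hr : ∀ m n : ℕ, m ∈ Ioc 0 B → n ∈ Ioc 0 B → ((m : ℚ) / (n : ℚ)) ∈ rats B := by
        intro m n hm hn
        rw [mem_Ioc] at hm
        unfold rats
        rw [mem_image]
        refine ⟨((m : ℤ), n), mem_product.2 ⟨mem_Icc.2 ⟨?_, ?_⟩, hn⟩, by push_cast; rfl⟩
        · change -(B : ℤ) ≤ (m : ℤ)
          omega
        · change (m : ℤ) ≤ B
          omega
      rw [mem_coe]
      unfold RF
      rw [mem_filter, mem_product]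
      refine ⟨⟨hr _ _ a1 a2, hr _ _ a3 a4⟩, ?_⟩
      rw [mem_Ioc] at a1 a2 a3 a4
      have b1 : (0 : ℚ) < q.1.1 := by exact_mod_cast a1.1
      have b2 : (0 : ℚ) < q.1.2 := by exact_mod_cast a2.1
      have b3 : (0 : ℚ) < q.2.1 := by exact_mod_cast a3.1
      have b4 : (0 : ℚ) < q.2.2 := by exact_mod_cast a4.1
      simp only
      positivity
    · intro q hq q' hq' h
      rw [mem_coe, mem_product, hP, mem_filter, mem_filter, mem_product, mem_product] at hq hq'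
      simp only [Prod.mk.injEq] at h
      have key : ∀ m n m' n' : ℕ, Nat.Coprime m n → Nat.Coprime m' n' → 0 < n → 0 < n' →
          ((m : ℚ) / (n : ℚ)) = ((m' : ℚ) / (n' : ℚ)) → m = m' ∧ n = n' := by
        intro m n m' n' h1 h2 h3 h4 h5
        have hnum : ∀ a b : ℕ, Nat.Coprime a b → 0 < b →
            ((a : ℚ) / (b : ℚ)).num = a ∧ (((a : ℚ) / (b : ℚ)).den : ℤ) = b := by
          intro a b hab hb
          have e : ((a : ℚ) / (b : ℚ)) = (((a : ℤ) : ℚ) / ((b : ℤ) : ℚ)) := by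
            rw [Int.cast_natCast, Int.cast_natCast]
          rw [e]
          exact ⟨Rat.num_div_eq_of_coprime (by exact_mod_cast hb) (by simpa using hab),
            Rat.den_div_eq_of_coprime (by exact_mod_cast hb) (by simpa using hab)⟩
        have h6 := hnum m n h1 h3
        have h7 := hnum m' n' h2 h4
        rw [h5] at h6
        have h8 : (m : ℤ) = m' := h6.1.symm.trans h7.1
        have h9 : (n : ℤ) = n' := h6.2.symm.trans h7.2
        exact ⟨by exact_mod_cast h8, by exact_mod_cast h9⟩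
      obtain ⟨⟨⟨a1, a2⟩, a5⟩, ⟨⟨a3, a4⟩, a6⟩⟩ := hq
      obtain ⟨⟨⟨b1, b2⟩, b5⟩, ⟨⟨b3, b4⟩, b6⟩⟩ := hq'
      rw [mem_Ioc] at a2 a4 b2 b4
      obtain ⟨c1, c2⟩ := key _ _ _ _ a5 b5 a2.1 b2.1 h.1
      obtain ⟨c3, c4⟩ := key _ _ _ _ a6 b6 a4.1 b4.1 h.2
      exact Prod.ext (Prod.ext c1 c2) (Prod.ext c3 c4)
  rw [card_product] at h2
  have h3 : ((P.card : ℝ) * P.card) ≤ (RF B).card := by exact_mod_cast h2
  have h4 : (0 : ℝ) ≤ (B : ℝ) ^ 2 := by positivity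
  calc (B : ℝ) ^ 4 = (B : ℝ) ^ 2 * (B : ℝ) ^ 2 := by ring
    _ ≤ (4 * (P.card : ℝ)) * (4 * (P.card : ℝ)) := mul_le_mul h1 h1 h4 (by positivity)
    _ = 16 * ((P.card : ℝ) * P.card) := by ring
    _ ≤ _ := by linarith

end Pool.Agent.Q28.BP
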