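import Pool.Agent.Q28.BP.Loc

/-!
# Euler products of matrices at the centre, twisted by quadratic characters
-/

set_option autoImplicit false

open Finset Filter Topology

namespace Pool.Agent.Q28.BP

/-- the `a j` are the eigenvalues of `M`, and they are at most `1` in absolute value -/
def EigLe {n : ℕ} (M : Matrix (Fin n) (Fin n) ℂ) : Prop :=
  ∃ a : Fin n → ℂ, (∀ j, ‖a j‖ ≤ 1) ∧ (∀ z : ℂ, (1 - z • M).det = ∏ j, (1 - a j * z)) ∧
    ∀ k : ℕ, ∑ j, a j ^ k = (M ^ k).trace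

lemma eigLe_of_finite {n : ℕ} (M : Matrix (Fin n) (Fin n) ℂ) {m : ℕ} (hm : m ≠ 0) (hM : M ^ m = 1) :
    EigLe M := by
  obtain ⟨a, h1, h2, h3⟩ := exists_eig M hm hM
  exact ⟨a, fun j => (h1 j).le, h2, h3⟩

lemma eigLe_of_det {n : ℕ} (M : Matrix (Fin n) (Fin n) ℂ)
    (h : ∀ z : ℂ, ‖z‖ < 1 → (1 - z • M).det ≠ 0) : EigLe M := by
  obtain ⟨a, ha⟩ : ∃ a : Fin n → ℂ, M.charpoly.roots = Finset.univ.val.map a := by
    refine exists_fun _ ?_
    have h1 := (Polynomial.splits_iff_card_roots (f := M.charpoly)).1 (IsAlgClosed.splits _)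
    rw [h1]
    simp
  have hchar : M.charpoly = ∏ j, (Polynomial.X - Polynomial.C (a j)) := by
    have h1 := (IsAlgClosed.splits M.charpoly).eq_prod_roots
    rw [h1, (Matrix.charpoly_monic M).leadingCoeff, Polynomial.C_1, one_mul, ha, Multiset.map_map]
    rfl
  have hdet : ∀ z : ℂ, (1 - z • M).det = ∏ j, (1 - a j * z) := by
    intro z
    by_cases hz : z = 0
    · simp [hz]
    · have h1 : (1 : Matrix (Fin n) (Fin n) ℂ) - z • M = z • (Matrix.scalar (Fin n) z⁻¹ - M) := by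
        rw [smul_sub, Matrix.scalar_apply]
        congr 1
        ext i j
        by_cases hij : i = j
        · subst hij
          simp [hz]
        · simp [hij]
      rw [h1, Matrix.det_smul, ← Matrix.eval_charpoly, hchar, Polynomial.eval_prod, Fintype.card_fin]
      simp only [Polynomial.eval_sub, Polynomial.eval_X, Polynomial.eval_C]
      have h2 : z ^ n = ∏ _j : Fin n, z := by rw [Finset.prod_const, Finset.card_univ, Fintype.card_fin]
      rw [h2, ← Finset.prod_mul_distrib]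
      refine Finset.prod_congr rfl fun j _ => ?_
      rw [mul_sub, mul_inv_cancel₀ hz, mul_comm]
  refine ⟨a, fun j => ?_, hdet, fun k => ?_⟩
  · by_contra hj
    rw [not_le] at hj
    have h0 : a j ≠ 0 := by
      intro h1
      rw [h1, norm_zero] at hj
      linarith
    have h1 : ‖(a j)⁻¹‖ < 1 := by
      rw [norm_inv]
      exact inv_lt_one_of_one_lt₀ hj
    apply h _ h1
    rw [hdet]
    exact Finset.prod_eq_zero (Finset.mem_univ j) (by rw [mul_inv_cancel₀ h0, sub_self])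
  · rw [Pool.Agent.Helper605.trace_pow_roots, ha, Multiset.map_map]
    rfl

lemma eigLe_trace {n : ℕ} {M : Matrix (Fin n) (Fin n) ℂ} (h : EigLe M) (k : ℕ) :
    |(M ^ k).trace.re| ≤ n := by
  obtain ⟨a, h1, _, h3⟩ := h
  refine (Complex.abs_re_le_norm _).trans ?_
  rw [← h3 k]
  refine (norm_sum_le _ _).trans ?_
  refine (Finset.sum_le_sum fun j _ => (norm_pow (a j) k).le.trans (pow_le_one₀ (norm_nonneg _) (h1 j))).trans
    (le_of_eq ?_)
  simp

/-- the local factor -/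
lemma local_q {n : ℕ} {M : Matrix (Fin n) (Fin n) ℂ} (h : EigLe M) {z : ℝ} (hz : |z| ≤ 1 / 2) :
    0 < ‖(1 - (z : ℂ) • M).det‖ ∧ |Real.log ‖(1 - (z : ℂ) • M).det‖ -
      (-(M.trace.re * z) - (M ^ 2).trace.re * z ^ 2 / 2)| ≤ n * |z| ^ 3 := by
  obtain ⟨a, h1, h2, h3⟩ := h
  have hb : ∀ j, ‖a j * (z : ℂ)‖ ≤ |z| := by
    intro j
    rw [norm_mul, Complex.norm_real, Real.norm_eq_abs]
    exact mul_le_of_le_one_left (abs_nonneg _) (h1 j)
  have hl := fun j => log_two ((hb j).trans hz)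
  have hpos : ∀ j, 0 < ‖1 - a j * (z : ℂ)‖ := fun j =>
    norm_pos_iff.2 (sub_ne_zero.2 (Ne.symm (hl j).1))
  refine ⟨?_, ?_⟩
  · rw [h2, norm_prod]
    exact Finset.prod_pos fun j _ => hpos j
  · rw [h2, norm_prod, Real.log_prod fun j _ => (hpos j).ne']
    have h4 : -(M.trace.re * z) - (M ^ 2).trace.re * z ^ 2 / 2 =
        ∑ j, (-(a j * (z : ℂ)).re - ((a j * (z : ℂ)) ^ 2).re / 2) := by
      have e1 : M.trace.re * z = ∑ j, (a j * (z : ℂ)).re := by
        have := h3 1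
        simp only [pow_one] at this
        rw [← this, Complex.re_sum, Finset.sum_mul]
        exact Finset.sum_congr rfl fun j _ => by rw [Complex.re_mul_ofReal]
      have e2 : (M ^ 2).trace.re * z ^ 2 = ∑ j, ((a j * (z : ℂ)) ^ 2).re := by
        rw [← h3 2, Complex.re_sum, Finset.sum_mul]
        refine Finset.sum_congr rfl fun j _ => ?_
        rw [mul_pow, ← Complex.ofReal_pow, Complex.re_mul_ofReal]
      rw [e1, e2, Finset.sum_div, ← Finset.sum_neg_distrib, ← Finset.sum_sub_distrib]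
    rw [h4, ← Finset.sum_sub_distrib]
    refine (Finset.abs_sum_le_sum_abs _ _).trans ?_
    refine (Finset.sum_le_sum fun j _ => ((hl j).2.trans
      (pow_le_pow_left₀ (norm_nonneg _) (hb j) 3))).trans (le_of_eq ?_)
    simp

section

variable {n : ℕ} (S : Finset ℕ) (M : ℕ → Matrix (Fin n) (Fin n) ℂ)

open scoped Classical in
/-- the logarithm of the local factor of the twist -/
noncomputable def lq (d : ℤ) (p : ℕ) : ℝ :=
  if p ∈ S then 0 else Real.log ‖(1 - (((jacobiSym d p : ℝ) / Real.sqrt p : ℝ) : ℂ) • M p).det‖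

lemma jac_ch {p : ℕ} [Fact p.Prime] (d : ℤ) : (jacobiSym d p : ℝ) = ch (d : ZMod p) := by
  rw [← jacobiSym.legendreSym.to_jacobiSym]
  rfl

/-- as a function of the residue classes -/
noncomputable def gq (p : ℕ) (z : ZMod p) : ℝ := lq S M ((z.val : ℕ) : ℤ) p

lemma gq_eq (d : ℤ) {p : ℕ} (hp : p.Prime) : gq S M p (d : ZMod p) = lq S M d p := by
  have : Fact p.Prime := ⟨hp⟩
  have : NeZero p := ⟨hp.ne_zero⟩
  unfold gq lq
  rw [jac_ch, jac_ch]
  congr 3
  push_cast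
  rw [ZMod.natCast_zmod_val]

variable (hM : ∀ p : ℕ, p.Prime → p ∉ S → EigLe (M p)) (hS : ∀ p < 4, p ∈ S)

include hM hS in
lemma lq_main (d : ℤ) {p : ℕ} (hp : p.Prime) (hpS : p ∉ S) [Fact p.Prime] :
    |lq S M d p - (-((M p).trace.re * (ch (d : ZMod p) / Real.sqrt p)) -
      (M p ^ 2).trace.re * (ch (d : ZMod p) ^ 2 / p) / 2)| ≤ n / (p * Real.sqrt p) := by
  have hp0 : (0 : ℝ) < p := by exact_mod_cast hp.pos
  have h4 : (4 : ℝ) ≤ p := by
    have : 4 ≤ p := by
      by_contra h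
      exact hpS (hS p (by omega))
    exact_mod_cast this
  have hs : 0 < Real.sqrt p := Real.sqrt_pos.2 hp0
  have hs2 : 2 ≤ Real.sqrt p := by
    rw [show (2 : ℝ) = Real.sqrt 4 by
      rw [show (4 : ℝ) = 2 ^ 2 by norm_num, Real.sqrt_sq (by norm_num)]]
    exact Real.sqrt_le_sqrt h4
  have hss : Real.sqrt p * Real.sqrt p = p := Real.mul_self_sqrt hp0.le
  have hc := ch_abs (d : ZMod p)
  have hz : |ch (d : ZMod p) / Real.sqrt p| ≤ 1 / Real.sqrt p := by
    rw [abs_div, abs_of_pos hs]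
    exact div_le_div_of_nonneg_right hc hs.le
  have hz2 : |ch (d : ZMod p) / Real.sqrt p| ≤ 1 / 2 :=
    hz.trans (one_div_le_one_div_of_le (by norm_num) hs2)
  have h1 := (local_q (hM p hp hpS) hz2).2
  unfold lq
  rw [if_neg hpS, jac_ch]
  have e : ch (d : ZMod p) ^ 2 / (p : ℝ) = (ch (d : ZMod p) / Real.sqrt p) ^ 2 := by
    rw [div_pow, Real.sq_sqrt hp0.le]
  rw [e, ← mul_div_assoc] at *
  refine le_trans h1 ?_
  have h2 : |ch (d : ZMod p) / Real.sqrt p| ^ 3 ≤ 1 / (p * Real.sqrt p) := by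
    refine (pow_le_pow_left₀ (abs_nonneg _) hz 3).trans (le_of_eq ?_)
    rw [div_pow, one_pow]
    congr 1
    calc Real.sqrt p ^ 3 = (Real.sqrt p * Real.sqrt p) * Real.sqrt p := by ring
      _ = _ := by rw [hss]
  calc (n : ℝ) * |ch (d : ZMod p) / Real.sqrt p| ^ 3 ≤ n * (1 / (p * Real.sqrt p)) :=
        mul_le_mul_of_nonneg_left h2 (Nat.cast_nonneg n)
    _ = _ := by ring

include hM hS in
lemma lq_abs (d : ℤ) {p : ℕ} (hp : p.Prime) : |lq S M d p| ≤ (3 * n + 1) / Real.sqrt p := by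
  have : Fact p.Prime := ⟨hp⟩
  have hp0 : (0 : ℝ) < p := by exact_mod_cast hp.pos
  have hs : 0 < Real.sqrt p := Real.sqrt_pos.2 hp0
  have hn : (0 : ℝ) ≤ n := Nat.cast_nonneg n
  by_cases hpS : p ∈ S
  · unfold lq
    rw [if_pos hpS, abs_zero]
    positivity
  have hp1 : (1 : ℝ) ≤ p := by exact_mod_cast hp.one_lt.le
  have hs1 : 1 ≤ Real.sqrt p := by rwa [Real.one_le_sqrt]
  have hss : Real.sqrt p * Real.sqrt p = p := Real.mul_self_sqrt hp0.le
  have h1 := lq_main S M hM hS d hp hpS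
  have hc := ch_abs (d : ZMod p)
  have h2 := eigLe_trace (hM p hp hpS) 1
  have h3 := eigLe_trace (hM p hp hpS) 2
  rw [pow_one] at h2
  have k0 : (1 : ℝ) / p ≤ 1 / Real.sqrt p := by
    refine one_div_le_one_div_of_le hs ?_
    nlinarith
  have k1 : |(M p).trace.re * (ch (d : ZMod p) / Real.sqrt p)| ≤ (n : ℝ) * (1 / Real.sqrt p) := by
    rw [abs_mul, abs_div, abs_of_pos hs]
    exact mul_le_mul h2 (div_le_div_of_nonneg_right hc hs.le) (by positivity) hn
  have k2 : |(M p ^ 2).trace.re * (ch (d : ZMod p) ^ 2 / p)| ≤ (n : ℝ) * (1 / Real.sqrt p) := by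
    rw [abs_mul]
    refine mul_le_mul h3 ?_ (abs_nonneg _) hn
    rw [abs_of_nonneg (by positivity)]
    refine le_trans ?_ k0
    refine div_le_div_of_nonneg_right ?_ hp0.le
    rw [← sq_abs]
    nlinarith [abs_nonneg (ch (d : ZMod p))]
  have k3 : (n : ℝ) / (p * Real.sqrt p) ≤ n * (1 / Real.sqrt p) := by
    rw [mul_one_div]
    refine div_le_div_of_nonneg_left hn hs ?_
    nlinarith
  have e : (3 * (n : ℝ) + 1) / Real.sqrt p = n * (1 / Real.sqrt p) + n * (1 / Real.sqrt p) +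
      n * (1 / Real.sqrt p) + 1 / Real.sqrt p := by ring
  have k4 : (0 : ℝ) ≤ 1 / Real.sqrt p := by positivity
  have k5 : 0 ≤ (n : ℝ) * (1 / Real.sqrt p) := by positivity
  rw [e]
  rw [abs_le] at h1 k1 k2 ⊢
  constructor <;> linarith [h1.1, h1.2, k1.1, k1.2, k2.1, k2.2]

/-- the second trace -/
noncomputable def ta (p : ℕ) : ℝ := if p ∈ S then 0 else (M p ^ 2).trace.re

include hM hS in
lemma gq_mean {p : ℕ} (hp : p.Prime) : |mn (gq S M) p + ta S M p / (2 * p)| ≤ 2 * n / (p * Real.sqrt p) := by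
  have : Fact p.Prime := ⟨hp⟩
  have : NeZero p := ⟨hp.ne_zero⟩
  have hp0 : (0 : ℝ) < p := by exact_mod_cast hp.pos
  have hs : 0 < Real.sqrt p := Real.sqrt_pos.2 hp0
  have hn : (0 : ℝ) ≤ n := Nat.cast_nonneg n
  have hp1 : (1 : ℝ) ≤ p := by exact_mod_cast hp.one_lt.le
  have hs1 : 1 ≤ Real.sqrt p := by rwa [Real.one_le_sqrt]
  have hss : Real.sqrt p * Real.sqrt p = p := Real.mul_self_sqrt hp0.le
  by_cases hpS : p ∈ S
  · have h1 : mn (gq S M) p = 0 := by
      unfold mn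
      have : ∀ j ∈ range p, gq S M p (j : ZMod p) = 0 := by
        intro j _
        unfold gq lq
        rw [if_pos hpS]
      rw [sum_congr rfl this, sum_const_zero, zero_div]
    have h2 : ta S M p = 0 := by unfold ta; rw [if_pos hpS]
    rw [h1, h2, zero_div, add_zero, abs_zero]
    positivity
  have hp2 : p ≠ 2 := by
    rintro rfl
    exact hpS (hS 2 (by norm_num))
  set τ₁ := (M p).trace.re with hτ₁
  set τ₂ := (M p ^ 2).trace.re with hτ₂
  have hb2 : |τ₂| ≤ n := eigLe_trace (hM p hp hpS) 2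
  have hta : ta S M p = τ₂ := by unfold ta; rw [if_neg hpS]
  have h1 : ∀ z : ZMod p, |gq S M p z - (-(τ₁ * (ch z / Real.sqrt p)) - τ₂ * (ch z ^ 2 / p) / 2)| ≤
      n / (p * Real.sqrt p) := by
    intro z
    have h := lq_main S M hM hS ((z.val : ℕ) : ℤ) hp hpS
    have e : (((((z.val : ℕ) : ℤ)) : ZMod p)) = z := by
      push_cast
      rw [ZMod.natCast_zmod_val]
    rw [e] at h
    exact h
  have h2 : ∑ z : ZMod p, (-(τ₁ * (ch z / Real.sqrt p)) - τ₂ * (ch z ^ 2 / p) / 2) =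
      -(τ₂ / 2) * ((p - 1) / p) := by
    have e1 : ∀ z : ZMod p, ch z ^ 2 = 1 - (if z = 0 then 1 else 0) := by
      intro z
      by_cases hz : z = 0
      · rw [if_pos hz, hz, ch_zero]; norm_num
      · rw [if_neg hz, ch_sq hz, sub_zero]
    have e2 : ∑ z : ZMod p, ch z ^ 2 = p - 1 := by
      rw [sum_congr rfl fun z _ => e1 z, sum_sub_distrib, sum_const, card_univ, ZMod.card]
      simp
    have e3 : ∑ z : ZMod p, (-(τ₁ * (ch z / Real.sqrt p)) - τ₂ * (ch z ^ 2 / p) / 2) =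
        -(τ₁ / Real.sqrt p) * ∑ z : ZMod p, ch z - τ₂ / (2 * p) * ∑ z : ZMod p, ch z ^ 2 := by
      rw [mul_sum, mul_sum, ← sum_sub_distrib]
      exact sum_congr rfl fun z _ => by field_simp
    rw [e3, ch_sum hp2, e2]
    field_simp
    ring
  have h3 : |∑ z : ZMod p, gq S M p z - -(τ₂ / 2) * ((p - 1) / p)| ≤ n / Real.sqrt p := by
    rw [← h2, ← sum_sub_distrib]
    refine (abs_sum_le_sum_abs _ _).trans ((sum_le_sum fun z _ => h1 z).trans (le_of_eq ?_))
    rw [sum_const, card_univ, ZMod.card, nsmul_eq_mul]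
    field_simp
  have hmn : mn (gq S M) p = (∑ z : ZMod p, gq S M p z) / p := by
    unfold mn
    rw [sum_range_zmod (fun z => gq S M p z)]
  rw [hmn, hta]
  have e4 : (∑ z : ZMod p, gq S M p z) / p + τ₂ / (2 * p) =
      ((∑ z : ZMod p, gq S M p z - -(τ₂ / 2) * ((p - 1) / p)) + τ₂ / (2 * p)) / p := by
    field_simp
    ring
  rw [e4, abs_div, abs_of_pos hp0, div_le_iff₀ hp0]
  have e5 : 2 * (n : ℝ) / (p * Real.sqrt p) * p = n / Real.sqrt p + n / Real.sqrt p := by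
    field_simp
    ring
  rw [e5]
  refine (abs_add_le _ _).trans (add_le_add h3 ?_)
  rw [abs_div, abs_of_pos (by positivity : (0 : ℝ) < 2 * p), div_le_div_iff₀ (by positivity) hs]
  have h5 : Real.sqrt p ≤ 2 * p := by nlinarith
  calc |τ₂| * Real.sqrt p ≤ n * (2 * p) := mul_le_mul hb2 h5 hs.le hn
    _ = _ := by ring

include hM hS in
lemma sum_gq_mean (x : ℕ) : |∑ p ∈ (range (x + 1)).filter Nat.Prime, mn (gq S M) p +
    1 / 2 * ∑ p ∈ (range (x + 1)).filter Nat.Prime, ta S M p / p| ≤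
      2 * n * ∑' k : ℕ, (k : ℝ) ^ (-(3 / 2) : ℝ) := by
  have h4 := sum32 (2 * n) (by positivity) (fun p => mn (gq S M) p + ta S M p / (2 * p)) (fun p hp => by
    have hp0 : (0 : ℝ) < p := by exact_mod_cast hp.pos
    rw [rpow32 hp.pos, mul_one_div]
    exact gq_mean S M hM hS hp) x
  rw [sum_add_distrib] at h4
  refine le_trans (le_of_eq ?_) h4
  congr 2
  rw [mul_sum]
  exact sum_congr rfl fun p _ => by ring

end

/-- **Almost all quadratic twists.** -/
theorem twists_all (n : ℕ) {η : ℝ} (hη : 0 < η) : ∃ X₀ : ℕ, 16 ≤ X₀ ∧ ∀ (S : Finset ℕ)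
    (M : ℕ → Matrix (Fin n) (Fin n) ℂ), (∀ p : ℕ, p.Prime → p ∉ S → EigLe (M p)) → (∀ p < 4, p ∈ S) →
    ∀ T : ℕ, ∃ E : Finset ℤ, (E.card : ℝ) ≤ η * T ∧ ∀ d : ℤ, |d| ≤ T → d ∉ E → ∀ x : ℕ, X₀ ≤ x →
      x ^ 10 ≤ T → |∑ p ∈ (range (x + 1)).filter Nat.Prime, lq S M d p +
        1 / 2 * ∑ p ∈ (range (x + 1)).filter Nat.Prime, ta S M p / p| ≤
          2 * Real.log (Real.log x) ^ (5 / 6 : ℝ) := by
  classical
  have hn : (0 : ℝ) ≤ n := Nat.cast_nonneg n
  obtain ⟨X₀, hX₀, H⟩ := one_var (3 * n + 1) (η / 4) (by linarith) (by positivity)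
  have hL : Tendsto (fun x : ℕ => Real.log (Real.log (x : ℝ)) ^ (5 / 6 : ℝ)) atTop atTop :=
    (tendsto_rpow_atTop (by norm_num)).comp tendsto_loglog
  obtain ⟨X₁, hX₁⟩ := eventually_atTop.1 (hL.eventually_ge_atTop
    (2 * n * ∑' k : ℕ, (k : ℝ) ^ (-(3 / 2) : ℝ)))
  refine ⟨max 16 (max X₀ X₁), le_max_left _ _, fun S M hM hS T => ?_⟩
  rcases Nat.eq_zero_or_pos T with rfl | hT
  · refine ⟨∅, by simp, fun t _ _ x hx hxT => ?_⟩
    exfalso
    have h4 : 16 ≤ x := (le_max_left _ _).trans hx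
    have h5 : 0 < x ^ 10 := by positivity
    omega
  have hb : ∀ p : ℕ, p.Prime → ∀ z : ZMod p, |gq S M p z| ≤ (3 * n + 1) / Real.sqrt p :=
    fun p hp z => lq_abs S M hM hS _ hp
  obtain ⟨E1, hE1, hc1, H1⟩ := H (gq S M) hb (T + 1) (rt (T + 1)) (rt_le _)
  obtain ⟨E2, hE2, hc2, H2⟩ := H (fun p z => gq S M p (-z)) (fun p hp z => hb p hp _) (T + 1)
    (rt (T + 1)) (rt_le _)
  refine ⟨E1.image (fun n : ℕ => (n : ℤ)) ∪ E2.image (fun n : ℕ => -(n : ℤ)), ?_, ?_⟩
  · have k1 : ((E1.image (fun n : ℕ => (n : ℤ)) ∪ E2.image (fun n : ℕ => -(n : ℤ))).card : ℝ) ≤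
        E1.card + E2.card := by
      have := (card_union_le (E1.image (fun n : ℕ => (n : ℤ))) (E2.image (fun n : ℕ => -(n : ℤ)))).trans
        (add_le_add card_image_le card_image_le)
      exact_mod_cast this
    have hT1 : (1 : ℝ) ≤ T := by exact_mod_cast hT
    push_cast at hc1 hc2
    nlinarith
  · intro t ht hne x hx hxT
    rw [mem_union, not_or, mem_image, mem_image] at hne
    have hxT' : x ≤ rt (T + 1) := le_rt (by omega)
    have hxX₀ : X₀ ≤ x := ((le_max_left _ _).trans (le_max_right _ _)).trans hx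
    have hxX₁ : X₁ ≤ x := ((le_max_right _ _).trans (le_max_right _ _)).trans hx
    have h5 := hX₁ x hxX₁
    have h6 := sum_gq_mean S M hM hS x
    have e1 : ∑ p ∈ (range (x + 1)).filter Nat.Prime, gq S M p (t : ZMod p) =
        ∑ p ∈ (range (x + 1)).filter Nat.Prime, lq S M t p :=
      sum_congr rfl fun p hp => gq_eq S M t (mem_filter.1 hp).2
    have key : |∑ p ∈ (range (x + 1)).filter Nat.Prime, gq S M p (t : ZMod p) -
        ∑ p ∈ (range (x + 1)).filter Nat.Prime, mn (gq S M) p| ≤ Real.log (Real.log x) ^ (5 / 6 : ℝ) := by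
      rw [abs_le] at ht
      rcases le_total 0 t with h0 | h0
      · lift t to ℕ using h0
        have ht' : t ∈ range (T + 1) := by
          rw [mem_range]
          have := ht.2
          omega
        have h7 := H1 t ht' (fun h => hne.1 ⟨t, h, rfl⟩) x hxX₀ hxT'
        simpa only [Int.cast_natCast] using h7
      · obtain ⟨n, rfl⟩ : ∃ n : ℕ, t = -(n : ℤ) := ⟨t.natAbs, by omega⟩
        have ht' : n ∈ range (T + 1) := by
          rw [mem_range]
          have := ht.1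
          omega
        have h7 := H2 n ht' (fun h => hne.2 ⟨n, h, rfl⟩) x hxX₀ hxT'
        have e2 : ∑ p ∈ (range (x + 1)).filter Nat.Prime, mn (fun p z => gq S M p (-z)) p =
            ∑ p ∈ (range (x + 1)).filter Nat.Prime, mn (gq S M) p :=
          sum_congr rfl fun p hp => mn_neg (gq S M) (mem_filter.1 hp).2
        rw [e2] at h7
        simpa only [Int.cast_neg, Int.cast_natCast] using h7
    rw [e1] at key
    rw [abs_le] at key h6 ⊢
    constructor <;> linarith [key.1, key.2, h6.1, h6.2]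

/-- **The mean over the quadratic twists.** -/
theorem twists_mean (n : ℕ) : ∃ K : ℝ, 0 ≤ K ∧ ∀ (S : Finset ℕ)
    (M : ℕ → Matrix (Fin n) (Fin n) ℂ), (∀ p : ℕ, p.Prime → p ∉ S → EigLe (M p)) → (∀ p < 4, p ∈ S) →
    ∀ T x : ℕ, 16 ≤ x → x ^ 10 ≤ T → ∑ d ∈ Icc (-(T : ℤ)) T,
      |∑ p ∈ (range (x + 1)).filter Nat.Prime, lq S M d p +
        1 / 2 * ∑ p ∈ (range (x + 1)).filter Nat.Prime, ta S M p / p| ≤
          K * Real.log (Real.log x) ^ (1 / 2 : ℝ) * T := by
  classical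
  have hn : (0 : ℝ) ≤ n := Nat.cast_nonneg n
  obtain ⟨K, hK, H⟩ := one_var_mean (C := 3 * n + 1) (by linarith)
  set Z := 2 * n * ∑' k : ℕ, (k : ℝ) ^ (-(3 / 2) : ℝ) with hZ
  have hZ0 : 0 ≤ Z := mul_nonneg (by positivity) (tsum_nonneg fun k => by positivity)
  refine ⟨4 * (K + Z), by positivity, fun S M hM hS T x hx hxT => ?_⟩
  have hL1 : 1 ≤ Real.log (Real.log x) := loglog_ge_one hx
  set l := Real.log (Real.log x) ^ (1 / 2 : ℝ) with hl
  have hl1 : 1 ≤ l := Real.one_le_rpow hL1 (by norm_num)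
  have hT1 : (1 : ℝ) ≤ T := by
    have h5 : 1 ≤ x ^ 10 := Nat.one_le_pow _ _ (by omega)
    exact_mod_cast h5.trans hxT
  have hb : ∀ p : ℕ, p.Prime → ∀ z : ZMod p, |gq S M p z| ≤ (3 * n + 1) / Real.sqrt p :=
    fun p hp z => lq_abs S M hM hS _ hp
  have h6 := sum_gq_mean S M hM hS x
  rw [← hZ] at h6
  refine (sum_sym (fun d => |∑ p ∈ (range (x + 1)).filter Nat.Prime, lq S M d p +
        1 / 2 * ∑ p ∈ (range (x + 1)).filter Nat.Prime, ta S M p / p|) (fun d => abs_nonneg _) (T + 1) _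
      (fun B hB => by rw [mem_Icc] at hB; omega)).trans ?_
  have h1 := H (gq S M) hb (T + 1) x hx (by omega)
  have h2 := H (fun p z => gq S M p (-z)) (fun p hp z => hb p hp _) (T + 1) x hx (by omega)
  have e2 : ∑ p ∈ (range (x + 1)).filter Nat.Prime, mn (fun p z => gq S M p (-z)) p =
      ∑ p ∈ (range (x + 1)).filter Nat.Prime, mn (gq S M) p :=
    sum_congr rfl fun p hp => mn_neg (gq S M) (mem_filter.1 hp).2
  rw [e2] at h2
  have e1 : ∀ t : ℤ, ∑ p ∈ (range (x + 1)).filter Nat.Prime, gq S M p (t : ZMod p) =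
      ∑ p ∈ (range (x + 1)).filter Nat.Prime, lq S M t p := fun t =>
    sum_congr rfl fun p hp => gq_eq S M t (mem_filter.1 hp).2
  have key : ∀ t : ℤ, |∑ p ∈ (range (x + 1)).filter Nat.Prime, lq S M t p +
        1 / 2 * ∑ p ∈ (range (x + 1)).filter Nat.Prime, ta S M p / p| ≤
      |∑ p ∈ (range (x + 1)).filter Nat.Prime, gq S M p (t : ZMod p) -
        ∑ p ∈ (range (x + 1)).filter Nat.Prime, mn (gq S M) p| + Z := by
    intro t
    rw [e1 t]
    set U := ∑ p ∈ (range (x + 1)).filter Nat.Prime, lq S M t p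
    set m := ∑ p ∈ (range (x + 1)).filter Nat.Prime, mn (gq S M) p
    set s := 1 / 2 * ∑ p ∈ (range (x + 1)).filter Nat.Prime, ta S M p / p
    have e3 : U + s = (U - m) + (m + s) := by ring
    rw [e3]
    exact (abs_add_le _ _).trans (add_le_add le_rfl h6)
  have h7 : ∑ t ∈ range (T + 1), (|∑ p ∈ (range (x + 1)).filter Nat.Prime, lq S M (t : ℤ) p +
        1 / 2 * ∑ p ∈ (range (x + 1)).filter Nat.Prime, ta S M p / p| +
      |∑ p ∈ (range (x + 1)).filter Nat.Prime, lq S M (-(t : ℤ)) p +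
        1 / 2 * ∑ p ∈ (range (x + 1)).filter Nat.Prime, ta S M p / p|) ≤
      ∑ t ∈ range (T + 1), ((|∑ p ∈ (range (x + 1)).filter Nat.Prime, gq S M p (t : ZMod p) -
        ∑ p ∈ (range (x + 1)).filter Nat.Prime, mn (gq S M) p| +
      |∑ p ∈ (range (x + 1)).filter Nat.Prime, gq S M p (-(t : ZMod p)) -
        ∑ p ∈ (range (x + 1)).filter Nat.Prime, mn (gq S M) p|) + 2 * Z) := by
    refine sum_le_sum fun t _ => ?_
    have k1 := key (t : ℤ)
    have k2 := key (-(t : ℤ))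
    simp only [Int.cast_neg, Int.cast_natCast] at k1 k2
    linarith
  refine h7.trans ?_
  rw [sum_add_distrib, sum_add_distrib, sum_const, card_range, nsmul_eq_mul]
  push_cast at h1 h2 ⊢
  have h8 : (T : ℝ) + 1 ≤ 2 * T := by linarith
  have h9 : ((T : ℝ) + 1) * (2 * Z) ≤ 2 * T * (2 * (Z * l)) := by
    have : 2 * Z ≤ 2 * (Z * l) := by nlinarith
    exact mul_le_mul h8 this (by positivity) (by positivity)
  have h10 : K * ((T : ℝ) + 1) * l ≤ K * (2 * T) * l := by gcongr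
  calc _ ≤ K * ((T : ℝ) + 1) * l + K * ((T : ℝ) + 1) * l + ((T : ℝ) + 1) * (2 * Z) := by linarith
    _ ≤ K * (2 * T) * l + K * (2 * T) * l + 2 * T * (2 * (Z * l)) := by linarith
    _ = _ := by ring

end Pool.Agent.Q28.BP
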