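import Pool.Agent.Q28.BP.Conic

/-!
# Almost all elliptic curves, ordered by height
-/

set_option autoImplicit false

open Finset Filter Topology

namespace Pool.Agent.Q28.BP

open Pool.Agent.W263.BSD (pointCount GoodPrime)

lemma good_iff {a b : ℤ} {p : ℕ} [Fact p.Prime] (hp2 : p ≠ 2) :
    GoodPrime a b p ↔ 4 * (a : ZMod p) ^ 3 + 27 * (b : ZMod p) ^ 2 ≠ 0 := by
  have hp : p.Prime := Fact.out
  unfold GoodPrime
  rw [← ZMod.intCast_zmod_eq_zero_iff_dvd]
  push_cast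
  have h2 := two_ne hp2
  constructor
  · rintro ⟨_, h⟩ h1
    apply h
    linear_combination (-2) * h1
  · intro h
    refine ⟨hp, fun h1 => h ?_⟩
    have h3 : (2 : ZMod p) * (4 * (a : ZMod p) ^ 3 + 27 * (b : ZMod p) ^ 2) = 0 := by
      linear_combination (-1) * h1
    exact (mul_eq_zero.1 h3).resolve_left h2

/-- the expansion of the logarithm to the second order -/
noncomputable def hh (p : ℕ) [Fact p.Prime] (A j : ZMod p) : ℝ :=
  (1 + cs A j) / p - cs A j ^ 2 / (2 * (p : ℝ) ^ 2)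

lemma nuf_eq {a b : ℤ} {p : ℕ} [Fact p.Prime] (hp2 : p ≠ 2) :
    nuf a b p = if 4 * (a : ZMod p) ^ 3 + 27 * (b : ZMod p) ^ 2 = 0 then 0 else hh p a b := by
  classical
  unfold nuf
  by_cases h : 4 * (a : ZMod p) ^ 3 + 27 * (b : ZMod p) ^ 2 = 0
  · rw [if_pos h, if_neg (fun hg => (good_iff hp2).1 hg h)]
  · rw [if_neg h, if_pos ((good_iff hp2).2 h), count_eq hp2]
    unfold hh
    ring

lemma hh_sum {p : ℕ} [Fact p.Prime] (hp2 : p ≠ 2) (A : ZMod p) :
    ∑ j : ZMod p, hh p A j = 3 / 2 - PA A / (2 * p) := by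
  have hp0 : (p : ℝ) ≠ 0 := by exact_mod_cast (Fact.out : p.Prime).ne_zero
  unfold hh
  rw [sum_sub_distrib, ← sum_div, ← sum_div, sum_add_distrib, cs_sum hp2, cs_sq hp2, sum_const,
    card_univ, ZMod.card, nsmul_eq_mul]
  field_simp
  ring

lemma card_bad {p : ℕ} [Fact p.Prime] (hp2 : p ≠ 2) (hp3 : p ≠ 3) (A : ZMod p) :
    (((univ : Finset (ZMod p)).filter fun j => 4 * A ^ 3 + 27 * j ^ 2 = 0).card : ℝ) ≤ 2 := by
  have h3 := three_ne hp3
  have h27 : (27 : ZMod p) ≠ 0 := by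
    have : (27 : ZMod p) = 3 ^ 3 := by norm_num
    rw [this]
    exact pow_ne_zero 3 h3
  have e : (univ : Finset (ZMod p)).filter (fun j => 4 * A ^ 3 + 27 * j ^ 2 = 0) =
      (univ : Finset (ZMod p)).filter fun j => j ^ 2 = -4 * A ^ 3 / 27 := by
    ext j
    simp only [mem_filter, mem_univ, true_and]
    rw [eq_div_iff h27]
    constructor
    · intro h; linear_combination h
    · intro h; linear_combination h
  rw [e, card_sq hp2]
  have := (abs_le.1 (ch_abs (-4 * A ^ 3 / 27 : ZMod p))).2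
  linarith

lemma hh_bad {p : ℕ} [Fact p.Prime] (hp2 : p ≠ 2) (hp3 : p ≠ 3) {A j : ZMod p}
    (h : 4 * A ^ 3 + 27 * j ^ 2 = 0) : |hh p A j| ≤ 5 / (2 * (p : ℝ)) := by
  have hp0 : (0 : ℝ) < p := by exact_mod_cast (Fact.out : p.Prime).pos
  have hp1 : (1 : ℝ) ≤ p := by exact_mod_cast (Fact.out : p.Prime).one_lt.le
  have h1 := cs_singular hp2 hp3 h
  have h2 : cs A j ^ 2 ≤ 1 := by rw [← sq_abs]; nlinarith [abs_nonneg (cs A j)]
  have h3 : |(1 + cs A j) / p| ≤ 2 / (p : ℝ) := by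
    rw [abs_div, abs_of_pos hp0]
    refine div_le_div_of_nonneg_right ?_ hp0.le
    rw [abs_le] at h1 ⊢
    constructor <;> linarith [h1.1, h1.2]
  have h4 : |cs A j ^ 2 / (2 * (p : ℝ) ^ 2)| ≤ 1 / (2 * (p : ℝ)) := by
    rw [abs_of_nonneg (by positivity), div_le_div_iff₀ (by positivity) (by positivity)]
    nlinarith [sq_nonneg (cs A j)]
  unfold hh
  refine (abs_sub _ _).trans ?_
  have e : (5 : ℝ) / (2 * (p : ℝ)) = 2 / (p : ℝ) + 1 / (2 * (p : ℝ)) := by field_simp; norm_num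
  rw [e]
  exact add_le_add h3 h4

/-- the mean value over `B` -/
lemma nu_curve (A : ℤ) {p : ℕ} (hp : p.Prime) (h5 : 5 ≤ p) (D : Polynomial ℤ)
    (hD : D = Polynomial.X ∨ D = -Polynomial.X) :
    |nu (Polynomial.C A) D p - 1 / (2 * p)| ≤ 7 / (p : ℝ) ^ 2 +
      (if (p : ℤ) ∣ A then 1 / (p : ℝ) else 0) := by
  classical
  have : Fact p.Prime := ⟨hp⟩
  have hp2 : p ≠ 2 := by omega
  have hp3 : p ≠ 3 := by omega
  have hp0 : (0 : ℝ) < p := by exact_mod_cast hp.pos
  set F : ZMod p → ℝ := fun z => if 4 * (A : ZMod p) ^ 3 + 27 * z ^ 2 = 0 then 0 else hh p A z with hF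
  have e1 : nu (Polynomial.C A) D p = (∑ z : ZMod p, F z) / p := by
    unfold nu
    congr 1
    have h1 : ∀ j ∈ range p, nuf ((Polynomial.C A).eval (j : ℤ)) (D.eval (j : ℤ)) p =
        F ((D.eval (j : ℤ) : ℤ) : ZMod p) := by
      intro j _
      rw [Polynomial.eval_C, nuf_eq hp2]
    rw [sum_congr rfl h1, sum_polyval D F]
    rcases hD with rfl | rfl
    · exact sum_congr rfl fun z _ => by rw [Polynomial.eval₂_X]
    · rw [← Equiv.sum_comp (Equiv.neg (ZMod p)) F]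
      refine sum_congr rfl fun z _ => ?_
      rw [Polynomial.eval₂_neg, Polynomial.eval₂_X]
      rfl
  have e2 : ∑ z : ZMod p, F z = ∑ z : ZMod p, hh p A z -
      ∑ z ∈ (univ : Finset (ZMod p)).filter (fun j => 4 * (A : ZMod p) ^ 3 + 27 * j ^ 2 = 0), hh p A z := by
    rw [sum_filter, ← sum_sub_distrib]
    refine sum_congr rfl fun z _ => ?_
    simp only [hF]
    split_ifs <;> ring
  have h1 : |∑ z ∈ (univ : Finset (ZMod p)).filter (fun j => 4 * (A : ZMod p) ^ 3 + 27 * j ^ 2 = 0),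
      hh p A z| ≤ 5 / (p : ℝ) := by
    refine (abs_sum_le_sum_abs _ _).trans ((sum_le_sum fun z hz =>
      hh_bad hp2 hp3 (mem_filter.1 hz).2).trans ?_)
    rw [sum_const, nsmul_eq_mul]
    have h2 := card_bad hp2 hp3 (A : ZMod p)
    calc _ ≤ 2 * (5 / (2 * (p : ℝ))) := mul_le_mul_of_nonneg_right h2 (by positivity)
      _ = 5 / p := by field_simp
  have h2 : |∑ z : ZMod p, hh p A z - 1 / 2| ≤ 2 / (p : ℝ) + (if (p : ℤ) ∣ A then 1 else 0) := by
    rw [hh_sum hp2]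
    by_cases hA : (p : ℤ) ∣ A
    · rw [if_pos hA]
      have hA0 : (A : ZMod p) = 0 := (ZMod.intCast_zmod_eq_zero_iff_dvd A p).2 hA
      rw [hA0]
      have h3 : PA (0 : ZMod p) ≤ 3 * p := PA_zero
      have h4 : (0 : ℝ) ≤ PA (0 : ZMod p) := by unfold PA; positivity
      have h5 : PA (0 : ZMod p) / (2 * p) ≤ 3 / 2 := by
        rw [div_le_iff₀ (by positivity)]
        linarith
      have h6 : 0 ≤ PA (0 : ZMod p) / (2 * p) := by positivity
      have h7 : (0 : ℝ) ≤ 2 / p := by positivity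
      rw [abs_le]
      constructor <;> linarith
    · rw [if_neg hA, add_zero]
      have hA0 : (A : ZMod p) ≠ 0 := fun h => hA ((ZMod.intCast_zmod_eq_zero_iff_dvd A p).1 h)
      have h3 := PA_bound hp2 hp3 hA0
      have e3 : 3 / 2 - PA (A : ZMod p) / (2 * p) - 1 / 2 = -((PA (A : ZMod p) - 2 * p) / (2 * p)) := by
        field_simp
        ring
      rw [e3, abs_neg, abs_div, abs_of_pos (by positivity : (0 : ℝ) < 2 * p),
        div_le_div_iff₀ (by positivity) hp0]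
      nlinarith
  rw [e1, e2]
  set S1 := ∑ z : ZMod p, hh p A z
  set S2 := ∑ z ∈ (univ : Finset (ZMod p)).filter (fun j => 4 * (A : ZMod p) ^ 3 + 27 * j ^ 2 = 0), hh p A z
  have e3 : (S1 - S2) / p - 1 / (2 * p) = ((S1 - 1 / 2) - S2) / p := by
    field_simp
    ring
  rw [e3, abs_div, abs_of_pos hp0, div_le_iff₀ hp0]
  refine (abs_sub _ _).trans ((add_le_add h2 h1).trans (le_of_eq ?_))
  split_ifs
  · field_simp
    ring
  · field_simp
    ring

lemma nuf_all (a b : ℤ) {p : ℕ} (hp : p.Prime) : |nuf a b p| ≤ 100020 := by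
  have h1 := lg_nuf a b hp
  have h2 := lg_abs a b hp
  have hp1 : (1 : ℝ) ≤ p := by exact_mod_cast hp.one_lt.le
  have hs : 1 ≤ Real.sqrt p := by rwa [Real.one_le_sqrt]
  have h3 : (20 : ℝ) / Real.sqrt p ≤ 20 := div_le_self (by norm_num) hs
  have h4 : (p : ℝ) ^ (-(3 / 2) : ℝ) ≤ 1 := Real.rpow_le_one_of_one_le_of_nonpos hp1 (by norm_num)
  rw [abs_le] at h1 h2 ⊢
  constructor <;> linarith [h1.1, h1.2, h2.1, h2.2]

lemma nu_curve' (A : ℤ) {p : ℕ} (hp : p.Prime) (D : Polynomial ℤ)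
    (hD : D = Polynomial.X ∨ D = -Polynomial.X) :
    |nu (Polynomial.C A) D p - 1 / (2 * p)| ≤ 1000000 / (p : ℝ) ^ 2 +
      (if (p : ℤ) ∣ A then 1 / (p : ℝ) else 0) := by
  have hp0 : (0 : ℝ) < p := by exact_mod_cast hp.pos
  have hp1 : (1 : ℝ) ≤ p := by exact_mod_cast hp.one_lt.le
  rcases Nat.lt_or_ge p 5 with h5 | h5
  · have h1 : |nu (Polynomial.C A) D p| ≤ 100020 := by
      unfold nu
      rw [abs_div, abs_of_pos hp0, div_le_iff₀ hp0]
      refine (abs_sum_le_sum_abs _ _).trans ((sum_le_sum fun j _ => nuf_all _ _ hp).trans (le_of_eq ?_))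
      rw [sum_const, card_range, nsmul_eq_mul]
      ring
    have h2 : |1 / (2 * (p : ℝ))| ≤ 1 := by
      rw [abs_of_pos (by positivity), div_le_one (by positivity)]
      linarith
    have h3 : (0 : ℝ) ≤ (if (p : ℤ) ∣ A then 1 / (p : ℝ) else 0) := by split_ifs <;> positivity
    have h4 : (p : ℝ) ≤ 4 := by exact_mod_cast (by omega : p ≤ 4)
    have hp3 : p ≤ 3 := by
      rcases Nat.lt_or_ge p 4 with h | h
      · omega
      · have : p = 4 := by omega
        subst this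
        exact absurd hp (by decide)
    have h4' : (p : ℝ) ≤ 3 := by exact_mod_cast hp3
    have h5 : (100021 : ℝ) ≤ 1000000 / (p : ℝ) ^ 2 := by
      rw [le_div_iff₀ (by positivity)]
      nlinarith
    refine (abs_sub _ _).trans ?_
    linarith
  · refine (nu_curve A hp h5 D hD).trans ?_
    have : (7 : ℝ) / (p : ℝ) ^ 2 ≤ 1000000 / (p : ℝ) ^ 2 :=
      div_le_div_of_nonneg_right (by norm_num) (by positivity)
    linarith

/-- the sum of the reciprocals of the prime divisors of `A` up to `x` -/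
noncomputable def wt (A : ℤ) (x : ℕ) : ℝ :=
  ∑ p ∈ (range (x + 1)).filter Nat.Prime, if (p : ℤ) ∣ A then 1 / (p : ℝ) else 0

lemma sum_nu_curve : ∃ K : ℝ, 0 ≤ K ∧ ∀ (A : ℤ) (D : Polynomial ℤ), D = Polynomial.X ∨ D = -Polynomial.X →
    ∀ x : ℕ, 3 ≤ x → |∑ p ∈ (range (x + 1)).filter Nat.Prime, nu (Polynomial.C A) D p -
      1 / 2 * Real.log (Real.log x)| ≤ K + wt A x := by
  obtain ⟨C, hC0, hC⟩ := sum_inv_loglog
  set Z : ℝ := 1000000 * ∑' n : ℕ, (n : ℝ) ^ (-(3 / 2) : ℝ) with hZ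
  have hZ0 : 0 ≤ Z := mul_nonneg (by norm_num) (tsum_nonneg fun n => by positivity)
  refine ⟨Z + C / 2, by positivity, fun A D hD x hx => ?_⟩
  have h1 := hC x hx
  have h2 : |∑ p ∈ (range (x + 1)).filter Nat.Prime, (nu (Polynomial.C A) D p - 1 / (2 * p))| ≤
      Z + wt A x := by
    refine (abs_sum_le_sum_abs _ _).trans ?_
    have h3 : ∑ p ∈ (range (x + 1)).filter Nat.Prime, |nu (Polynomial.C A) D p - 1 / (2 * p)| ≤
        ∑ p ∈ (range (x + 1)).filter Nat.Prime, (1000000 / (p : ℝ) ^ 2 +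
          if (p : ℤ) ∣ A then 1 / (p : ℝ) else 0) :=
      sum_le_sum fun p hp => nu_curve' A (mem_filter.1 hp).2 D hD
    refine h3.trans ?_
    rw [sum_add_distrib]
    refine add_le_add ?_ le_rfl
    have h4 := sum32 1000000 (by norm_num) (fun p => 1000000 / (p : ℝ) ^ 2) (fun p hp => by
      have hp0 : (0 : ℝ) < p := by exact_mod_cast hp.pos
      have hp1 : (1 : ℝ) ≤ p := by exact_mod_cast hp.one_lt.le
      rw [abs_of_pos (by positivity), rpow32 hp.pos, mul_one_div]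
      refine div_le_div_of_nonneg_left (by norm_num) (by positivity) ?_
      have hs1 : 1 ≤ Real.sqrt p := by rwa [Real.one_le_sqrt]
      have hss : Real.sqrt p * Real.sqrt p = p := Real.mul_self_sqrt hp0.le
      nlinarith [mul_nonneg (sub_nonneg.2 hs1) hp0.le]) x
    exact (le_abs_self _).trans h4
  have e1 : ∑ p ∈ (range (x + 1)).filter Nat.Prime, (nu (Polynomial.C A) D p - 1 / (2 * p)) =
      ∑ p ∈ (range (x + 1)).filter Nat.Prime, nu (Polynomial.C A) D p -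
        1 / 2 * ∑ p ∈ (range (x + 1)).filter Nat.Prime, 1 / (p : ℝ) := by
    rw [sum_sub_distrib, mul_sum]
    congr 1
    exact sum_congr rfl fun p _ => by ring
  rw [e1] at h2
  rw [abs_le] at h1 h2 ⊢
  constructor <;> linarith [h1.1, h1.2, h2.1, h2.2]

end Pool.Agent.Q28.BP
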