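import Pool.Agent.Q28.BP.TwQ
import Pool.Agent.Q28.BP.ArtinE

/-!
# Quadratic twists of Artin representations
-/

set_option autoImplicit false

open Finset Filter Topology NumberField

namespace Pool.Agent.Q28.BP

open scoped Classical in
/-- the squarefree integers of absolute value at most `T` -/
noncomputable def sqf (T : ℕ) : Finset ℤ := (Icc (-(T : ℤ)) T).filter fun d => Squarefree d

lemma sqf_card (T : ℕ) : (T : ℝ) ≤ 4 * (sqf T).card := by
  classical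
  rcases Nat.eq_zero_or_pos T with rfl | hT
  · simp
  have h1 : ((Ioc 0 T).filter fun n : ℕ => ¬ Squarefree n) ⊆
      (Ioc 1 T).biUnion fun k => (Ioc 0 T).filter fun n => k ^ 2 ∣ n := by
    intro n hn
    rw [mem_filter, mem_Ioc] at hn
    obtain ⟨⟨h1, h2⟩, h3⟩ := hn
    rw [Nat.squarefree_iff_prime_squarefree] at h3
    push Not at h3
    obtain ⟨p, hp, h4⟩ := h3
    rw [mem_biUnion]
    have h5 : p * p ≤ n := Nat.le_of_dvd h1 h4
    refine ⟨p, mem_Ioc.2 ⟨hp.one_lt, ?_⟩, mem_filter.2 ⟨mem_Ioc.2 ⟨h1, h2⟩, by rwa [sq]⟩⟩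
    nlinarith [hp.one_lt]
  have h2 : (((Ioc 0 T).filter fun n : ℕ => ¬ Squarefree n).card : ℝ) ≤
      ∑ k ∈ Ioc 1 T, (((Ioc 0 T).filter fun n => k ^ 2 ∣ n).card : ℝ) := by
    exact_mod_cast (card_le_card h1).trans card_biUnion_le
  have h3 : ∑ k ∈ Ioc 1 T, (((Ioc 0 T).filter fun n => k ^ 2 ∣ n).card : ℝ) ≤
      T * ∑ k ∈ Ioc 1 T, ((k : ℝ) ^ 2)⁻¹ := by
    rw [mul_sum]
    refine sum_le_sum fun k hk => ?_
    rw [Nat.Ioc_filter_dvd_card_eq_div]
    have := @Nat.cast_div_le ℝ _ _ _ T (k ^ 2)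
    push_cast at this
    rw [← div_eq_mul_inv]
    exact this
  have h4 : ∑ k ∈ Ioc 1 T, ((k : ℝ) ^ 2)⁻¹ ≤ 3 / 4 := by
    rcases Nat.lt_or_ge T 2 with h | h
    · have : T = 1 := by omega
      subst this
      simp
      norm_num
    · have h5 := sum_Ioc_inv_sq_le_sub (α := ℝ) (k := 2) (n := T) (by norm_num) h
      have e : Ioc 1 T = insert 2 (Ioc 2 T) := by
        ext k
        rw [mem_insert, mem_Ioc, mem_Ioc]
        omega
      rw [e, sum_insert (by simp)]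
      have h6 : (0 : ℝ) ≤ (T : ℝ)⁻¹ := by positivity
      push_cast at h5 ⊢
      norm_num at h5 ⊢
      linarith
  have h5 := card_filter_add_card_filter_not (s := Ioc 0 T) (p := fun n : ℕ => Squarefree n)
  rw [Nat.card_Ioc, Nat.sub_zero] at h5
  have h6 : (((Ioc 0 T).filter fun n : ℕ => Squarefree n).card : ℝ) +
      (((Ioc 0 T).filter fun n : ℕ => ¬ Squarefree n).card : ℝ) = T := by exact_mod_cast h5
  have h7 : ((Ioc 0 T).filter fun n : ℕ => Squarefree n).card ≤ (sqf T).card := by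
    refine card_le_card_of_injOn (fun n => (n : ℤ)) ?_ ?_
    · intro n hn
      rw [mem_coe, mem_filter, mem_Ioc] at hn
      unfold sqf
      rw [mem_coe, mem_filter, mem_Icc]
      obtain ⟨⟨h8, h9⟩, h10⟩ := hn
      refine ⟨⟨?_, ?_⟩, Int.squarefree_natCast.2 h10⟩
      · change -(T : ℤ) ≤ (n : ℤ)
        omega
      · change (n : ℤ) ≤ T
        omega
    · intro a _ b _ h
      exact Int.natCast_inj.1 h
  have h8 : (((Ioc 0 T).filter fun n : ℕ => Squarefree n).card : ℝ) ≤ (sqf T).card := by exact_mod_cast h7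
  have hT0 : (0 : ℝ) < T := by exact_mod_cast hT
  nlinarith

section

variable {L : Type} [Field L] [NumberField L] [IsGalois ℚ L] {n : ℕ}
variable (ρ : Gal(L/ℚ) →* Matrix (Fin n) (Fin n) ℂ) (σ : ℕ → Gal(L/ℚ)) (S : Finset ℕ)
  (hσ : ∀ p : ℕ, p.Prime → p ∉ S → FrobAt L p (σ p)) (hS : ∀ p < 4, p ∈ S)

lemma small_pow {ε l : ℝ} (hε : 0 < ε) (hl : 1 ≤ l) {α β : ℝ} (hαβ : α + β = 1) (h : 1 / ε ≤ l ^ α) :
    l ^ β ≤ ε * l := by
  have hl0 : 0 < l := by linarith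
  have e3 : l = l ^ α * l ^ β := by
    rw [← Real.rpow_add hl0, hαβ, Real.rpow_one]
  have h9 : 0 < l ^ β := by positivity
  rw [div_le_iff₀ hε] at h
  calc l ^ β = 1 * l ^ β := (one_mul _).symm
    _ ≤ (ε * l ^ α) * l ^ β := mul_le_mul_of_nonneg_right (by linarith) h9.le
    _ = ε * (l ^ α * l ^ β) := by ring
    _ = ε * l := by rw [← e3]

include hσ hS in
/-- **Almost all twists.** -/
theorem artinQ_all {ε η : ℝ} (hε : 0 < ε) (hη : 0 < η) : ∃ X₀ : ℕ, 16 ≤ X₀ ∧ ∀ T : ℕ, ∃ E ⊆ sqf T,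
    (E.card : ℝ) ≤ η * (sqf T).card ∧ ∀ d ∈ sqf T, d ∉ E → ∀ x : ℕ, X₀ ≤ x → x ^ 10 ≤ T →
      |∑ p ∈ (range (x + 1)).filter Nat.Prime, lq S (fun p => ρ (σ p)) d p +
        fs ρ / 2 * Real.log (Real.log x)| ≤ ε * Real.log (Real.log x) := by
  classical
  have hm : Nat.card Gal(L/ℚ) ≠ 0 := Nat.card_pos.ne'
  have hM : ∀ p : ℕ, p.Prime → p ∉ S → EigLe ((fun p => ρ (σ p)) p) := fun p _ _ => by
    refine eigLe_of_finite _ hm ?_
    simp only
    rw [← map_pow, pow_card_eq_one', map_one]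
  obtain ⟨X₀, hX₀, H⟩ := twists_all n (show 0 < η / 4 by positivity)
  have hL : Tendsto (fun x : ℕ => Real.log (Real.log (x : ℝ)) ^ (1 / 6 : ℝ)) atTop atTop :=
    (tendsto_rpow_atTop (by norm_num)).comp tendsto_loglog
  obtain ⟨X₁, hX₁⟩ := eventually_atTop.1 ((tau_loglog ρ σ S hσ hε).and
    (hL.eventually_ge_atTop (1 / (ε / 4))))
  refine ⟨max X₀ X₁, hX₀.trans (le_max_left _ _), fun T => ?_⟩
  obtain ⟨E, hEc, HE⟩ := H S (fun p => ρ (σ p)) hM hS T
  refine ⟨(sqf T).filter fun d => d ∈ E, filter_subset _ _, ?_, fun d hd hne x hx hxT => ?_⟩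
  · have h1 : (((sqf T).filter fun d => d ∈ E).card : ℝ) ≤ E.card := by
      exact_mod_cast card_le_card fun q hq => (mem_filter.1 hq).2
    have h2 := sqf_card T
    calc _ ≤ η / 4 * T := h1.trans hEc
      _ ≤ η / 4 * (4 * (sqf T).card) := mul_le_mul_of_nonneg_left h2 (by positivity)
      _ = _ := by ring
  · have hd' := hd
    unfold sqf at hd'
    rw [mem_filter, mem_Icc] at hd'
    have h1 := HE d (abs_le.2 hd'.1) (fun h => hne (mem_filter.2 ⟨hd, h⟩)) x ((le_max_left _ _).trans hx) hxT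
    obtain ⟨h3, h4⟩ := hX₁ x ((le_max_right _ _).trans hx)
    have hl1 := loglog_ge_one (hX₀.trans ((le_max_left _ _).trans hx))
    have h5 := small_pow (show 0 < ε / 4 by positivity) hl1 (by norm_num : (1 / 6 : ℝ) + 5 / 6 = 1) h4
    have e : ∑ p ∈ (range (x + 1)).filter Nat.Prime, tau S (fun p => ρ (σ p)) p / p =
        ∑ p ∈ (range (x + 1)).filter Nat.Prime, ta S (fun p => ρ (σ p)) p / p := rfl
    rw [e] at h3
    rw [abs_le] at h1 h3 ⊢
    constructor <;> linarith [h1.1, h1.2, h3.1, h3.2]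

include hσ hS in
/-- **The mean over all twists.** -/
theorem artinQ_mean {ε : ℝ} (hε : 0 < ε) : ∃ X₀ : ℕ, 16 ≤ X₀ ∧ ∀ T x : ℕ, X₀ ≤ x → x ^ 10 ≤ T →
    ∑ d ∈ sqf T, |∑ p ∈ (range (x + 1)).filter Nat.Prime, lq S (fun p => ρ (σ p)) d p +
        fs ρ / 2 * Real.log (Real.log x)| ≤ ε * Real.log (Real.log x) * (sqf T).card := by
  classical
  have hm : Nat.card Gal(L/ℚ) ≠ 0 := Nat.card_pos.ne'
  have hM : ∀ p : ℕ, p.Prime → p ∉ S → EigLe ((fun p => ρ (σ p)) p) := fun p _ _ => by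
    refine eigLe_of_finite _ hm ?_
    simp only
    rw [← map_pow, pow_card_eq_one', map_one]
  obtain ⟨K, hK, H⟩ := twists_mean n
  have hL : Tendsto (fun x : ℕ => Real.log (Real.log (x : ℝ)) ^ (1 / 2 : ℝ)) atTop atTop :=
    (tendsto_rpow_atTop (by norm_num)).comp tendsto_loglog
  obtain ⟨X₁, hX₁⟩ := eventually_atTop.1 ((tau_loglog ρ σ S hσ hε).and
    (hL.eventually_ge_atTop (1 / (ε / (8 * (K + 1))))))
  refine ⟨max 16 X₁, le_max_left _ _, fun T x hx hxT => ?_⟩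
  have hx16 : 16 ≤ x := (le_max_left _ _).trans hx
  obtain ⟨h3, h4⟩ := hX₁ x ((le_max_right _ _).trans hx)
  have hl1 := loglog_ge_one hx16
  have h1 := H S (fun p => ρ (σ p)) hM hS T x hx16 hxT
  have h5 := small_pow (show 0 < ε / (8 * (K + 1)) by positivity) hl1
    (by norm_num : (1 / 2 : ℝ) + 1 / 2 = 1) h4
  set l := Real.log (Real.log x) with hl
  have hsub : sqf T ⊆ Icc (-(T : ℤ)) T := by
    unfold sqf
    exact filter_subset _ _
  have h6 : ∀ d ∈ sqf T, |∑ p ∈ (range (x + 1)).filter Nat.Prime, lq S (fun p => ρ (σ p)) d p +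
      fs ρ / 2 * l| ≤ |∑ p ∈ (range (x + 1)).filter Nat.Prime, lq S (fun p => ρ (σ p)) d p +
        1 / 2 * ∑ p ∈ (range (x + 1)).filter Nat.Prime, ta S (fun p => ρ (σ p)) p / p| + ε / 2 * l := by
    intro d _
    have e : ∑ p ∈ (range (x + 1)).filter Nat.Prime, tau S (fun p => ρ (σ p)) p / p =
        ∑ p ∈ (range (x + 1)).filter Nat.Prime, ta S (fun p => ρ (σ p)) p / p := rfl
    rw [e] at h3
    set U := ∑ p ∈ (range (x + 1)).filter Nat.Prime, lq S (fun p => ρ (σ p)) d p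
    set t := ∑ p ∈ (range (x + 1)).filter Nat.Prime, ta S (fun p => ρ (σ p)) p / p
    have e2 : U + fs ρ / 2 * l = (U + 1 / 2 * t) - 1 / 2 * (t - fs ρ * l) := by ring
    rw [e2]
    refine (abs_sub _ _).trans (add_le_add le_rfl ?_)
    rw [abs_mul, abs_of_pos (by norm_num : (0 : ℝ) < 1 / 2)]
    linarith
  refine (sum_le_sum h6).trans ?_
  rw [sum_add_distrib, sum_const, nsmul_eq_mul]
  have h7 := (sum_le_sum_of_subset_of_nonneg hsub fun d _ _ => abs_nonneg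
    (∑ p ∈ (range (x + 1)).filter Nat.Prime, lq S (fun p => ρ (σ p)) d p +
        1 / 2 * ∑ p ∈ (range (x + 1)).filter Nat.Prime, ta S (fun p => ρ (σ p)) p / p)).trans h1
  have h8 := sqf_card T
  have hc : (0 : ℝ) ≤ (sqf T).card := Nat.cast_nonneg _
  have h9 : K * l ^ (1 / 2 : ℝ) * T ≤ ε / 2 * l * (sqf T).card := by
    have k1 : K * l ^ (1 / 2 : ℝ) ≤ ε / 8 * l := by
      have k2 : K * l ^ (1 / 2 : ℝ) ≤ (K + 1) * (ε / (8 * (K + 1)) * l) :=
        mul_le_mul (by linarith) h5 (by positivity) (by positivity)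
      have e : (K + 1) * (ε / (8 * (K + 1)) * l) = ε / 8 * l := by field_simp
      rwa [e] at k2
    have k3 : (0 : ℝ) ≤ T := Nat.cast_nonneg T
    calc K * l ^ (1 / 2 : ℝ) * T ≤ ε / 8 * l * T := mul_le_mul_of_nonneg_right k1 k3
      _ ≤ ε / 8 * l * (4 * (sqf T).card) := mul_le_mul_of_nonneg_left h8 (by positivity)
      _ = _ := by ring
  calc _ ≤ ε / 2 * l * (sqf T).card + (sqf T).card * (ε / 2 * l) := add_le_add (h7.trans h9) le_rfl
    _ = _ := by ring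

end

end Pool.Agent.Q28.BP
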