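import Pool.Agent.Q28.BP.Quad

/-!
# Asymptotics for almost all twists
-/

set_option autoImplicit false

open Finset Filter Topology

namespace Pool.Agent.Q28.BP

open Pool.Agent.W263.BSD (pointCount GoodPrime rsSum)

lemma sum_inv_loglog : ∃ C : ℝ, 0 ≤ C ∧ ∀ x : ℕ, 3 ≤ x →
    |∑ p ∈ (range (x + 1)).filter Nat.Prime, 1 / (p : ℝ) - Real.log (Real.log x)| ≤ C := by
  obtain ⟨C, hC⟩ := Pool.Agent.Erdos456.Mert.mertens_inv
  refine ⟨C, (abs_nonneg _).trans (hC 3 le_rfl), fun x hx => ?_⟩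
  refine le_trans (le_of_eq ?_) (hC x hx)
  congr 2
  refine sum_congr ?_ fun _ _ => rfl
  ext p
  simp only [mem_filter, mem_range, mem_Icc]
  constructor
  · rintro ⟨h1, h2⟩
    exact ⟨⟨h2.one_lt.le, by omega⟩, h2⟩
  · rintro ⟨⟨_, h1⟩, h2⟩
    exact ⟨by omega, h2⟩

lemma asym {a b : ℤ} (hΔ : 4 * a ^ 3 + 27 * b ^ 2 ≠ 0) (hrs : Tendsto (rsSum a b) atTop (𝓝 0))
    (F : ℕ → ℝ) (κ s K : ℝ) (hκ : 0 ≤ κ) (hK : 0 ≤ K)
    (hgood : ∀ p, GoodPrime a b p → |F p - (κ / p + s * rho a b p)| ≤ K / (p : ℝ) ^ 2)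
    (hbad : ∀ p : ℕ, p.Prime → ¬ GoodPrime a b p → F p = 0) {ε : ℝ} (hε : 0 < ε) :
    ∀ᶠ x : ℕ in atTop, |∑ p ∈ (range (x + 1)).filter Nat.Prime, F p -
      κ * Real.log (Real.log x)| ≤ ε * Real.log (Real.log x) := by
  classical
  set D : ℤ := 2 * (-4 * a ^ 3 - 27 * b ^ 2) with hD
  have hD0 : D ≠ 0 := by
    rw [hD]
    intro h
    apply hΔ
    linarith [mul_eq_zero.1 h |>.resolve_left (by norm_num)]
  set K' : ℝ := K + κ * |(D : ℝ)| with hK'
  have hK'0 : 0 ≤ K' := by positivity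
  have hall : ∀ p : ℕ, p.Prime → |F p - (κ / p + s * rho a b p)| ≤ K' * (p : ℝ) ^ (-(3 / 2) : ℝ) := by
    intro p hp
    have hp0 : (0 : ℝ) < p := by exact_mod_cast hp.pos
    have hp1 : (1 : ℝ) ≤ p := by exact_mod_cast hp.one_lt.le
    have hs1 : 1 ≤ Real.sqrt p := by rwa [Real.one_le_sqrt]
    have hss : Real.sqrt p * Real.sqrt p = p := Real.mul_self_sqrt hp0.le
    rw [rpow32 hp.pos, mul_one_div]
    by_cases hg : GoodPrime a b p
    · refine (hgood p hg).trans ?_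
      rw [div_le_div_iff₀ (by positivity) (by positivity)]
      have h1 : Real.sqrt p ≤ p := by nlinarith
      have h2 : 0 ≤ κ * |(D : ℝ)| := by positivity
      have h3 : K * (p * Real.sqrt p) ≤ K * (p : ℝ) ^ 2 := by
        refine mul_le_mul_of_nonneg_left ?_ hK
        nlinarith
      nlinarith [mul_nonneg h2 (sq_nonneg (p : ℝ))]
    · rw [hbad p hp hg]
      have h1 : rho a b p = 0 := by unfold rho; rw [if_neg hg]
      rw [h1, mul_zero, add_zero, zero_sub, abs_neg, abs_of_nonneg (by positivity)]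
      have h2 : (p : ℤ) ∣ D := by
        by_contra h
        exact hg ⟨hp, h⟩
      have h3 : (p : ℝ) ≤ |(D : ℝ)| := by
        have h4 := Int.le_of_dvd (abs_pos.2 hD0) ((dvd_abs _ _).2 h2)
        exact_mod_cast h4
      rw [div_le_div_iff₀ hp0 (by positivity)]
      have h4 : Real.sqrt p ≤ p := by nlinarith
      have h5 : κ * (p * Real.sqrt p) ≤ κ * |(D : ℝ)| * p := by
        have : p * Real.sqrt p ≤ |(D : ℝ)| * p := by nlinarith
        calc κ * (p * Real.sqrt p) ≤ κ * (|(D : ℝ)| * p) := mul_le_mul_of_nonneg_left this hκ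
          _ = _ := by ring
      nlinarith [mul_nonneg hK hp0.le]
  obtain ⟨C, hC0, hC⟩ := sum_inv_loglog
  set Z : ℝ := K' * ∑' n : ℕ, (n : ℝ) ^ (-(3 / 2) : ℝ) with hZ
  have hRR := RR_small hrs (show 0 < ε / (2 * (|s| + 1)) by positivity)
  filter_upwards [hRR, tendsto_loglog.eventually_ge_atTop (max 1 ((Z + κ * C) / (ε / 2))),
    eventually_ge_atTop 3] with x h1 h2 h3
  have hL1 : 1 ≤ Real.log (Real.log x) := (le_max_left _ _).trans h2
  have hL2 : (Z + κ * C) / (ε / 2) ≤ Real.log (Real.log x) := (le_max_right _ _).trans h2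
  rw [div_le_iff₀ (by positivity)] at hL2
  have h4 := sum32 K' hK'0 (fun p => F p - (κ / p + s * rho a b p)) hall x
  have h5 := hC x h3
  have e1 : ∑ p ∈ (range (x + 1)).filter Nat.Prime, (F p - (κ / p + s * rho a b p)) =
      ∑ p ∈ (range (x + 1)).filter Nat.Prime, F p -
        κ * ∑ p ∈ (range (x + 1)).filter Nat.Prime, 1 / (p : ℝ) - s * RR a b x := by
    rw [sum_sub_distrib, sum_add_distrib, mul_sum]
    have e2 : ∑ p ∈ (range (x + 1)).filter Nat.Prime, s * rho a b p = s * RR a b x := by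
      unfold RR
      rw [← mul_sum, sum_filter]
      congr 1
      refine sum_congr rfl fun p _ => ?_
      split_ifs with hp
      · rfl
      · unfold rho
        rw [if_neg (fun h => hp h.1)]
    rw [e2]
    have e3 : ∀ p ∈ (range (x + 1)).filter Nat.Prime, κ / (p : ℝ) = κ * (1 / (p : ℝ)) :=
      fun p _ => by ring
    rw [sum_congr rfl e3]
    ring
  rw [e1] at h4
  set S1 := ∑ p ∈ (range (x + 1)).filter Nat.Prime, F p
  set S2 := ∑ p ∈ (range (x + 1)).filter Nat.Prime, 1 / (p : ℝ)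
  set L := Real.log (Real.log x)
  have h6 : |s * RR a b x| ≤ ε / 2 * L := by
    rw [abs_mul]
    calc |s| * |RR a b x| ≤ (|s| + 1) * (ε / (2 * (|s| + 1)) * L) :=
          mul_le_mul (by linarith) h1 (abs_nonneg _) (by positivity)
      _ = ε / 2 * L := by field_simp
  have h7 : |κ * (S2 - L)| ≤ κ * C := by
    rw [abs_mul, abs_of_nonneg hκ]
    exact mul_le_mul_of_nonneg_left h5 hκ
  have e4 : S1 - κ * L = (S1 - κ * S2 - s * RR a b x) + κ * (S2 - L) + s * RR a b x := by ring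
  rw [e4]
  refine (abs_add_le _ _).trans ?_
  have h8 := abs_add_le (S1 - κ * S2 - s * RR a b x) (κ * (S2 - L))
  linarith

lemma nu_bad {a b : ℤ} {p : ℕ} (hp : p.Prime) (hg : ¬ GoodPrime a b p) (D : Polynomial ℤ) :
    nu (twA a D) (twB b D) p = 0 := by
  classical
  unfold nu
  have h1 : ∀ j ∈ range p, nuf ((twA a D).eval (j : ℤ)) ((twB b D).eval (j : ℤ)) p = 0 := by
    intro j _
    have e1 : (twA a D).eval (j : ℤ) = a * D.eval (j : ℤ) ^ 2 := by simp [twA]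
    have e2 : (twB b D).eval (j : ℤ) = b * D.eval (j : ℤ) ^ 3 := by simp [twB]
    rw [e1, e2]
    unfold nuf
    rw [if_neg]
    rw [good_twist hp]
    exact fun h => hg h.1
  rw [sum_congr rfl h1, sum_const_zero, zero_div]

/-- the greatest `N` with `N^10 ≤ T` -/
def rt (T : ℕ) : ℕ := Nat.findGreatest (fun n => n ^ 10 ≤ T) T

lemma rt_le (T : ℕ) : rt T ^ 10 ≤ T := by
  have h : (fun n => n ^ 10 ≤ T) (rt T) :=
    Nat.findGreatest_spec (P := fun n => n ^ 10 ≤ T) (Nat.zero_le T) (by simp)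
  exact h

lemma le_rt {T x : ℕ} (h : x ^ 10 ≤ T) : x ≤ rt T :=
  Nat.le_findGreatest ((Nat.le_self_pow (by norm_num) x).trans h) h

/-- the exponent `κ` for the family `D` -/
theorem family {a b : ℤ} (hΔ : 4 * a ^ 3 + 27 * b ^ 2 ≠ 0) (hrs : Tendsto (rsSum a b) atTop (𝓝 0))
    (D : Polynomial ℤ) (κ s K : ℝ) (hκ : 0 ≤ κ) (hK : 0 ≤ K)
    (hgood : ∀ p, GoodPrime a b p →
      |nu (twA a D) (twB b D) p - (κ / p + s * rho a b p)| ≤ K / (p : ℝ) ^ 2)
    {ε η : ℝ} (hε : 0 < ε) (hη : 0 < η) : ∃ X₀ : ℕ, 3 ≤ X₀ ∧ ∀ T : ℕ,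
      ∃ E ⊆ range T, (E.card : ℝ) ≤ η * T ∧ ∀ t ∈ range T, t ∉ E → ∀ x : ℕ, X₀ ≤ x → x ^ 10 ≤ T →
        |∑ p ∈ (range (x + 1)).filter Nat.Prime, lg (a * D.eval (t : ℤ) ^ 2) (b * D.eval (t : ℤ) ^ 3) p -
          κ * Real.log (Real.log x)| ≤ ε * Real.log (Real.log x) := by
  obtain ⟨X₀, hX₀, H⟩ := nagao η hη
  have h1 := asym hΔ hrs (nu (twA a D) (twB b D)) κ s K hκ hK hgood
    (fun p hp hg => nu_bad hp hg D) (show 0 < ε / 2 by positivity)
  have hL : Tendsto (fun x : ℕ => Real.log (Real.log (x : ℝ)) ^ (1 / 6 : ℝ)) atTop atTop :=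
    (tendsto_rpow_atTop (by norm_num)).comp tendsto_loglog
  obtain ⟨X₁, hX₁⟩ := eventually_atTop.1 (h1.and ((hL.eventually_ge_atTop (4 / ε)).and
    (tendsto_loglog.eventually_ge_atTop 1)))
  refine ⟨max X₀ X₁, hX₀.trans (le_max_left _ _), fun T => ?_⟩
  obtain ⟨E, hE, hE1, hE2⟩ := H (twA a D) (twB b D) T (rt T) (rt_le T)
  refine ⟨E, hE, hE1, fun t ht hne x hx hxT => ?_⟩
  have h2 := hE2 t ht hne x ((le_max_left _ _).trans hx) (le_rt hxT)
  obtain ⟨h3, h4, h5⟩ := hX₁ x ((le_max_right _ _).trans hx)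
  have e1 : (twA a D).eval (t : ℤ) = a * D.eval (t : ℤ) ^ 2 := by simp [twA]
  have e2 : (twB b D).eval (t : ℤ) = b * D.eval (t : ℤ) ^ 3 := by simp [twB]
  rw [e1, e2] at h2
  set L := Real.log (Real.log x) with hLd
  have hL0 : 0 < L := by linarith
  have h6 : 2 * L ^ (5 / 6 : ℝ) ≤ ε / 2 * L := by
    have e3 : L = L ^ (1 / 6 : ℝ) * L ^ (5 / 6 : ℝ) := by
      rw [← Real.rpow_add hL0]
      norm_num
    have h7 : 0 < L ^ (5 / 6 : ℝ) := by positivity
    have h8 : 2 ≤ ε / 2 * L ^ (1 / 6 : ℝ) := by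
      rw [div_le_iff₀ hε] at h4
      linarith
    calc 2 * L ^ (5 / 6 : ℝ) ≤ ε / 2 * L ^ (1 / 6 : ℝ) * L ^ (5 / 6 : ℝ) :=
          mul_le_mul_of_nonneg_right h8 h7.le
      _ = ε / 2 * (L ^ (1 / 6 : ℝ) * L ^ (5 / 6 : ℝ)) := by ring
      _ = ε / 2 * L := by rw [← e3]
  rw [abs_le] at h2 h3 ⊢
  constructor <;> linarith [h2.1, h2.2, h3.1, h3.2]

end Pool.Agent.Q28.BP
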