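import Pool.Agent.Q28.BP.Max
import Pool.Agent.Erdos456.Mertens

/-!
# From fourth moments to all lengths
-/

set_option autoImplicit false

open Finset Filter Topology

namespace Pool.Agent.Q28.BP

/-- the weights `1/p` -/
noncomputable def gp (n : ℕ) : ℝ := if n.Prime then 1 / (n : ℝ) else 0

lemma gp_nonneg (n : ℕ) : 0 ≤ gp n := by unfold gp; split_ifs <;> positivity

/-- `2^(2^i) + 1` -/
def QQ (i : ℕ) : ℕ := 2 ^ 2 ^ i + 1

lemma QQ_mono {i j : ℕ} (h : i ≤ j) : QQ i ≤ QQ j := by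
  unfold QQ
  have := Nat.pow_le_pow_right (show 0 < 2 by norm_num) (Nat.pow_le_pow_right (show 0 < 2 by norm_num) h)
  omega

lemma loglog_P {i : ℕ} : Real.log (Real.log ((2 ^ 2 ^ i : ℕ) : ℝ)) =
    i * Real.log 2 + Real.log (Real.log 2) := by
  push_cast
  rw [Real.log_pow, Real.log_mul (by positivity) (by
    have := Real.log_two_gt_d9
    linarith)]
  push_cast
  rw [Real.log_pow]

/-- the sum of the weights over the blocks -/
lemma block_sum : ∃ c : ℝ, 1 ≤ c ∧ ∀ i j : ℕ, 1 ≤ i → i ≤ j →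
    ∑ n ∈ Ico (QQ i) (QQ j), gp n ≤ c * ((j : ℝ) - i + 1) := by
  obtain ⟨C, hC⟩ := Pool.Agent.Erdos456.Mert.mertens_inv
  have hC0 : 0 ≤ C := (abs_nonneg _).trans (hC 3 le_rfl)
  refine ⟨2 * C + 1, by linarith, fun i j hi hij => ?_⟩
  have hP : ∀ k : ℕ, 1 ≤ k → 3 ≤ 2 ^ 2 ^ k := by
    intro k hk
    have h1 : 2 ^ 1 ≤ 2 ^ k := Nat.pow_le_pow_right (by norm_num) hk
    have h2 : 2 ^ 2 ≤ 2 ^ 2 ^ k := Nat.pow_le_pow_right (by norm_num) (by omega)
    omega
  have e : ∀ k : ℕ, ∑ p ∈ (Icc 1 (2 ^ 2 ^ k)).filter Nat.Prime, (1 : ℝ) / p =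
      ∑ n ∈ Ico 0 (QQ k), gp n := by
    intro k
    rw [sum_filter]
    have h1 : Ico 0 (QQ k) = insert 0 (Icc 1 (2 ^ 2 ^ k)) := by
      ext n
      simp only [mem_Ico, mem_insert, mem_Icc, QQ]
      have hp : 0 < 2 ^ 2 ^ k := by positivity
      generalize 2 ^ 2 ^ k = P at hp
      omega
    rw [h1, sum_insert (by simp)]
    have h2 : gp 0 = 0 := by unfold gp; simp [Nat.not_prime_zero]
    rw [h2, zero_add]
    rfl
  have h1 := hC _ (hP i hi)
  have h2 := hC _ (hP j (hi.trans hij))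
  rw [e, loglog_P, abs_le] at h1 h2
  have h3 : ∑ n ∈ Ico 0 (QQ j), gp n = ∑ n ∈ Ico 0 (QQ i), gp n + ∑ n ∈ Ico (QQ i) (QQ j), gp n := by
    rw [sum_Ico_consecutive _ (Nat.zero_le _) (QQ_mono hij)]
  have hl : Real.log 2 ≤ 1 := by have := Real.log_two_lt_d9; linarith
  have hij' : (0 : ℝ) ≤ (j : ℝ) - i := by
    have : (i : ℝ) ≤ j := by exact_mod_cast hij
    linarith
  nlinarith [h1.1, h1.2, h2.1, h2.2, mul_nonneg hij' (sub_nonneg.2 hl), mul_nonneg hC0 hij']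

lemma markov {α : Type*} (W : Finset α) (f : α → ℝ) (hf : ∀ w, 0 ≤ f w) {l B : ℝ} (hl : 0 < l)
    (h : ∑ w ∈ W, f w ^ 4 ≤ B) :
    ((W.filter fun w => l < f w).card : ℝ) ≤ B / l ^ 4 := by
  rw [le_div_iff₀ (by positivity)]
  have h1 : ((W.filter fun w => l < f w).card : ℝ) * l ^ 4 = ∑ _w ∈ W.filter (fun w => l < f w), l ^ 4 := by
    rw [sum_const, nsmul_eq_mul]
  rw [h1]
  refine (sum_le_sum fun w hw => ?_).trans ((sum_le_sum_of_subset_of_nonneg (filter_subset _ _)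
    fun w _ _ => by have := hf w; positivity).trans h)
  exact pow_le_pow_left₀ hl.le (mem_filter.1 hw).2.le 4

/-- **All lengths from fourth moments.** -/
theorem all_lengths (C η : ℝ) (hC : 1 ≤ C) (hη : 0 < η) : ∃ X₀ : ℕ, 3 ≤ X₀ ∧
    ∀ {α : Type} (W : Finset α) (N : ℕ) (X : ℕ → α → ℂ), (∀ n, ∀ w ∈ W, ‖X n w‖ ≤ C) →
      (∀ u v : ℕ, u ≤ v → v ≤ N + 1 →
        ∑ w ∈ W, ‖SS X u v w‖ ^ 4 ≤ C * W.card * (∑ n ∈ Ico u v, gp n) ^ 2) →
      ∃ E ⊆ W, (E.card : ℝ) ≤ η * W.card ∧ ∀ w ∈ W, w ∉ E → ∀ x : ℕ, X₀ ≤ x → x ≤ N →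
        ‖SS X 0 (x + 1) w‖ ≤ Real.log (Real.log x) ^ (5 / 6 : ℝ) := by
  classical
  obtain ⟨c, hc, hblock⟩ := block_sum
  -- the tail
  set f : ℕ → ℝ := fun i => (i : ℝ) ^ (-(6 / 5) : ℝ) with hf
  have hfs : Summable f := Real.summable_nat_rpow.2 (by norm_num)
  have hf0 : ∀ i, 0 ≤ f i := fun i => by rw [hf]; positivity
  set K : ℝ := 6404 * C * c ^ 2 with hK
  have hK0 : 0 < K := by positivity
  have htail := tendsto_sum_nat_add f
  have hev : ∀ᶠ i in atTop, ∑' k, f (k + i) < η / K := by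
    have := htail.eventually (gt_mem_nhds (show (0 : ℝ) < η / K by positivity))
    exact this
  obtain ⟨i₀, hi₀, hi₀1⟩ := (hev.and (eventually_ge_atTop 1)).exists
  -- the starting point
  have hLx : Tendsto (fun x : ℕ => Real.log (Real.log (x : ℝ)) ^ (1 / 30 : ℝ)) atTop atTop :=
    (tendsto_rpow_atTop (by norm_num)).comp (Real.tendsto_log_atTop.comp
      (Real.tendsto_log_atTop.comp (tendsto_natCast_atTop_atTop (R := ℝ))))
  have hLx1 : Tendsto (fun x : ℕ => Real.log (Real.log (x : ℝ))) atTop atTop :=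
    Real.tendsto_log_atTop.comp (Real.tendsto_log_atTop.comp (tendsto_natCast_atTop_atTop (R := ℝ)))
  obtain ⟨X₁, hX₁⟩ := eventually_atTop.1 ((hLx.eventually_ge_atTop (6 + C * QQ i₀)).and
    (hLx1.eventually_ge_atTop 1))
  refine ⟨max X₁ (max (2 ^ 2 ^ i₀) 3), (le_max_right _ _).trans (le_max_right _ _), ?_⟩
  intro α W N X hX H
  -- block ends
  let vv : ℕ → ℕ := fun i => min (QQ (i + 1)) (N + 1)
  let I : Finset ℕ := (Ico i₀ (N + 1)).filter fun i => 2 ^ 2 ^ i ≤ N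
  let B1 : ℕ → Finset α := fun i => W.filter fun w => (i : ℝ) ^ (4 / 5 : ℝ) < MX X (QQ i) (vv i) w
  let B2 : ℕ → Finset α := fun i => W.filter fun w => (i : ℝ) ^ (4 / 5 : ℝ) < ‖SS X (QQ i₀) (QQ i) w‖
  have hcard0 : (0 : ℝ) ≤ W.card := Nat.cast_nonneg _
  have hI : ∀ i ∈ I, 1 ≤ i ∧ i₀ ≤ i ∧ QQ i ≤ N + 1 := by
    intro i hi
    rw [mem_filter, mem_Ico] at hi
    refine ⟨hi₀1.trans hi.1.1, hi.1.1, ?_⟩
    unfold QQ
    omega
  have hpow : ∀ i : ℕ, 1 ≤ i → ((i : ℝ) ^ (4 / 5 : ℝ)) ^ 4 = (i : ℝ) ^ 2 * (i : ℝ) ^ (6 / 5 : ℝ) := by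
    intro i hi
    have hi' : (0 : ℝ) < i := by exact_mod_cast hi
    rw [← Real.rpow_natCast ((i : ℝ) ^ (4 / 5 : ℝ)) 4, ← Real.rpow_mul hi'.le, ← Real.rpow_natCast (i : ℝ) 2,
      ← Real.rpow_add hi']
    norm_num
  have hb1 : ∀ i ∈ I, ((B1 i).card : ℝ) ≤ 6400 * C * c ^ 2 * W.card / (i : ℝ) ^ 2 * f i := by
    intro i hi
    obtain ⟨h1, h2, h3⟩ := hI i hi
    have hi' : (0 : ℝ) < i := by exact_mod_cast h1
    have hle : QQ i ≤ vv i := le_min (QQ_mono (by omega)) h3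
    have m1 := max_ineq X W gp gp_nonneg (by positivity : 0 ≤ C * W.card) H (vv i - QQ i) (QQ i) (by
      have : vv i ≤ N + 1 := min_le_right _ _
      omega)
    rw [show QQ i + (vv i - QQ i) = vv i by omega] at m1
    have m2 : ∑ n ∈ Ico (QQ i) (vv i), gp n ≤ 2 * c := by
      refine (sum_le_sum_of_subset_of_nonneg (Ico_subset_Ico le_rfl (min_le_left _ _))
        fun n _ _ => gp_nonneg n).trans ((hblock i (i + 1) h1 (by omega)).trans (le_of_eq ?_))
      push_cast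
      ring
    have m3 : (0 : ℝ) ≤ ∑ n ∈ Ico (QQ i) (vv i), gp n := sum_nonneg fun n _ => gp_nonneg n
    have m4 : ∑ w ∈ W, MX X (QQ i) (vv i) w ^ 4 ≤ 1600 * (C * W.card) * (2 * c) ^ 2 :=
      m1.trans (mul_le_mul_of_nonneg_left (pow_le_pow_left₀ m3 m2 2) (by positivity))
    have m5 := markov W (MX X (QQ i) (vv i)) (MX_nonneg X _ _) (by positivity : 0 < (i : ℝ) ^ (4 / 5 : ℝ)) m4
    refine m5.trans (le_of_eq ?_)
    rw [hpow i h1, hf]
    simp only
    rw [Real.rpow_neg hi'.le]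
    field_simp
    ring
  have hb2 : ∀ i ∈ I, ((B2 i).card : ℝ) ≤ 4 * C * c ^ 2 * W.card * f i := by
    intro i hi
    obtain ⟨h1, h2, h3⟩ := hI i hi
    have hi' : (0 : ℝ) < i := by exact_mod_cast h1
    have m1 := H (QQ i₀) (QQ i) (QQ_mono h2) h3
    have m2 : ∑ n ∈ Ico (QQ i₀) (QQ i), gp n ≤ 2 * c * i := by
      refine (hblock i₀ i hi₀1 h2).trans ?_
      have : (1 : ℝ) ≤ i₀ := by exact_mod_cast hi₀1
      nlinarith
    have m3 : (0 : ℝ) ≤ ∑ n ∈ Ico (QQ i₀) (QQ i), gp n := sum_nonneg fun n _ => gp_nonneg n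
    have m4 : ∑ w ∈ W, ‖SS X (QQ i₀) (QQ i) w‖ ^ 4 ≤ C * W.card * (2 * c * i) ^ 2 :=
      m1.trans (mul_le_mul_of_nonneg_left (pow_le_pow_left₀ m3 m2 2) (by positivity))
    have m5 := markov W (fun w => ‖SS X (QQ i₀) (QQ i) w‖) (fun _ => norm_nonneg _)
      (by positivity : 0 < (i : ℝ) ^ (4 / 5 : ℝ)) m4
    refine m5.trans (le_of_eq ?_)
    rw [hpow i h1, hf]
    simp only
    rw [Real.rpow_neg hi'.le]
    field_simp
    ring
  refine ⟨I.biUnion fun i => B1 i ∪ B2 i, ?_, ?_, ?_⟩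
  · intro w hw
    rw [mem_biUnion] at hw
    obtain ⟨i, _, hw⟩ := hw
    rw [mem_union] at hw
    rcases hw with hw | hw
    · exact (mem_filter.1 hw).1
    · exact (mem_filter.1 hw).1
  · have h1 : ∀ i ∈ I, ((B1 i ∪ B2 i).card : ℝ) ≤ K * W.card * f i := by
      intro i hi
      have hi' : (1 : ℝ) ≤ i := by exact_mod_cast (hI i hi).1
      have k1 : ((B1 i ∪ B2 i).card : ℝ) ≤ (B1 i).card + (B2 i).card := by
        exact_mod_cast card_union_le _ _
      have k2 : 6400 * C * c ^ 2 * W.card / (i : ℝ) ^ 2 * f i ≤ 6400 * C * c ^ 2 * W.card * f i := by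
        refine mul_le_mul_of_nonneg_right (div_le_self (by positivity) ?_) (hf0 i)
        nlinarith
      have k3 := hb1 i hi
      have k4 := hb2 i hi
      rw [hK]
      linarith
    have h2 : (((I.biUnion fun i => B1 i ∪ B2 i).card : ℕ) : ℝ) ≤ ∑ i ∈ I, K * W.card * f i := by
      refine le_trans ?_ (sum_le_sum h1)
      exact_mod_cast card_biUnion_le
    have h3 : ∑ i ∈ I, f i ≤ ∑' k, f (k + i₀) := by
      refine (sum_le_sum_of_subset_of_nonneg (filter_subset _ _) fun i _ _ => hf0 i).trans ?_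
      rw [sum_Ico_eq_sum_range]
      have e : ∀ k ∈ range (N + 1 - i₀), f (i₀ + k) = f (k + i₀) := fun k _ => by rw [add_comm]
      rw [sum_congr rfl e]
      exact ((summable_nat_add_iff i₀).2 hfs).sum_le_tsum _ fun k _ => hf0 _
    rw [← mul_sum] at h2
    refine h2.trans ?_
    calc K * W.card * ∑ i ∈ I, f i ≤ K * W.card * (η / K) :=
          mul_le_mul_of_nonneg_left (h3.trans hi₀.le) (by positivity)
      _ = η * W.card := by field_simp
  · intro w hw hne x hx hxN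
    have hxX1 : X₁ ≤ x := (le_max_left _ _).trans hx
    have hxP : 2 ^ 2 ^ i₀ ≤ x := (le_max_left _ _).trans ((le_max_right _ _).trans hx)
    have hx3 : 3 ≤ x := (le_max_right _ _).trans ((le_max_right _ _).trans hx)
    obtain ⟨hL1, hL2⟩ := hX₁ x hxX1
    set L : ℝ := Real.log (Real.log x) with hL
    set y : ℕ := Nat.log 2 x with hy
    set i : ℕ := Nat.log 2 y with hi
    have hyi₀ : 2 ^ i₀ ≤ y := Nat.le_log_of_pow_le (by norm_num) hxP
    have hi₀i : i₀ ≤ i := Nat.le_log_of_pow_le (by norm_num) hyi₀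
    have hy0 : y ≠ 0 := by
      have : 0 < 2 ^ i₀ := by positivity
      omega
    have hPi : 2 ^ 2 ^ i ≤ x := by
      refine (Nat.pow_le_pow_right (by norm_num) (Nat.pow_log_le_self 2 hy0)).trans ?_
      exact Nat.pow_log_le_self 2 (by omega)
    have hPi1 : x < 2 ^ 2 ^ (i + 1) := by
      have h1 : y < 2 ^ (i + 1) := Nat.lt_pow_succ_log_self (by norm_num) y
      have h2 : x < 2 ^ (y + 1) := Nat.lt_pow_succ_log_self (by norm_num) x
      exact h2.trans_le (Nat.pow_le_pow_right (by norm_num) h1)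
    have hiN : i < N + 1 := by
      have h1 : i < 2 ^ i := Nat.lt_two_pow_self
      have h2 : 2 ^ i < 2 ^ 2 ^ i := Nat.lt_two_pow_self
      omega
    have hiI : i ∈ I := by
      rw [mem_filter, mem_Ico]
      exact ⟨⟨hi₀i, hiN⟩, hPi.trans hxN⟩
    rw [mem_biUnion] at hne
    push Not at hne
    have hne1 := hne i hiI
    rw [mem_union, not_or] at hne1
    have hM : MX X (QQ i) (vv i) w ≤ (i : ℝ) ^ (4 / 5 : ℝ) := by
      by_contra hc
      exact hne1.1 (mem_filter.2 ⟨hw, not_le.1 hc⟩)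
    have hS : ‖SS X (QQ i₀) (QQ i) w‖ ≤ (i : ℝ) ^ (4 / 5 : ℝ) := by
      by_contra hc
      exact hne1.2 (mem_filter.2 ⟨hw, not_le.1 hc⟩)
    have hQi : QQ i ≤ x + 1 := by
      unfold QQ
      omega
    have hxv : x + 1 ≤ vv i := by
      refine le_min ?_ (by omega)
      unfold QQ
      omega
    have e : SS X 0 (x + 1) w = SS X 0 (QQ i₀) w + (SS X (QQ i₀) (QQ i) w + SS X (QQ i) (x + 1) w) := by
      unfold SS
      rw [sum_Ico_consecutive _ (QQ_mono hi₀i) hQi,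
        sum_Ico_consecutive _ (Nat.zero_le _) ((QQ_mono hi₀i).trans hQi)]
    have h0 : ‖SS X 0 (QQ i₀) w‖ ≤ C * QQ i₀ := by
      unfold SS
      refine (norm_sum_le _ _).trans ((sum_le_sum fun n _ => hX n w hw).trans (le_of_eq ?_))
      rw [sum_const, Nat.card_Ico, nsmul_eq_mul, Nat.sub_zero]
      ring
    have hlast := (le_MX X hQi hxv w).trans hM
    have htot : ‖SS X 0 (x + 1) w‖ ≤ C * QQ i₀ + 2 * (i : ℝ) ^ (4 / 5 : ℝ) := by
      rw [e]
      refine (norm_add_le _ _).trans ?_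
      have := norm_add_le (SS X (QQ i₀) (QQ i) w) (SS X (QQ i) (x + 1) w)
      linarith
    -- `i ≤ 3 L`
    have hl2 := Real.log_two_gt_d9
    have hi3 : (i : ℝ) ≤ 3 * L := by
      have h1 : Real.log (Real.log ((2 ^ 2 ^ i : ℕ) : ℝ)) ≤ L := by
        have h2 : (1 : ℝ) < ((2 ^ 2 ^ i : ℕ) : ℝ) := by
          have : 1 < 2 ^ 2 ^ i := Nat.one_lt_two_pow (by positivity)
          exact_mod_cast this
        have h3 : Real.log ((2 ^ 2 ^ i : ℕ) : ℝ) ≤ Real.log x :=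
          Real.log_le_log (by linarith) (by exact_mod_cast hPi)
        exact Real.log_le_log (Real.log_pos h2) h3
      rw [loglog_P] at h1
      have h4 : -(1 / 2 : ℝ) ≤ Real.log (Real.log 2) := by
        have h5 := Real.log_le_sub_one_of_pos (show (0 : ℝ) < (Real.log 2)⁻¹ by positivity)
        rw [Real.log_inv] at h5
        have h6 : (Real.log 2)⁻¹ ≤ 3 / 2 := by
          rw [inv_le_comm₀ (by positivity) (by norm_num)]
          linarith
        linarith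
      have h7 : (i : ℝ) * 0.6931471803 ≤ i * Real.log 2 :=
        mul_le_mul_of_nonneg_left hl2.le (Nat.cast_nonneg i)
      nlinarith
    have hL0 : 0 < L := by linarith
    have hpow1 : (i : ℝ) ^ (4 / 5 : ℝ) ≤ 3 * L ^ (4 / 5 : ℝ) := by
      refine (Real.rpow_le_rpow (Nat.cast_nonneg i) hi3 (by norm_num)).trans ?_
      rw [Real.mul_rpow (by norm_num) hL0.le]
      refine mul_le_mul_of_nonneg_right ?_ (by positivity)
      have : (3 : ℝ) ^ (4 / 5 : ℝ) ≤ (3 : ℝ) ^ (1 : ℝ) :=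
        Real.rpow_le_rpow_of_exponent_le (by norm_num) (by norm_num)
      rwa [Real.rpow_one] at this
    have hL45 : 1 ≤ L ^ (4 / 5 : ℝ) := Real.one_le_rpow hL2 (by norm_num)
    have hfin : C * QQ i₀ + 2 * (i : ℝ) ^ (4 / 5 : ℝ) ≤ L ^ (1 / 30 : ℝ) * L ^ (4 / 5 : ℝ) := by
      have h1 : (6 + C * QQ i₀) * L ^ (4 / 5 : ℝ) ≤ L ^ (1 / 30 : ℝ) * L ^ (4 / 5 : ℝ) :=
        mul_le_mul_of_nonneg_right hL1 (by positivity)
      have h2 : C * QQ i₀ ≤ C * QQ i₀ * L ^ (4 / 5 : ℝ) :=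
        le_mul_of_one_le_right (by positivity) hL45
      linarith
    refine htot.trans (hfin.trans (le_of_eq ?_))
    rw [← Real.rpow_add hL0]
    norm_num

end Pool.Agent.Q28.BP
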