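import Pool.Agent.Q28.BP.CharQ

/-!
# Almost all characters to a fixed modulus
-/

set_option autoImplicit false

open Finset Filter Topology

namespace Pool.Agent.Q28.BP

lemma eigLe_smul {n : ℕ} {M : Matrix (Fin n) (Fin n) ℂ} (h : EigLe M) {u : ℂ} (hu : ‖u‖ ≤ 1) :
    EigLe (u • M) := by
  obtain ⟨a, h1, h2, h3⟩ := h
  refine ⟨fun j => u * a j, fun j => ?_, fun z => ?_, fun k => ?_⟩
  · rw [norm_mul]
    exact mul_le_one₀ hu (norm_nonneg _) (h1 j)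
  · rw [smul_smul, h2]
    exact Finset.prod_congr rfl fun j _ => by ring
  · rw [smul_pow, Matrix.trace_smul, ← h3 k, smul_eq_mul, Finset.mul_sum]
    exact Finset.sum_congr rfl fun j _ => by ring

/-- the half-integral shift -/
lemma cpow_half {p : ℕ} (hp : 0 < p) (s : ℂ) :
    (p : ℂ) ^ (-s) = (p : ℂ) ^ (-(s - 1 / 2)) / (Real.sqrt p : ℂ) := by
  have hp0 : (p : ℂ) ≠ 0 := by exact_mod_cast hp.ne'
  have h1 : (Real.sqrt p : ℂ) = (p : ℂ) ^ (1 / 2 : ℂ) := by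
    rw [Real.sqrt_eq_rpow, Complex.ofReal_cpow (Nat.cast_nonneg p)]
    norm_num
  rw [h1, ← Complex.cpow_sub _ _ hp0]
  congr 1
  ring

lemma norm_cpow_le {p : ℕ} (hp : 0 < p) {s : ℂ} (hs : 1 / 2 ≤ s.re) : ‖(p : ℂ) ^ (-(s - 1 / 2))‖ ≤ 1 := by
  rw [Complex.norm_natCast_cpow_of_pos hp]
  refine Real.rpow_le_one_of_one_le_of_nonpos (by exact_mod_cast hp) ?_
  have : (-(s - 1 / 2)).re = 1 / 2 - s.re := by
    rw [Complex.neg_re, Complex.sub_re]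
    norm_num
  rw [this]
  linarith

/-- **Almost all characters to a fixed modulus.** -/
theorem char_all (n : ℕ) {η : ℝ} (hη : 0 < η) : ∃ X₀ : ℕ, 16 ≤ X₀ ∧ ∀ (S : Finset ℕ)
    (M : ℕ → Matrix (Fin n) (Fin n) ℂ), (∀ p : ℕ, p.Prime → p ∉ S → EigLe (M p)) → (∀ p < 4, p ∈ S) →
    ∀ (q : ℕ) [NeZero q], ∃ E : Finset (DirichletCharacter ℂ q), (E.card : ℝ) ≤ η * q.totient ∧
      ∀ χ : DirichletCharacter ℂ q, χ ∉ E → ∀ x : ℕ, X₀ ≤ x → x ^ 2 < q →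
        |∑ p ∈ (range (x + 1)).filter Nat.Prime, lc S M (χ (p : ZMod q)) p| ≤
          2 * Real.log (Real.log x) ^ (5 / 6 : ℝ) := by
  obtain ⟨X₀, hX₀, H⟩ := lsi_all n 1 zero_le_one hη
  refine ⟨X₀, hX₀, fun S M hM hS q _ => ?_⟩
  obtain ⟨E, _, hEc, HE⟩ := H univ _ (q - 1) (char_lsi q) S M hM hS
  rw [card_char] at hEc
  exact ⟨E, hEc, fun χ hχ x hx hxq => HE χ (mem_univ _) hχ x hx (by omega)⟩

/-- **The mean over the characters to a fixed modulus.** -/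
theorem char_mean (n : ℕ) : ∃ C : ℝ, 0 ≤ C ∧ ∀ (S : Finset ℕ)
    (M : ℕ → Matrix (Fin n) (Fin n) ℂ), (∀ p : ℕ, p.Prime → p ∉ S → EigLe (M p)) → (∀ p < 4, p ∈ S) →
    ∀ (q : ℕ) [NeZero q] (x : ℕ), 16 ≤ x → x ^ 2 < q →
      ∑ χ : DirichletCharacter ℂ q, |∑ p ∈ (range (x + 1)).filter Nat.Prime, lc S M (χ (p : ZMod q)) p| ≤
        C * q.totient * Real.log (Real.log x) ^ (1 / 2 : ℝ) := by
  obtain ⟨C, hC, H⟩ := lsi_mean n 1 zero_le_one
  refine ⟨C, hC, fun S M hM hS q _ x hx hxq => ?_⟩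
  have h := H univ _ (q - 1) (char_lsi q) S M hM hS x hx (by omega)
  rwa [card_char] at h

/-- the logarithm of a product over primes -/
lemma log_prod_lc {n : ℕ} {S : Finset ℕ} {M : ℕ → Matrix (Fin n) (Fin n) ℂ}
    (hM : ∀ p : ℕ, p.Prime → p ∉ S → EigLe (M p)) (hS : ∀ p < 4, p ∈ S) (z : ℕ → ℂ) (hz : ∀ p, ‖z p‖ ≤ 1)
    (x : ℕ) : Real.log (∏ p ∈ (range (x + 1)).filter (fun p => p.Prime ∧ p ∉ S),
      ‖(1 - (z p / Real.sqrt p) • M p).det‖) = ∑ p ∈ (range (x + 1)).filter Nat.Prime, lc S M (z p) p := by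
  rw [Real.log_prod]
  · rw [sum_filter, sum_filter]
    refine sum_congr rfl fun p _ => ?_
    unfold lc
    by_cases hp : p.Prime
    · by_cases hpS : p ∈ S
      · rw [if_pos hp, if_pos hpS, if_neg fun h => h.2 hpS]
      · rw [if_pos hp, if_neg hpS, if_pos ⟨hp, hpS⟩]
    · rw [if_neg hp, if_neg fun h => hp h.1]
  · intro p hp
    obtain ⟨_, hp, hpS⟩ := mem_filter.1 hp
    have hp0 : (0 : ℝ) < p := by exact_mod_cast hp.pos
    have h4 : (4 : ℝ) ≤ p := by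
      have : 4 ≤ p := by
        by_contra h
        exact hpS (hS p (by omega))
      exact_mod_cast this
    have hs : 0 < Real.sqrt p := Real.sqrt_pos.2 hp0
    have hs2 : 2 ≤ Real.sqrt p := by
      rw [show (2 : ℝ) = Real.sqrt 4 by
        rw [show (4 : ℝ) = 2 ^ 2 by norm_num, Real.sqrt_sq (by norm_num)]]
      exact Real.sqrt_le_sqrt h4
    have hzn : ‖z p / (Real.sqrt p : ℂ)‖ ≤ 1 / 2 := by
      rw [norm_div, Complex.norm_real, Real.norm_eq_abs, abs_of_pos hs]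
      exact (div_le_div_of_nonneg_right (hz p) hs.le).trans (one_div_le_one_div_of_le (by norm_num) hs2)
    exact (local_c (hM p hp hpS) hzn).1.ne'

end Pool.Agent.Q28.BP
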