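import Pool.Agent.Q28.BP.CharA

/-!
# Local polynomials
-/

set_option autoImplicit false

open Finset Filter Topology

namespace Pool.Agent.Q28.BP

lemma eigLe_diagonal {m : ℕ} (a : Fin m → ℂ) (ha : ∀ j, ‖a j‖ ≤ 1) :
    EigLe (Matrix.diagonal a) ∧ ∀ z : ℂ, (1 - z • Matrix.diagonal a).det = ∏ j, (1 - a j * z) := by
  have hdet : ∀ z : ℂ, (1 - z • Matrix.diagonal a).det = ∏ j, (1 - a j * z) := by
    intro z
    have h1 : (1 : Matrix (Fin m) (Fin m) ℂ) - z • Matrix.diagonal a = Matrix.diagonal fun j => 1 - a j * z := by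
      ext i j
      by_cases hij : i = j
      · subst hij
        simp [mul_comm]
      · simp [hij]
    rw [h1, Matrix.det_diagonal]
  refine ⟨⟨a, ha, hdet, fun k => ?_⟩, hdet⟩
  rw [Matrix.diagonal_pow, Matrix.trace_diagonal]
  rfl

lemma exists_mat {m : ℕ} {P : Polynomial ℂ} {r : ℝ} (hr : 0 < r) (h0 : P.coeff 0 = 1)
    (hd : P.natDegree ≤ m) (hroots : ∀ z : ℂ, P.eval z = 0 → 1 ≤ ‖z‖ * r) :
    ∃ M : Matrix (Fin m) (Fin m) ℂ, EigLe M ∧ ∀ z : ℂ, (1 - z • M).det = P.eval (z / r) := by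
  have hP : P ≠ 0 := by
    rintro rfl
    simp at h0
  have hrc : (r : ℂ) ≠ 0 := by exact_mod_cast hr.ne'
  have hcard : P.roots.card = P.natDegree :=
    ((Polynomial.splits_iff_card_roots (f := P)).1 (IsAlgClosed.splits _))
  have hroot : ∀ a ∈ P.roots, a ≠ 0 ∧ 1 ≤ ‖a‖ * r := by
    intro a ha
    have h1 := hroots a ((Polynomial.mem_roots hP).1 ha)
    refine ⟨?_, h1⟩
    rintro rfl
    rw [norm_zero, zero_mul] at h1
    linarith
  have heval : ∀ z : ℂ, P.eval z = P.leadingCoeff * (P.roots.map fun a => z - a).prod := by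
    intro z
    conv_lhs => rw [(IsAlgClosed.splits P).eq_prod_roots]
    rw [Polynomial.eval_mul, Polynomial.eval_C, Polynomial.eval_multiset_prod, Multiset.map_map]
    congr 2
    refine Multiset.map_congr rfl fun a _ => ?_
    simp
  have hone : P.leadingCoeff * (P.roots.map fun a => -a).prod = 1 := by
    rw [← h0, Polynomial.coeff_zero_eq_eval_zero, heval]
    simp
  have hev : ∀ z : ℂ, P.eval z = (P.roots.map fun a => 1 - z / a).prod := by
    intro z
    have h1 : (P.roots.map fun a => z - a).prod =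
        (P.roots.map fun a => -a).prod * (P.roots.map fun a => 1 - z / a).prod := by
      rw [← Multiset.prod_map_mul]
      congr 1
      refine Multiset.map_congr rfl fun a ha => ?_
      have := (hroot a ha).1
      field_simp
      ring
    rw [heval, h1, ← mul_assoc, hone, one_mul]
  obtain ⟨a, ha⟩ : ∃ a : Fin m → ℂ, P.roots.map (fun b : ℂ => 1 / (b * (r : ℂ))) +
      Multiset.replicate (m - P.natDegree) (0 : ℂ) = Finset.univ.val.map a := by
    refine exists_fun _ ?_
    rw [Multiset.card_add, Multiset.card_map, Multiset.card_replicate, hcard]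
    omega
  have hb : ∀ j, ‖a j‖ ≤ 1 := by
    intro j
    have h1 : a j ∈ Finset.univ.val.map a := Multiset.mem_map_of_mem a (Finset.mem_univ_val j)
    rw [← ha, Multiset.mem_add, Multiset.mem_map] at h1
    rcases h1 with ⟨b, hb, hbj⟩ | h1
    · rw [← hbj, norm_div, norm_one, norm_mul, Complex.norm_real, Real.norm_eq_abs, abs_of_pos hr]
      have := (hroot b hb).2
      rw [div_le_one (by linarith)]
      exact this
    · rw [Multiset.eq_of_mem_replicate h1, norm_zero]
      exact zero_le_one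
  obtain ⟨h1, h2⟩ := eigLe_diagonal a hb
  refine ⟨Matrix.diagonal a, h1, fun z => ?_⟩
  rw [h2, hev]
  have h3 : ∏ j, (1 - a j * z) = ((Finset.univ.val.map a).map fun t => 1 - t * z).prod := by
    rw [Multiset.map_map]
    rfl
  rw [h3, ← ha, Multiset.map_add, Multiset.prod_add, Multiset.map_map, Multiset.map_replicate,
    Multiset.prod_replicate, zero_mul, sub_zero, one_pow, mul_one]
  congr 1
  refine Multiset.map_congr rfl fun b hb => ?_
  have := (hroot b hb).1
  simp only [Function.comp]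
  congr 1
  field_simp

/-- the matrices of a family of local polynomials -/
lemma exists_mats {m : ℕ} {P : ℕ → Polynomial ℂ} (hP : ∀ p : ℕ, p.Prime → (P p).coeff 0 = 1 ∧
    (P p).natDegree ≤ m ∧ ∀ z : ℂ, (P p).eval z = 0 → 1 ≤ ‖z‖ * Real.sqrt p) :
    ∃ M : ℕ → Matrix (Fin m) (Fin m) ℂ, ∀ p : ℕ, p.Prime → EigLe (M p) ∧
      ∀ z : ℂ, (1 - (z / Real.sqrt p) • M p).det = (P p).eval (z / p) := by
  have h : ∀ p : ℕ, ∃ M : Matrix (Fin m) (Fin m) ℂ, p.Prime → EigLe M ∧
      ∀ z : ℂ, (1 - (z / Real.sqrt p) • M).det = (P p).eval (z / p) := by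
    intro p
    by_cases hp : p.Prime
    · have hp0 : (0 : ℝ) < p := by exact_mod_cast hp.pos
      have hs : 0 < Real.sqrt p := Real.sqrt_pos.2 hp0
      have hss : (Real.sqrt p : ℂ) * (Real.sqrt p : ℂ) = p := by exact_mod_cast Real.mul_self_sqrt hp0.le
      obtain ⟨h1, h2, h3⟩ := hP p hp
      obtain ⟨M, hM1, hM2⟩ := exists_mat hs h1 h2 h3
      refine ⟨M, fun _ => ⟨hM1, fun z => ?_⟩⟩
      rw [hM2, div_div, hss]
    · exact ⟨0, fun h => absurd h hp⟩
  choose M hM using h
  exact ⟨M, hM⟩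

/-- the logarithm of the product of the values of the local polynomials -/
lemma log_prod_poly {m : ℕ} {P : ℕ → Polynomial ℂ} {M : ℕ → Matrix (Fin m) (Fin m) ℂ}
    (hM : ∀ p : ℕ, p.Prime → EigLe (M p) ∧ ∀ z : ℂ, (1 - (z / Real.sqrt p) • M p).det = (P p).eval (z / p))
    (z : ℕ → ℂ) (hz : ∀ p, ‖z p‖ ≤ 1) (x : ℕ) :
    Real.log (∏ p ∈ (range (x + 1)).filter (fun p => p.Prime ∧ 5 ≤ p), ‖(P p).eval (z p / p)‖) =
      ∑ p ∈ (range (x + 1)).filter Nat.Prime, lc (range 5) M (z p) p := by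
  rw [← log_prod_lc (S := range 5) (fun p hp _ => (hM p hp).1) (fun p hp => mem_range.2 (by omega)) z hz]
  congr 1
  have hset : (range (x + 1)).filter (fun p => p.Prime ∧ 5 ≤ p) =
      (range (x + 1)).filter (fun p => p.Prime ∧ p ∉ range 5) := by
    refine filter_congr fun p _ => ?_
    rw [mem_range, not_lt]
  rw [hset]
  refine prod_congr rfl fun p hp => ?_
  rw [(hM p (mem_filter.1 hp).2.1).2]

end Pool.Agent.Q28.BP
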