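import Pool.Agent.Q28.BP.Lsi

/-!
# The characters to a fixed modulus
-/

set_option autoImplicit false

open Finset Filter Topology

namespace Pool.Agent.Q28.BP

lemma sum_range_zmod' {q : ℕ} [NeZero q] (g : ZMod q → ℂ) :
    ∑ j ∈ range q, g (j : ZMod q) = ∑ z, g z := by
  refine sum_nbij' (fun j => (j : ZMod q)) ZMod.val ?_ ?_ ?_ ?_ ?_
  · intro j _; exact mem_univ _
  · intro z _; exact mem_range.2 (ZMod.val_lt z)
  · intro j hj; exact ZMod.val_cast_of_lt (mem_range.1 hj)
  · intro z _; exact ZMod.natCast_zmod_val z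
  · intro j _; rfl

lemma card_char (q : ℕ) [NeZero q] : (univ : Finset (DirichletCharacter ℂ q)).card = q.totient := by
  rw [card_univ, ← Nat.card_eq_fintype_card]
  exact DirichletCharacter.card_eq_totient_of_hasEnoughRootsOfUnity ℂ q

lemma char_le {q : ℕ} (χ : DirichletCharacter ℂ q) (a : ZMod q) : ‖χ a‖ ≤ 1 := χ.norm_le_one a

/-- the characters mod `q` -/
theorem char_lsi (q : ℕ) [NeZero q] :
    LSI (univ : Finset (DirichletCharacter ℂ q)) (fun χ m => χ (m : ZMod q)) (q - 1) 1 where
  mul := fun χ _ m n => by push_cast; rw [map_mul]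
  le := fun χ _ n => char_le χ _
  ls := fun β => by
    classical
    have hq : 0 < q := NeZero.pos q
    set g : ZMod q → ℂ := fun a => if 1 ≤ a.val then β a.val else 0 with hg
    have h1 := Pool.Agent.Helper112.MLS.sum_all q g
    have e1 : ∀ χ : DirichletCharacter ℂ q, ∑ a : ZMod q, χ a * g a =
        ∑ m ∈ Icc 1 (q - 1), β m * χ (m : ZMod q) := by
      intro χ
      have e2 : ∑ a : ZMod q, χ a * g a = ∑ m ∈ range q, χ (m : ZMod q) * g (m : ZMod q) :=
        (sum_range_zmod' fun a : ZMod q => χ a * g a).symm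
      rw [e2]
      have hsub : Icc 1 (q - 1) ⊆ range q := by
        intro m hm
        rw [mem_Icc] at hm
        rw [mem_range]
        omega
      rw [← sum_subset hsub]
      · refine sum_congr rfl fun m hm => ?_
        rw [mem_Icc] at hm
        have hv : (m : ZMod q).val = m := by
          rw [ZMod.val_natCast, Nat.mod_eq_of_lt (by omega)]
        rw [hg]
        simp only
        rw [hv, if_pos hm.1]
        ring
      · intro m hm hm'
        rw [mem_range] at hm
        have hm0 : m = 0 := by
          by_contra h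
          exact hm' (mem_Icc.2 (by omega))
        have hv : (m : ZMod q).val = m := by
          rw [ZMod.val_natCast, Nat.mod_eq_of_lt hm]
        rw [hg]
        simp only
        rw [hv, if_neg (by omega), mul_zero]
    have e3 : ∑ χ : DirichletCharacter ℂ q, ‖∑ m ∈ Icc 1 (q - 1), β m * χ (m : ZMod q)‖ ^ 2 =
        ∑ χ : DirichletCharacter ℂ q, ‖∑ a : ZMod q, χ⁻¹ a * g a‖ ^ 2 := by
      have e5 := Equiv.sum_comp (Equiv.inv (DirichletCharacter ℂ q))
        fun χ : DirichletCharacter ℂ q => ‖∑ m ∈ Icc 1 (q - 1), β m * χ (m : ZMod q)‖ ^ 2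
      rw [← e5]
      refine sum_congr rfl fun χ _ => ?_
      rw [e1]
      rfl
    rw [e3, h1, card_char, one_mul]
    refine mul_le_mul_of_nonneg_left ?_ (Nat.cast_nonneg _)
    have e4 : ∑ a : (ZMod q)ˣ, ‖g a‖ ^ 2 ≤ ∑ a : ZMod q, ‖g a‖ ^ 2 := by
      have hinj : Set.InjOn (fun a : (ZMod q)ˣ => (a : ZMod q)) (univ : Finset (ZMod q)ˣ) :=
        fun a _ b _ h => Units.ext h
      rw [← sum_image (f := fun a : ZMod q => ‖g a‖ ^ 2) hinj]
      exact sum_le_sum_of_subset_of_nonneg (subset_univ _) fun a _ _ => by positivity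
    refine e4.trans (le_of_eq ?_)
    rw [← sum_range_zmod fun a : ZMod q => ‖g a‖ ^ 2]
    have hsub : Icc 1 (q - 1) ⊆ range q := by
      intro m hm
      rw [mem_Icc] at hm
      rw [mem_range]
      omega
    rw [← sum_subset hsub]
    · refine sum_congr rfl fun m hm => ?_
      rw [mem_Icc] at hm
      have hv : (m : ZMod q).val = m := by
        rw [ZMod.val_natCast, Nat.mod_eq_of_lt (by omega)]
      rw [hg]
      simp only
      rw [hv, if_pos hm.1]
    · intro m hm hm'
      rw [mem_range] at hm
      have hm0 : m = 0 := by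
        by_contra h
        exact hm' (mem_Icc.2 (by omega))
      have hv : (m : ZMod q).val = m := by
        rw [ZMod.val_natCast, Nat.mod_eq_of_lt hm]
      rw [hg]
      simp only
      rw [hv, if_neg (by omega), norm_zero]
      norm_num

end Pool.Agent.Q28.BP
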