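import Pool.Agent.Q28.BP.Asym
import Pool.Agent.W401.Cheb.Main

/-!
# Sums of class functions of Frobenius elements with the weights `1 / p`
-/

set_option autoImplicit false

open Finset Filter Topology NumberField

namespace Pool.Agent.Q28.BP

/-- Abel summation -/
lemma abel (b : ℕ → ℝ) (N : ℕ) : ∑ n ∈ range N, b n / ((n : ℝ) + 1) =
    ∑ n ∈ range N, (∑ k ∈ range (n + 1), b k) * (1 / ((n : ℝ) + 1) - 1 / ((n : ℝ) + 2)) +
      (∑ k ∈ range N, b k) * (1 / ((N : ℝ) + 1)) := by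
  induction N with
  | zero => simp
  | succ N ih =>
    rw [sum_range_succ, ih, sum_range_succ (n := N), sum_range_succ (n := N)]
    push_cast
    ring

lemma telescope (N : ℕ) : ∑ n ∈ range N, (1 / ((n : ℝ) + 1) - 1 / ((n : ℝ) + 2)) + 1 / ((N : ℝ) + 1) = 1 := by
  induction N with
  | zero => simp
  | succ N ih =>
    rw [sum_range_succ]
    push_cast
    have e : (N : ℝ) + 1 + 1 = N + 2 := by ring
    rw [e]
    linarith

lemma abel_bound {b c : ℕ → ℝ} {C : ℝ}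
    (h : ∀ n : ℕ, |∑ k ∈ range n, b k| ≤ ∑ k ∈ range n, c k + C) (N : ℕ) :
    |∑ n ∈ range N, b n / ((n : ℝ) + 1)| ≤ ∑ n ∈ range N, c n / ((n : ℝ) + 1) + C := by
  have hw : ∀ n : ℕ, 0 ≤ 1 / ((n : ℝ) + 1) - 1 / ((n : ℝ) + 2) := by
    intro n
    have h1 : (0 : ℝ) < (n : ℝ) + 1 := by positivity
    have := one_div_le_one_div_of_le h1 (by linarith : (n : ℝ) + 1 ≤ n + 2)
    linarith
  have hw2 : (0 : ℝ) ≤ 1 / ((N : ℝ) + 1) := by positivity
  rw [abel b N, abel c N]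
  refine (abs_add_le _ _).trans ?_
  have h1 : |∑ n ∈ range N, (∑ k ∈ range (n + 1), b k) * (1 / ((n : ℝ) + 1) - 1 / ((n : ℝ) + 2))| ≤
      ∑ n ∈ range N, (∑ k ∈ range (n + 1), c k + C) * (1 / ((n : ℝ) + 1) - 1 / ((n : ℝ) + 2)) := by
    refine (abs_sum_le_sum_abs _ _).trans (sum_le_sum fun n _ => ?_)
    rw [abs_mul, abs_of_nonneg (hw n)]
    exact mul_le_mul_of_nonneg_right (h (n + 1)) (hw n)
  have h2 : |(∑ k ∈ range N, b k) * (1 / ((N : ℝ) + 1))| ≤
      (∑ k ∈ range N, c k + C) * (1 / ((N : ℝ) + 1)) := by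
    rw [abs_mul, abs_of_nonneg hw2]
    exact mul_le_mul_of_nonneg_right (h N) hw2
  refine (add_le_add h1 h2).trans (le_of_eq ?_)
  have h3 := telescope N
  have e1 : ∑ n ∈ range N, (∑ k ∈ range (n + 1), c k + C) * (1 / ((n : ℝ) + 1) - 1 / ((n : ℝ) + 2)) =
      ∑ n ∈ range N, (∑ k ∈ range (n + 1), c k) * (1 / ((n : ℝ) + 1) - 1 / ((n : ℝ) + 2)) +
        C * ∑ n ∈ range N, (1 / ((n : ℝ) + 1) - 1 / ((n : ℝ) + 2)) := by
    rw [mul_sum, ← sum_add_distrib]
    exact sum_congr rfl fun n _ => by ring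
  rw [e1]
  have e2 : ∑ n ∈ range N, (1 / ((n : ℝ) + 1) - 1 / ((n : ℝ) + 2)) = 1 - 1 / ((N : ℝ) + 1) := by linarith
  rw [e2]
  ring

lemma shift_primes (β : ℕ → ℝ) (x : ℕ) : ∑ p ∈ (range (x + 1)).filter Nat.Prime, β p =
    ∑ n ∈ range x, if (n + 1).Prime then β (n + 1) else 0 := by
  rw [sum_filter, sum_range_succ', if_neg Nat.not_prime_zero, add_zero]

lemma primes_card (x : ℕ) : ((range (x + 1)).filter Nat.Prime).card = Nat.primeCounting x := by
  rw [Nat.primeCounting, Nat.primeCounting', Nat.count_eq_card_filter_range]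

/-- from mean values to weighted sums -/
theorem mean_loglog {β : ℕ → ℝ} {K : ℝ} (hβ : ∀ p, |β p| ≤ K)
    (h : Tendsto (fun N : ℕ => (∑ p ∈ (range (N + 1)).filter Nat.Prime, β p) / (Nat.primeCounting N : ℝ))
      atTop (𝓝 0)) {ε : ℝ} (hε : 0 < ε) :
    ∀ᶠ x : ℕ in atTop, |∑ p ∈ (range (x + 1)).filter Nat.Prime, β p / p| ≤ ε * Real.log (Real.log x) := by
  have hK : 0 ≤ K := (abs_nonneg _).trans (hβ 0)
  have h1 : ∀ᶠ N : ℕ in atTop, |(∑ p ∈ (range (N + 1)).filter Nat.Prime, β p) /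
      (Nat.primeCounting N : ℝ)| < ε / 4 := by
    have := h.abs
    rw [abs_zero] at this
    exact this.eventually (gt_mem_nhds (by positivity))
  obtain ⟨N₀, hN₀⟩ := eventually_atTop.1 (h1.and (eventually_ge_atTop 2))
  set C : ℝ := K * (N₀ + 1) with hC
  have hC0 : 0 ≤ C := by positivity
  have h2 : ∀ N : ℕ, |∑ n ∈ range N, (if (n + 1).Prime then β (n + 1) else 0)| ≤
      ∑ n ∈ range N, (if (n + 1).Prime then ε / 4 else 0) + C := by
    intro N
    rw [← shift_primes β N, ← shift_primes (fun _ => ε / 4) N, sum_const, primes_card, nsmul_eq_mul]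
    rcases Nat.lt_or_ge N N₀ with hN | hN
    · have h3 : |∑ p ∈ (range (N + 1)).filter Nat.Prime, β p| ≤ C := by
        refine (abs_sum_le_sum_abs _ _).trans ((sum_le_sum fun p _ => hβ p).trans ?_)
        rw [sum_const, nsmul_eq_mul, hC, mul_comm]
        refine mul_le_mul_of_nonneg_left ?_ hK
        have h4 : ((range (N + 1)).filter Nat.Prime).card ≤ N₀ + 1 :=
          (card_filter_le _ _).trans (by rw [card_range]; omega)
        exact_mod_cast h4
      have : 0 ≤ (Nat.primeCounting N : ℝ) * (ε / 4) := by positivity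
      linarith
    · obtain ⟨h3, h4⟩ := hN₀ N hN
      have h5 : (0 : ℝ) < Nat.primeCounting N := by
        have : 0 < Nat.primeCounting N := by
          rw [← primes_card]
          exact card_pos.2 ⟨2, mem_filter.2 ⟨mem_range.2 (by omega), Nat.prime_two⟩⟩
        exact_mod_cast this
      rw [abs_div, abs_of_pos h5, div_lt_iff₀ h5] at h3
      linarith
  obtain ⟨C', hC'0, hC'⟩ := sum_inv_loglog
  filter_upwards [tendsto_loglog.eventually_ge_atTop (max 1 ((C + ε / 4 * C') / (ε / 2))),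
    eventually_ge_atTop 3] with x hx hx3
  have hL1 : 1 ≤ Real.log (Real.log x) := (le_max_left _ _).trans hx
  have hL2 : (C + ε / 4 * C') / (ε / 2) ≤ Real.log (Real.log x) := (le_max_right _ _).trans hx
  rw [div_le_iff₀ (by positivity)] at hL2
  have h3 := abel_bound h2 x
  have e1 : ∑ n ∈ range x, (if (n + 1).Prime then β (n + 1) else 0) / ((n : ℝ) + 1) =
      ∑ p ∈ (range (x + 1)).filter Nat.Prime, β p / p := by
    rw [shift_primes (fun p => β p / p) x]
    refine sum_congr rfl fun n _ => ?_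
    split_ifs
    · push_cast; rfl
    · rw [zero_div]
  have e2 : ∑ n ∈ range x, (if (n + 1).Prime then ε / 4 else 0) / ((n : ℝ) + 1) =
      ε / 4 * ∑ p ∈ (range (x + 1)).filter Nat.Prime, 1 / (p : ℝ) := by
    rw [shift_primes (fun p => 1 / (p : ℝ)) x, mul_sum]
    refine sum_congr rfl fun n _ => ?_
    split_ifs
    · push_cast; ring
    · rw [zero_div, mul_zero]
  rw [e1, e2] at h3
  have h4 := (abs_le.1 (hC' x hx3)).2
  have h5 : ε / 4 * ∑ p ∈ (range (x + 1)).filter Nat.Prime, 1 / (p : ℝ) ≤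
      ε / 4 * (Real.log (Real.log x) + C') := mul_le_mul_of_nonneg_left (by linarith) (by positivity)
  have h6 : 0 ≤ ε / 4 * C' := by positivity
  nlinarith

/-- the same for a general mean value -/
theorem mean_loglog' {β : ℕ → ℝ} {K c : ℝ} (hβ : ∀ p, |β p| ≤ K)
    (h : Tendsto (fun N : ℕ => (∑ p ∈ (range (N + 1)).filter Nat.Prime, β p) / (Nat.primeCounting N : ℝ))
      atTop (𝓝 c)) {ε : ℝ} (hε : 0 < ε) :
    ∀ᶠ x : ℕ in atTop, |∑ p ∈ (range (x + 1)).filter Nat.Prime, β p / p - c * Real.log (Real.log x)| ≤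
      ε * Real.log (Real.log x) := by
  have h1 : Tendsto (fun N : ℕ => (∑ p ∈ (range (N + 1)).filter Nat.Prime, (β p - c)) /
      (Nat.primeCounting N : ℝ)) atTop (𝓝 0) := by
    have h2 := h.sub_const c
    rw [sub_self] at h2
    refine h2.congr' ?_
    filter_upwards [eventually_ge_atTop 2] with N hN
    have h5 : (0 : ℝ) < Nat.primeCounting N := by
      have : 0 < Nat.primeCounting N := by
        rw [← primes_card]
        exact card_pos.2 ⟨2, mem_filter.2 ⟨mem_range.2 (by omega), Nat.prime_two⟩⟩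
      exact_mod_cast this
    rw [sum_sub_distrib, sum_const, primes_card, nsmul_eq_mul, sub_div, mul_div_assoc,
      mul_div_cancel₀ _ h5.ne']
  have h2 := mean_loglog (β := fun p => β p - c) (K := K + |c|)
    (fun p => (abs_sub _ _).trans (add_le_add (hβ p) le_rfl)) h1 (half_pos hε)
  obtain ⟨C', hC'0, hC'⟩ := sum_inv_loglog
  filter_upwards [h2, tendsto_loglog.eventually_ge_atTop (max 1 ((|c| * C') / (ε / 2))),
    eventually_ge_atTop 3] with x hx1 hx2 hx3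
  have hL2 : (|c| * C') / (ε / 2) ≤ Real.log (Real.log x) := (le_max_right _ _).trans hx2
  rw [div_le_iff₀ (by positivity)] at hL2
  have e1 : ∑ p ∈ (range (x + 1)).filter Nat.Prime, β p / p - c * Real.log (Real.log x) =
      ∑ p ∈ (range (x + 1)).filter Nat.Prime, (β p - c) / p +
        c * (∑ p ∈ (range (x + 1)).filter Nat.Prime, 1 / (p : ℝ) - Real.log (Real.log x)) := by
    rw [mul_sub, mul_sum, ← add_sub_assoc, ← sum_add_distrib]
    congr 1
    exact sum_congr rfl fun p _ => by ring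
  rw [e1]
  refine (abs_add_le _ _).trans ?_
  rw [abs_mul]
  have h4 := mul_le_mul_of_nonneg_left (hC' x hx3) (abs_nonneg c)
  linarith

/-! ### Frobenius elements -/

open Pool.Agent.W401.Cheb (HasFrob xp pr TorAt)

/-- `g` is a Frobenius element at `p` -/
def FrobAt (L : Type) [Field L] [NumberField L] (p : ℕ) (g : Gal(L/ℚ)) : Prop :=
  ∃ (_ : Fact p.Prime) (φ : 𝓞 L →+* AlgebraicClosure (ZMod p)), ∀ x : 𝓞 L, φ (g • x) = φ x ^ p

lemma class_sum {L : Type} [Field L] [NumberField L] [IsGalois ℚ L] {p : ℕ} [Fact p.Prime]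
    (h : TorAt L p) {φ : 𝓞 L →+* AlgebraicClosure (ZMod p)} {τ : Gal(L/ℚ)} (hτ : HasFrob p φ τ)
    (f : Gal(L/ℚ) → ℝ) (hf : ∀ g k, f (k⁻¹ * g * k) = f g) :
    ∑ g : Gal(L/ℚ), (xp L g p : ℝ) * f g = Nat.card Gal(L/ℚ) * f τ := by
  classical
  have h1 : ∀ g : Gal(L/ℚ), (xp L g p : ℝ) * f g =
      ∑ σ ∈ (univ : Finset Gal(L/ℚ)).filter (fun σ => σ⁻¹ * τ * σ = g), f (σ⁻¹ * τ * σ) := by
    intro g
    rw [Pool.Agent.W401.Cheb.xp_eq h hτ, Nat.card_eq_fintype_card, Fintype.card_subtype,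
      ← nsmul_eq_mul, ← sum_const]
    exact sum_congr rfl fun σ hσ => by rw [(mem_filter.1 hσ).2]
  rw [sum_congr rfl fun g _ => h1 g, sum_fiberwise_of_maps_to (s := (univ : Finset Gal(L/ℚ)))
    (t := univ) (g := fun σ => σ⁻¹ * τ * σ) (fun _ _ => mem_univ _) (fun σ => f (σ⁻¹ * τ * σ))]
  rw [sum_congr rfl fun σ _ => hf τ σ, sum_const, card_univ, nsmul_eq_mul, Nat.card_eq_fintype_card]

/-- **Chebotarev**, for class functions -/
theorem frob_mean (L : Type) [Field L] [NumberField L] [IsGalois ℚ L] (σ : ℕ → Gal(L/ℚ)) (S : Finset ℕ)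
    (hσ : ∀ p : ℕ, p.Prime → p ∉ S → FrobAt L p (σ p))
    (f : Gal(L/ℚ) → ℝ) (hf : ∀ g k, f (k⁻¹ * g * k) = f g) :
    Tendsto (fun N : ℕ => (∑ p ∈ (range (N + 1)).filter Nat.Prime, if p ∈ S then 0 else f (σ p)) /
      (Nat.primeCounting N : ℝ)) atTop (𝓝 ((∑ g : Gal(L/ℚ), f g) / Nat.card Gal(L/ℚ))) := by
  classical
  obtain ⟨D, hD, hT⟩ := Pool.Agent.W401.Cheb.torsor L
  have hc0 : (0 : ℝ) < Nat.card Gal(L/ℚ) := by exact_mod_cast Nat.card_pos
  have h1 : Tendsto (Pool.Agent.W401.Cheb.M fun p => ∑ g : Gal(L/ℚ), (f g / Nat.card Gal(L/ℚ)) * (xp L g p : ℝ))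
      atTop (𝓝 ((∑ g : Gal(L/ℚ), f g) / Nat.card Gal(L/ℚ))) := by
    have h2 : Tendsto (fun N => ∑ g : Gal(L/ℚ), (f g / Nat.card Gal(L/ℚ)) *
        Pool.Agent.W401.Cheb.M (fun p => (xp L g p : ℝ)) N) atTop
        (𝓝 (∑ g : Gal(L/ℚ), (f g / Nat.card Gal(L/ℚ)) * 1)) :=
      tendsto_finsetSum _ fun g _ => (Pool.Agent.W401.Cheb.chebotarev L g).const_mul _
    have e1 : ∑ g : Gal(L/ℚ), (f g / Nat.card Gal(L/ℚ)) * 1 =
        (∑ g : Gal(L/ℚ), f g) / Nat.card Gal(L/ℚ) := by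
      rw [sum_div]
      exact sum_congr rfl fun g _ => mul_one _
    rw [e1] at h2
    refine h2.congr fun N => ?_
    rw [Pool.Agent.W401.Cheb.M_sum]
    exact sum_congr rfl fun g _ => (Pool.Agent.W401.Cheb.M_smul _ _ _).symm
  have hD' : 0 < D * ∏ s ∈ S.filter (fun s => 0 < s), s :=
    Nat.mul_pos hD (Finset.prod_pos fun s hs => (mem_filter.1 hs).2)
  have h3 := Pool.Agent.W401.Cheb.M_congr (a := fun p => if p ∈ S then 0 else f (σ p)) hD' (fun p hp hpD => by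
    have hpS : p ∉ S := by
      intro h
      exact hpD (Dvd.dvd.mul_left (Finset.dvd_prod_of_mem _ (mem_filter.2 ⟨h, hp.pos⟩)) _)
    have : Fact p.Prime := ⟨hp⟩
    have hTp := hT p (fun h => hpD (Dvd.dvd.mul_right h _))
    obtain ⟨_, φ, hφ⟩ := hσ p hp hpS
    have h4 := class_sum hTp (φ := φ) hφ f hf
    rw [if_neg hpS]
    have e1 : ∑ g : Gal(L/ℚ), (f g / Nat.card Gal(L/ℚ)) * (xp L g p : ℝ) =
        (∑ g : Gal(L/ℚ), (xp L g p : ℝ) * f g) / Nat.card Gal(L/ℚ) := by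
      rw [sum_div]
      exact sum_congr rfl fun g _ => by ring
    rw [e1, h4, mul_div_cancel_left₀ _ hc0.ne']) h1
  exact h3

/-- the weighted form -/
theorem frob_loglog (L : Type) [Field L] [NumberField L] [IsGalois ℚ L] (σ : ℕ → Gal(L/ℚ)) (S : Finset ℕ)
    (hσ : ∀ p : ℕ, p.Prime → p ∉ S → FrobAt L p (σ p))
    (f : Gal(L/ℚ) → ℝ) (hf : ∀ g k, f (k⁻¹ * g * k) = f g) {ε : ℝ} (hε : 0 < ε) :
    ∀ᶠ x : ℕ in atTop, |∑ p ∈ (range (x + 1)).filter Nat.Prime, (if p ∈ S then 0 else f (σ p)) / p -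
      (∑ g : Gal(L/ℚ), f g) / Nat.card Gal(L/ℚ) * Real.log (Real.log x)| ≤
        ε * Real.log (Real.log x) := by
  classical
  refine mean_loglog' (K := ∑ g : Gal(L/ℚ), |f g|) (fun p => ?_) (frob_mean L σ S hσ f hf) hε
  split_ifs
  · rw [abs_zero]
    exact sum_nonneg fun _ _ => abs_nonneg _
  · exact single_le_sum (f := fun g => |f g|) (fun _ _ => abs_nonneg _) (mem_univ _)

end Pool.Agent.Q28.BP
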