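import Pool.Agent.Q28.BP.Both

/-!
# The second moment of `∑_x χ(x³ + A x + j)` over `j`
-/

set_option autoImplicit false

open Finset Filter Topology

namespace Pool.Agent.Q28.BP

open Pool.Agent.W263.BSD (pointCount GoodPrime rsSum)

section

variable {p : ℕ} [Fact p.Prime]

lemma ch_one : ch (1 : ZMod p) = 1 := by unfold ch; simp

lemma sum_inv_shift (hp : p ≠ 2) {c : ZMod p} (hc : c ≠ 0) :
    ∑ j : ZMod p, ch (1 + c * j⁻¹) = 0 := by
  rw [← ch_sum hp]
  exact Equiv.sum_comp (((Equiv.inv (ZMod p)).trans (Equiv.mulLeft₀ c hc)).trans (Equiv.addLeft 1)) ch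

lemma corr (hp : p ≠ 2) {c : ZMod p} (hc : c ≠ 0) : ∑ j : ZMod p, ch j * ch (c + j) = -1 := by
  have h1 : ∀ j : ZMod p, ch j * ch (c + j) = ch (1 + c * j⁻¹) - (if j = 0 then 1 else 0) := by
    intro j
    by_cases hj : j = 0
    · subst hj
      simp [ch_zero, ch_one]
    · rw [if_neg hj, sub_zero]
      have e : c + j = j * (1 + c * j⁻¹) := by field_simp; ring
      rw [e, ch_mul, ← mul_assoc, ← sq, ch_sq hj, one_mul]
  rw [sum_congr rfl fun j _ => h1 j, sum_sub_distrib, sum_inv_shift hp hc]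
  simp

lemma corr2 (hp : p ≠ 2) (u v : ZMod p) :
    ∑ j : ZMod p, ch (u + j) * ch (v + j) = (if u = v then (p : ℝ) else 0) - 1 := by
  have h1 : ∑ j : ZMod p, ch (u + j) * ch (v + j) = ∑ j : ZMod p, ch j * ch ((v - u) + j) := by
    rw [← Equiv.sum_comp (Equiv.addLeft u) (fun j => ch j * ch ((v - u) + j))]
    refine sum_congr rfl fun j _ => ?_
    simp only [Equiv.coe_addLeft]
    congr 2
    ring
  rw [h1]
  by_cases h : u = v
  · subst h
    rw [if_pos rfl, sub_self]
    have h2 : ∀ j : ZMod p, ch j * ch (0 + j) = 1 - (if j = 0 then 1 else 0) := by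
      intro j
      rw [zero_add]
      by_cases hj : j = 0
      · subst hj; simp [ch_zero]
      · rw [if_neg hj, sub_zero, ← sq, ch_sq hj]
    rw [sum_congr rfl fun j _ => h2 j, sum_sub_distrib, sum_const, card_univ, ZMod.card]
    simp
  · rw [if_neg h, corr hp (sub_ne_zero.2 (Ne.symm h))]
    ring

/-- the number of the pairs with `x³ + A x = y³ + A y` -/
noncomputable def PA (A : ZMod p) : ℝ :=
  (((univ : Finset (ZMod p × ZMod p)).filter fun q => q.1 ^ 3 + A * q.1 = q.2 ^ 3 + A * q.2).card : ℝ)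

lemma cs_sum (hp : p ≠ 2) (A : ZMod p) : ∑ j : ZMod p, cs A j = 0 := by
  unfold cs
  rw [sum_comm]
  refine sum_eq_zero fun x _ => ?_
  rw [← ch_sum hp]
  exact Equiv.sum_comp (Equiv.addLeft (x ^ 3 + A * x)) ch

lemma cs_sq (hp : p ≠ 2) (A : ZMod p) : ∑ j : ZMod p, cs A j ^ 2 = p * PA A - (p : ℝ) ^ 2 := by
  classical
  have h1 : ∀ j : ZMod p, cs A j ^ 2 = ∑ x : ZMod p, ∑ y : ZMod p,
      ch ((x ^ 3 + A * x) + j) * ch ((y ^ 3 + A * y) + j) := by
    intro j
    unfold cs
    rw [sq, sum_mul_sum]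
  rw [sum_congr rfl fun j _ => h1 j, sum_comm]
  have h2 : ∀ x : ZMod p, ∑ j : ZMod p, ∑ y : ZMod p,
      ch ((x ^ 3 + A * x) + j) * ch ((y ^ 3 + A * y) + j) =
      ∑ y : ZMod p, ((if x ^ 3 + A * x = y ^ 3 + A * y then (p : ℝ) else 0) - 1) := by
    intro x
    rw [sum_comm]
    exact sum_congr rfl fun y _ => corr2 hp _ _
  rw [sum_congr rfl fun x _ => h2 x]
  simp only [sum_sub_distrib, sum_const, card_univ, ZMod.card, nsmul_eq_mul, mul_one]
  have h3 : ∑ x : ZMod p, ∑ y : ZMod p, (if x ^ 3 + A * x = y ^ 3 + A * y then (p : ℝ) else 0) =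
      p * PA A := by
    unfold PA
    rw [card_filter, Fintype.sum_prod_type]
    push_cast
    rw [mul_sum]
    refine sum_congr rfl fun x _ => ?_
    rw [mul_sum]
    refine sum_congr rfl fun y _ => ?_
    split_ifs <;> simp
  rw [h3]
  ring

lemma sum_sq_fibre (hp : p ≠ 2) (h : ZMod p → ℝ) :
    ∑ y : ZMod p, h (y ^ 2) = ∑ z : ZMod p, (1 + ch z) * h z := by
  classical
  rw [← sum_fiberwise_of_maps_to (s := (univ : Finset (ZMod p))) (t := univ)
    (g := fun y : ZMod p => y ^ 2) (fun _ _ => mem_univ _)]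
  refine sum_congr rfl fun z _ => ?_
  rw [← card_sq hp z, ← nsmul_eq_mul, ← sum_const]
  exact sum_congr rfl fun y hy => by rw [(mem_filter.1 hy).2]

lemma quad_sum (hp : p ≠ 2) {α β : ZMod p} (hα : α ≠ 0) (hβ : β ≠ 0) :
    |∑ y : ZMod p, ch (α * y ^ 2 + β)| ≤ 1 := by
  rw [sum_sq_fibre hp (fun z => ch (α * z + β))]
  have h1 : ∀ z : ZMod p, (1 + ch z) * ch (α * z + β) =
      ch (α * z + β) + ch α * (ch (α * z) * ch (β + α * z)) := by
    intro z
    rw [ch_mul α z, add_comm β]
    have := ch_sq hα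
    calc (1 + ch z) * ch (α * z + β) = ch (α * z + β) + 1 * ch z * ch (α * z + β) := by ring
      _ = ch (α * z + β) + ch α ^ 2 * ch z * ch (α * z + β) := by rw [this]
      _ = _ := by ring
  rw [sum_congr rfl fun z _ => h1 z, sum_add_distrib, ← mul_sum]
  have h2 : ∑ z : ZMod p, ch (α * z + β) = 0 := by
    rw [← ch_sum hp]
    exact Equiv.sum_comp ((Equiv.mulLeft₀ α hα).trans (Equiv.addRight β)) ch
  have h3 : ∑ z : ZMod p, ch (α * z) * ch (β + α * z) = -1 := by
    rw [← corr hp hβ]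
    exact Equiv.sum_comp (Equiv.mulLeft₀ α hα) (fun j => ch j * ch (β + j))
  rw [h2, h3, zero_add, mul_neg_one, abs_neg]
  exact ch_abs α

lemma two_ne (hp : p ≠ 2) : (2 : ZMod p) ≠ 0 := by
  have hp' : p.Prime := Fact.out
  intro h
  have h1 : ((2 : ℕ) : ZMod p) = 0 := by exact_mod_cast h
  have h2 := (ZMod.natCast_eq_zero_iff 2 p).1 h1
  exact hp ((Nat.prime_dvd_prime_iff_eq hp' Nat.prime_two).1 h2)

lemma three_ne (hp : p ≠ 3) : (3 : ZMod p) ≠ 0 := by
  have hp' : p.Prime := Fact.out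
  intro h
  have h1 : ((3 : ℕ) : ZMod p) = 0 := by exact_mod_cast h
  have h2 := (ZMod.natCast_eq_zero_iff 3 p).1 h1
  exact hp ((Nat.prime_dvd_prime_iff_eq hp' Nat.prime_three).1 h2)

/-- the conic -/
lemma conic (hp : p ≠ 2) (hp3 : p ≠ 3) {A : ZMod p} (hA : A ≠ 0) :
    |(((univ : Finset (ZMod p × ZMod p)).filter fun q =>
      q.1 ^ 2 + q.1 * q.2 + q.2 ^ 2 + A = 0).card : ℝ) - p| ≤ 1 := by
  classical
  have h2 := two_ne hp
  have h3 := three_ne hp3
  rw [card_filter, Fintype.sum_prod_type_right]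
  have h1 : ∀ y : ZMod p, (∑ x : ZMod p, if x ^ 2 + x * y + y ^ 2 + A = 0 then 1 else 0 : ℕ) =
      ((univ : Finset (ZMod p)).filter fun w => w ^ 2 = -3 * y ^ 2 + -4 * A).card := by
    intro y
    rw [← card_filter]
    refine card_bij (fun x _ => 2 * x + y) ?_ ?_ ?_
    · intro x hx
      rw [mem_filter] at hx ⊢
      refine ⟨mem_univ _, ?_⟩
      linear_combination 4 * hx.2
    · intro x _ x' _ h
      have : 2 * x = 2 * x' := by linear_combination h
      exact mul_left_cancel₀ h2 this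
    · intro w hw
      rw [mem_filter] at hw
      refine ⟨(w - y) / 2, ?_, ?_⟩
      · rw [mem_filter]
        refine ⟨mem_univ _, ?_⟩
        have h4 : (4 : ZMod p) ≠ 0 := by
          have : (4 : ZMod p) = 2 * 2 := by norm_num
          rw [this]
          exact mul_ne_zero h2 h2
        have e : (4 : ZMod p) * (((w - y) / 2) ^ 2 + (w - y) / 2 * y + y ^ 2 + A) = 0 := by
          have h5 : 2 * ((w - y) / 2) = w - y := mul_div_cancel₀ _ h2
          linear_combination (2 * ((w - y) / 2) + (w - y) + 2 * y) * h5 + hw.2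
        exact (mul_eq_zero.1 e).resolve_left h4
      · rw [mul_div_cancel₀ _ h2]
        ring
  have h4 : ((∑ y : ZMod p, ∑ x : ZMod p, if x ^ 2 + x * y + y ^ 2 + A = 0 then 1 else 0 : ℕ) : ℝ) =
      p + ∑ y : ZMod p, ch (-3 * y ^ 2 + -4 * A) := by
    rw [sum_congr rfl fun y _ => h1 y]
    push_cast
    rw [sum_congr rfl fun y _ => card_sq hp _, sum_add_distrib, sum_const, card_univ, ZMod.card,
      nsmul_eq_mul, mul_one]
  rw [h4, add_sub_cancel_left]
  refine quad_sum hp (neg_ne_zero.2 h3) ?_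
  have : (-4 : ZMod p) = -(2 * 2) := by norm_num
  rw [this]
  exact mul_ne_zero (neg_ne_zero.2 (mul_ne_zero h2 h2)) hA

/-- the number of pairs for `A ≠ 0` -/
lemma PA_bound (hp : p ≠ 2) (hp3 : p ≠ 3) {A : ZMod p} (hA : A ≠ 0) : |PA A - 2 * p| ≤ 3 := by
  classical
  set Q := (univ : Finset (ZMod p × ZMod p)).filter fun q => q.1 ^ 2 + q.1 * q.2 + q.2 ^ 2 + A = 0
    with hQ
  set Dg := (univ : Finset (ZMod p × ZMod p)).filter fun q => q.1 = q.2 with hDg
  have hcD : Dg.card = p := by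
    have h1 : Dg = (univ : Finset (ZMod p)).image fun x => (x, x) := by
      ext ⟨x, y⟩
      simp [hDg, eq_comm]
    rw [h1, card_image_of_injective _ (fun x y h => (Prod.mk.inj h).1), card_univ, ZMod.card]
  have hP : (univ : Finset (ZMod p × ZMod p)).filter
      (fun q => q.1 ^ 3 + A * q.1 = q.2 ^ 3 + A * q.2) = Dg ∪ Q := by
    ext ⟨x, y⟩
    simp only [hDg, hQ, mem_filter, mem_univ, true_and, mem_union]
    constructor
    · intro h
      have h1 : (x - y) * (x ^ 2 + x * y + y ^ 2 + A) = 0 := by linear_combination h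
      rcases mul_eq_zero.1 h1 with h2 | h2
      · left; exact sub_eq_zero.1 h2
      · right; exact h2
    · rintro (h | h)
      · rw [h]
      · linear_combination (x - y) * h
  have hI : (Dg ∩ Q).card ≤ 2 := by
    have h1 : (Dg ∩ Q).card ≤ ((univ : Finset (ZMod p)).filter fun w => w ^ 2 = -A / 3).card := by
      refine card_le_card_of_injOn (fun q => q.1) ?_ ?_
      · intro q hq
        rw [mem_coe, mem_inter, hDg, hQ, mem_filter, mem_filter] at hq
        rw [mem_coe, mem_filter]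
        refine ⟨mem_univ _, ?_⟩
        obtain ⟨⟨_, h2⟩, _, h3⟩ := hq
        rw [← h2] at h3
        rw [eq_div_iff (three_ne hp3)]
        linear_combination h3
      · intro q hq q' hq' h
        rw [mem_coe, mem_inter, hDg, mem_filter] at hq hq'
        exact Prod.ext h (by rw [← hq.1.2, ← hq'.1.2]; exact h)
    have h2 := card_sq hp (-A / 3)
    have h3 := (abs_le.1 (ch_abs (-A / 3 : ZMod p))).2
    have h4 : (((univ : Finset (ZMod p)).filter fun w => w ^ 2 = -A / 3).card : ℝ) ≤ 2 := by linarith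
    exact h1.trans (by exact_mod_cast h4)
  have hc := card_union_add_card_inter Dg Q
  have hc' : PA A + ((Dg ∩ Q).card : ℝ) = p + Q.card := by
    unfold PA
    rw [hP]
    rw [hcD] at hc
    exact_mod_cast hc
  have hq := conic hp hp3 hA
  rw [← hQ, abs_le] at hq
  have h5 : ((Dg ∩ Q).card : ℝ) ≤ 2 := by exact_mod_cast hI
  have h6 : (0 : ℝ) ≤ (Dg ∩ Q).card := Nat.cast_nonneg _
  rw [abs_le]
  constructor <;> linarith [hq.1, hq.2]

lemma PA_zero : PA (0 : ZMod p) ≤ 3 * p := by
  classical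
  unfold PA
  rw [card_filter, Fintype.sum_prod_type_right]
  have h1 : ∀ y : ZMod p, (∑ x : ZMod p, if x ^ 3 + 0 * x = y ^ 3 + 0 * y then 1 else 0 : ℕ) ≤ 3 := by
    intro y
    rw [← card_filter]
    have h2 : (univ : Finset (ZMod p)).filter (fun x => x ^ 3 + 0 * x = y ^ 3 + 0 * y) ⊆
        (Polynomial.X ^ 3 - Polynomial.C (y ^ 3) : Polynomial (ZMod p)).roots.toFinset := by
      intro x hx
      rw [mem_filter] at hx
      rw [Multiset.mem_toFinset, Polynomial.mem_roots (Polynomial.X_pow_sub_C_ne_zero (by norm_num) _)]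
      simp only [Polynomial.IsRoot, Polynomial.eval_sub, Polynomial.eval_pow, Polynomial.eval_X,
        Polynomial.eval_C]
      linear_combination hx.2
    refine (card_le_card h2).trans ((Multiset.toFinset_card_le _).trans
      ((Polynomial.card_roots' _).trans ?_))
    rw [Polynomial.natDegree_X_pow_sub_C]
  have h2 : (∑ y : ZMod p, ∑ x : ZMod p, if x ^ 3 + 0 * x = y ^ 3 + 0 * y then 1 else 0 : ℕ) ≤
      ∑ _y : ZMod p, 3 := sum_le_sum fun y _ => h1 y
  rw [sum_const, card_univ, ZMod.card, smul_eq_mul, mul_comm] at h2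
  exact_mod_cast h2

/-- the singular cubics -/
lemma cs_singular (hp : p ≠ 2) (hp3 : p ≠ 3) {A B : ZMod p} (h : 4 * A ^ 3 + 27 * B ^ 2 = 0) :
    |cs A B| ≤ 1 := by
  classical
  have h2 := two_ne hp
  have h3 := three_ne hp3
  obtain ⟨α, hA, hB⟩ : ∃ α : ZMod p, A = -3 * α ^ 2 ∧ B = 2 * α ^ 3 := by
    by_cases hA : A = 0
    · subst hA
      have h27 : (27 : ZMod p) ≠ 0 := by
        have : (27 : ZMod p) = 3 ^ 3 := by norm_num
        rw [this]
        exact pow_ne_zero 3 h3
      have hB : B = 0 := by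
        have h4 : (27 : ZMod p) * B ^ 2 = 0 := by linear_combination h
        exact pow_eq_zero_iff (two_ne_zero) |>.1 ((mul_eq_zero.1 h4).resolve_left h27)
      exact ⟨0, by ring, by rw [hB]; ring⟩
    · refine ⟨-3 * B / (2 * A), ?_, ?_⟩
      · have e : A - -3 * (-3 * B / (2 * A)) ^ 2 = (4 * A ^ 3 + 27 * B ^ 2) / (4 * A ^ 2) := by
          have h4 : (4 : ZMod p) ≠ 0 := by
            have : (4 : ZMod p) = 2 * 2 := by norm_num
            rw [this]
            exact mul_ne_zero h2 h2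
          field_simp
          ring
        rw [h, zero_div] at e
        exact sub_eq_zero.1 e
      · have e : B - 2 * (-3 * B / (2 * A)) ^ 3 = B * (4 * A ^ 3 + 27 * B ^ 2) / (4 * A ^ 3) := by
          have h4 : (4 : ZMod p) ≠ 0 := by
            have : (4 : ZMod p) = 2 * 2 := by norm_num
            rw [this]
            exact mul_ne_zero h2 h2
          field_simp
          ring
        rw [h, mul_zero, zero_div] at e
        exact sub_eq_zero.1 e
  have h4 : ∀ x : ZMod p, ch (x ^ 3 + A * x + B) = ch (x + 2 * α) - (if x = α then ch (x + 2 * α) else 0) := by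
    intro x
    have e : x ^ 3 + A * x + B = (x - α) * ((x - α) * (x + 2 * α)) := by
      rw [hA, hB]; ring
    rw [e, ch_mul, ch_mul]
    by_cases hx : x = α
    · rw [if_pos hx, hx, sub_self, ch_zero]; ring
    · rw [if_neg hx, sub_zero, ← mul_assoc, ← sq, ch_sq (sub_ne_zero.2 hx), one_mul]
  unfold cs
  rw [sum_congr rfl fun x _ => h4 x, sum_sub_distrib]
  have h5 : ∑ x : ZMod p, ch (x + 2 * α) = 0 := by
    rw [← ch_sum hp]
    exact Equiv.sum_comp (Equiv.addRight (2 * α)) ch
  rw [h5, sum_ite_eq' univ α, if_pos (mem_univ _), zero_sub, abs_neg]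
  exact ch_abs _

end

end Pool.Agent.Q28.BP
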