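import Pool.Agent.Q28.BP.Mean

/-!
# The number of the elliptic curves of height at most `X`
-/

set_option autoImplicit false

open Finset Filter Topology

namespace Pool.Agent.Q28.BP

open scoped Classical in
/-- the minimal pairs of height at most `X` -/
noncomputable def FF (X : ℕ) : Finset (ℤ × ℤ) :=
  (box X).filter fun q => 4 * q.1 ^ 3 + 27 * q.2 ^ 2 ≠ 0 ∧
    ∀ p : ℕ, p.Prime → ¬ ((p : ℤ) ^ 4 ∣ q.1 ∧ (p : ℤ) ^ 6 ∣ q.2)

open scoped Classical in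
lemma bad_pairs (Y T : ℕ) : (((Ioc 0 Y ×ˢ Ioc 0 T).filter fun q : ℕ × ℕ =>
    ∃ p : ℕ, p.Prime ∧ p ^ 4 ∣ q.1 ∧ p ^ 6 ∣ q.2).card : ℝ) ≤ 1 / 2 * (Y * T) := by
  classical
  have h1 : ((Ioc 0 Y ×ˢ Ioc 0 T).filter fun q : ℕ × ℕ => ∃ p : ℕ, p.Prime ∧ p ^ 4 ∣ q.1 ∧ p ^ 6 ∣ q.2) ⊆
      (Ioc 1 Y).biUnion fun p => (Ioc 0 Y).filter (fun n => p ^ 4 ∣ n) ×ˢ (Ioc 0 T).filter (fun n => p ^ 6 ∣ n) := by
    intro q hq
    rw [mem_filter, mem_product, mem_Ioc, mem_Ioc] at hq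
    obtain ⟨⟨⟨h1, h2⟩, h3, h4⟩, p, hp, h5, h6⟩ := hq
    rw [mem_biUnion]
    refine ⟨p, ?_, ?_⟩
    · rw [mem_Ioc]
      have := Nat.le_of_dvd h1 h5
      exact ⟨hp.one_lt, (Nat.le_self_pow (by norm_num) p).trans (this.trans h2)⟩
    · rw [mem_product, mem_filter, mem_filter, mem_Ioc, mem_Ioc]
      exact ⟨⟨⟨h1, h2⟩, h5⟩, ⟨h3, h4⟩, h6⟩
  have h2 : (((Ioc 0 Y ×ˢ Ioc 0 T).filter fun q : ℕ × ℕ =>
      ∃ p : ℕ, p.Prime ∧ p ^ 4 ∣ q.1 ∧ p ^ 6 ∣ q.2).card : ℝ) ≤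
      ∑ p ∈ Ioc 1 Y, ((((Ioc 0 Y).filter (fun n => p ^ 4 ∣ n) ×ˢ
        (Ioc 0 T).filter (fun n => p ^ 6 ∣ n)).card : ℕ) : ℝ) := by
    exact_mod_cast (card_le_card h1).trans card_biUnion_le
  refine h2.trans ?_
  have h3 : ∀ p ∈ Ioc 1 Y, ((((Ioc 0 Y).filter (fun n => p ^ 4 ∣ n) ×ˢ
      (Ioc 0 T).filter (fun n => p ^ 6 ∣ n)).card : ℕ) : ℝ) ≤ 1 / 2 * (Y * T) * ((p : ℝ) ^ 2)⁻¹ := by
    intro p hp
    rw [mem_Ioc] at hp
    have hp2 : (2 : ℝ) ≤ p := by exact_mod_cast hp.1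
    have hp0 : (0 : ℝ) < p := by linarith
    rw [card_product, Nat.Ioc_filter_dvd_card_eq_div, Nat.Ioc_filter_dvd_card_eq_div]
    push_cast
    have k1 : ((Y / p ^ 4 : ℕ) : ℝ) ≤ Y / (p : ℝ) ^ 4 := by
      have := @Nat.cast_div_le ℝ _ _ _ Y (p ^ 4)
      push_cast at this
      exact this
    have k2 : ((T / p ^ 6 : ℕ) : ℝ) ≤ T / (p : ℝ) ^ 6 := by
      have := @Nat.cast_div_le ℝ _ _ _ T (p ^ 6)
      push_cast at this
      exact this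
    calc ((Y / p ^ 4 : ℕ) : ℝ) * ((T / p ^ 6 : ℕ) : ℝ) ≤ Y / (p : ℝ) ^ 4 * (T / (p : ℝ) ^ 6) :=
          mul_le_mul k1 k2 (Nat.cast_nonneg _) (by positivity)
      _ = Y * T * ((p : ℝ) ^ 2)⁻¹ * (1 / (p : ℝ) ^ 8) := by field_simp
      _ ≤ Y * T * ((p : ℝ) ^ 2)⁻¹ * (1 / 2) := by
          refine mul_le_mul_of_nonneg_left ?_ (by positivity)
          refine one_div_le_one_div_of_le (by norm_num) ?_
          have : (2 : ℝ) ^ 8 ≤ (p : ℝ) ^ 8 := pow_le_pow_left₀ (by norm_num) hp2 8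
          linarith [show (2 : ℝ) ≤ 2 ^ 8 by norm_num]
      _ = _ := by ring
  refine (sum_le_sum h3).trans ?_
  rw [← mul_sum]
  have h4 : ∑ p ∈ Ioc 1 Y, ((p : ℝ) ^ 2)⁻¹ ≤ 1 := by
    rcases Nat.lt_or_ge Y 1 with h | h
    · rw [Ioc_eq_empty (by omega), sum_empty]; norm_num
    · refine (sum_Ioc_inv_sq_le_sub (by norm_num) h).trans ?_
      have : (0 : ℝ) ≤ (Y : ℝ)⁻¹ := by positivity
      push_cast
      linarith
  have h5 : (0 : ℝ) ≤ 1 / 2 * (Y * T) := by positivity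
  nlinarith

lemma FF_card_nat {X : ℕ} (hX : 27 ≤ X) :
    1 / 2 * ((YY X : ℝ) * (Nat.sqrt (X / 27) : ℝ)) ≤ ((FF X).card : ℝ) := by
  classical
  set Y := YY X with hY
  set T := Nat.sqrt (X / 27) with hT
  have h1 := bad_pairs Y T
  have h2 : ((Ioc 0 Y ×ˢ Ioc 0 T).filter fun q : ℕ × ℕ =>
      ¬ ∃ p : ℕ, p.Prime ∧ p ^ 4 ∣ q.1 ∧ p ^ 6 ∣ q.2).card ≤ (FF X).card := by
    refine card_le_card_of_injOn (fun q => ((q.1 : ℤ), (q.2 : ℤ))) ?_ ?_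
    · intro q hq
      rw [mem_coe, mem_filter, mem_product, mem_Ioc, mem_Ioc] at hq
      obtain ⟨⟨⟨a1, a2⟩, a3, a4⟩, a5⟩ := hq
      have b1 : 4 * q.1 ^ 3 ≤ X :=
        (Nat.mul_le_mul_left 4 (Nat.pow_le_pow_left a2 3)).trans (YY_spec X)
      have b2 : 27 * q.2 ^ 2 ≤ X := by
        have c1 : T ^ 2 ≤ X / 27 := Nat.sqrt_le' _
        have c2 : q.2 ^ 2 ≤ T ^ 2 := Nat.pow_le_pow_left a4 2
        omega
      rw [mem_coe]
      unfold FF box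
      rw [mem_filter, mem_filter, mem_product, mem_Icc, mem_Icc]
      have c3 := Nat.le_self_pow (show 3 ≠ 0 by norm_num) q.1
      have c4 := Nat.le_self_pow (show 2 ≠ 0 by norm_num) q.2
      refine ⟨⟨⟨⟨by simp only; omega, by simp only; omega⟩, by simp only; omega, by simp only; omega⟩,
        ?_, ?_⟩, ?_, ?_⟩
      · simp only [Nat.abs_cast]
        exact_mod_cast b1
      · simp only
        exact_mod_cast b2
      · simp only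
        have c5 : 0 < 4 * q.1 ^ 3 + 27 * q.2 ^ 2 := by positivity
        have c6 : (0 : ℤ) < 4 * (q.1 : ℤ) ^ 3 + 27 * (q.2 : ℤ) ^ 2 := by exact_mod_cast c5
        exact c6.ne'
      · intro p hp ⟨c7, c8⟩
        apply a5
        simp only at c7 c8
        exact ⟨p, hp, by exact_mod_cast c7, by exact_mod_cast c8⟩
    · intro q _ q' _ h
      simp only [Prod.mk.injEq, Nat.cast_inj] at h
      exact Prod.ext h.1 h.2
  have h3 := card_filter_add_card_filter_not (s := Ioc 0 Y ×ˢ Ioc 0 T)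
    (p := fun q : ℕ × ℕ => ∃ p : ℕ, p.Prime ∧ p ^ 4 ∣ q.1 ∧ p ^ 6 ∣ q.2)
  rw [card_product, Nat.card_Ioc, Nat.card_Ioc, Nat.sub_zero, Nat.sub_zero] at h3
  have h4 : (((Ioc 0 Y ×ˢ Ioc 0 T).filter fun q : ℕ × ℕ =>
      ∃ p : ℕ, p.Prime ∧ p ^ 4 ∣ q.1 ∧ p ^ 6 ∣ q.2).card : ℝ) +
      (((Ioc 0 Y ×ˢ Ioc 0 T).filter fun q : ℕ × ℕ =>
      ¬ ∃ p : ℕ, p.Prime ∧ p ^ 4 ∣ q.1 ∧ p ^ 6 ∣ q.2).card : ℝ) = Y * T := by exact_mod_cast h3
  have h5 : (((Ioc 0 Y ×ˢ Ioc 0 T).filter fun q : ℕ × ℕ =>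
      ¬ ∃ p : ℕ, p.Prime ∧ p ^ 4 ∣ q.1 ∧ p ^ 6 ∣ q.2).card : ℝ) ≤ (FF X).card := by exact_mod_cast h2
  linarith

/-- the number of the curves has the order of magnitude `X^(5/6)` -/
lemma FF_card {X : ℕ} (hX : 27 ≤ X) : (X : ℝ) ^ (5 / 6 : ℝ) ≤ 200 * (FF X).card := by
  have hX0 : (0 : ℝ) < X := by exact_mod_cast (by omega : 0 < X)
  have h1 := FF_card_nat hX
  have hY1 : 1 ≤ YY X := le_YY (by omega)
  have hT1 : 1 ≤ Nat.sqrt (X / 27) := by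
    rw [Nat.le_sqrt']
    omega
  have h2 : (X : ℝ) ^ (1 / 3 : ℝ) ≤ 4 * YY X := by
    have h3 : X < 4 * (YY X + 1) ^ 3 := by
      by_contra h
      have := le_YY (not_lt.1 h)
      omega
    have h4 : X ≤ (4 * YY X) ^ 3 := by
      have h5 : (YY X + 1) ^ 3 ≤ (2 * YY X) ^ 3 := Nat.pow_le_pow_left (by omega) 3
      have h6 : (2 * YY X) ^ 3 = 8 * YY X ^ 3 := by ring
      have h7 : (4 * YY X) ^ 3 = 64 * YY X ^ 3 := by ring
      omega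
    have h8 : (X : ℝ) ≤ (4 * (YY X : ℝ)) ^ 3 := by exact_mod_cast h4
    calc (X : ℝ) ^ (1 / 3 : ℝ) ≤ ((4 * (YY X : ℝ)) ^ 3) ^ (1 / 3 : ℝ) :=
          Real.rpow_le_rpow hX0.le h8 (by norm_num)
      _ = _ := by
          rw [← Real.rpow_natCast, ← Real.rpow_mul (by positivity)]
          norm_num
  have h3 : (X : ℝ) ^ (1 / 2 : ℝ) ≤ 12 * Nat.sqrt (X / 27) := by
    rw [← Real.sqrt_eq_rpow]
    refine Real.sqrt_le_iff.2 ⟨by positivity, ?_⟩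
    have h4 : X / 27 < (Nat.sqrt (X / 27) + 1) ^ 2 := Nat.lt_succ_sqrt' _
    have h5 : X ≤ (12 * Nat.sqrt (X / 27)) ^ 2 := by
      have h6 : (Nat.sqrt (X / 27) + 1) ^ 2 ≤ (2 * Nat.sqrt (X / 27)) ^ 2 :=
        Nat.pow_le_pow_left (by omega) 2
      have h7 : (2 * Nat.sqrt (X / 27)) ^ 2 = 4 * Nat.sqrt (X / 27) ^ 2 := by ring
      have h8 : (12 * Nat.sqrt (X / 27)) ^ 2 = 144 * Nat.sqrt (X / 27) ^ 2 := by ring
      omega
    exact_mod_cast h5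
  calc (X : ℝ) ^ (5 / 6 : ℝ) = (X : ℝ) ^ (1 / 3 : ℝ) * (X : ℝ) ^ (1 / 2 : ℝ) := by
        rw [← Real.rpow_add hX0]; norm_num
    _ ≤ (4 * YY X) * (12 * Nat.sqrt (X / 27)) := mul_le_mul h2 h3 (by positivity) (by positivity)
    _ = 96 * (1 / 2 * ((YY X : ℝ) * (Nat.sqrt (X / 27) : ℝ))) := by ring
    _ ≤ 96 * (FF X).card := by linarith
    _ ≤ _ := by
        have : (0 : ℝ) ≤ (FF X).card := Nat.cast_nonneg _
        linarith

/-- **Almost all the curves.** -/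
theorem final_all {η : ℝ} (hη : 0 < η) : ∃ X₀ : ℕ, 16 ≤ X₀ ∧ ∀ X : ℕ, ∃ E ⊆ FF X,
    (E.card : ℝ) ≤ η * (FF X).card ∧ ∀ q ∈ FF X, q ∉ E → ∀ x : ℕ, X₀ ≤ x → 27 * x ^ 20 ≤ X →
        |∑ p ∈ (range (x + 1)).filter Nat.Prime, lg q.1 q.2 p - 1 / 2 * Real.log (Real.log x)| ≤
          3 * Real.log (Real.log x) ^ (5 / 6 : ℝ) := by
  classical
  obtain ⟨X₀, hX₀, H⟩ := almost_all (η := η / 200) (by positivity)
  refine ⟨max X₀ 16, le_max_right _ _, fun X => ?_⟩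
  by_cases hX : 27 ≤ X
  · obtain ⟨E, hE, HE⟩ := H X
    refine ⟨(FF X).filter fun q => q ∈ E, filter_subset _ _, ?_, fun q hq hne x hx hxX => ?_⟩
    · have h1 : (((FF X).filter fun q => q ∈ E).card : ℝ) ≤ E.card := by
        exact_mod_cast card_le_card fun q hq => (mem_filter.1 hq).2
      have h2 := FF_card hX
      calc _ ≤ η / 200 * (X : ℝ) ^ (5 / 6 : ℝ) := h1.trans hE
        _ ≤ η / 200 * (200 * (FF X).card) := mul_le_mul_of_nonneg_left h2 (by positivity)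
        _ = _ := by ring
    · have hq' := hq
      unfold FF box at hq'
      rw [mem_filter, mem_filter] at hq'
      refine HE q.1 q.2 hq'.1.2.1 hq'.1.2.2 (fun h => hne (mem_filter.2 ⟨hq, h⟩)) x
        ((le_max_left _ _).trans hx) hxX
  · refine ⟨∅, empty_subset _, by simpa using by positivity, fun q _ _ x hx hxX => ?_⟩
    have : 16 ≤ x := (le_max_right _ _).trans hx
    have h1 : 1 ≤ x ^ 20 := Nat.one_le_pow _ _ (by omega)
    omega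

/-- **The mean over all the curves.** -/
theorem final_mean : ∃ C : ℝ, 0 ≤ C ∧ ∀ X x : ℕ, 16 ≤ x → 27 * x ^ 20 ≤ X →
    ∑ q ∈ FF X, |∑ p ∈ (range (x + 1)).filter Nat.Prime, lg q.1 q.2 p -
      1 / 2 * Real.log (Real.log x)| ≤
        C * Real.log (Real.log x) ^ (1 / 2 : ℝ) * (FF X).card := by
  obtain ⟨C, hC, H⟩ := mean_all
  refine ⟨C * 200, by positivity, fun X x hx hxX => ?_⟩
  have h1 : 1 ≤ x ^ 20 := Nat.one_le_pow _ _ (by omega)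
  have hX : 27 ≤ X := by omega
  have h2 := FF_card hX
  have h3 := H X x hx hxX
  have hsub : FF X ⊆ box X := by
    classical
    unfold FF
    exact filter_subset _ _
  have hl : 0 ≤ Real.log (Real.log x) ^ (1 / 2 : ℝ) := by
    refine Real.rpow_nonneg ?_ _
    have h5 : Real.log 16 ≤ Real.log x := Real.log_le_log (by norm_num) (by exact_mod_cast hx)
    have h6 : (1 : ℝ) ≤ Real.log 16 := by
      rw [Real.le_log_iff_exp_le (by norm_num)]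
      have := Real.exp_one_lt_d9
      linarith
    exact Real.log_nonneg (by linarith)
  refine (sum_le_sum_of_subset_of_nonneg hsub fun q _ _ => abs_nonneg _).trans (h3.trans ?_)
  calc C * (X : ℝ) ^ (5 / 6 : ℝ) * Real.log (Real.log x) ^ (1 / 2 : ℝ) ≤
        C * (200 * (FF X).card) * Real.log (Real.log x) ^ (1 / 2 : ℝ) := by gcongr
    _ = _ := by ring

end Pool.Agent.Q28.BP
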