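import Pool.Agent.Q28.BP.Ortho
import Pool.Agent.W263.BSD.Curve

/-!
# The products of Birch and Swinnerton-Dyer of almost all members of a one-parameter family
-/

set_option autoImplicit false

open Finset Filter Topology

namespace Pool.Agent.Q28.BP

open Pool.Agent.W263.BSD (pointCount GoodPrime)

open scoped Classical in
/-- the logarithm of the factor at `p` -/
noncomputable def lg (a b : ℤ) (p : ℕ) : ℝ :=
  if GoodPrime a b p then Real.log (((pointCount a b p : ℝ) + 1) / p) else 0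

lemma good_congr {a b a' b' : ℤ} {p : ℕ} (ha : (a : ZMod p) = a') (hb : (b : ZMod p) = b') :
    GoodPrime a b p ↔ GoodPrime a' b' p := by
  unfold GoodPrime
  rw [← ZMod.intCast_zmod_eq_zero_iff_dvd, ← ZMod.intCast_zmod_eq_zero_iff_dvd]
  push_cast
  rw [ha, hb]

lemma count_congr {a b a' b' : ℤ} {p : ℕ} (ha : (a : ZMod p) = a') (hb : (b : ZMod p) = b') :
    pointCount a b p = pointCount a' b' p := by
  unfold pointCount
  rw [ha, hb]

lemma lg_congr {a b a' b' : ℤ} {p : ℕ} (ha : (a : ZMod p) = a') (hb : (b : ZMod p) = b') :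
    lg a b p = lg a' b' p := by
  classical
  unfold lg
  rw [count_congr ha hb]
  simp only [good_congr ha hb]

lemma not_good_two (a b : ℤ) : ¬ GoodPrime a b 2 := fun h => h.2 (Dvd.intro _ rfl)

lemma log_bound {u : ℝ} (h : |u| ≤ 1 / 2) : |Real.log (1 + u)| ≤ 2 * |u| := by
  have hu := abs_le.1 h
  have h1 : Real.log (1 + u) ≤ u := by
    have := Real.log_le_sub_one_of_pos (show 0 < 1 + u by linarith)
    linarith
  have h2 : -Real.log (1 + u) ≤ -u / (1 + u) := by
    have := Real.log_le_sub_one_of_pos (show 0 < (1 + u)⁻¹ by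
      have : 0 < 1 + u := by linarith
      positivity)
    rw [Real.log_inv] at this
    have e : (1 + u)⁻¹ - 1 = -u / (1 + u) := by
      have : (1 + u) ≠ 0 := by linarith
      field_simp
      ring
    rw [← e]
    exact this
  have h3 : -u / (1 + u) ≤ 2 * |u| := by
    rw [div_le_iff₀ (by linarith)]
    rcases abs_cases u with ⟨e, h0⟩ | ⟨e, h0⟩
    · rw [e]; nlinarith
    · rw [e]; nlinarith
  rw [abs_le]
  have := le_abs_self u
  have := abs_nonneg u
  constructor <;> linarith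

lemma lg_abs (a b : ℤ) {p : ℕ} (hp : p.Prime) : |lg a b p| ≤ 20 / Real.sqrt p := by
  classical
  have hp0 : (0 : ℝ) < p := by exact_mod_cast hp.pos
  have hs : 0 < Real.sqrt p := Real.sqrt_pos.2 hp0
  have hss : Real.sqrt p * Real.sqrt p = p := Real.mul_self_sqrt hp0.le
  unfold lg
  split_ifs with hg
  swap
  · rw [abs_zero]; positivity
  rcases Nat.lt_or_ge p 25 with h25 | h25
  · have h1 : Real.sqrt p ≤ 5 := by
      rw [show (5 : ℝ) = Real.sqrt 25 by
        rw [show (25 : ℝ) = 5 ^ 2 by norm_num, Real.sqrt_sq (by norm_num)]]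
      exact Real.sqrt_le_sqrt (by exact_mod_cast h25.le)
    have h2 : (4 : ℝ) ≤ 20 / Real.sqrt p := by
      rw [le_div_iff₀ hs]
      linarith
    refine le_trans ?_ h2
    have h3 : (pointCount a b p : ℝ) ≤ (p : ℝ) ^ 2 := by
      exact_mod_cast Pool.Agent.W263.BSD.pointCount_le hp
    have h4 : (0 : ℝ) ≤ pointCount a b p := Nat.cast_nonneg _
    have hp2 : (2 : ℝ) ≤ p := by exact_mod_cast hp.two_le
    have hp25 : (p : ℝ) ≤ 25 := by exact_mod_cast h25.le
    have h5 : ((pointCount a b p : ℝ) + 1) / p ≤ 26 := by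
      rw [div_le_iff₀ hp0]
      nlinarith
    have h6 : (1 : ℝ) / 25 ≤ ((pointCount a b p : ℝ) + 1) / p := by
      rw [div_le_div_iff₀ (by norm_num) hp0]
      nlinarith
    have h7 : Real.log 26 ≤ 4 := by
      rw [show (26 : ℝ) = 26 by norm_num]
      have : Real.log 26 ≤ Real.log (2 ^ 5) := Real.log_le_log (by norm_num) (by norm_num)
      rw [Real.log_pow] at this
      have := Real.log_two_lt_d9
      push_cast at *
      linarith
    have h8 : Real.log (1 / 25) = -Real.log 25 := by rw [one_div, Real.log_inv]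
    have h9 : Real.log 25 ≤ 4 := (Real.log_le_log (by norm_num) (by norm_num)).trans h7
    rw [abs_le]
    constructor
    · have := Real.log_le_log (by norm_num) h6
      linarith
    · exact (Real.log_le_log (by positivity) h5).trans h7
  · have hH := Pool.Agent.W263.BSD.hasse hg (by omega)
    have hp25 : (25 : ℝ) ≤ p := by exact_mod_cast h25
    have hs5 : 5 ≤ Real.sqrt p := by
      rw [show (5 : ℝ) = Real.sqrt 25 by
        rw [show (25 : ℝ) = 5 ^ 2 by norm_num, Real.sqrt_sq (by norm_num)]]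
      exact Real.sqrt_le_sqrt hp25
    set u : ℝ := ((pointCount a b p : ℝ) + 1 - p) / p with hu
    have e : ((pointCount a b p : ℝ) + 1) / p = 1 + u := by
      rw [hu]; field_simp; ring
    have hub : |u| ≤ 3 / Real.sqrt p := by
      rw [hu, abs_div, abs_of_pos hp0, div_le_div_iff₀ hp0 hs]
      have h1 : |(pointCount a b p : ℝ) + 1 - p| ≤ 1 + 2 * Real.sqrt p := by
        rw [abs_le] at hH ⊢
        constructor <;> linarith [hH.1, hH.2]
      nlinarith
    have hub2 : |u| ≤ 3 / 5 := hub.trans (div_le_div_of_nonneg_left (by norm_num) (by norm_num) hs5)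
    have hub3 : |u| ≤ 1 / 2 := by
      rw [hu, abs_div, abs_of_pos hp0, div_le_iff₀ hp0]
      have h1 : |(pointCount a b p : ℝ) + 1 - p| ≤ 1 + 2 * Real.sqrt p := by
        rw [abs_le] at hH ⊢
        constructor <;> linarith [hH.1, hH.2]
      nlinarith
    rw [e]
    refine (log_bound hub3).trans ?_
    have : 2 * (3 / Real.sqrt p) ≤ 20 / Real.sqrt p := by
      rw [← mul_div_assoc]
      exact div_le_div_of_nonneg_right (by norm_num) hs.le
    linarith

/-- the mean over the residue classes -/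
noncomputable def mu (a b : Polynomial ℤ) (p : ℕ) : ℝ :=
  (∑ j ∈ range p, lg (a.eval (j : ℤ)) (b.eval (j : ℤ)) p) / p

lemma eval_congr (a : Polynomial ℤ) {p : ℕ} {m n : ℤ} (h : (m : ZMod p) = n) :
    ((a.eval m : ℤ) : ZMod p) = ((a.eval n : ℤ) : ZMod p) := by
  have h1 : ∀ k : ℤ, ((a.eval k : ℤ) : ZMod p) = a.eval₂ (Int.castRingHom (ZMod p)) (k : ZMod p) := by
    intro k
    have := Polynomial.hom_eval₂ a (RingHom.id ℤ) (Int.castRingHom (ZMod p)) k
    simpa [Polynomial.eval₂_id] using this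
  rw [h1, h1, h]

lemma mu_abs (a b : Polynomial ℤ) {p : ℕ} (hp : p.Prime) : |mu a b p| ≤ 20 / Real.sqrt p := by
  have hp0 : (0 : ℝ) < p := by exact_mod_cast hp.pos
  unfold mu
  rw [abs_div, abs_of_pos hp0, div_le_iff₀ hp0]
  refine (abs_sum_le_sum_abs _ _).trans ((sum_le_sum fun j _ => lg_abs _ _ hp).trans (le_of_eq ?_))
  rw [sum_const, card_range, nsmul_eq_mul]
  ring

/-- **Almost all members of a family.** -/
theorem fibres (η : ℝ) (hη : 0 < η) : ∃ X₀ : ℕ, 3 ≤ X₀ ∧ ∀ a b : Polynomial ℤ,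
    ∀ T N : ℕ, N ^ 10 ≤ T → ∃ E ⊆ range T, (E.card : ℝ) ≤ η * T ∧
      ∀ t ∈ range T, t ∉ E → ∀ x : ℕ, X₀ ≤ x → x ≤ N →
        |∑ p ∈ (range (x + 1)).filter Nat.Prime, lg (a.eval (t : ℤ)) (b.eval (t : ℤ)) p -
          ∑ p ∈ (range (x + 1)).filter Nat.Prime, mu a b p| ≤
            Real.log (Real.log x) ^ (5 / 6 : ℝ) := by
  classical
  obtain ⟨X₀, hX₀, H⟩ := central 40 η (by norm_num) hη
  refine ⟨X₀, hX₀, fun a b T N hNT => ?_⟩
  let f : (p : ℕ) → ZMod p → ℝ := fun p z =>
    lg (a.eval ((z.val : ℕ) : ℤ)) (b.eval ((z.val : ℕ) : ℤ)) p - mu a b p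
  have hval : ∀ p : ℕ, p.Prime → ∀ n : ℕ, f p (n : ZMod p) =
      lg (a.eval (n : ℤ)) (b.eval (n : ℤ)) p - mu a b p := by
    intro p hp n
    have : NeZero p := ⟨hp.ne_zero⟩
    have h1 : (((((n : ZMod p).val : ℕ) : ℤ)) : ZMod p) = ((n : ℤ) : ZMod p) := by
      push_cast
      rw [ZMod.natCast_zmod_val]
    simp only [f]
    rw [lg_congr (eval_congr a h1) (eval_congr b h1)]
  have h1 : ∀ p : ℕ, p.Prime → ∀ z, |f p z| ≤ 40 / Real.sqrt p := by
    intro p hp z
    refine (abs_sub _ _).trans ?_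
    have e1 := lg_abs (a.eval ((z.val : ℕ) : ℤ)) (b.eval ((z.val : ℕ) : ℤ)) hp
    have e2 := mu_abs a b hp
    have e3 : (40 : ℝ) / Real.sqrt p = 20 / Real.sqrt p + 20 / Real.sqrt p := by ring
    rw [e3]
    exact add_le_add e1 e2
  have h2 : ∀ p : ℕ, p.Prime → ∑ j ∈ range p, f p (j : ZMod p) = 0 := by
    intro p hp
    have hp0 : (p : ℝ) ≠ 0 := by exact_mod_cast hp.ne_zero
    rw [sum_congr rfl fun j _ => hval p hp j, sum_sub_distrib, sum_const, card_range, nsmul_eq_mul]
    unfold mu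
    field_simp
    ring
  obtain ⟨E, hE, hE1, hE2⟩ := H f h1 h2 T N hNT
  refine ⟨E, hE, hE1, fun t ht hne x hx hxN => ?_⟩
  have h3 := hE2 t ht hne x hx hxN
  rw [← sum_sub_distrib]
  rwa [sum_congr rfl fun p hp => hval p (mem_filter.1 hp).2 t] at h3

end Pool.Agent.Q28.BP
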