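import Pool.Agent.Q28.BP.Count

/-!
# Sums over primes of functions of the residues of `(A, B)`, for almost all `(A, B)`, ordered by height
-/

set_option autoImplicit false

open Finset Filter Topology

namespace Pool.Agent.Q28.BP

/-- the mean value over the residue classes -/
noncomputable def mn (g : (p : ℕ) → ZMod p → ℝ) (p : ℕ) : ℝ := (∑ j ∈ range p, g p (j : ZMod p)) / p

lemma mn_abs {g : (p : ℕ) → ZMod p → ℝ} {C : ℝ} (hg : ∀ p : ℕ, p.Prime → ∀ z, |g p z| ≤ C / Real.sqrt p)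
    {p : ℕ} (hp : p.Prime) : |mn g p| ≤ C / Real.sqrt p := by
  have hp0 : (0 : ℝ) < p := by exact_mod_cast hp.pos
  unfold mn
  rw [abs_div, abs_of_pos hp0, div_le_iff₀ hp0]
  refine (abs_sum_le_sum_abs _ _).trans ((sum_le_sum fun j _ => hg p hp _).trans (le_of_eq ?_))
  rw [sum_const, card_range, nsmul_eq_mul]
  ring

lemma mn_neg (g : (p : ℕ) → ZMod p → ℝ) {p : ℕ} (hp : p.Prime) :
    mn (fun p z => g p (-z)) p = mn g p := by
  have : Fact p.Prime := ⟨hp⟩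
  have : NeZero p := ⟨hp.ne_zero⟩
  unfold mn
  congr 1
  rw [sum_range_zmod (fun z => g p (-z)), sum_range_zmod (fun z => g p z)]
  exact Equiv.sum_comp (Equiv.neg (ZMod p)) fun z => g p z

/-- one variable -/
lemma one_var (C η : ℝ) (hC : 1 ≤ C) (hη : 0 < η) : ∃ X₀ : ℕ, 3 ≤ X₀ ∧
    ∀ g : (p : ℕ) → ZMod p → ℝ, (∀ p : ℕ, p.Prime → ∀ z, |g p z| ≤ C / Real.sqrt p) →
      ∀ T N : ℕ, N ^ 10 ≤ T → ∃ E ⊆ range T, (E.card : ℝ) ≤ η * T ∧
        ∀ n ∈ range T, n ∉ E → ∀ x : ℕ, X₀ ≤ x → x ≤ N →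
          |∑ p ∈ (range (x + 1)).filter Nat.Prime, g p (n : ZMod p) -
            ∑ p ∈ (range (x + 1)).filter Nat.Prime, mn g p| ≤ Real.log (Real.log x) ^ (5 / 6 : ℝ) := by
  obtain ⟨X₀, hX₀, H⟩ := central (2 * C) η (by linarith) hη
  refine ⟨X₀, hX₀, fun g hg T N hNT => ?_⟩
  have h1 : ∀ p : ℕ, p.Prime → ∀ z, |g p z - mn g p| ≤ 2 * C / Real.sqrt p := by
    intro p hp z
    refine (abs_sub _ _).trans ?_
    have e3 : 2 * C / Real.sqrt p = C / Real.sqrt p + C / Real.sqrt p := by ring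
    rw [e3]
    exact add_le_add (hg p hp z) (mn_abs hg hp)
  have h2 : ∀ p : ℕ, p.Prime → ∑ j ∈ range p, (g p (j : ZMod p) - mn g p) = 0 := by
    intro p hp
    have hp0 : (p : ℝ) ≠ 0 := by exact_mod_cast hp.ne_zero
    rw [sum_sub_distrib, sum_const, card_range, nsmul_eq_mul]
    unfold mn
    field_simp
    ring
  obtain ⟨E, hE, hE1, hE2⟩ := H (fun p z => g p z - mn g p) h1 h2 T N hNT
  refine ⟨E, hE, hE1, fun t ht hne x hx hxN => ?_⟩
  rw [← sum_sub_distrib]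
  exact hE2 t ht hne x hx hxN

/-- the fourth moment in one variable -/
lemma one_var4 {C : ℝ} (hC : 1 ≤ C) (g : (p : ℕ) → ZMod p → ℝ)
    (hg : ∀ p : ℕ, p.Prime → ∀ z, |g p z| ≤ C / Real.sqrt p) {T x : ℕ} (hx : x ^ 10 ≤ T) :
    ∑ t ∈ range T, (∑ p ∈ (range (x + 1)).filter Nat.Prime, g p (t : ZMod p) -
      ∑ p ∈ (range (x + 1)).filter Nat.Prime, mn g p) ^ 4 ≤
        80 * C ^ 4 * T * (∑ p ∈ (range (x + 1)).filter Nat.Prime, 1 / (p : ℝ)) ^ 2 := by
  have h1 : ∀ p : ℕ, p.Prime → ∀ z, |g p z - mn g p| ≤ 2 * C / Real.sqrt p := by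
    intro p hp z
    refine (abs_sub _ _).trans ?_
    have e3 : 2 * C / Real.sqrt p = C / Real.sqrt p + C / Real.sqrt p := by ring
    rw [e3]
    exact add_le_add (hg p hp z) (mn_abs hg hp)
  have h2 : ∀ p : ℕ, p.Prime → ∑ j ∈ range p, (g p (j : ZMod p) - mn g p) = 0 := by
    intro p hp
    have hp0 : (p : ℝ) ≠ 0 := by exact_mod_cast hp.ne_zero
    rw [sum_sub_distrib, sum_const, card_range, nsmul_eq_mul]
    unfold mn
    field_simp
    ring
  have h3 := fourth (fun p z => g p z - mn g p) (by linarith : (1 : ℝ) ≤ 2 * C) h1 h2 hx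
    ((range (x + 1)).filter Nat.Prime)
    fun p hp => ⟨(mem_filter.1 hp).2, by have := mem_range.1 (mem_filter.1 hp).1; omega⟩
  have e : ∀ t ∈ range T, (∑ p ∈ (range (x + 1)).filter Nat.Prime, XX (fun p z => g p z - mn g p) p t) ^ 4 =
      (∑ p ∈ (range (x + 1)).filter Nat.Prime, g p (t : ZMod p) -
        ∑ p ∈ (range (x + 1)).filter Nat.Prime, mn g p) ^ 4 := by
    intro t _
    rw [← sum_sub_distrib]
    rfl
  rw [sum_congr rfl e] at h3
  refine h3.trans (le_of_eq ?_)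
  ring

lemma loglog_ge_one {x : ℕ} (hx : 16 ≤ x) : 1 ≤ Real.log (Real.log x) := by
  have h1 : Real.exp 1 ≤ Real.log 16 := by
    have h2 := Real.exp_one_lt_d9
    have h3 := Real.log_two_gt_d9
    have h4 : Real.log 16 = 4 * Real.log 2 := by
      rw [show (16 : ℝ) = 2 ^ 4 by norm_num, Real.log_pow]
      norm_num
    rw [h4]
    linarith
  have h5 : Real.log 16 ≤ Real.log x := Real.log_le_log (by norm_num) (by exact_mod_cast hx)
  rw [Real.le_log_iff_exp_le (by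
    have := Real.exp_pos 1
    linarith)]
  linarith

/-- the mean in one variable -/
lemma one_var_mean {C : ℝ} (hC : 1 ≤ C) : ∃ K : ℝ, 0 ≤ K ∧ ∀ g : (p : ℕ) → ZMod p → ℝ,
    (∀ p : ℕ, p.Prime → ∀ z, |g p z| ≤ C / Real.sqrt p) → ∀ T x : ℕ, 16 ≤ x → x ^ 10 ≤ T →
      ∑ t ∈ range T, |∑ p ∈ (range (x + 1)).filter Nat.Prime, g p (t : ZMod p) -
        ∑ p ∈ (range (x + 1)).filter Nat.Prime, mn g p| ≤
          K * T * Real.log (Real.log x) ^ (1 / 2 : ℝ) := by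
  obtain ⟨C', hC'0, hC'⟩ := sum_inv_loglog
  refine ⟨1 + 80 * C ^ 4 * (1 + C') ^ 2, by positivity, fun g hg T x hx hxT => ?_⟩
  set L := Real.log (Real.log x) with hL
  have hL1 : 1 ≤ L := loglog_ge_one hx
  have hL0 : 0 < L := by linarith
  set l := L ^ (1 / 2 : ℝ) with hl
  have hl0 : 0 < l := by positivity
  have hll : l ^ 4 = L ^ 2 := by
    rw [hl, ← Real.rpow_natCast, ← Real.rpow_mul hL0.le, ← Real.rpow_natCast]
    norm_num
  have h4 := one_var4 hC g hg hxT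
  have hS : ∑ p ∈ (range (x + 1)).filter Nat.Prime, 1 / (p : ℝ) ≤ (1 + C') * L := by
    have := (abs_le.1 (hC' x (by omega))).2
    nlinarith
  have hS0 : 0 ≤ ∑ p ∈ (range (x + 1)).filter Nat.Prime, 1 / (p : ℝ) :=
    sum_nonneg fun p _ => by positivity
  have hT0 : (0 : ℝ) ≤ T := Nat.cast_nonneg T
  set u : ℕ → ℝ := fun t => ∑ p ∈ (range (x + 1)).filter Nat.Prime, g p (t : ZMod p) -
    ∑ p ∈ (range (x + 1)).filter Nat.Prime, mn g p with hu
  have h6 : ∑ t ∈ range T, |u t| ≤ ∑ t ∈ range T, (l + u t ^ 4 / l ^ 3) :=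
    sum_le_sum fun t _ => abs_le_fourth (u t) hl0
  refine h6.trans ?_
  rw [sum_add_distrib, sum_const, card_range, nsmul_eq_mul, ← sum_div]
  have h7 : (∑ t ∈ range T, u t ^ 4) ≤ 80 * C ^ 4 * T * ((1 + C') * L) ^ 2 :=
    h4.trans (mul_le_mul_of_nonneg_left (pow_le_pow_left₀ hS0 hS 2) (by positivity))
  have h8 : (∑ t ∈ range T, u t ^ 4) / l ^ 3 ≤ 80 * C ^ 4 * T * (1 + C') ^ 2 * l := by
    rw [div_le_iff₀ (by positivity)]
    refine h7.trans (le_of_eq ?_)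
    calc 80 * C ^ 4 * (T : ℝ) * ((1 + C') * L) ^ 2 = 80 * C ^ 4 * T * (1 + C') ^ 2 * L ^ 2 := by ring
      _ = 80 * C ^ 4 * T * (1 + C') ^ 2 * l ^ 4 := by rw [hll]
      _ = _ := by ring
  calc _ ≤ (T : ℝ) * l + 80 * C ^ 4 * T * (1 + C') ^ 2 * l := by linarith
    _ = _ := by ring

/-- **Almost all `(A, B)`.** -/
theorem height_all (C : ℝ) (hC : 1 ≤ C) {η : ℝ} (hη : 0 < η) : ∃ (X₀ : ℕ) (M : ℝ), 16 ≤ X₀ ∧ 0 ≤ M ∧
    ∀ F : ℤ → (p : ℕ) → ZMod p → ℝ, (∀ (A : ℤ) (p : ℕ), p.Prime → ∀ z, |F A p z| ≤ C / Real.sqrt p) →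
    ∀ X : ℕ, ∃ E ⊆ FF X, (E.card : ℝ) ≤ η * (FF X).card ∧ ∀ q ∈ FF X, q ∉ E → ∀ x : ℕ, X₀ ≤ x →
      27 * x ^ 20 ≤ X → |∑ p ∈ (range (x + 1)).filter Nat.Prime, F q.1 p (q.2 : ZMod p) -
        ∑ p ∈ (range (x + 1)).filter Nat.Prime, mn (F q.1) p| ≤ Real.log (Real.log x) ^ (5 / 6 : ℝ) ∧
        wt q.1 x ≤ M := by
  classical
  set η₁ : ℝ := η / 4000 with hη₁
  have hη₁0 : 0 < η₁ := by positivity
  obtain ⟨X₁, hX₁, H⟩ := one_var C η₁ hC hη₁0
  obtain ⟨M, hM, HA⟩ := few_A hη₁0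
  obtain ⟨X₃, hX₃⟩ := exists_nat_ge (800 / η)
  refine ⟨max X₁ (max 16 X₃), M, (le_max_left _ _).trans (le_max_right _ _), hM, fun F hF X => ?_⟩
  by_cases hbig : ∃ x : ℕ, max X₁ (max 16 X₃) ≤ x ∧ 27 * x ^ 20 ≤ X
  swap
  · refine ⟨∅, empty_subset _, by simpa using by positivity, fun q _ _ x hx hxX => ?_⟩
    exact absurd ⟨x, hx, hxX⟩ hbig
  obtain ⟨x₀, hx₀, hx₀X⟩ := hbig
  have hx₀3 : 16 ≤ x₀ := ((le_max_left _ _).trans (le_max_right _ _)).trans hx₀
  have hX27 : 27 ≤ X := by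
    have : 1 ≤ x₀ ^ 20 := Nat.one_le_pow _ _ (by omega)
    omega
  have hYx := YY_large hx₀X
  set Y := YY X with hY
  set T := TT X with hT
  have hE1 := fun A : ℤ => H (F A) (hF A) T (rt T) (rt_le T)
  have hE2 := fun A : ℤ => H (fun p z => F A p (-z)) (fun p hp z => hF A p hp _) T (rt T) (rt_le T)
  choose E1 hE1s hE1c hE1 using hE1
  choose E2 hE2s hE2c hE2 using hE2
  obtain ⟨EA, hEAs, hEAc, hEA⟩ := HA Y
  refine ⟨(FF X).filter fun q => q ∈ EE Y T EA E1 E2, filter_subset _ _, ?_,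
    fun q hq hne x hx hxX => ?_⟩
  · have k1 : (((FF X).filter fun q => q ∈ EE Y T EA E1 E2).card : ℝ) ≤ (EE Y T EA E1 E2).card := by
      exact_mod_cast card_le_card fun q hq => (mem_filter.1 hq).2
    refine k1.trans ((EE_card Y T EA E1 E2 hη₁0.le hEAc hE1c hE2c (by omega)).trans ?_)
    have h1 : (800 / η : ℝ) ≤ Y := by
      refine hX₃.trans ?_
      have : X₃ ≤ Y := ((le_max_right _ _).trans (le_max_right _ _)).trans (hx₀.trans hYx)
      exact_mod_cast this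
    rw [div_le_iff₀ hη] at h1
    have h2 : (0 : ℝ) ≤ T := Nat.cast_nonneg _
    have h3 := YT_real hX27
    have h4 : 2 * (T : ℝ) ≤ η / 400 * (Y * T) := by nlinarith
    have h5 : 10 * η₁ * ((Y : ℝ) * T) = η / 400 * (Y * T) := by rw [hη₁]; ring
    have h6 := FF_card hX27
    rw [h5]
    calc _ ≤ η / 200 * ((Y : ℝ) * T) := by linarith
      _ ≤ η / 200 * (X : ℝ) ^ (5 / 6 : ℝ) := mul_le_mul_of_nonneg_left h3 (by positivity)
      _ ≤ η / 200 * (200 * (FF X).card) := mul_le_mul_of_nonneg_left h6 (by positivity)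
      _ = _ := by ring
  · have hq' := hq
    unfold FF box at hq'
    rw [mem_filter, mem_filter] at hq'
    have hne' : q ∉ EE Y T EA E1 E2 := fun h => hne (mem_filter.2 ⟨hq, h⟩)
    obtain ⟨A, B⟩ := q
    have hA : 4 * |A| ^ 3 ≤ (X : ℤ) := hq'.1.2.1
    have hB : 27 * B ^ 2 ≤ (X : ℤ) := hq'.1.2.2
    have hAn : A.natAbs ≤ Y := natAbs_A hA
    have hBn : B.natAbs < T := natAbs_B hB
    have hAm : A ∈ Icc (-(Y : ℤ)) Y := by rw [mem_Icc]; omega
    have hBm : B ∈ Ioo (-(T : ℤ)) T := by rw [mem_Ioo]; omega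
    have hA0 : A ≠ 0 := by
      rintro rfl
      apply hne'
      unfold EE
      refine mem_union_left _ (mem_product.2 ⟨?_, hBm⟩)
      simp
    have hAE : A.natAbs ∉ EA := by
      intro h
      apply hne'
      unfold EE
      refine mem_union_left _ (mem_product.2 ⟨?_, hBm⟩)
      rcases Int.natAbs_eq A with e | e
      · refine mem_union_left _ (mem_union_right _ (mem_image.2 ⟨A.natAbs, h, e.symm⟩))
      · exact mem_union_right _ (mem_image.2 ⟨A.natAbs, h, e.symm⟩)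
    have hw : wt A x ≤ M := by
      rw [wt_natAbs]
      exact hEA A.natAbs (mem_Ioc.2 ⟨Int.natAbs_pos.2 hA0, hAn⟩) hAE x
    have hxT : x ≤ rt T := le_rt (TT_pow hxX)
    have hx1 : X₁ ≤ x := (le_max_left _ _).trans hx
    refine ⟨?_, hw⟩
    rcases Int.natAbs_eq B with e | e
    · have hB1 : B.natAbs ∉ E1 A := by
        intro h
        apply hne'
        unfold EE
        refine mem_union_right _ (mem_biUnion.2 ⟨A, hAm, mem_product.2 ⟨mem_singleton_self A, ?_⟩⟩)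
        exact mem_union_left _ (mem_image.2 ⟨B.natAbs, h, e.symm⟩)
      have h7 := hE1 A B.natAbs (mem_range.2 hBn) hB1 x hx1 hxT
      have e1 : ∀ p : ℕ, ((B.natAbs : ℕ) : ZMod p) = (B : ZMod p) := by
        intro p
        have : ((B.natAbs : ℤ) : ZMod p) = (B : ZMod p) := by rw [← e]
        rw [← this]
        exact (Int.cast_natCast _).symm
      simp only [e1] at h7
      exact h7
    · have hB1 : B.natAbs ∉ E2 A := by
        intro h
        apply hne'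
        unfold EE
        refine mem_union_right _ (mem_biUnion.2 ⟨A, hAm, mem_product.2 ⟨mem_singleton_self A, ?_⟩⟩)
        exact mem_union_right _ (mem_image.2 ⟨B.natAbs, h, e.symm⟩)
      have h7 := hE2 A B.natAbs (mem_range.2 hBn) hB1 x hx1 hxT
      have e1 : ∀ p : ℕ, -((B.natAbs : ℕ) : ZMod p) = (B : ZMod p) := by
        intro p
        have : ((-(B.natAbs : ℤ) : ℤ) : ZMod p) = (B : ZMod p) := by rw [← e]
        rw [← this, Int.cast_neg, Int.cast_natCast]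
      simp only [e1] at h7
      have e2 : ∑ p ∈ (range (x + 1)).filter Nat.Prime, mn (fun p z => F A p (-z)) p =
          ∑ p ∈ (range (x + 1)).filter Nat.Prime, mn (F A) p :=
        sum_congr rfl fun p hp => mn_neg (F A) (mem_filter.1 hp).2
      rw [e2] at h7
      exact h7

/-- **The mean over `(A, B)`.** -/
theorem height_mean (C : ℝ) (hC : 1 ≤ C) : ∃ K : ℝ, 0 ≤ K ∧
    ∀ F : ℤ → (p : ℕ) → ZMod p → ℝ, (∀ (A : ℤ) (p : ℕ), p.Prime → ∀ z, |F A p z| ≤ C / Real.sqrt p) →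
    ∀ X x : ℕ, 16 ≤ x → 27 * x ^ 20 ≤ X →
      ∑ q ∈ FF X, (|∑ p ∈ (range (x + 1)).filter Nat.Prime, F q.1 p (q.2 : ZMod p) -
        ∑ p ∈ (range (x + 1)).filter Nat.Prime, mn (F q.1) p| + wt q.1 x) ≤
          K * Real.log (Real.log x) ^ (1 / 2 : ℝ) * (FF X).card := by
  classical
  obtain ⟨K₁, hK₁, H⟩ := one_var_mean hC
  obtain ⟨S, hS, HS⟩ := sum_wt
  obtain ⟨C', hC'0, hC'⟩ := sum_inv_loglog
  refine ⟨200 * (6 * K₁ + 2 * (1 + C') + 4 * S), by positivity, fun F hF X x hx hxX => ?_⟩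
  set L := Real.log (Real.log x) with hL
  set Y := YY X with hY
  set T := TT X with hT
  have hx1 : (1 : ℝ) < x := by exact_mod_cast (by omega : 1 < x)
  have hlog : 0 < Real.log x := Real.log_pos hx1
  have hX27 : 27 ≤ X := by
    have : 1 ≤ x ^ 20 := Nat.one_le_pow _ _ (by omega)
    omega
  have hL1 : 1 ≤ L := loglog_ge_one hx
  set l := L ^ (1 / 2 : ℝ) with hl
  have hl1 : 1 ≤ l := Real.one_le_rpow hL1 (by norm_num)
  have hYx : (x : ℝ) ≤ Y := by exact_mod_cast YY_large hxX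
  have hLx : L ≤ x := by
    have h1 : Real.log x ≤ x := (Real.log_le_sub_one_of_pos (by linarith)).trans (by linarith)
    have h2 : L ≤ Real.log x := (Real.log_le_sub_one_of_pos hlog).trans (by linarith)
    linarith
  have hY1 : (1 : ℝ) ≤ Y := by linarith
  have hT0 : (0 : ℝ) ≤ T := Nat.cast_nonneg T
  set g : ℤ → ℤ → ℝ := fun A B => |∑ p ∈ (range (x + 1)).filter Nat.Prime, F A p (B : ZMod p) -
        ∑ p ∈ (range (x + 1)).filter Nat.Prime, mn (F A) p| with hg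
  have hB : ∀ A : ℤ, ∑ B ∈ Ioo (-(T : ℤ)) T, (g A B + wt A x) ≤ 2 * (T * (K₁ * l + wt A x)) := by
    intro A
    refine (sum_sym (fun B => g A B + wt A x) (fun B => add_nonneg (abs_nonneg _) (wt_nonneg _ _)) T _
      (fun B hB => by rw [mem_Ioo] at hB; omega)).trans ?_
    have h1 := H (F A) (hF A) T x hx (TT_pow hxX)
    have h2 := H (fun p z => F A p (-z)) (fun p hp z => hF A p hp _) T x hx (TT_pow hxX)
    have e2 : ∑ p ∈ (range (x + 1)).filter Nat.Prime, mn (fun p z => F A p (-z)) p =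
        ∑ p ∈ (range (x + 1)).filter Nat.Prime, mn (F A) p :=
      sum_congr rfl fun p hp => mn_neg (F A) (mem_filter.1 hp).2
    rw [e2] at h2
    have e3 : ∑ t ∈ range T, ((g A (t : ℤ) + wt A x) + (g A (-(t : ℤ)) + wt A x)) =
        ∑ t ∈ range T, |∑ p ∈ (range (x + 1)).filter Nat.Prime, F A p (t : ZMod p) -
        ∑ p ∈ (range (x + 1)).filter Nat.Prime, mn (F A) p| +
        ∑ t ∈ range T, |∑ p ∈ (range (x + 1)).filter Nat.Prime, F A p (-(t : ZMod p)) -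
        ∑ p ∈ (range (x + 1)).filter Nat.Prime, mn (F A) p| + 2 * (T * wt A x) := by
      have e4 : ∀ t : ℕ, (g A (t : ℤ) + wt A x) + (g A (-(t : ℤ)) + wt A x) =
          (|∑ p ∈ (range (x + 1)).filter Nat.Prime, F A p (t : ZMod p) -
        ∑ p ∈ (range (x + 1)).filter Nat.Prime, mn (F A) p| +
        |∑ p ∈ (range (x + 1)).filter Nat.Prime, F A p (-(t : ZMod p)) -
        ∑ p ∈ (range (x + 1)).filter Nat.Prime, mn (F A) p|) + 2 * wt A x := by
        intro t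
        simp only [hg]
        push_cast
        ring
      rw [sum_congr rfl fun t _ => e4 t, sum_add_distrib, sum_add_distrib, sum_const, card_range,
        nsmul_eq_mul]
      ring
    rw [e3]
    linarith
  have hA : ∑ A ∈ Icc (-(Y : ℤ)) Y, wt A x ≤ (1 + C') * L + 2 * (S * Y) := by
    have h1 : (Icc (-(Y : ℤ)) Y) ⊆ {0} ∪ ((Ioc 0 Y).image (fun n : ℕ => (n : ℤ)) ∪
        (Ioc 0 Y).image (fun n : ℕ => -(n : ℤ))) := by
      intro A hA
      rw [mem_Icc] at hA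
      by_cases h0 : A = 0
      · exact mem_union_left _ (mem_singleton.2 h0)
      refine mem_union_right _ ?_
      have h2 : A.natAbs ∈ Ioc 0 Y := by
        rw [mem_Ioc]
        omega
      rw [mem_union, mem_image, mem_image]
      rcases Int.natAbs_eq A with e | e
      · left; exact ⟨A.natAbs, h2, e.symm⟩
      · right; exact ⟨A.natAbs, h2, e.symm⟩
    refine (sum_le_sum_of_subset_of_nonneg h1 fun A _ _ => wt_nonneg A x).trans ?_
    have h2 : ∀ s t : Finset ℤ, ∑ A ∈ s ∪ t, wt A x ≤ ∑ A ∈ s, wt A x + ∑ A ∈ t, wt A x := by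
      intro s t
      rw [← sum_union_inter]
      have := sum_nonneg (s := s ∩ t) fun A _ => wt_nonneg A x
      linarith
    refine (h2 _ _).trans ?_
    have h3 := h2 ((Ioc 0 Y).image (fun n : ℕ => (n : ℤ))) ((Ioc 0 Y).image (fun n : ℕ => -(n : ℤ)))
    rw [sum_image fun a _ b _ h => by exact_mod_cast h,
      sum_image fun a _ b _ h => by simpa using h] at h3
    have h4 : ∀ n : ℕ, wt (-(n : ℤ)) x = wt (n : ℤ) x := by
      intro n
      rw [wt_natAbs, Int.natAbs_neg, Int.natAbs_natCast]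
    simp only [h4] at h3
    have h5 := HS Y x
    have h6 : ∑ A ∈ ({0} : Finset ℤ), wt A x ≤ (1 + C') * L := by
      rw [sum_singleton]
      unfold wt
      have := (abs_le.1 (hC' x (by omega))).2
      simp only [dvd_zero, if_true]
      nlinarith
    linarith
  have h1 : ∑ q ∈ FF X, (g q.1 q.2 + wt q.1 x) ≤ ∑ A ∈ Icc (-(Y : ℤ)) Y, 2 * (T * (K₁ * l + wt A x)) := by
    have hsub : FF X ⊆ Icc (-(YY X : ℤ)) (YY X) ×ˢ Ioo (-(TT X : ℤ)) (TT X) := by
      refine subset_trans ?_ (box_sub X)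
      unfold FF
      exact filter_subset _ _
    refine (sum_le_sum_of_subset_of_nonneg hsub fun q _ _ => add_nonneg (abs_nonneg _)
      (wt_nonneg _ _)).trans ?_
    rw [sum_product]
    exact sum_le_sum fun A _ => hB A
  refine h1.trans ?_
  rw [← mul_sum, ← mul_sum, sum_add_distrib, sum_const, nsmul_eq_mul, Int.card_Icc]
  have h2 : ((((Y : ℤ) + 1 - -(Y : ℤ)).toNat : ℕ) : ℝ) ≤ 3 * Y := by
    have hYn : 1 ≤ Y := by exact_mod_cast hY1
    have : ((Y : ℤ) + 1 - -(Y : ℤ)).toNat ≤ 3 * Y := by omega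
    calc ((((Y : ℤ) + 1 - -(Y : ℤ)).toNat : ℕ) : ℝ) ≤ ((3 * Y : ℕ) : ℝ) := by exact_mod_cast this
      _ = 3 * Y := by push_cast; ring
  have hCl : 0 ≤ K₁ * l := by positivity
  have h3 : ((((Y : ℤ) + 1 - -(Y : ℤ)).toNat : ℕ) : ℝ) * (K₁ * l) ≤ 3 * Y * (K₁ * l) :=
    mul_le_mul_of_nonneg_right h2 hCl
  have h4 : (1 + C') * L ≤ (1 + C') * (Y * l) := by
    refine mul_le_mul_of_nonneg_left ?_ (by positivity)
    nlinarith
  have h5 : 2 * (S * (Y : ℝ)) ≤ 2 * (S * (Y * l)) := by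
    have : (Y : ℝ) ≤ Y * l := le_mul_of_one_le_right (by linarith) hl1
    nlinarith
  have h6 : ((((Y : ℤ) + 1 - -(Y : ℤ)).toNat : ℕ) : ℝ) * (K₁ * l) + ∑ A ∈ Icc (-(Y : ℤ)) Y, wt A x ≤
      (3 * K₁ + (1 + C') + 2 * S) * (Y * l) := by nlinarith
  have h7 := YT_real hX27
  have h8 := FF_card hX27
  calc 2 * ((T : ℝ) * (((((Y : ℤ) + 1 - -(Y : ℤ)).toNat : ℕ) : ℝ) * (K₁ * l) +
        ∑ A ∈ Icc (-(Y : ℤ)) Y, wt A x))
      ≤ 2 * (T * ((3 * K₁ + (1 + C') + 2 * S) * (Y * l))) := by gcongr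
    _ = (6 * K₁ + 2 * (1 + C') + 4 * S) * l * (Y * T) := by ring
    _ ≤ (6 * K₁ + 2 * (1 + C') + 4 * S) * l * (X : ℝ) ^ (5 / 6 : ℝ) :=
        mul_le_mul_of_nonneg_left h7 (by positivity)
    _ ≤ (6 * K₁ + 2 * (1 + C') + 4 * S) * l * (200 * (FF X).card) :=
        mul_le_mul_of_nonneg_left h8 (by positivity)
    _ = _ := by ring

end Pool.Agent.Q28.BP
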