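import Pool.Agent.Q28.BP.Curves

/-!
# Almost all elliptic curves, ordered by height, II
-/

set_option autoImplicit false

open Finset Filter Topology

namespace Pool.Agent.Q28.BP

open Pool.Agent.W263.BSD (pointCount GoodPrime)

lemma wt_nonneg (A : ℤ) (x : ℕ) : 0 ≤ wt A x := by
  unfold wt
  exact sum_nonneg fun p _ => by split_ifs <;> positivity

lemma sum_wt : ∃ S : ℝ, 0 < S ∧ ∀ Y x : ℕ, ∑ n ∈ Ioc 0 Y, wt (n : ℤ) x ≤ S * Y := by
  set S : ℝ := 1 * ∑' n : ℕ, (n : ℝ) ^ (-(3 / 2) : ℝ) with hS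
  have hS0 : 0 ≤ S := mul_nonneg (by norm_num) (tsum_nonneg fun n => by positivity)
  refine ⟨S + 1, by positivity, fun Y x => ?_⟩
  unfold wt
  rw [sum_comm]
  have h1 : ∀ p ∈ (range (x + 1)).filter Nat.Prime,
      (∑ n ∈ Ioc 0 Y, if (p : ℤ) ∣ (n : ℤ) then 1 / (p : ℝ) else 0) ≤ Y * (1 / (p : ℝ) ^ 2) := by
    intro p hp
    have hp0 : (0 : ℝ) < p := by exact_mod_cast (mem_filter.1 hp).2.pos
    rw [← sum_filter, sum_const, nsmul_eq_mul]
    have e : (Ioc 0 Y).filter (fun n : ℕ => (p : ℤ) ∣ (n : ℤ)) = (Ioc 0 Y).filter (fun n : ℕ => p ∣ n) :=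
      filter_congr fun n _ => by exact Int.natCast_dvd_natCast
    rw [e, Nat.Ioc_filter_dvd_card_eq_div]
    have h2 : ((Y / p : ℕ) : ℝ) ≤ Y / p := Nat.cast_div_le
    calc ((Y / p : ℕ) : ℝ) * (1 / p) ≤ Y / p * (1 / p) := mul_le_mul_of_nonneg_right h2 (by positivity)
      _ = _ := by field_simp
  refine (sum_le_sum h1).trans ?_
  rw [← mul_sum]
  have h4 := sum32 1 (by norm_num) (fun p => 1 / (p : ℝ) ^ 2) (fun p hp => by
    have hp0 : (0 : ℝ) < p := by exact_mod_cast hp.pos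
    have hp1 : (1 : ℝ) ≤ p := by exact_mod_cast hp.one_lt.le
    rw [abs_of_pos (by positivity), rpow32 hp.pos, mul_one_div]
    refine div_le_div_of_nonneg_left (by norm_num) (by positivity) ?_
    have hs1 : 1 ≤ Real.sqrt p := by rwa [Real.one_le_sqrt]
    have hss : Real.sqrt p * Real.sqrt p = p := Real.mul_self_sqrt hp0.le
    nlinarith [mul_nonneg (sub_nonneg.2 hs1) hp0.le]) x
  have h5 := (le_abs_self _).trans h4
  have hY : (0 : ℝ) ≤ Y := Nat.cast_nonneg Y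
  nlinarith

lemma wt_le {n Y : ℕ} (h1 : 0 < n) (h2 : n ≤ Y) (x : ℕ) : wt (n : ℤ) x ≤ wt (n : ℤ) Y := by
  unfold wt
  rw [← sum_filter, ← sum_filter]
  refine sum_le_sum_of_subset_of_nonneg ?_ fun _ _ _ => by positivity
  intro p hp
  rw [mem_filter, mem_filter] at hp ⊢
  have h3 : p ∣ n := Int.natCast_dvd_natCast.1 hp.2
  have h4 := Nat.le_of_dvd h1 h3
  exact ⟨⟨mem_range.2 (by omega), hp.1.2⟩, hp.2⟩

lemma few_A {η : ℝ} (hη : 0 < η) : ∃ M : ℝ, 0 ≤ M ∧ ∀ Y : ℕ, ∃ E ⊆ Ioc 0 Y, (E.card : ℝ) ≤ η * Y ∧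
    ∀ n ∈ Ioc 0 Y, n ∉ E → ∀ x : ℕ, wt (n : ℤ) x ≤ M := by
  classical
  obtain ⟨S, hS, H⟩ := sum_wt
  refine ⟨S / η, by positivity, fun Y => ⟨(Ioc 0 Y).filter fun n : ℕ => S / η < wt (n : ℤ) Y,
    filter_subset _ _, ?_, fun n hn hne x => ?_⟩⟩
  · have h1 : (((Ioc 0 Y).filter fun n : ℕ => S / η < wt (n : ℤ) Y).card : ℝ) * (S / η) ≤ S * Y := by
      rw [← nsmul_eq_mul, ← sum_const]
      refine (sum_le_sum fun w hw => (mem_filter.1 hw).2.le).trans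
        ((sum_le_sum_of_subset_of_nonneg (filter_subset _ _) fun w _ _ => wt_nonneg _ _).trans (H Y Y))
    rw [mul_div_assoc', div_le_iff₀ hη] at h1
    have h2 : S * (((Ioc 0 Y).filter fun n : ℕ => S / η < wt (n : ℤ) Y).card : ℝ) ≤ S * (η * Y) := by
      calc _ = (((Ioc 0 Y).filter fun n : ℕ => S / η < wt (n : ℤ) Y).card : ℝ) * S := by ring
        _ ≤ S * Y * η := h1
        _ = _ := by ring
    exact le_of_mul_le_mul_left h2 hS
  · rw [mem_filter, not_and, not_lt] at hne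
    rw [mem_Ioc] at hn
    exact (wt_le hn.1 hn.2 x).trans (hne (mem_Ioc.2 hn))

lemma wt_natAbs (A : ℤ) (x : ℕ) : wt A x = wt (A.natAbs : ℤ) x := by
  unfold wt
  refine sum_congr rfl fun p _ => ?_
  simp only [Int.dvd_natAbs]

/-! ### The sizes of the boxes -/

def YY (X : ℕ) : ℕ := Nat.findGreatest (fun n => 4 * n ^ 3 ≤ X) X
def TT (X : ℕ) : ℕ := Nat.sqrt (X / 27) + 1

lemma YY_spec (X : ℕ) : 4 * YY X ^ 3 ≤ X := by
  have h : (fun n => 4 * n ^ 3 ≤ X) (YY X) :=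
    Nat.findGreatest_spec (P := fun n => 4 * n ^ 3 ≤ X) (Nat.zero_le X) (by simp)
  exact h

lemma le_YY {X n : ℕ} (h : 4 * n ^ 3 ≤ X) : n ≤ YY X := by
  refine Nat.le_findGreatest ?_ h
  have := Nat.le_self_pow (show 3 ≠ 0 by norm_num) n
  omega

lemma lt_TT {X n : ℕ} (h : 27 * n ^ 2 ≤ X) : n < TT X := by
  have h1 : n ≤ Nat.sqrt (X / 27) := by
    rw [Nat.le_sqrt']
    rw [Nat.le_div_iff_mul_le (by norm_num)]
    omega
  unfold TT
  omega

lemma TT_pow {X x : ℕ} (h : 27 * x ^ 20 ≤ X) : x ^ 10 ≤ TT X := by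
  refine (lt_TT ?_).le
  rw [← pow_mul]
  exact h

lemma YY_real {X : ℕ} : (YY X : ℝ) ≤ (X : ℝ) ^ (1 / 3 : ℝ) := by
  have h := YY_spec X
  have h1 : (YY X : ℝ) ^ 3 ≤ X := by
    have : YY X ^ 3 ≤ X := by omega
    exact_mod_cast this
  calc (YY X : ℝ) = ((YY X : ℝ) ^ 3) ^ (1 / 3 : ℝ) := by
        rw [← Real.rpow_natCast, ← Real.rpow_mul (Nat.cast_nonneg _)]
        norm_num
    _ ≤ _ := Real.rpow_le_rpow (by positivity) h1 (by norm_num)

lemma TT_real {X : ℕ} (hX : 27 ≤ X) : (TT X : ℝ) ≤ (X : ℝ) ^ (1 / 2 : ℝ) := by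
  have h1 : (Nat.sqrt (X / 27) : ℝ) ^ 2 ≤ X / 27 := by
    have h2 : Nat.sqrt (X / 27) ^ 2 ≤ X / 27 := Nat.sqrt_le' _
    have h3 : ((X / 27 : ℕ) : ℝ) ≤ (X : ℝ) / 27 := by
      have := @Nat.cast_div_le ℝ _ _ _ X 27
      exact_mod_cast this
    have h4 : (Nat.sqrt (X / 27) : ℝ) ^ 2 ≤ ((X / 27 : ℕ) : ℝ) := by exact_mod_cast h2
    exact h4.trans h3
  have hX' : (27 : ℝ) ≤ X := by exact_mod_cast hX
  unfold TT
  push_cast
  rw [← Real.sqrt_eq_rpow]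
  refine Real.le_sqrt_of_sq_le ?_
  have h5 : 0 ≤ (Nat.sqrt (X / 27) : ℝ) := Nat.cast_nonneg _
  nlinarith

lemma YT_real {X : ℕ} (hX : 27 ≤ X) : (YY X : ℝ) * TT X ≤ (X : ℝ) ^ (5 / 6 : ℝ) := by
  have hX0 : (0 : ℝ) < X := by exact_mod_cast (by omega : 0 < X)
  calc (YY X : ℝ) * TT X ≤ (X : ℝ) ^ (1 / 3 : ℝ) * (X : ℝ) ^ (1 / 2 : ℝ) :=
        mul_le_mul YY_real (TT_real hX) (Nat.cast_nonneg _) (by positivity)
    _ = _ := by rw [← Real.rpow_add hX0]; norm_num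

lemma YY_large {X x : ℕ} (h : 27 * x ^ 20 ≤ X) : x ≤ YY X := by
  refine le_YY (le_trans ?_ h)
  rcases Nat.eq_zero_or_pos x with rfl | hx
  · simp
  · have : x ^ 3 ≤ x ^ 20 := Nat.pow_le_pow_right hx (by norm_num)
    omega

open scoped Classical in
/-- the exceptional pairs -/
noncomputable def EE (Y T : ℕ) (EA : Finset ℕ) (E1 E2 : ℤ → Finset ℕ) : Finset (ℤ × ℤ) :=
  (({0} ∪ EA.image (fun n : ℕ => (n : ℤ)) ∪ EA.image (fun n : ℕ => -(n : ℤ))) ×ˢ Ioo (-(T : ℤ)) T) ∪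
    (Icc (-(Y : ℤ)) Y).biUnion fun A => ({A} : Finset ℤ) ×ˢ
      ((E1 A).image (fun n : ℕ => (n : ℤ)) ∪ (E2 A).image (fun n : ℕ => -(n : ℤ)))

lemma EE_card (Y T : ℕ) (EA : Finset ℕ) (E1 E2 : ℤ → Finset ℕ) {η : ℝ} (hη : 0 ≤ η) (h1 : (EA.card : ℝ) ≤ η * Y)
    (h2 : ∀ A, ((E1 A).card : ℝ) ≤ η * T) (h3 : ∀ A, ((E2 A).card : ℝ) ≤ η * T) (hY : 1 ≤ Y) :
    ((EE Y T EA E1 E2).card : ℝ) ≤ 2 * T + 10 * η * (Y * T) := by
  classical
  unfold EE
  refine (Nat.cast_le.2 (card_union_le _ _)).trans ?_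
  push_cast
  have hT0 : (0 : ℝ) ≤ T := Nat.cast_nonneg _
  have hY1 : (1 : ℝ) ≤ Y := by exact_mod_cast hY
  have k1 : ((({0} ∪ EA.image (fun n : ℕ => (n : ℤ)) ∪ EA.image (fun n : ℕ => -(n : ℤ)) : Finset ℤ) ×ˢ
      Ioo (-(T : ℤ)) T).card : ℝ) ≤ (1 + 2 * (η * Y)) * (2 * T) := by
    rw [card_product]
    push_cast
    refine mul_le_mul ?_ ?_ (Nat.cast_nonneg _) (by positivity)
    · have e1 : (({0} ∪ EA.image (fun n : ℕ => (n : ℤ)) ∪ EA.image (fun n : ℕ => -(n : ℤ)) :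
          Finset ℤ)).card ≤ 1 + EA.card + EA.card := by
        refine (card_union_le _ _).trans (add_le_add ((card_union_le _ _).trans
          (add_le_add (by simp) card_image_le)) card_image_le)
      have e2 : ((({0} ∪ EA.image (fun n : ℕ => (n : ℤ)) ∪ EA.image (fun n : ℕ => -(n : ℤ)) :
          Finset ℤ)).card : ℝ) ≤ 1 + EA.card + EA.card := by exact_mod_cast e1
      linarith
    · rw [Int.card_Ioo]
      have : ((T : ℤ) - -(T : ℤ) - 1).toNat ≤ 2 * T := by omega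
      calc ((((T : ℤ) - -(T : ℤ) - 1).toNat : ℕ) : ℝ) ≤ ((2 * T : ℕ) : ℝ) := by exact_mod_cast this
        _ = 2 * T := by push_cast; ring
  have k2 : (((Icc (-(Y : ℤ)) Y).biUnion fun A => ({A} : Finset ℤ) ×ˢ
      ((E1 A).image (fun n : ℕ => (n : ℤ)) ∪ (E2 A).image (fun n : ℕ => -(n : ℤ)))).card : ℝ) ≤
      (3 * Y) * (2 * (η * T)) := by
    have e1 : (((Icc (-(Y : ℤ)) Y).biUnion fun A => ({A} : Finset ℤ) ×ˢ
        ((E1 A).image (fun n : ℕ => (n : ℤ)) ∪ (E2 A).image (fun n : ℕ => -(n : ℤ)))).card : ℝ) ≤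
        ∑ A ∈ Icc (-(Y : ℤ)) Y, ((({A} : Finset ℤ) ×ˢ
        ((E1 A).image (fun n : ℕ => (n : ℤ)) ∪ (E2 A).image (fun n : ℕ => -(n : ℤ)))).card : ℝ) := by
      exact_mod_cast card_biUnion_le
    refine e1.trans ?_
    have e2 : ∀ A ∈ Icc (-(Y : ℤ)) Y, ((({A} : Finset ℤ) ×ˢ
        ((E1 A).image (fun n : ℕ => (n : ℤ)) ∪ (E2 A).image (fun n : ℕ => -(n : ℤ)))).card : ℝ) ≤
        2 * (η * T) := by
      intro A _
      rw [card_product, card_singleton, one_mul]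
      have e3 : ((E1 A).image (fun n : ℕ => (n : ℤ)) ∪ (E2 A).image (fun n : ℕ => -(n : ℤ))).card ≤
          (E1 A).card + (E2 A).card := (card_union_le _ _).trans (add_le_add card_image_le card_image_le)
      have e4 : (((E1 A).image (fun n : ℕ => (n : ℤ)) ∪ (E2 A).image (fun n : ℕ => -(n : ℤ))).card : ℝ) ≤
          (E1 A).card + (E2 A).card := by exact_mod_cast e3
      linarith [h2 A, h3 A]
    refine (sum_le_sum e2).trans ?_
    rw [sum_const, nsmul_eq_mul, Int.card_Icc]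
    refine mul_le_mul_of_nonneg_right ?_ (by positivity)
    have : ((Y : ℤ) + 1 - -(Y : ℤ)).toNat ≤ 3 * Y := by omega
    calc ((((Y : ℤ) + 1 - -(Y : ℤ)).toNat : ℕ) : ℝ) ≤ ((3 * Y : ℕ) : ℝ) := by exact_mod_cast this
      _ = 3 * Y := by push_cast; ring
  calc _ ≤ (1 + 2 * (η * Y)) * (2 * T) + (3 * Y) * (2 * (η * T)) := add_le_add k1 k2
    _ = _ := by ring

/-- **Almost all elliptic curves.** -/
theorem almost_all {η : ℝ} (hη : 0 < η) : ∃ X₀ : ℕ, 3 ≤ X₀ ∧ ∀ X : ℕ, ∃ E : Finset (ℤ × ℤ),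
    (E.card : ℝ) ≤ η * (X : ℝ) ^ (5 / 6 : ℝ) ∧ ∀ A B : ℤ, 4 * |A| ^ 3 ≤ X → 27 * B ^ 2 ≤ X →
      (A, B) ∉ E → ∀ x : ℕ, X₀ ≤ x → 27 * x ^ 20 ≤ X →
        |∑ p ∈ (range (x + 1)).filter Nat.Prime, lg A B p - 1 / 2 * Real.log (Real.log x)| ≤
          3 * Real.log (Real.log x) ^ (5 / 6 : ℝ) := by
  classical
  set η₁ : ℝ := η / 20 with hη₁
  have hη₁0 : 0 < η₁ := by positivity
  obtain ⟨X₁, hX₁, H⟩ := nagao η₁ hη₁0
  obtain ⟨M, hM, HA⟩ := few_A hη₁0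
  obtain ⟨K, hK, HK⟩ := sum_nu_curve
  have hL : Tendsto (fun x : ℕ => Real.log (Real.log (x : ℝ)) ^ (5 / 6 : ℝ)) atTop atTop :=
    (tendsto_rpow_atTop (by norm_num)).comp tendsto_loglog
  obtain ⟨X₂, hX₂⟩ := eventually_atTop.1 (hL.eventually_ge_atTop (K + M))
  obtain ⟨X₃, hX₃⟩ := exists_nat_ge (4 / η)
  refine ⟨max X₁ (max X₂ X₃), hX₁.trans (le_max_left _ _), fun X => ?_⟩
  by_cases hbig : ∃ x : ℕ, max X₁ (max X₂ X₃) ≤ x ∧ 27 * x ^ 20 ≤ X
  swap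
  · refine ⟨∅, by simpa using by positivity, fun A B _ _ _ x hx hxX => ?_⟩
    exact absurd ⟨x, hx, hxX⟩ hbig
  obtain ⟨x₀, hx₀, hx₀X⟩ := hbig
  have hx₀3 : 3 ≤ x₀ := hX₁.trans ((le_max_left _ _).trans hx₀)
  have hX27 : 27 ≤ X := by
    have : 1 ≤ x₀ ^ 20 := Nat.one_le_pow _ _ (by omega)
    omega
  have hYx := YY_large hx₀X
  set Y := YY X with hY
  set T := TT X with hT
  have hE1 := fun A : ℤ => H (Polynomial.C A) Polynomial.X T (rt T) (rt_le T)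
  have hE2 := fun A : ℤ => H (Polynomial.C A) (-Polynomial.X) T (rt T) (rt_le T)
  choose E1 hE1s hE1c hE1 using hE1
  choose E2 hE2s hE2c hE2 using hE2
  obtain ⟨EA, hEAs, hEAc, hEA⟩ := HA Y
  refine ⟨EE Y T EA E1 E2, ?_, fun A B hA hB hne x hx hxX => ?_⟩
  · refine (EE_card Y T EA E1 E2 hη₁0.le hEAc hE1c hE2c (by omega)).trans ?_
    have h1 : (4 / η : ℝ) ≤ Y := by
      refine hX₃.trans ?_
      have : X₃ ≤ Y := ((le_max_right _ _).trans (le_max_right _ _)).trans (hx₀.trans hYx)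
      exact_mod_cast this
    rw [div_le_iff₀ hη] at h1
    have h2 : (0 : ℝ) ≤ T := Nat.cast_nonneg _
    have h3 := YT_real hX27
    have h4 : 2 * (T : ℝ) ≤ η / 2 * (Y * T) := by nlinarith
    have h5 : 10 * η₁ * ((Y : ℝ) * T) = η / 2 * (Y * T) := by rw [hη₁]; ring
    rw [h5]
    calc _ ≤ η * ((Y : ℝ) * T) := by linarith
      _ ≤ _ := mul_le_mul_of_nonneg_left h3 hη.le
  · have hAn : A.natAbs ≤ Y := by
      refine le_YY ?_
      have : (4 * A.natAbs ^ 3 : ℤ) ≤ X := by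
        rw [Int.natCast_natAbs]
        exact hA
      exact_mod_cast this
    have hBn : B.natAbs < T := by
      refine lt_TT ?_
      have : (27 * (B.natAbs : ℤ) ^ 2 : ℤ) ≤ X := by
        rw [Int.natCast_natAbs, sq_abs]
        exact hB
      exact_mod_cast this
    have hAm : A ∈ Icc (-(Y : ℤ)) Y := by rw [mem_Icc]; omega
    have hBm : B ∈ Ioo (-(T : ℤ)) T := by rw [mem_Ioo]; omega
    have hA0 : A ≠ 0 := by
      rintro rfl
      apply hne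
      unfold EE
      refine mem_union_left _ (mem_product.2 ⟨?_, hBm⟩)
      simp
    have hAE : A.natAbs ∉ EA := by
      intro h
      apply hne
      unfold EE
      refine mem_union_left _ (mem_product.2 ⟨?_, hBm⟩)
      rcases Int.natAbs_eq A with e | e
      · refine mem_union_left _ (mem_union_right _ (mem_image.2 ⟨A.natAbs, h, e.symm⟩))
      · exact mem_union_right _ (mem_image.2 ⟨A.natAbs, h, e.symm⟩)
    have hw : wt A x ≤ M := by
      rw [wt_natAbs]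
      exact hEA A.natAbs (mem_Ioc.2 ⟨Int.natAbs_pos.2 hA0, hAn⟩) hAE x
    have hxT : x ≤ rt T := le_rt (TT_pow hxX)
    have hx1 : X₁ ≤ x := (le_max_left _ _).trans hx
    have hx2 : X₂ ≤ x := ((le_max_left _ _).trans (le_max_right _ _)).trans hx
    have h5 := hX₂ x hx2
    have hfin : ∀ D : Polynomial ℤ, D = Polynomial.X ∨ D = -Polynomial.X →
        |∑ p ∈ (range (x + 1)).filter Nat.Prime, lg A B p -
          ∑ p ∈ (range (x + 1)).filter Nat.Prime, nu (Polynomial.C A) D p| ≤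
            2 * Real.log (Real.log x) ^ (5 / 6 : ℝ) →
        |∑ p ∈ (range (x + 1)).filter Nat.Prime, lg A B p - 1 / 2 * Real.log (Real.log x)| ≤
          3 * Real.log (Real.log x) ^ (5 / 6 : ℝ) := by
      intro D hD h
      have h6 := HK A D hD x (hX₁.trans hx1)
      rw [abs_le] at h h6 ⊢
      constructor <;> linarith [h.1, h.2, h6.1, h6.2]
    rcases Int.natAbs_eq B with e | e
    · have hB1 : B.natAbs ∉ E1 A := by
        intro h
        apply hne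
        unfold EE
        refine mem_union_right _ (mem_biUnion.2 ⟨A, hAm, mem_product.2 ⟨mem_singleton_self A, ?_⟩⟩)
        exact mem_union_left _ (mem_image.2 ⟨B.natAbs, h, e.symm⟩)
      refine hfin Polynomial.X (Or.inl rfl) ?_
      have h7 := hE1 A B.natAbs (mem_range.2 hBn) hB1 x hx1 hxT
      rw [Polynomial.eval_C, Polynomial.eval_X, ← e] at h7
      exact h7
    · have hB1 : B.natAbs ∉ E2 A := by
        intro h
        apply hne
        unfold EE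
        refine mem_union_right _ (mem_biUnion.2 ⟨A, hAm, mem_product.2 ⟨mem_singleton_self A, ?_⟩⟩)
        exact mem_union_right _ (mem_image.2 ⟨B.natAbs, h, e.symm⟩)
      refine hfin (-Polynomial.X) (Or.inr rfl) ?_
      have h7 := hE2 A B.natAbs (mem_range.2 hBn) hB1 x hx1 hxT
      rw [Polynomial.eval_C, Polynomial.eval_neg, Polynomial.eval_X, ← e] at h7
      exact h7

end Pool.Agent.Q28.BP
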