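import Pool.Agent.Q28.BP.Gen
import Pool.Agent.Helper605.TraceR

/-!
# Local factors of an elliptic curve twisted by a matrix of finite order
-/

set_option autoImplicit false

open Finset Filter Topology ComplexConjugate Polynomial Matrix

namespace Pool.Agent.Q28.BP

variable {n : ℕ}

theorem exists_fun (s : Multiset ℂ) (hs : s.card = n) : ∃ a : Fin n → ℂ, s = Finset.univ.val.map a := by
  obtain ⟨l, rfl⟩ := Quot.exists_rep s
  have h1 : l.length = n := hs
  subst h1
  refine ⟨l.get, ?_⟩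
  rw [Fin.univ_val_map, List.ofFn_get]
  rfl

/-- the eigenvalues of a matrix of finite order -/
theorem exists_eig (M : Matrix (Fin n) (Fin n) ℂ) {m : ℕ} (hm : m ≠ 0) (hM : M ^ m = 1) :
    ∃ a : Fin n → ℂ, (∀ j, ‖a j‖ = 1) ∧ (∀ z : ℂ, (1 - z • M).det = ∏ j, (1 - a j * z)) ∧
      ∀ k : ℕ, ∑ j, a j ^ k = (M ^ k).trace := by
  obtain ⟨a, ha⟩ : ∃ a : Fin n → ℂ, M.charpoly.roots = Finset.univ.val.map a := by
    refine exists_fun _ ?_
    have h1 := (Polynomial.splits_iff_card_roots (f := M.charpoly)).1 (IsAlgClosed.splits _)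
    rw [h1]
    simp
  have hchar : M.charpoly = ∏ j, (X - C (a j)) := by
    have h1 := (IsAlgClosed.splits M.charpoly).eq_prod_roots
    rw [h1, (Matrix.charpoly_monic M).leadingCoeff, C_1, one_mul, ha, Multiset.map_map]
    rfl
  refine ⟨a, fun j => ?_, fun z => ?_, fun k => ?_⟩
  · have h1 : a j ∈ M.charpoly.roots := by
      rw [ha, Multiset.mem_map]
      exact ⟨j, Finset.mem_univ_val j, rfl⟩
    have h2 : M.charpoly.eval (a j) = 0 := (Polynomial.mem_roots'.1 h1).2
    rw [Matrix.eval_charpoly] at h2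
    obtain ⟨v, hv0, hv⟩ := Matrix.exists_mulVec_eq_zero_iff.2 h2
    have h3 : M *ᵥ v = a j • v := by
      rw [Matrix.sub_mulVec, sub_eq_zero] at hv
      rw [← hv]
      funext i
      simp [Matrix.scalar_apply, Matrix.mulVec_diagonal]
    have h4 : ∀ k : ℕ, (M ^ k) *ᵥ v = (a j) ^ k • v := by
      intro k
      induction k with
      | zero => simp
      | succ k ih => rw [pow_succ', ← Matrix.mulVec_mulVec, ih, Matrix.mulVec_smul, h3, smul_smul, pow_succ]
    have h5 := h4 m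
    rw [hM, Matrix.one_mulVec] at h5
    have h6 : (a j) ^ m = 1 := by
      by_contra h7
      obtain ⟨i, hi⟩ := Function.ne_iff.1 hv0
      have h8 := congrFun h5 i
      rw [Pi.smul_apply, smul_eq_mul] at h8
      refine h7 ?_
      have h9 : v i ≠ 0 := hi
      have : (a j ^ m) * v i = 1 * v i := by rw [← h8, one_mul]
      exact mul_right_cancel₀ h9 this
    exact Complex.norm_eq_one_of_pow_eq_one h6 hm
  · by_cases hz : z = 0
    · simp [hz]
    · have h1 : (1 : Matrix (Fin n) (Fin n) ℂ) - z • M = z • (Matrix.scalar (Fin n) z⁻¹ - M) := by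
        rw [smul_sub, Matrix.scalar_apply]
        congr 1
        ext i j
        by_cases hij : i = j
        · subst hij
          simp [hz]
        · simp [hij]
      rw [h1, Matrix.det_smul, ← Matrix.eval_charpoly, hchar, Polynomial.eval_prod, Fintype.card_fin]
      simp only [Polynomial.eval_sub, Polynomial.eval_X, Polynomial.eval_C]
      have h2 : z ^ n = ∏ _j : Fin n, z := by rw [Finset.prod_const, Finset.card_univ, Fintype.card_fin]
      rw [h2, ← Finset.prod_mul_distrib]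
      refine Finset.prod_congr rfl fun j _ => ?_
      rw [mul_sub, mul_inv_cancel₀ hz, mul_comm]
  · rw [Pool.Agent.Helper605.trace_pow_roots, ha, Multiset.map_map]
    rfl

/-- the logarithm of `1 - z` to the second order -/
lemma log_two {z : ℂ} (hz : ‖z‖ ≤ 1 / 2) :
    z ≠ 1 ∧ |Real.log ‖1 - z‖ - (-z.re - (z ^ 2).re / 2)| ≤ ‖z‖ ^ 3 := by
  have h1 : ‖-z‖ < 1 := by rw [norm_neg]; linarith
  have hne : z ≠ 1 := by
    rintro rfl
    rw [norm_one] at hz
    linarith
  refine ⟨hne, ?_⟩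
  have h2 := Complex.norm_log_sub_logTaylor_le 2 h1
  rw [norm_neg] at h2
  have h3 : Complex.logTaylor 3 (-z) = -z - z ^ 2 / 2 := by
    simp [Complex.logTaylor_succ, Complex.logTaylor_zero]
    ring
  rw [show (2 + 1 : ℕ) = 3 by norm_num, h3, ← sub_eq_add_neg] at h2
  have h4 := (Complex.abs_re_le_norm _).trans h2
  have h5 : (Complex.log (1 - z) - (-z - z ^ 2 / 2)).re =
      Real.log ‖1 - z‖ - (-z.re - (z ^ 2).re / 2) := by
    rw [Complex.sub_re, Complex.log_re, Complex.sub_re, Complex.neg_re]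
    congr 2
    have : (z ^ 2 / 2).re = (z ^ 2).re / 2 := by
      rw [show (2 : ℂ) = ((2 : ℝ) : ℂ) by norm_num, Complex.div_ofReal_re]
    rw [this]
  rw [h5] at h4
  refine h4.trans ?_
  have h6 : (1 - ‖z‖)⁻¹ ≤ 2 := by
    rw [inv_le_comm₀ (by linarith) (by norm_num)]
    linarith
  have h7 : 0 ≤ ‖z‖ ^ 3 := by positivity
  rw [div_le_iff₀ (by norm_num)]
  push_cast
  nlinarith [mul_nonneg h7 (sub_nonneg.2 h6)]

/-- two conjugate numbers with given sum and product `1 / p` -/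
lemma exists_uv {a p : ℝ} (hp : 0 < p) (ha : |a| ≤ 2 * Real.sqrt p) : ∃ u v : ℂ,
    u + v = ((a / p : ℝ) : ℂ) ∧ u * v = ((1 / p : ℝ) : ℂ) ∧ ‖u‖ = 1 / Real.sqrt p ∧ ‖v‖ = 1 / Real.sqrt p := by
  have hs : 0 < Real.sqrt p := Real.sqrt_pos.2 hp
  have hss : Real.sqrt p * Real.sqrt p = p := Real.mul_self_sqrt hp.le
  set b : ℝ := Real.sqrt (1 / p - (a / (2 * p)) ^ 2) with hb
  have h0 : 0 ≤ 1 / p - (a / (2 * p)) ^ 2 := by
    have h1 : a ^ 2 ≤ 4 * p := by
      rw [← sq_abs]
      calc |a| ^ 2 ≤ (2 * Real.sqrt p) ^ 2 := pow_le_pow_left₀ (abs_nonneg _) ha 2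
        _ = 4 * p := by rw [mul_pow, Real.sq_sqrt hp.le]; norm_num
    rw [sub_nonneg, div_pow, div_le_div_iff₀ (by positivity) hp]
    nlinarith
  have hbb : b * b = 1 / p - (a / (2 * p)) ^ 2 := Real.mul_self_sqrt h0
  have hnorm : ∀ w : ℂ, w.re = a / (2 * p) → w.im * w.im = b * b → ‖w‖ = 1 / Real.sqrt p := by
    intro w h1 h2
    rw [Complex.norm_def, Complex.normSq_apply, h1, h2, hbb]
    have e : a / (2 * p) * (a / (2 * p)) + (1 / p - (a / (2 * p)) ^ 2) = 1 / p := by ring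
    rw [e, Real.sqrt_div (by norm_num), Real.sqrt_one]
  refine ⟨⟨a / (2 * p), b⟩, ⟨a / (2 * p), -b⟩, ?_, ?_, hnorm _ rfl rfl, hnorm _ rfl (by simp)⟩
  · apply Complex.ext
    · simp only [Complex.add_re, Complex.ofReal_re]
      field_simp
      ring
    · simp
  · apply Complex.ext
    · simp only [Complex.mul_re, Complex.ofReal_re]
      have : a / (2 * p) * (a / (2 * p)) - b * -b = (a / (2 * p)) ^ 2 + b * b := by ring
      rw [this, hbb]
      ring
    · simp only [Complex.mul_im, Complex.ofReal_im]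
      ring

/-- **The local factor.** -/
theorem local_factor (M : Matrix (Fin n) (Fin n) ℂ) {m : ℕ} (hm : m ≠ 0) (hM : M ^ m = 1) {a p : ℝ}
    (hp : 25 ≤ p) (ha : |a| ≤ 2 * Real.sqrt p) :
    0 < ‖(1 - ((a / p : ℝ) : ℂ) • M + ((1 / p : ℝ) : ℂ) • M ^ 2).det‖ ∧
    |Real.log ‖(1 - ((a / p : ℝ) : ℂ) • M + ((1 / p : ℝ) : ℂ) • M ^ 2).det‖ -
      (-(M.trace.re * (a / p)) - (M ^ 2).trace.re * (a ^ 2 / p ^ 2 - 2 / p) / 2)| ≤
        2 * n / (p * Real.sqrt p) := by
  have hp0 : 0 < p := by linarith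
  have hs : 0 < Real.sqrt p := Real.sqrt_pos.2 hp0
  have hs5 : 5 ≤ Real.sqrt p := by
    rw [show (5 : ℝ) = Real.sqrt 25 by
      rw [show (25 : ℝ) = 5 ^ 2 by norm_num, Real.sqrt_sq (by norm_num)]]
    exact Real.sqrt_le_sqrt hp
  obtain ⟨e, he1, he2, he3⟩ := exists_eig M hm hM
  obtain ⟨u, v, huv, huv2, hu, hv⟩ := exists_uv hp0 ha
  have hfac : 1 - ((a / p : ℝ) : ℂ) • M + ((1 / p : ℝ) : ℂ) • M ^ 2 = (1 - u • M) * (1 - v • M) := by
    rw [← huv, ← huv2]
    simp only [mul_sub, sub_mul, mul_one, one_mul, smul_mul_smul_comm, add_smul, sq]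
    abel
  have hdet : (1 - ((a / p : ℝ) : ℂ) • M + ((1 / p : ℝ) : ℂ) • M ^ 2).det =
      ∏ j, ((1 - e j * u) * (1 - e j * v)) := by
    rw [hfac, Matrix.det_mul, he2, he2, Finset.prod_mul_distrib]
  have hu2 : ∀ j, ‖e j * u‖ = 1 / Real.sqrt p := fun j => by rw [norm_mul, he1, one_mul, hu]
  have hv2 : ∀ j, ‖e j * v‖ = 1 / Real.sqrt p := fun j => by rw [norm_mul, he1, one_mul, hv]
  have hsm : 1 / Real.sqrt p ≤ 1 / 2 := by
    refine one_div_le_one_div_of_le (by norm_num) (by linarith)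
  have hlu := fun j => log_two ((hu2 j).le.trans hsm)
  have hlv := fun j => log_two ((hv2 j).le.trans hsm)
  have hpos : ∀ j, 0 < ‖(1 - e j * u) * (1 - e j * v)‖ := by
    intro j
    rw [norm_pos_iff]
    exact mul_ne_zero (sub_ne_zero.2 (Ne.symm (hlu j).1)) (sub_ne_zero.2 (Ne.symm (hlv j).1))
  refine ⟨?_, ?_⟩
  · rw [hdet, norm_prod]
    exact Finset.prod_pos fun j _ => hpos j
  · rw [hdet, norm_prod, Real.log_prod fun j _ => (hpos j).ne']
    have h1 : ∀ j, Real.log ‖(1 - e j * u) * (1 - e j * v)‖ =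
        Real.log ‖1 - e j * u‖ + Real.log ‖1 - e j * v‖ := by
      intro j
      rw [norm_mul, Real.log_mul (norm_ne_zero_iff.2 (sub_ne_zero.2 (Ne.symm (hlu j).1)))
        (norm_ne_zero_iff.2 (sub_ne_zero.2 (Ne.symm (hlv j).1)))]
    have h2 : -(M.trace.re * (a / p)) - (M ^ 2).trace.re * (a ^ 2 / p ^ 2 - 2 / p) / 2 =
        ∑ j, ((-(e j * u).re - ((e j * u) ^ 2).re / 2) + (-(e j * v).re - ((e j * v) ^ 2).re / 2)) := by
      have h3 : ∑ j, (e j * u + e j * v) = M.trace * ((a / p : ℝ) : ℂ) := by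
        have := he3 1
        simp only [pow_one] at this
        rw [← this, ← huv, Finset.sum_mul]
        exact Finset.sum_congr rfl fun j _ => by ring
      have h4 : ∑ j, ((e j * u) ^ 2 + (e j * v) ^ 2) = (M ^ 2).trace * ((a ^ 2 / p ^ 2 - 2 / p : ℝ) : ℂ) := by
        have h5 : u ^ 2 + v ^ 2 = ((a ^ 2 / p ^ 2 - 2 / p : ℝ) : ℂ) := by
          have : u ^ 2 + v ^ 2 = (u + v) ^ 2 - 2 * (u * v) := by ring
          rw [this, huv, huv2]
          push_cast
          ring
        rw [← he3 2, ← h5, Finset.sum_mul]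
        exact Finset.sum_congr rfl fun j _ => by ring
      have h3' := congrArg Complex.re h3
      have h4' := congrArg Complex.re h4
      rw [Complex.re_sum, Complex.re_mul_ofReal] at h3' h4'
      simp only [Complex.add_re] at h3' h4'
      rw [← h3', ← h4', Finset.sum_div, ← Finset.sum_neg_distrib, ← Finset.sum_sub_distrib]
      exact Finset.sum_congr rfl fun j _ => by ring
    rw [h2, ← Finset.sum_sub_distrib]
    refine (Finset.abs_sum_le_sum_abs _ _).trans ?_
    have h5 : ∀ j ∈ (Finset.univ : Finset (Fin n)), |Real.log ‖(1 - e j * u) * (1 - e j * v)‖ -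
        ((-(e j * u).re - ((e j * u) ^ 2).re / 2) + (-(e j * v).re - ((e j * v) ^ 2).re / 2))| ≤
        2 / (p * Real.sqrt p) := by
      intro j _
      have k1 := (hlu j).2
      have k2 := (hlv j).2
      rw [hu2] at k1
      rw [hv2] at k2
      have k3 : (1 / Real.sqrt p) ^ 3 = 1 / (p * Real.sqrt p) := by
        rw [div_pow, one_pow]
        congr 1
        calc Real.sqrt p ^ 3 = (Real.sqrt p * Real.sqrt p) * Real.sqrt p := by ring
          _ = _ := by rw [Real.mul_self_sqrt hp0.le]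
      rw [k3] at k1 k2
      rw [h1]
      have k4 : (2 : ℝ) / (p * Real.sqrt p) = 1 / (p * Real.sqrt p) + 1 / (p * Real.sqrt p) := by ring
      rw [k4]
      rw [abs_le] at k1 k2 ⊢
      constructor <;> linarith [k1.1, k1.2, k2.1, k2.2]
    refine (Finset.sum_le_sum h5).trans (le_of_eq ?_)
    rw [Finset.sum_const, Finset.card_univ, Fintype.card_fin, nsmul_eq_mul]
    ring

lemma trace_bound (M : Matrix (Fin n) (Fin n) ℂ) {m : ℕ} (hm : m ≠ 0) (hM : M ^ m = 1) (k : ℕ) :
    |(M ^ k).trace.re| ≤ n := by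
  obtain ⟨e, he1, he2, he3⟩ := exists_eig M hm hM
  refine (Complex.abs_re_le_norm _).trans ?_
  rw [← he3 k]
  refine (norm_sum_le _ _).trans (le_of_eq ?_)
  simp [he1]

end Pool.Agent.Q28.BP
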