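import Mathlib

/-!
# A maximal inequality for fourth moments (Billingsley, Moricz)
-/

set_option autoImplicit false

open Finset

namespace Pool.Agent.Q28.BP

variable {α : Type*}

/-- the partial sum over `[u, k)` -/
noncomputable def SS (X : ℕ → α → ℂ) (u k : ℕ) (w : α) : ℂ := ∑ n ∈ Ico u k, X n w

/-- the maximum of the partial sums -/
noncomputable def MX (X : ℕ → α → ℂ) (u v : ℕ) (w : α) : ℝ :=
  (Icc u (max u v)).sup' ⟨u, mem_Icc.2 ⟨le_rfl, le_max_left _ _⟩⟩ fun k => ‖SS X u k w‖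

lemma SS_self (X : ℕ → α → ℂ) (u : ℕ) (w : α) : SS X u u w = 0 := by simp [SS]

lemma le_MX (X : ℕ → α → ℂ) {u v k : ℕ} (h1 : u ≤ k) (h2 : k ≤ v) (w : α) :
    ‖SS X u k w‖ ≤ MX X u v w :=
  le_sup' (fun k => ‖SS X u k w‖) (mem_Icc.2 ⟨h1, h2.trans (le_max_right _ _)⟩)

lemma MX_nonneg (X : ℕ → α → ℂ) (u v : ℕ) (w : α) : 0 ≤ MX X u v w := by
  have h := le_sup' (fun k => ‖SS X u k w‖) (mem_Icc.2 ⟨le_rfl, le_max_left u v⟩)
  exact (norm_nonneg _).trans h

lemma MX_le (X : ℕ → α → ℂ) {u v : ℕ} (huv : u ≤ v) (w : α) {B : ℝ}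
    (h : ∀ k, u ≤ k → k ≤ v → ‖SS X u k w‖ ≤ B) : MX X u v w ≤ B := by
  refine sup'_le _ _ fun k hk => ?_
  rw [mem_Icc, max_eq_right huv] at hk
  exact h k hk.1 hk.2

lemma conv4 {x y : ℝ} (hx : 0 ≤ x) (hy : 0 ≤ y) :
    (x + y) ^ 4 ≤ 216 * x ^ 4 + 216 / 125 * y ^ 4 := by
  have h1 : (x + y) ^ 2 ≤ 6 * x ^ 2 + 6 / 5 * y ^ 2 := by nlinarith [sq_nonneg (5 * x - y)]
  have h2 : (6 * x ^ 2 + 6 / 5 * y ^ 2) ^ 2 ≤ 216 * x ^ 4 + 216 / 125 * y ^ 4 := by
    nlinarith [sq_nonneg (5 * (6 * x ^ 2) - 6 / 5 * y ^ 2)]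
  have h3 : (x + y) ^ 4 = ((x + y) ^ 2) ^ 2 := by ring
  rw [h3]
  exact (pow_le_pow_left₀ (sq_nonneg _) h1 2).trans h2

lemma MX_split (X : ℕ → α → ℂ) {u m v : ℕ} (h1 : u ≤ m) (h2 : m < v) (w : α) :
    MX X u v w ≤ ‖SS X u (m + 1) w‖ + max (MX X u m w) (MX X (m + 1) v w) := by
  refine MX_le X (h1.trans h2.le) w fun k hk1 hk2 => ?_
  rcases Nat.lt_or_ge m k with h | h
  · have e : SS X u k w = SS X u (m + 1) w + SS X (m + 1) k w := by
      unfold SS
      rw [sum_Ico_consecutive _ (by omega) h]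
    rw [e]
    refine (norm_add_le _ _).trans (add_le_add le_rfl ?_)
    exact (le_MX X h hk2 w).trans (le_max_right _ _)
  · have := (le_MX X hk1 h w).trans (le_max_left _ (MX X (m + 1) v w))
    linarith [norm_nonneg (SS X u (m + 1) w)]

/-- **Maximal inequality.** -/
theorem max_ineq (X : ℕ → α → ℂ) (W : Finset α) (g : ℕ → ℝ) (hg : ∀ n, 0 ≤ g n) {C : ℝ} (hC : 0 ≤ C)
    {N : ℕ} (H : ∀ u v : ℕ, u ≤ v → v ≤ N →
      ∑ w ∈ W, ‖SS X u v w‖ ^ 4 ≤ C * (∑ n ∈ Ico u v, g n) ^ 2) :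
    ∀ l u : ℕ, u + l ≤ N →
      ∑ w ∈ W, MX X u (u + l) w ^ 4 ≤ 1600 * C * (∑ n ∈ Ico u (u + l), g n) ^ 2 := by
  intro l
  induction l using Nat.strong_induction_on with
  | _ l ih =>
  intro u hu
  rcases Nat.eq_zero_or_pos l with rfl | hl
  · have h0 : ∀ w ∈ W, MX X u (u + 0) w ^ 4 = 0 := by
      intro w _
      have h1 : MX X u (u + 0) w ≤ 0 := MX_le X (by omega) w fun k h1 h2 => by
        have : k = u := by omega
        subst this
        rw [SS_self, norm_zero]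
      have h2 := MX_nonneg X u (u + 0) w
      rw [le_antisymm h1 h2]
      norm_num
    rw [sum_congr rfl h0, sum_const_zero]
    positivity
  set v := u + l with hv
  set G : ℝ := ∑ n ∈ Ico u v, g n with hG
  have hG0 : 0 ≤ G := sum_nonneg fun n _ => hg n
  -- the splitting point
  have hex : ∃ m, u ≤ m ∧ m < v ∧ ∑ n ∈ Ico u m, g n ≤ G / 2 ∧ ∑ n ∈ Ico (m + 1) v, g n ≤ G / 2 := by
    classical
    have hP : ∃ m, G / 2 ≤ ∑ n ∈ Ico u (m + 1), g n ∧ u ≤ m := ⟨v - 1, by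
      rw [show v - 1 + 1 = v by omega, ← hG]
      linarith, by omega⟩
    let m := Nat.find hP
    obtain ⟨h1, h2⟩ := Nat.find_spec hP
    have hmv : m < v := by
      have : m ≤ v - 1 := Nat.find_min' hP ⟨by
        rw [show v - 1 + 1 = v by omega, ← hG]
        linarith, by omega⟩
      omega
    refine ⟨m, h2, hmv, ?_, ?_⟩
    · rcases Nat.eq_or_lt_of_le h2 with h3 | h3
      · change u = m at h3
        rw [← h3, Ico_self, sum_empty]
        linarith
      · change u < m at h3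
        have h4 := Nat.find_min hP (show m - 1 < Nat.find hP by
          change m - 1 < m
          omega)
        rw [not_and_or] at h4
        rcases h4 with h4 | h4
        · rw [show m - 1 + 1 = m by omega] at h4
          linarith
        · omega
    · have h3 : G = ∑ n ∈ Ico u (m + 1), g n + ∑ n ∈ Ico (m + 1) v, g n := by
        rw [sum_Ico_consecutive _ (by omega) (by omega)]
      change G / 2 ≤ ∑ n ∈ Ico u (m + 1), g n at h1
      linarith
  obtain ⟨m, h1, h2, h3, h4⟩ := hex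
  have e1 : u + (m - u) = m := by omega
  have e2 : m + 1 + (v - (m + 1)) = v := by omega
  have i1 := ih (m - u) (by omega) u (by omega)
  have i2 := ih (v - (m + 1)) (by omega) (m + 1) (by omega)
  rw [e1] at i1
  rw [e2] at i2
  have i3 := H u (m + 1) (by omega) (by omega)
  have hs1 : ∑ n ∈ Ico u (m + 1), g n ≤ G := by
    rw [hG]
    exact sum_le_sum_of_subset_of_nonneg (Ico_subset_Ico le_rfl (by omega)) fun n _ _ => hg n
  have hs0 : 0 ≤ ∑ n ∈ Ico u (m + 1), g n := sum_nonneg fun n _ => hg n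
  have ha0 : 0 ≤ ∑ n ∈ Ico u m, g n := sum_nonneg fun n _ => hg n
  have hb0 : 0 ≤ ∑ n ∈ Ico (m + 1) v, g n := sum_nonneg fun n _ => hg n
  have j1 : ∑ w ∈ W, MX X u m w ^ 4 ≤ 1600 * C * (G / 2) ^ 2 :=
    i1.trans (mul_le_mul_of_nonneg_left (pow_le_pow_left₀ ha0 h3 2) (by positivity))
  have j2 : ∑ w ∈ W, MX X (m + 1) v w ^ 4 ≤ 1600 * C * (G / 2) ^ 2 :=
    i2.trans (mul_le_mul_of_nonneg_left (pow_le_pow_left₀ hb0 h4 2) (by positivity))
  have j3 : ∑ w ∈ W, ‖SS X u (m + 1) w‖ ^ 4 ≤ C * G ^ 2 :=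
    i3.trans (mul_le_mul_of_nonneg_left (pow_le_pow_left₀ hs0 hs1 2) hC)
  have hpt : ∀ w ∈ W, MX X u v w ^ 4 ≤ 216 * ‖SS X u (m + 1) w‖ ^ 4 +
      216 / 125 * (MX X u m w ^ 4 + MX X (m + 1) v w ^ 4) := by
    intro w _
    have k1 := MX_split X h1 h2 w
    have k2 : (0 : ℝ) ≤ max (MX X u m w) (MX X (m + 1) v w) :=
      (MX_nonneg X u m w).trans (le_max_left _ _)
    have k3 : max (MX X u m w) (MX X (m + 1) v w) ^ 4 ≤ MX X u m w ^ 4 + MX X (m + 1) v w ^ 4 := by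
      rcases max_choice (MX X u m w) (MX X (m + 1) v w) with h | h
      · rw [h]
        have : 0 ≤ MX X (m + 1) v w ^ 4 := by positivity
        linarith
      · rw [h]
        have : 0 ≤ MX X u m w ^ 4 := by positivity
        linarith
    refine (pow_le_pow_left₀ (MX_nonneg X u v w) k1 4).trans ?_
    refine (conv4 (norm_nonneg _) k2).trans ?_
    linarith
  refine (sum_le_sum hpt).trans ?_
  rw [sum_add_distrib, ← mul_sum, ← mul_sum, sum_add_distrib]
  nlinarith [mul_nonneg hC (sq_nonneg G)]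

end Pool.Agent.Q28.BP
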