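import Pool.Agent.Q28.BP.Height

/-!
# All elliptic curves, ordered by height, in the mean
-/

set_option autoImplicit false

open Finset Filter Topology

namespace Pool.Agent.Q28.BP

open Pool.Agent.W263.BSD (pointCount GoodPrime)

/-- the fourth moment over a family -/
lemma fam4 (a b : Polynomial ℤ) {T x : ℕ} (hx : x ^ 10 ≤ T) :
    ∑ t ∈ range T, (∑ p ∈ (range (x + 1)).filter Nat.Prime, (lg (a.eval (t : ℤ)) (b.eval (t : ℤ)) p -
      mu a b p)) ^ 4 ≤ 12800000 * T * (∑ p ∈ (range (x + 1)).filter Nat.Prime, 1 / (p : ℝ)) ^ 2 := by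
  classical
  let f : (p : ℕ) → ZMod p → ℝ := fun p z =>
    lg (a.eval ((z.val : ℕ) : ℤ)) (b.eval ((z.val : ℕ) : ℤ)) p - mu a b p
  have hval : ∀ p : ℕ, p.Prime → ∀ n : ℕ, f p (n : ZMod p) =
      lg (a.eval (n : ℤ)) (b.eval (n : ℤ)) p - mu a b p := by
    intro p hp n
    have : NeZero p := ⟨hp.ne_zero⟩
    have h1 : (((((n : ZMod p).val : ℕ) : ℤ)) : ZMod p) = ((n : ℤ) : ZMod p) := by
      push_cast
      rw [ZMod.natCast_zmod_val]
    simp only [f]
    rw [lg_congr (eval_congr a h1) (eval_congr b h1)]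
  have h1 : ∀ p : ℕ, p.Prime → ∀ z, |f p z| ≤ 40 / Real.sqrt p := by
    intro p hp z
    refine (abs_sub _ _).trans ?_
    have e1 := lg_abs (a.eval ((z.val : ℕ) : ℤ)) (b.eval ((z.val : ℕ) : ℤ)) hp
    have e2 := mu_abs a b hp
    have e3 : (40 : ℝ) / Real.sqrt p = 20 / Real.sqrt p + 20 / Real.sqrt p := by ring
    rw [e3]
    exact add_le_add e1 e2
  have h2 : ∀ p : ℕ, p.Prime → ∑ j ∈ range p, f p (j : ZMod p) = 0 := by
    intro p hp
    have hp0 : (p : ℝ) ≠ 0 := by exact_mod_cast hp.ne_zero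
    rw [sum_congr rfl fun j _ => hval p hp j, sum_sub_distrib, sum_const, card_range, nsmul_eq_mul]
    unfold mu
    field_simp
    ring
  have h3 := fourth f (by norm_num : (1 : ℝ) ≤ 40) h1 h2 hx ((range (x + 1)).filter Nat.Prime)
    fun p hp => ⟨(mem_filter.1 hp).2, by have := mem_range.1 (mem_filter.1 hp).1; omega⟩
  have e : ∀ t ∈ range T, (∑ p ∈ (range (x + 1)).filter Nat.Prime, XX f p t) ^ 4 =
      (∑ p ∈ (range (x + 1)).filter Nat.Prime, (lg (a.eval (t : ℤ)) (b.eval (t : ℤ)) p -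
      mu a b p)) ^ 4 := by
    intro t _
    congr 1
    exact sum_congr rfl fun p hp => hval p (mem_filter.1 hp).2 t
  rw [sum_congr rfl e] at h3
  norm_num at h3 ⊢
  exact h3

lemma abs_le_fourth (u : ℝ) {l : ℝ} (hl : 0 < l) : |u| ≤ l + u ^ 4 / l ^ 3 := by
  rcases le_or_gt |u| l with h | h
  · have : 0 ≤ u ^ 4 / l ^ 3 := by positivity
    linarith
  · have h1 : l ^ 3 ≤ |u| ^ 3 := pow_le_pow_left₀ hl.le h.le 3
    have h2 : |u| ≤ u ^ 4 / l ^ 3 := by
      rw [le_div_iff₀ (by positivity)]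
      have e : u ^ 4 = |u| * |u| ^ 3 := by
        have : |u| * |u| ^ 3 = (|u| ^ 2) ^ 2 := by ring
        rw [this, sq_abs]
        ring
      rw [e]
      exact mul_le_mul_of_nonneg_left h1 (abs_nonneg u)
    linarith

/-- the mean over `B`, one sign -/
lemma mean_B : ∃ C : ℝ, 0 ≤ C ∧ ∀ (A : ℤ) (D : Polynomial ℤ), D = Polynomial.X ∨ D = -Polynomial.X →
    ∀ T x : ℕ, 16 ≤ x → x ^ 10 ≤ T →
      ∑ t ∈ range T, |∑ p ∈ (range (x + 1)).filter Nat.Prime, lg A (D.eval (t : ℤ)) p -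
        1 / 2 * Real.log (Real.log x)| ≤ T * (C * Real.log (Real.log x) ^ (1 / 2 : ℝ) + wt A x) := by
  obtain ⟨K, hK, HK⟩ := sum_nu_curve
  obtain ⟨C, hC0, hC⟩ := sum_inv_loglog
  set Z : ℝ := 100000 * ∑' n : ℕ, (n : ℝ) ^ (-(3 / 2) : ℝ) with hZ
  have hZ0 : 0 ≤ Z := mul_nonneg (by norm_num) (tsum_nonneg fun n => by positivity)
  refine ⟨1 + 12800000 * (1 + C) ^ 2 + K + Z, by positivity, fun A D hD T x hx hxT => ?_⟩
  set L := Real.log (Real.log x) with hL
  have hL1 : 1 ≤ L := by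
    have h1 : Real.exp 1 ≤ Real.log 16 := by
      have h2 := Real.exp_one_lt_d9
      have h3 := Real.log_two_gt_d9
      have h4 : Real.log 16 = 4 * Real.log 2 := by
        rw [show (16 : ℝ) = 2 ^ 4 by norm_num, Real.log_pow]
        norm_num
      rw [h4]
      linarith
    have h5 : Real.log 16 ≤ Real.log x := Real.log_le_log (by norm_num) (by exact_mod_cast hx)
    rw [hL, Real.le_log_iff_exp_le (by
      have := Real.exp_pos 1
      linarith)]
    linarith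
  have hL0 : 0 < L := by linarith
  set l := L ^ (1 / 2 : ℝ) with hl
  have hl0 : 0 < l := by positivity
  have hl1 : 1 ≤ l := Real.one_le_rpow hL1 (by norm_num)
  have hll : l ^ 4 = L ^ 2 := by
    rw [hl, ← Real.rpow_natCast, ← Real.rpow_mul hL0.le, ← Real.rpow_natCast]
    norm_num
  have h4 := fam4 (Polynomial.C A) D hxT
  have hS : ∑ p ∈ (range (x + 1)).filter Nat.Prime, 1 / (p : ℝ) ≤ (1 + C) * L := by
    have := (abs_le.1 (hC x (by omega))).2
    nlinarith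
  have hS0 : 0 ≤ ∑ p ∈ (range (x + 1)).filter Nat.Prime, 1 / (p : ℝ) :=
    sum_nonneg fun p _ => by positivity
  have hT0 : (0 : ℝ) ≤ T := Nat.cast_nonneg T
  set u : ℕ → ℝ := fun t => ∑ p ∈ (range (x + 1)).filter Nat.Prime,
    (lg ((Polynomial.C A).eval (t : ℤ)) (D.eval (t : ℤ)) p - mu (Polynomial.C A) D p) with hu
  have h5 : ∑ t ∈ range T, |u t| ≤ T * ((1 + 12800000 * (1 + C) ^ 2) * l) := by
    have h6 : ∑ t ∈ range T, |u t| ≤ ∑ t ∈ range T, (l + u t ^ 4 / l ^ 3) :=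
      sum_le_sum fun t _ => abs_le_fourth (u t) hl0
    refine h6.trans ?_
    rw [sum_add_distrib, sum_const, card_range, nsmul_eq_mul, ← sum_div]
    have h7 : (∑ t ∈ range T, u t ^ 4) ≤ 12800000 * T * ((1 + C) * L) ^ 2 :=
      h4.trans (mul_le_mul_of_nonneg_left (pow_le_pow_left₀ hS0 hS 2) (by positivity))
    have h8 : (∑ t ∈ range T, u t ^ 4) / l ^ 3 ≤ 12800000 * T * (1 + C) ^ 2 * l := by
      rw [div_le_iff₀ (by positivity)]
      refine h7.trans (le_of_eq ?_)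
      calc 12800000 * (T : ℝ) * ((1 + C) * L) ^ 2 = 12800000 * T * (1 + C) ^ 2 * L ^ 2 := by ring
        _ = 12800000 * T * (1 + C) ^ 2 * l ^ 4 := by rw [hll]
        _ = _ := by ring
    calc _ ≤ (T : ℝ) * l + 12800000 * T * (1 + C) ^ 2 * l := by linarith
      _ = _ := by ring
  have h9 : |∑ p ∈ (range (x + 1)).filter Nat.Prime, mu (Polynomial.C A) D p - 1 / 2 * L| ≤
      K + Z + wt A x := by
    have k1 := HK A D hD x (by omega)
    have k2 := sum32 100000 (by norm_num) (fun p => mu (Polynomial.C A) D p - nu (Polynomial.C A) D p)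
      (fun p hp => mu_nu _ _ hp) x
    rw [sum_sub_distrib] at k2
    rw [abs_le] at k1 k2 ⊢
    constructor <;> linarith [k1.1, k1.2, k2.1, k2.2]
  have h10 : ∀ t ∈ range T, |∑ p ∈ (range (x + 1)).filter Nat.Prime, lg A (D.eval (t : ℤ)) p -
      1 / 2 * L| ≤ |u t| + (K + Z + wt A x) := by
    intro t _
    have e : ∑ p ∈ (range (x + 1)).filter Nat.Prime, lg A (D.eval (t : ℤ)) p - 1 / 2 * L =
        u t + (∑ p ∈ (range (x + 1)).filter Nat.Prime, mu (Polynomial.C A) D p - 1 / 2 * L) := by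
      simp only [hu]
      rw [sum_sub_distrib, Polynomial.eval_C]
      ring
    rw [e]
    exact (abs_add_le _ _).trans (add_le_add le_rfl h9)
  refine (sum_le_sum h10).trans ?_
  rw [sum_add_distrib, sum_const, card_range, nsmul_eq_mul]
  have h11 : K + Z ≤ (K + Z) * l := le_mul_of_one_le_right (by positivity) hl1
  calc _ ≤ (T : ℝ) * ((1 + 12800000 * (1 + C) ^ 2) * l) + T * ((K + Z) * l + wt A x) :=
        add_le_add h5 (mul_le_mul_of_nonneg_left (by linarith) hT0)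
    _ = _ := by ring

lemma sum_sym (g : ℤ → ℝ) (hg : ∀ B, 0 ≤ g B) (T : ℕ) (s : Finset ℤ) (hs : ∀ B ∈ s, B.natAbs < T) :
    ∑ B ∈ s, g B ≤ ∑ t ∈ range T, (g t + g (-t)) := by
  classical
  have h1 : s ⊆ (range T).image (fun n : ℕ => (n : ℤ)) ∪ (range T).image (fun n : ℕ => -(n : ℤ)) := by
    intro B hB
    rw [mem_union, mem_image, mem_image]
    rcases Int.natAbs_eq B with e | e
    · left; exact ⟨B.natAbs, mem_range.2 (hs B hB), e.symm⟩
    · right; exact ⟨B.natAbs, mem_range.2 (hs B hB), e.symm⟩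
  refine (sum_le_sum_of_subset_of_nonneg h1 fun B _ _ => hg B).trans ?_
  have h2 : ∑ B ∈ (range T).image (fun n : ℕ => (n : ℤ)) ∪ (range T).image (fun n : ℕ => -(n : ℤ)), g B ≤
      ∑ B ∈ (range T).image (fun n : ℕ => (n : ℤ)), g B +
        ∑ B ∈ (range T).image (fun n : ℕ => -(n : ℤ)), g B := by
    rw [← sum_union_inter]
    have := sum_nonneg (s := (range T).image (fun n : ℕ => (n : ℤ)) ∩
      (range T).image (fun n : ℕ => -(n : ℤ))) fun B _ => hg B
    linarith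
  refine h2.trans (le_of_eq ?_)
  rw [sum_add_distrib, sum_image fun a _ b _ h => by exact_mod_cast h,
    sum_image fun a _ b _ h => by simpa using h]

open scoped Classical in
/-- the pairs of height at most `X` -/
noncomputable def box (X : ℕ) : Finset (ℤ × ℤ) :=
  (Icc (-(X : ℤ)) X ×ˢ Icc (-(X : ℤ)) X).filter fun q => 4 * |q.1| ^ 3 ≤ X ∧ 27 * q.2 ^ 2 ≤ X

lemma natAbs_A {X : ℕ} {A : ℤ} (hA : 4 * |A| ^ 3 ≤ X) : A.natAbs ≤ YY X := by
  refine le_YY ?_
  have : (4 * A.natAbs ^ 3 : ℤ) ≤ X := by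
    rw [Int.natCast_natAbs]
    exact hA
  exact_mod_cast this

lemma natAbs_B {X : ℕ} {B : ℤ} (hB : 27 * B ^ 2 ≤ X) : B.natAbs < TT X := by
  refine lt_TT ?_
  have : (27 * (B.natAbs : ℤ) ^ 2 : ℤ) ≤ X := by
    rw [Int.natCast_natAbs, sq_abs]
    exact hB
  exact_mod_cast this

lemma box_sub (X : ℕ) : box X ⊆ Icc (-(YY X : ℤ)) (YY X) ×ˢ Ioo (-(TT X : ℤ)) (TT X) := by
  intro q hq
  unfold box at hq
  rw [mem_filter] at hq
  have h1 := natAbs_A hq.2.1
  have h2 := natAbs_B hq.2.2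
  rw [mem_product, mem_Icc, mem_Ioo]
  omega

/-- **All elliptic curves in the mean.** -/
theorem mean_all : ∃ C : ℝ, 0 ≤ C ∧ ∀ X x : ℕ, 16 ≤ x → 27 * x ^ 20 ≤ X →
    ∑ q ∈ box X, |∑ p ∈ (range (x + 1)).filter Nat.Prime, lg q.1 q.2 p -
      1 / 2 * Real.log (Real.log x)| ≤
        C * (X : ℝ) ^ (5 / 6 : ℝ) * Real.log (Real.log x) ^ (1 / 2 : ℝ) := by
  classical
  obtain ⟨C, hC0, H⟩ := mean_B
  obtain ⟨S, hS, HS⟩ := sum_wt
  obtain ⟨C', hC'0, hC'⟩ := sum_inv_loglog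
  refine ⟨6 * C + 2 * (1 + C') + 4 * S, by positivity, fun X x hx hxX => ?_⟩
  set L := Real.log (Real.log x) with hL
  set Y := YY X with hY
  set T := TT X with hT
  have hx1 : (1 : ℝ) < x := by exact_mod_cast (by omega : 1 < x)
  have hlog : 0 < Real.log x := Real.log_pos hx1
  have hX27 : 27 ≤ X := by
    have : 1 ≤ x ^ 20 := Nat.one_le_pow _ _ (by omega)
    omega
  have hL1 : 1 ≤ L := by
    have h1 : Real.exp 1 ≤ Real.log 16 := by
      have h2 := Real.exp_one_lt_d9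
      have h3 := Real.log_two_gt_d9
      have h4 : Real.log 16 = 4 * Real.log 2 := by
        rw [show (16 : ℝ) = 2 ^ 4 by norm_num, Real.log_pow]
        norm_num
      rw [h4]
      linarith
    have h5 : Real.log 16 ≤ Real.log x := Real.log_le_log (by norm_num) (by exact_mod_cast hx)
    rw [hL, Real.le_log_iff_exp_le (by
      have := Real.exp_pos 1
      linarith)]
    linarith
  set l := L ^ (1 / 2 : ℝ) with hl
  have hl1 : 1 ≤ l := Real.one_le_rpow hL1 (by norm_num)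
  have hYx : (x : ℝ) ≤ Y := by exact_mod_cast YY_large hxX
  have hLx : L ≤ x := by
    have h1 : Real.log x ≤ x := (Real.log_le_sub_one_of_pos (by linarith)).trans (by linarith)
    have h2 : L ≤ Real.log x := (Real.log_le_sub_one_of_pos hlog).trans (by linarith)
    linarith
  have hY1 : (1 : ℝ) ≤ Y := by linarith
  have hT0 : (0 : ℝ) ≤ T := Nat.cast_nonneg T
  set g : ℤ → ℤ → ℝ := fun A B => |∑ p ∈ (range (x + 1)).filter Nat.Prime, lg A B p - 1 / 2 * L| with hg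
  have hB : ∀ A : ℤ, ∑ B ∈ Ioo (-(T : ℤ)) T, g A B ≤ 2 * (T * (C * l + wt A x)) := by
    intro A
    refine (sum_sym (g A) (fun B => abs_nonneg _) T _ (fun B hB => by
      rw [mem_Ioo] at hB; omega)).trans ?_
    rw [sum_add_distrib]
    have h1 := H A Polynomial.X (Or.inl rfl) T x hx (TT_pow hxX)
    have h2 := H A (-Polynomial.X) (Or.inr rfl) T x hx (TT_pow hxX)
    simp only [Polynomial.eval_X, Polynomial.eval_neg] at h1 h2
    simp only [hg]
    linarith
  have hA : ∑ A ∈ Icc (-(Y : ℤ)) Y, wt A x ≤ (1 + C') * L + 2 * (S * Y) := by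
    have h1 : (Icc (-(Y : ℤ)) Y) ⊆ {0} ∪ ((Ioc 0 Y).image (fun n : ℕ => (n : ℤ)) ∪
        (Ioc 0 Y).image (fun n : ℕ => -(n : ℤ))) := by
      intro A hA
      rw [mem_Icc] at hA
      by_cases h0 : A = 0
      · exact mem_union_left _ (mem_singleton.2 h0)
      refine mem_union_right _ ?_
      have h2 : A.natAbs ∈ Ioc 0 Y := by
        rw [mem_Ioc]
        omega
      rw [mem_union, mem_image, mem_image]
      rcases Int.natAbs_eq A with e | e
      · left; exact ⟨A.natAbs, h2, e.symm⟩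
      · right; exact ⟨A.natAbs, h2, e.symm⟩
    refine (sum_le_sum_of_subset_of_nonneg h1 fun A _ _ => wt_nonneg A x).trans ?_
    have h2 : ∀ s t : Finset ℤ, ∑ A ∈ s ∪ t, wt A x ≤ ∑ A ∈ s, wt A x + ∑ A ∈ t, wt A x := by
      intro s t
      rw [← sum_union_inter]
      have := sum_nonneg (s := s ∩ t) fun A _ => wt_nonneg A x
      linarith
    refine (h2 _ _).trans ?_
    have h3 := h2 ((Ioc 0 Y).image (fun n : ℕ => (n : ℤ))) ((Ioc 0 Y).image (fun n : ℕ => -(n : ℤ)))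
    rw [sum_image fun a _ b _ h => by exact_mod_cast h,
      sum_image fun a _ b _ h => by simpa using h] at h3
    have h4 : ∀ n : ℕ, wt (-(n : ℤ)) x = wt (n : ℤ) x := by
      intro n
      rw [wt_natAbs, Int.natAbs_neg, Int.natAbs_natCast]
    simp only [h4] at h3
    have h5 := HS Y x
    have h6 : ∑ A ∈ ({0} : Finset ℤ), wt A x ≤ (1 + C') * L := by
      rw [sum_singleton]
      unfold wt
      have := (abs_le.1 (hC' x (by omega))).2
      simp only [dvd_zero, if_true]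
      nlinarith
    linarith
  have h1 : ∑ q ∈ box X, g q.1 q.2 ≤ ∑ A ∈ Icc (-(Y : ℤ)) Y, 2 * (T * (C * l + wt A x)) := by
    refine (sum_le_sum_of_subset_of_nonneg (box_sub X) fun q _ _ => abs_nonneg _).trans ?_
    rw [sum_product]
    exact sum_le_sum fun A _ => hB A
  refine h1.trans ?_
  rw [← mul_sum, ← mul_sum, sum_add_distrib, sum_const, nsmul_eq_mul, Int.card_Icc]
  have h2 : ((((Y : ℤ) + 1 - -(Y : ℤ)).toNat : ℕ) : ℝ) ≤ 3 * Y := by
    have hYn : 1 ≤ Y := by exact_mod_cast hY1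
    have : ((Y : ℤ) + 1 - -(Y : ℤ)).toNat ≤ 3 * Y := by omega
    calc ((((Y : ℤ) + 1 - -(Y : ℤ)).toNat : ℕ) : ℝ) ≤ ((3 * Y : ℕ) : ℝ) := by exact_mod_cast this
      _ = 3 * Y := by push_cast; ring
  have hCl : 0 ≤ C * l := by positivity
  have h3 : ((((Y : ℤ) + 1 - -(Y : ℤ)).toNat : ℕ) : ℝ) * (C * l) ≤ 3 * Y * (C * l) :=
    mul_le_mul_of_nonneg_right h2 hCl
  have h4 : (1 + C') * L ≤ (1 + C') * (Y * l) := by
    refine mul_le_mul_of_nonneg_left ?_ (by positivity)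
    nlinarith
  have h5 : 2 * (S * (Y : ℝ)) ≤ 2 * (S * (Y * l)) := by
    have : (Y : ℝ) ≤ Y * l := le_mul_of_one_le_right (by linarith) hl1
    nlinarith
  have h6 : ((((Y : ℤ) + 1 - -(Y : ℤ)).toNat : ℕ) : ℝ) * (C * l) + ∑ A ∈ Icc (-(Y : ℤ)) Y, wt A x ≤
      (3 * C + (1 + C') + 2 * S) * (Y * l) := by nlinarith
  have h7 := YT_real hX27
  calc 2 * ((T : ℝ) * (((((Y : ℤ) + 1 - -(Y : ℤ)).toNat : ℕ) : ℝ) * (C * l) +
        ∑ A ∈ Icc (-(Y : ℤ)) Y, wt A x))
      ≤ 2 * (T * ((3 * C + (1 + C') + 2 * S) * (Y * l))) := by gcongr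
    _ = (6 * C + 2 * (1 + C') + 4 * S) * l * (Y * T) := by ring
    _ ≤ (6 * C + 2 * (1 + C') + 4 * S) * l * (X : ℝ) ^ (5 / 6 : ℝ) :=
        mul_le_mul_of_nonneg_left h7 (by positivity)
    _ = _ := by ring

end Pool.Agent.Q28.BP
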