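import Pool.Agent.Q28.BP.Fibres

/-!
# The mean value of the logarithm of the factor at `p` and the sums of Nagao; character sums
-/

set_option autoImplicit false

open Finset Filter Topology

namespace Pool.Agent.Q28.BP

open Pool.Agent.W263.BSD (pointCount GoodPrime)

open scoped Classical in
/-- the expansion of the logarithm to the second order, `a_p = p - N_p` -/
noncomputable def nuf (a b : ℤ) (p : ℕ) : ℝ :=
  if GoodPrime a b p then (1 - ((p : ℝ) - pointCount a b p)) / p -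
    ((p : ℝ) - pointCount a b p) ^ 2 / (2 * (p : ℝ) ^ 2) else 0

lemma nuf_congr {a b a' b' : ℤ} {p : ℕ} (ha : (a : ZMod p) = a') (hb : (b : ZMod p) = b') :
    nuf a b p = nuf a' b' p := by
  classical
  unfold nuf
  rw [count_congr ha hb]
  simp only [good_congr ha hb]

lemma rpow32 {p : ℕ} (hp : 0 < p) : (p : ℝ) ^ (-(3 / 2) : ℝ) = 1 / ((p : ℝ) * Real.sqrt p) := by
  have hp0 : (0 : ℝ) < p := by exact_mod_cast hp
  rw [Real.sqrt_eq_rpow, Real.rpow_neg hp0.le, one_div]
  congr 1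
  nth_rewrite 2 [← Real.rpow_one (p : ℝ)]
  rw [← Real.rpow_add hp0]
  norm_num

lemma lg_nuf (a b : ℤ) {p : ℕ} (hp : p.Prime) :
    |lg a b p - nuf a b p| ≤ 100000 * (p : ℝ) ^ (-(3 / 2) : ℝ) := by
  classical
  have hp0 : (0 : ℝ) < p := by exact_mod_cast hp.pos
  have hs : 0 < Real.sqrt p := Real.sqrt_pos.2 hp0
  have hss : Real.sqrt p * Real.sqrt p = p := Real.mul_self_sqrt hp0.le
  by_cases hg : GoodPrime a b p
  swap
  · unfold lg nuf
    rw [if_neg hg, if_neg hg, sub_zero, abs_zero]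
    positivity
  rw [rpow32 hp.pos, mul_one_div]
  rcases Nat.lt_or_ge p 25 with h25 | h25
  · have h1 : Real.sqrt p ≤ 5 := by
      rw [show (5 : ℝ) = Real.sqrt 25 by
        rw [show (25 : ℝ) = 5 ^ 2 by norm_num, Real.sqrt_sq (by norm_num)]]
      exact Real.sqrt_le_sqrt (by exact_mod_cast h25.le)
    have hp25 : (p : ℝ) ≤ 25 := by exact_mod_cast h25.le
    have hp2 : (2 : ℝ) ≤ p := by exact_mod_cast hp.two_le
    have hs1 : 1 ≤ Real.sqrt p := by
      rw [Real.one_le_sqrt]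
      linarith
    have h2 : (800 : ℝ) ≤ 100000 / (p * Real.sqrt p) := by
      rw [le_div_iff₀ (by positivity)]
      nlinarith
    refine le_trans ?_ h2
    have h3 : |lg a b p| ≤ 20 := by
      refine (lg_abs a b hp).trans ?_
      rw [div_le_iff₀ hs]
      nlinarith
    have h4 : (pointCount a b p : ℝ) ≤ (p : ℝ) ^ 2 := by
      exact_mod_cast Pool.Agent.W263.BSD.pointCount_le hp
    have h5 : (0 : ℝ) ≤ pointCount a b p := Nat.cast_nonneg _
    have h6 : |(p : ℝ) - pointCount a b p| ≤ (p : ℝ) ^ 2 := by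
      rw [abs_le]
      constructor <;> nlinarith
    have h7 : |nuf a b p| ≤ 700 := by
      unfold nuf
      rw [if_pos hg]
      refine (abs_sub _ _).trans ?_
      have e1 : |(1 - ((p : ℝ) - pointCount a b p)) / p| ≤ 26 := by
        rw [abs_div, abs_of_pos hp0, div_le_iff₀ hp0]
        rw [abs_le] at h6 ⊢
        constructor <;> nlinarith [h6.1, h6.2]
      have e2 : |((p : ℝ) - pointCount a b p) ^ 2 / (2 * (p : ℝ) ^ 2)| ≤ 625 := by
        rw [abs_div, abs_of_pos (by positivity : (0 : ℝ) < 2 * (p : ℝ) ^ 2), div_le_iff₀ (by positivity), abs_pow]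
        have e3 : |(p : ℝ) - pointCount a b p| ^ 2 ≤ ((p : ℝ) ^ 2) ^ 2 :=
          pow_le_pow_left₀ (abs_nonneg _) h6 2
        have e4 : (p : ℝ) ^ 2 ≤ 625 := by nlinarith
        nlinarith [sq_nonneg (p : ℝ)]
      linarith
    refine (abs_sub _ _).trans ?_
    linarith
  · have hH := Pool.Agent.W263.BSD.hasse hg (by omega)
    have hp25 : (25 : ℝ) ≤ p := by exact_mod_cast h25
    have hs5 : 5 ≤ Real.sqrt p := by
      rw [show (5 : ℝ) = Real.sqrt 25 by
        rw [show (25 : ℝ) = 5 ^ 2 by norm_num, Real.sqrt_sq (by norm_num)]]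
      exact Real.sqrt_le_sqrt hp25
    set c : ℝ := (p : ℝ) - pointCount a b p with hc
    set u : ℝ := (1 - c) / p with hu
    have e : ((pointCount a b p : ℝ) + 1) / p = 1 + u := by
      rw [hu, hc]; field_simp; ring
    have h1c : |1 - c| ≤ 1 + 2 * Real.sqrt p := by
      rw [abs_le] at hH ⊢
      constructor <;> linarith [hH.1, hH.2]
    have hub : |u| ≤ 3 / Real.sqrt p := by
      rw [hu, abs_div, abs_of_pos hp0, div_le_div_iff₀ hp0 hs]
      nlinarith
    have hub3 : |u| ≤ 1 / 2 := by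
      rw [hu, abs_div, abs_of_pos hp0, div_le_iff₀ hp0]
      nlinarith
    have hlog : |Real.log (1 + u) - (u - u ^ 2 / 2)| ≤ 2 * |u| ^ 3 := by
      have h := Real.abs_log_sub_add_sum_range_le (x := -u) (by rw [abs_neg]; linarith) 2
      rw [sum_range_succ, sum_range_succ, sum_range_zero, abs_neg] at h
      have e1 : Real.log (1 + u) - (u - u ^ 2 / 2) =
          0 + (-u) ^ (0 + 1) / (((0 : ℕ) : ℝ) + 1) + (-u) ^ (1 + 1) / (((1 : ℕ) : ℝ) + 1) +
            Real.log (1 - -u) := by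
        rw [sub_neg_eq_add]
        push_cast
        ring
      rw [e1]
      refine h.trans ?_
      rw [div_le_iff₀ (by linarith)]
      have := pow_nonneg (abs_nonneg u) 3
      norm_num
      nlinarith
    have hu3 : |u| ^ 3 ≤ 27 / (p * Real.sqrt p) := by
      refine (pow_le_pow_left₀ (abs_nonneg u) hub 3).trans (le_of_eq ?_)
      have e3 : Real.sqrt p ^ 3 = p * Real.sqrt p := by
        rw [show Real.sqrt p ^ 3 = Real.sqrt p * Real.sqrt p * Real.sqrt p by ring, hss]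
      rw [div_pow, e3]
      norm_num
    have e2 : lg a b p - nuf a b p =
        (Real.log (1 + u) - (u - u ^ 2 / 2)) + (2 * c - 1) / (2 * (p : ℝ) ^ 2) := by
      unfold lg nuf
      rw [if_pos hg, if_pos hg, e, hu, ← hc]
      field_simp
      ring
    have h5 : |(2 * c - 1) / (2 * (p : ℝ) ^ 2)| ≤ 3 / (p * Real.sqrt p) := by
      rw [abs_div, abs_of_pos (by positivity : (0 : ℝ) < 2 * (p : ℝ) ^ 2),
        div_le_div_iff₀ (by positivity) (by positivity)]
      have h6 : |2 * c - 1| ≤ 4 * Real.sqrt p + 1 := by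
        rw [abs_le] at hH ⊢
        constructor <;> linarith [hH.1, hH.2]
      have h7 : |2 * c - 1| * (p * Real.sqrt p) ≤ (4 * Real.sqrt p + 1) * (p * Real.sqrt p) :=
        mul_le_mul_of_nonneg_right h6 (by positivity)
      have h8 : (4 * Real.sqrt p + 1) * (p * Real.sqrt p) = 4 * (p : ℝ) ^ 2 + p * Real.sqrt p := by
        calc (4 * Real.sqrt p + 1) * (p * Real.sqrt p) =
              4 * p * (Real.sqrt p * Real.sqrt p) + p * Real.sqrt p := by ring
          _ = _ := by rw [hss]; ring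
      have h9 : Real.sqrt p ≤ p := by nlinarith
      rw [h8] at h7
      nlinarith
    rw [e2]
    refine (abs_add_le _ _).trans ?_
    have h10 : 2 * |u| ^ 3 ≤ 54 / (p * Real.sqrt p) := by
      have : 2 * (27 / (p * Real.sqrt p)) = 54 / (p * Real.sqrt p) := by ring
      linarith
    have h11 : 54 / (p * Real.sqrt p) + 3 / (p * Real.sqrt p) ≤ 100000 / (p * Real.sqrt p) := by
      rw [← add_div]
      exact div_le_div_of_nonneg_right (by norm_num) (by positivity)
    linarith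

/-- the mean over the residue classes -/
noncomputable def nu (a b : Polynomial ℤ) (p : ℕ) : ℝ :=
  (∑ j ∈ range p, nuf (a.eval (j : ℤ)) (b.eval (j : ℤ)) p) / p

lemma mu_nu (a b : Polynomial ℤ) {p : ℕ} (hp : p.Prime) :
    |mu a b p - nu a b p| ≤ 100000 * (p : ℝ) ^ (-(3 / 2) : ℝ) := by
  have hp0 : (0 : ℝ) < p := by exact_mod_cast hp.pos
  unfold mu nu
  rw [← sub_div, ← sum_sub_distrib, abs_div, abs_of_pos hp0, div_le_iff₀ hp0]
  refine (abs_sum_le_sum_abs _ _).trans ((sum_le_sum fun j _ => lg_nuf _ _ hp).trans (le_of_eq ?_))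
  rw [sum_const, card_range, nsmul_eq_mul]
  ring

/-- sums of `p^{-3/2}` are bounded -/
lemma sum32 (K : ℝ) (hK : 0 ≤ K) (F : ℕ → ℝ) (hF : ∀ p : ℕ, p.Prime → |F p| ≤ K * (p : ℝ) ^ (-(3 / 2) : ℝ))
    (x : ℕ) : |∑ p ∈ (range (x + 1)).filter Nat.Prime, F p| ≤
      K * ∑' n : ℕ, (n : ℝ) ^ (-(3 / 2) : ℝ) := by
  have hs : Summable fun n : ℕ => (n : ℝ) ^ (-(3 / 2) : ℝ) := Real.summable_nat_rpow.2 (by norm_num)
  refine (abs_sum_le_sum_abs _ _).trans ((sum_le_sum fun p hp => hF p (mem_filter.1 hp).2).trans ?_)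
  rw [← mul_sum]
  exact mul_le_mul_of_nonneg_left (hs.sum_le_tsum _ fun n _ => by positivity) hK

/-- **Almost all members of a family, in terms of the sums of Nagao.** -/
theorem nagao (η : ℝ) (hη : 0 < η) : ∃ X₀ : ℕ, 3 ≤ X₀ ∧ ∀ a b : Polynomial ℤ,
    ∀ T N : ℕ, N ^ 10 ≤ T → ∃ E ⊆ range T, (E.card : ℝ) ≤ η * T ∧
      ∀ t ∈ range T, t ∉ E → ∀ x : ℕ, X₀ ≤ x → x ≤ N →
        |∑ p ∈ (range (x + 1)).filter Nat.Prime, lg (a.eval (t : ℤ)) (b.eval (t : ℤ)) p -
          ∑ p ∈ (range (x + 1)).filter Nat.Prime, nu a b p| ≤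
            2 * Real.log (Real.log x) ^ (5 / 6 : ℝ) := by
  obtain ⟨X₀, hX₀, H⟩ := fibres η hη
  set K : ℝ := 100000 * ∑' n : ℕ, (n : ℝ) ^ (-(3 / 2) : ℝ) with hK
  have hL : Tendsto (fun x : ℕ => Real.log (Real.log (x : ℝ)) ^ (5 / 6 : ℝ)) atTop atTop :=
    (tendsto_rpow_atTop (by norm_num)).comp (Real.tendsto_log_atTop.comp
      (Real.tendsto_log_atTop.comp (tendsto_natCast_atTop_atTop (R := ℝ))))
  obtain ⟨X₁, hX₁⟩ := eventually_atTop.1 (hL.eventually_ge_atTop K)
  refine ⟨max X₀ X₁, hX₀.trans (le_max_left _ _), fun a b T N hNT => ?_⟩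
  obtain ⟨E, hE, hE1, hE2⟩ := H a b T N hNT
  refine ⟨E, hE, hE1, fun t ht hne x hx hxN => ?_⟩
  have h1 := hE2 t ht hne x ((le_max_left _ _).trans hx) hxN
  have h2 := sum32 100000 (by norm_num) (fun p => mu a b p - nu a b p) (fun p hp => mu_nu a b hp) x
  rw [sum_sub_distrib] at h2
  have h3 := hX₁ x ((le_max_right _ _).trans hx)
  rw [abs_le] at h1 h2 ⊢
  constructor <;> linarith [h1.1, h1.2, h2.1, h2.2]

/-! ### Character sums -/

section

variable {p : ℕ} [Fact p.Prime]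

/-- the quadratic character as a real function -/
noncomputable def ch (z : ZMod p) : ℝ := (quadraticChar (ZMod p) z : ℤ)

lemma ch_mul (y z : ZMod p) : ch (y * z) = ch y * ch z := by unfold ch; push_cast [map_mul]; rfl

lemma ch_zero : ch (0 : ZMod p) = 0 := by unfold ch; simp

lemma ch_sq {z : ZMod p} (hz : z ≠ 0) : ch z ^ 2 = 1 := by
  unfold ch
  exact_mod_cast quadraticChar_sq_one hz

lemma ch_abs (z : ZMod p) : |ch z| ≤ 1 := by
  by_cases hz : z = 0
  · rw [hz, ch_zero, abs_zero]; norm_num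
  · have := ch_sq hz
    rw [← sq_abs] at this
    nlinarith [abs_nonneg (ch z)]

lemma ch_sum (hp : p ≠ 2) : ∑ z : ZMod p, ch z = 0 := by
  unfold ch
  have h : ringChar (ZMod p) ≠ 2 := by rwa [ZMod.ringChar_zmod_n]
  exact_mod_cast quadraticChar_sum_zero h

/-- the sum `∑ χ(x³ + a x + b)` -/
noncomputable def cs (a b : ZMod p) : ℝ := ∑ x : ZMod p, ch (x ^ 3 + a * x + b)

lemma card_sq (hp : p ≠ 2) (z : ZMod p) :
    (((univ : Finset (ZMod p)).filter fun y => y ^ 2 = z).card : ℝ) = 1 + ch z := by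
  have h : ringChar (ZMod p) ≠ 2 := by rwa [ZMod.ringChar_zmod_n]
  have h1 := quadraticChar_card_sqrts h z
  have h2 : ({x : ZMod p | x ^ 2 = z} : Set (ZMod p)).toFinset =
      (univ : Finset (ZMod p)).filter fun y => y ^ 2 = z := by
    ext y; simp
  rw [h2] at h1
  unfold ch
  have h3 : (((univ : Finset (ZMod p)).filter fun y => y ^ 2 = z).card : ℝ) =
      (((((univ : Finset (ZMod p)).filter fun y => y ^ 2 = z).card : ℤ)) : ℝ) := by push_cast; rfl
  rw [h3, h1]
  push_cast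
  ring

lemma count_eq (hp : p ≠ 2) (a b : ℤ) :
    (pointCount a b p : ℝ) = p + cs (a : ZMod p) (b : ZMod p) := by
  classical
  unfold pointCount cs
  rw [Nat.card_eq_fintype_card, Fintype.card_subtype]
  have h1 : ((univ : Finset (ZMod p × ZMod p)).filter fun q =>
      q.2 ^ 2 = q.1 ^ 3 + (a : ZMod p) * q.1 + (b : ZMod p)).card =
      ∑ x : ZMod p, ((univ : Finset (ZMod p)).filter fun y =>
        y ^ 2 = x ^ 3 + (a : ZMod p) * x + (b : ZMod p)).card := by
    rw [card_filter, Fintype.sum_prod_type]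
    exact sum_congr rfl fun x _ => (card_filter _ _).symm
  rw [h1]
  push_cast
  rw [sum_congr rfl fun x _ => card_sq hp _, sum_add_distrib, sum_const, card_univ, ZMod.card,
    nsmul_eq_mul, mul_one]

lemma cs_twist {j : ZMod p} (hj : j ≠ 0) (a b : ZMod p) :
    cs (a * j ^ 2) (b * j ^ 3) = ch j * cs a b := by
  unfold cs
  rw [mul_sum]
  rw [← Equiv.sum_comp (Equiv.mulLeft₀ j hj)]
  refine sum_congr rfl fun x _ => ?_
  change ch ((j * x) ^ 3 + a * j ^ 2 * (j * x) + b * j ^ 3) = _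
  have e : (j * x) ^ 3 + a * j ^ 2 * (j * x) + b * j ^ 3 = j * (j ^ 2 * (x ^ 3 + a * x + b)) := by
    ring
  rw [e, ch_mul, ch_mul]
  have h2 : ch (j ^ 2) = 1 := by
    rw [sq, ch_mul, ← sq]
    exact ch_sq hj
  rw [h2, one_mul]

end

end Pool.Agent.Q28.BP
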