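import Pool.Agent.Q28.BP.Blocks

/-!
# Additive functions `∑_{p ≤ x} f_p(n)` with `f_p` periodic modulo `p` and of mean zero
-/

set_option autoImplicit false

open Finset Filter Topology

namespace Pool.Agent.Q28.BP

lemma shift_sum (h : ℕ → ℝ) {M : ℝ} (hM : ∀ n, |h n| ≤ M) (B k : ℕ) :
    |∑ n ∈ range B, h (n + k) - ∑ n ∈ range B, h n| ≤ 2 * k * M := by
  induction k with
  | zero => simp
  | succ k ih =>
    have e : ∑ n ∈ range B, h (n + (k + 1)) = ∑ n ∈ range B, h (n + k) + h (B + k) - h (0 + k) := by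
      have h1 := sum_range_succ (fun n => h (n + k)) B
      have h2 := sum_range_succ' (fun n => h (n + k)) B
      have h3 : ∀ n ∈ range B, h (n + (k + 1)) = h (n + 1 + k) := fun n _ => by
        congr 1
        ring
      rw [sum_congr rfl h3]
      linarith
    rw [e]
    have h1 := abs_le.1 (hM (B + k))
    have h2 := abs_le.1 (hM (0 + k))
    have h3 := abs_le.1 ih
    rw [abs_le]
    push_cast
    constructor <;> nlinarith [h1.1, h1.2, h2.1, h2.2, h3.1, h3.2]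

lemma sum_range_zmod {q : ℕ} [NeZero q] (g : ZMod q → ℝ) :
    ∑ j ∈ range q, g (j : ZMod q) = ∑ z, g z := by
  refine sum_nbij' (fun j => (j : ZMod q)) ZMod.val ?_ ?_ ?_ ?_ ?_
  · intro j _; exact mem_univ _
  · intro z _; exact mem_range.2 (ZMod.val_lt z)
  · intro j hj; exact ZMod.val_cast_of_lt (mem_range.1 hj)
  · intro z _; exact ZMod.natCast_zmod_val z
  · intro j _; rfl

lemma sum_progression {q m : ℕ} (hq : q.Prime) (hm : ¬ q ∣ m) (g : ZMod q → ℝ)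
    (hg : ∑ j ∈ range q, g (j : ZMod q) = 0) (n : ℕ) :
    ∑ j ∈ range q, g ((n + j * m : ℕ) : ZMod q) = 0 := by
  haveI : Fact q.Prime := ⟨hq⟩
  have hm0 : (m : ZMod q) ≠ 0 := fun h => hm ((ZMod.natCast_eq_zero_iff m q).1 h)
  have h1 : ∑ j ∈ range q, g ((n + j * m : ℕ) : ZMod q) =
      ∑ z : ZMod q, g ((n : ZMod q) + z * m) := by
    rw [← sum_range_zmod (fun z : ZMod q => g ((n : ZMod q) + z * m))]
    refine sum_congr rfl fun j _ => ?_
    push_cast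
    rfl
  rw [h1, ← hg, sum_range_zmod]
  exact Equiv.sum_comp ((Equiv.mulRight₀ (m : ZMod q) hm0).trans (Equiv.addLeft (n : ZMod q))) g

lemma unpaired {q m : ℕ} (hq : q.Prime) (hm : ¬ q ∣ m) (g : ZMod q → ℝ)
    (hg : ∑ j ∈ range q, g (j : ZMod q) = 0) (H : ℕ → ℝ) (hH : ∀ n, H (n + m) = H n) {M : ℝ}
    (hM : ∀ n : ℕ, |g (n : ZMod q) * H n| ≤ M) (B : ℕ) :
    |∑ n ∈ range B, g (n : ZMod q) * H n| ≤ 2 * q * m * M := by
  have hM0 : 0 ≤ M := (abs_nonneg _).trans (hM 0)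
  have hHj : ∀ j n : ℕ, H (n + j * m) = H n := by
    intro j
    induction j with
    | zero => intro n; simp
    | succ j ih => intro n; rw [show n + (j + 1) * m = (n + j * m) + m by ring, hH, ih]
  have h0 : ∑ j ∈ range q, ∑ n ∈ range B, g ((n + j * m : ℕ) : ZMod q) * H (n + j * m) = 0 := by
    rw [sum_comm]
    refine sum_eq_zero fun n _ => ?_
    have : ∀ j ∈ range q, g ((n + j * m : ℕ) : ZMod q) * H (n + j * m) =
        H n * g ((n + j * m : ℕ) : ZMod q) := fun j _ => by rw [hHj]; ring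
    rw [sum_congr rfl this, ← mul_sum, sum_progression hq hm g hg, mul_zero]
  set F : ℕ → ℝ := fun n => g (n : ZMod q) * H n with hF
  have h1 : ∀ j ∈ range q, |∑ n ∈ range B, F (n + j * m) - ∑ n ∈ range B, F n| ≤ 2 * q * m * M := by
    intro j hj
    refine (shift_sum F hM B (j * m)).trans ?_
    push_cast
    have hj' : (j : ℝ) ≤ q := by exact_mod_cast (mem_range.1 hj).le
    have h2 : (j : ℝ) * m ≤ q * m := mul_le_mul_of_nonneg_right hj' (Nat.cast_nonneg m)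
    nlinarith
  have h2 : |∑ j ∈ range q, (∑ n ∈ range B, F (n + j * m) - ∑ n ∈ range B, F n)| ≤
      q * (2 * q * m * M) := by
    refine (abs_sum_le_sum_abs _ _).trans ((sum_le_sum h1).trans (le_of_eq ?_))
    rw [sum_const, card_range, nsmul_eq_mul]
  rw [sum_sub_distrib, h0, sum_const, card_range, nsmul_eq_mul, zero_sub, abs_neg, abs_mul,
    abs_of_nonneg (Nat.cast_nonneg q)] at h2
  exact le_of_mul_le_mul_left h2 (by exact_mod_cast hq.pos)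

/-- the value at `n`, as a function of `n` -/
noncomputable def XX (f : (p : ℕ) → ZMod p → ℝ) (p n : ℕ) : ℝ := f p (n : ZMod p)

lemma XX_per (f : (p : ℕ) → ZMod p → ℝ) {p m : ℕ} (h : p ∣ m) (n : ℕ) : XX f p (n + m) = XX f p n := by
  unfold XX
  have : (m : ZMod p) = 0 := (ZMod.natCast_eq_zero_iff m p).2 h
  push_cast
  rw [this, add_zero]

/-- the four factors -/
lemma unpaired4 (f : (p : ℕ) → ZMod p → ℝ) {C : ℝ} (hC : 1 ≤ C)
    (hf : ∀ p : ℕ, p.Prime → ∀ z, |f p z| ≤ C)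
    (hs : ∀ p : ℕ, p.Prime → ∑ j ∈ range p, f p (j : ZMod p) = 0) {q a b c : ℕ} (hq : q.Prime)
    (ha : a.Prime) (hb : b.Prime) (hc : c.Prime) (h1 : q ≠ a) (h2 : q ≠ b) (h3 : q ≠ c) {N : ℕ}
    (hqN : q ≤ N) (haN : a ≤ N) (hbN : b ≤ N) (hcN : c ≤ N) (B : ℕ) :
    |∑ n ∈ range B, XX f q n * (XX f a n * XX f b n * XX f c n)| ≤ 2 * C ^ 4 * N ^ 4 := by
  have hd : ¬ q ∣ a * b * c := by
    rw [hq.dvd_mul, hq.dvd_mul, Nat.prime_dvd_prime_iff_eq hq ha, Nat.prime_dvd_prime_iff_eq hq hb,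
      Nat.prime_dvd_prime_iff_eq hq hc]
    tauto
  have hb4 : ∀ n : ℕ, |f q (n : ZMod q) * (XX f a n * XX f b n * XX f c n)| ≤ C ^ 4 := by
    intro n
    rw [abs_mul, abs_mul, abs_mul]
    have k1 := hf q hq (n : ZMod q)
    have k2 : |XX f a n| ≤ C := hf a ha _
    have k3 : |XX f b n| ≤ C := hf b hb _
    have k4 : |XX f c n| ≤ C := hf c hc _
    calc _ ≤ C * (C * C * C) := by gcongr
      _ = C ^ 4 := by ring
  have h := unpaired hq hd (f q) (hs q hq) (fun n => XX f a n * XX f b n * XX f c n) (fun n => by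
    rw [XX_per f ⟨b * c, by ring⟩, XX_per f ⟨a * c, by ring⟩, XX_per f ⟨a * b, by ring⟩]) hb4 B
  refine h.trans ?_
  have hN : (q : ℝ) * (a * b * c : ℕ) ≤ (N : ℝ) ^ 4 := by
    have : q * (a * b * c) ≤ N * (N * N * N) := by gcongr
    calc (q : ℝ) * (a * b * c : ℕ) = ((q * (a * b * c) : ℕ) : ℝ) := by push_cast; ring
      _ ≤ ((N * (N * N * N) : ℕ) : ℝ) := by exact_mod_cast this
      _ = (N : ℝ) ^ 4 := by push_cast; ring
  calc 2 * (q : ℝ) * (a * b * c : ℕ) * C ^ 4 = 2 * C ^ 4 * (q * (a * b * c : ℕ)) := by ring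
    _ ≤ 2 * C ^ 4 * N ^ 4 := mul_le_mul_of_nonneg_left hN (by positivity)

lemma fourth (f : (p : ℕ) → ZMod p → ℝ) {C : ℝ} (hC : 1 ≤ C)
    (hf : ∀ p : ℕ, p.Prime → ∀ z, |f p z| ≤ C / Real.sqrt p)
    (hs : ∀ p : ℕ, p.Prime → ∑ j ∈ range p, f p (j : ZMod p) = 0) {N B : ℕ} (hNB : N ^ 10 ≤ B)
    (J : Finset ℕ) (hJ : ∀ p ∈ J, p.Prime ∧ p ≤ N) :
    ∑ n ∈ range B, (∑ p ∈ J, XX f p n) ^ 4 ≤ 5 * C ^ 4 * B * (∑ p ∈ J, 1 / (p : ℝ)) ^ 2 := by
  classical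
  rcases J.eq_empty_or_nonempty with rfl | ⟨p₀, hp₀⟩
  · simp
  have hC0 : 0 < C := by linarith
  have hf1 : ∀ p : ℕ, p.Prime → ∀ z, |f p z| ≤ C := by
    intro p hp z
    refine (hf p hp z).trans (div_le_self hC0.le ?_)
    rw [Real.one_le_sqrt]
    exact_mod_cast hp.one_lt.le
  have hf2 : ∀ p : ℕ, p.Prime → ∀ n, XX f p n ^ 2 ≤ C ^ 2 / p := by
    intro p hp n
    have h1 := hf p hp (n : ZMod p)
    have h2 : XX f p n ^ 2 = |f p (n : ZMod p)| ^ 2 := (sq_abs _).symm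
    rw [h2]
    refine (pow_le_pow_left₀ (abs_nonneg _) h1 2).trans (le_of_eq ?_)
    rw [div_pow, Real.sq_sqrt (Nat.cast_nonneg p)]
  -- expansion
  set T : ℕ → ℕ → ℕ → ℕ → ℝ := fun p q r t =>
    ∑ n ∈ range B, XX f p n * XX f q n * (XX f r n * XX f t n) with hT
  have hexp : ∑ n ∈ range B, (∑ p ∈ J, XX f p n) ^ 4 =
      ∑ p ∈ J, ∑ q ∈ J, ∑ r ∈ J, ∑ t ∈ J, T p q r t := by
    have h1 : ∀ n ∈ range B, (∑ p ∈ J, XX f p n) ^ 4 =
        ∑ p ∈ J, ∑ q ∈ J, ∑ r ∈ J, ∑ t ∈ J, XX f p n * XX f q n * (XX f r n * XX f t n) := by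
      intro n _
      rw [show (∑ p ∈ J, XX f p n) ^ 4 = ((∑ p ∈ J, XX f p n) * ∑ p ∈ J, XX f p n) *
        ((∑ p ∈ J, XX f p n) * ∑ p ∈ J, XX f p n) by ring, sum_mul_sum, sum_mul]
      refine sum_congr rfl fun p _ => ?_
      rw [sum_mul]
      refine sum_congr rfl fun q _ => ?_
      rw [mul_sum]
      refine sum_congr rfl fun r _ => ?_
      rw [mul_sum]
    rw [sum_congr rfl h1, sum_comm]
    refine sum_congr rfl fun p _ => ?_
    rw [sum_comm]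
    refine sum_congr rfl fun q _ => ?_
    rw [sum_comm]
    refine sum_congr rfl fun r _ => ?_
    rw [sum_comm]
  -- diagonal weights
  let dd : ℕ → ℕ → ℝ := fun p q => if p = q then C ^ 2 / (p : ℝ) else 0
  have hdd0 : ∀ p q, 0 ≤ dd p q := fun p q => by
    simp only [dd]
    split_ifs <;> positivity
  set E : ℝ := 2 * C ^ 4 * (N : ℝ) ^ 4 with hE
  have hE0 : 0 ≤ E := by positivity
  have hpair : ∀ p r : ℕ, p.Prime → r.Prime → |∑ n ∈ range B, XX f p n ^ 2 * XX f r n ^ 2| ≤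
      B * (C ^ 2 / p * (C ^ 2 / r)) := by
    intro p r hp hr
    rw [abs_of_nonneg (sum_nonneg fun n _ => by positivity)]
    refine (sum_le_sum fun n _ => mul_le_mul (hf2 p hp n) (hf2 r hr n) (sq_nonneg _)
      (by positivity)).trans (le_of_eq ?_)
    rw [sum_const, card_range, nsmul_eq_mul]
  have hquad : ∀ p ∈ J, ∀ q ∈ J, ∀ r ∈ J, ∀ t ∈ J, T p q r t ≤
      E + B * (dd p q * dd r t + dd p r * dd q t + dd p t * dd q r) := by
    intro p hp q hq r hr t ht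
    obtain ⟨hp1, hp2⟩ := hJ p hp
    obtain ⟨hq1, hq2⟩ := hJ q hq
    obtain ⟨hr1, hr2⟩ := hJ r hr
    obtain ⟨ht1, ht2⟩ := hJ t ht
    have hB0 : (0 : ℝ) ≤ B := Nat.cast_nonneg B
    have n1 := mul_nonneg (hdd0 p q) (hdd0 r t)
    have n2 := mul_nonneg (hdd0 p r) (hdd0 q t)
    have n3 := mul_nonneg (hdd0 p t) (hdd0 q r)
    by_cases c1 : p = q ∧ r = t
    · obtain ⟨rfl, rfl⟩ := c1
      have h1 := (le_abs_self _).trans (hpair p r hp1 hr1)
      have h2 : T p p r r = ∑ n ∈ range B, XX f p n ^ 2 * XX f r n ^ 2 :=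
        sum_congr rfl fun n _ => by ring
      rw [h2]
      have h3 : dd p p * dd r r = C ^ 2 / p * (C ^ 2 / r) := by simp [dd]
      rw [← h3] at h1
      nlinarith [mul_nonneg hB0 n2, mul_nonneg hB0 n3]
    by_cases c2 : p = r ∧ q = t
    · obtain ⟨rfl, rfl⟩ := c2
      have h1 := (le_abs_self _).trans (hpair p q hp1 hq1)
      have h2 : T p q p q = ∑ n ∈ range B, XX f p n ^ 2 * XX f q n ^ 2 :=
        sum_congr rfl fun n _ => by ring
      rw [h2]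
      have h3 : dd p p * dd q q = C ^ 2 / p * (C ^ 2 / q) := by simp [dd]
      rw [← h3] at h1
      nlinarith [mul_nonneg hB0 n1, mul_nonneg hB0 n3]
    by_cases c3 : p = t ∧ q = r
    · obtain ⟨rfl, rfl⟩ := c3
      have h1 := (le_abs_self _).trans (hpair p q hp1 hq1)
      have h2 : T p q q p = ∑ n ∈ range B, XX f p n ^ 2 * XX f q n ^ 2 :=
        sum_congr rfl fun n _ => by ring
      rw [h2]
      have h3 : dd p p * dd q q = C ^ 2 / p * (C ^ 2 / q) := by simp [dd]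
      rw [← h3] at h1
      nlinarith [mul_nonneg hB0 n1, mul_nonneg hB0 n2]
    have hlone : (p ≠ q ∧ p ≠ r ∧ p ≠ t) ∨ (q ≠ p ∧ q ≠ r ∧ q ≠ t) ∨ (r ≠ p ∧ r ≠ q ∧ r ≠ t) ∨
        (t ≠ p ∧ t ≠ q ∧ t ≠ r) := by omega
    have hT1 : T p q r t ≤ E := by
      rcases hlone with ⟨k1, k2, k3⟩ | ⟨k1, k2, k3⟩ | ⟨k1, k2, k3⟩ | ⟨k1, k2, k3⟩
      · have h := (le_abs_self _).trans (unpaired4 f hC hf1 hs hp1 hq1 hr1 ht1 k1 k2 k3 hp2 hq2 hr2 ht2 B)
        refine le_trans (le_of_eq (sum_congr rfl fun n _ => ?_)) h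
        ring
      · have h := (le_abs_self _).trans (unpaired4 f hC hf1 hs hq1 hp1 hr1 ht1 k1 k2 k3 hq2 hp2 hr2 ht2 B)
        refine le_trans (le_of_eq (sum_congr rfl fun n _ => ?_)) h
        ring
      · have h := (le_abs_self _).trans (unpaired4 f hC hf1 hs hr1 hp1 hq1 ht1 k1 k2 k3 hr2 hp2 hq2 ht2 B)
        refine le_trans (le_of_eq (sum_congr rfl fun n _ => ?_)) h
        ring
      · have h := (le_abs_self _).trans (unpaired4 f hC hf1 hs ht1 hp1 hq1 hr1 k1 k2 k3 ht2 hp2 hq2 hr2 B)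
        refine le_trans (le_of_eq (sum_congr rfl fun n _ => ?_)) h
        ring
    nlinarith [mul_nonneg hB0 n1, mul_nonneg hB0 n2, mul_nonneg hB0 n3]
  -- summation of the diagonal weights
  set G : ℝ := ∑ p ∈ J, 1 / (p : ℝ) with hG
  have hdsum : ∀ p ∈ J, ∑ q ∈ J, dd p q = C ^ 2 / (p : ℝ) := by
    intro p hp
    simp only [dd]
    rw [sum_ite_eq]
    simp [hp]
  have hD : ∑ p ∈ J, ∑ q ∈ J, dd p q = C ^ 2 * G := by
    rw [sum_congr rfl hdsum, hG, mul_sum]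
    exact sum_congr rfl fun p _ => by ring
  have s1 : ∑ p ∈ J, ∑ q ∈ J, ∑ r ∈ J, ∑ t ∈ J, dd p q * dd r t = (C ^ 2 * G) ^ 2 := by
    have : ∀ p ∈ J, ∀ q ∈ J, ∑ r ∈ J, ∑ t ∈ J, dd p q * dd r t = dd p q * (C ^ 2 * G) := by
      intro p _ q _
      rw [← hD, mul_sum]
      exact sum_congr rfl fun r _ => by rw [mul_sum]
    rw [sum_congr rfl fun p hp => sum_congr rfl (this p hp)]
    have hh : ∑ p ∈ J, ∑ q ∈ J, dd p q * (C ^ 2 * G) = (∑ p ∈ J, ∑ q ∈ J, dd p q) * (C ^ 2 * G) := by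
      rw [sum_mul]
      exact sum_congr rfl fun p _ => by rw [sum_mul]
    rw [hh, hD]
    ring
  have s2 : ∑ p ∈ J, ∑ q ∈ J, ∑ r ∈ J, ∑ t ∈ J, dd p r * dd q t = (C ^ 2 * G) ^ 2 := by
    have h1 : ∑ p ∈ J, ∑ q ∈ J, ∑ r ∈ J, ∑ t ∈ J, dd p r * dd q t =
        ∑ p ∈ J, ∑ r ∈ J, ∑ q ∈ J, ∑ t ∈ J, dd p r * dd q t :=
      sum_congr rfl fun p _ => sum_comm
    rw [h1]
    exact s1
  have s3 : ∑ p ∈ J, ∑ q ∈ J, ∑ r ∈ J, ∑ t ∈ J, dd p t * dd q r = (C ^ 2 * G) ^ 2 := by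
    have h1 : ∑ p ∈ J, ∑ q ∈ J, ∑ r ∈ J, ∑ t ∈ J, dd p t * dd q r =
        ∑ p ∈ J, ∑ t ∈ J, ∑ q ∈ J, ∑ r ∈ J, dd p t * dd q r := by
      refine sum_congr rfl fun p _ => ?_
      have : ∀ q ∈ J, ∑ r ∈ J, ∑ t ∈ J, dd p t * dd q r = ∑ t ∈ J, ∑ r ∈ J, dd p t * dd q r :=
        fun q _ => sum_comm
      rw [sum_congr rfl this, sum_comm]
    rw [h1]
    exact s1
  have hmain : ∑ n ∈ range B, (∑ p ∈ J, XX f p n) ^ 4 ≤
      (J.card : ℝ) ^ 4 * E + B * (3 * (C ^ 2 * G) ^ 2) := by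
    rw [hexp]
    refine (sum_le_sum fun p hp => sum_le_sum fun q hq => sum_le_sum fun r hr =>
      sum_le_sum fun t ht => hquad p hp q hq r hr t ht).trans (le_of_eq ?_)
    have e1 : ∑ p ∈ J, ∑ q ∈ J, ∑ r ∈ J, ∑ t ∈ J,
        (E + B * (dd p q * dd r t + dd p r * dd q t + dd p t * dd q r)) =
        ∑ _p ∈ J, ∑ _q ∈ J, ∑ _r ∈ J, ∑ _t ∈ J, E +
          B * (∑ p ∈ J, ∑ q ∈ J, ∑ r ∈ J, ∑ t ∈ J, dd p q * dd r t +
            ∑ p ∈ J, ∑ q ∈ J, ∑ r ∈ J, ∑ t ∈ J, dd p r * dd q t +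
            ∑ p ∈ J, ∑ q ∈ J, ∑ r ∈ J, ∑ t ∈ J, dd p t * dd q r) := by
      simp only [sum_add_distrib, mul_add, mul_sum]
    have e2 : ∑ _p ∈ J, ∑ _q ∈ J, ∑ _r ∈ J, ∑ _t ∈ J, E = (J.card : ℝ) ^ 4 * E := by
      simp only [sum_const, nsmul_eq_mul]
      ring
    rw [e1, e2, s1, s2, s3]
    ring
  have hcard : (J.card : ℝ) ≤ N := by
    have h1 : J ⊆ Icc 1 N := fun p hp => mem_Icc.2 ⟨(hJ p hp).1.one_lt.le, (hJ p hp).2⟩
    have h2 := card_le_card h1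
    rw [Nat.card_Icc] at h2
    exact_mod_cast (by omega : J.card ≤ N)
  have hGN : 1 ≤ N * G := by
    have hp := hJ p₀ hp₀
    have hp0 : (0 : ℝ) < p₀ := by exact_mod_cast hp.1.pos
    have h1 : 1 / (p₀ : ℝ) ≤ G := single_le_sum (f := fun p : ℕ => 1 / (p : ℝ))
      (fun p _ => by positivity) hp₀
    have h2 : (p₀ : ℝ) ≤ N := by exact_mod_cast hp.2
    calc (1 : ℝ) = p₀ * (1 / p₀) := by field_simp
      _ ≤ N * G := mul_le_mul h2 h1 (by positivity) (by positivity)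
  have hNB' : (N : ℝ) ^ 10 ≤ B := by exact_mod_cast hNB
  have hG0 : 0 ≤ G := sum_nonneg fun p _ => by positivity
  have h1 : (J.card : ℝ) ^ 4 * E ≤ 2 * C ^ 4 * B * G ^ 2 := by
    calc (J.card : ℝ) ^ 4 * E ≤ (N : ℝ) ^ 4 * E :=
          mul_le_mul_of_nonneg_right (pow_le_pow_left₀ (by positivity) hcard 4) hE0
      _ = 2 * C ^ 4 * (N : ℝ) ^ 8 * 1 := by rw [hE]; ring
      _ ≤ 2 * C ^ 4 * (N : ℝ) ^ 8 * (N * G) ^ 2 :=
          mul_le_mul_of_nonneg_left (one_le_pow₀ hGN) (by positivity)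
      _ = 2 * C ^ 4 * (N : ℝ) ^ 10 * G ^ 2 := by ring
      _ ≤ 2 * C ^ 4 * B * G ^ 2 := by gcongr
  calc _ ≤ _ := hmain
    _ ≤ 2 * C ^ 4 * B * G ^ 2 + B * (3 * (C ^ 2 * G) ^ 2) := by linarith
    _ = 5 * C ^ 4 * B * G ^ 2 := by ring

/-- **Additive functions of mean zero, all lengths.** -/
theorem central (C η : ℝ) (hC : 1 ≤ C) (hη : 0 < η) : ∃ X₀ : ℕ, 3 ≤ X₀ ∧
    ∀ f : (p : ℕ) → ZMod p → ℝ, (∀ p : ℕ, p.Prime → ∀ z, |f p z| ≤ C / Real.sqrt p) →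
      (∀ p : ℕ, p.Prime → ∑ j ∈ range p, f p (j : ZMod p) = 0) →
      ∀ B N : ℕ, N ^ 10 ≤ B → ∃ E ⊆ range B, (E.card : ℝ) ≤ η * B ∧
        ∀ n ∈ range B, n ∉ E → ∀ x : ℕ, X₀ ≤ x → x ≤ N →
          |∑ p ∈ (range (x + 1)).filter Nat.Prime, f p (n : ZMod p)| ≤
            Real.log (Real.log x) ^ (5 / 6 : ℝ) := by
  obtain ⟨X₀, hX₀, H⟩ := all_lengths (5 * C ^ 4) η (by nlinarith [one_le_pow₀ hC (n := 4)]) hη
  refine ⟨X₀, hX₀, fun f hf hs B N hNB => ?_⟩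
  let X : ℕ → ℕ → ℂ := fun p n => if p.Prime then ((XX f p n : ℝ) : ℂ) else 0
  have hSS : ∀ (u v n : ℕ), SS X u v n = ((∑ p ∈ (Ico u v).filter Nat.Prime, XX f p n : ℝ) : ℂ) := by
    intro u v n
    unfold SS
    rw [sum_filter]
    push_cast
    refine sum_congr rfl fun p _ => ?_
    simp only [X]
    split_ifs <;> simp
  have h1 : ∀ n, ∀ w ∈ range B, ‖X n w‖ ≤ 5 * C ^ 4 := by
    intro p n _
    simp only [X]
    split_ifs with hp
    · rw [Complex.norm_real, Real.norm_eq_abs]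
      have k1 : |XX f p n| ≤ C / Real.sqrt p := hf p hp _
      have k2 : C / Real.sqrt p ≤ C := by
        refine div_le_self (by linarith) ?_
        rw [Real.one_le_sqrt]
        exact_mod_cast hp.one_lt.le
      have k3 : C ≤ C ^ 4 := le_self_pow₀ hC (by norm_num)
      linarith [one_le_pow₀ hC (n := 4)]
    · rw [norm_zero]
      positivity
  have h2 : ∀ u v : ℕ, u ≤ v → v ≤ N + 1 → ∑ w ∈ range B, ‖SS X u v w‖ ^ 4 ≤
      5 * C ^ 4 * (range B).card * (∑ n ∈ Ico u v, gp n) ^ 2 := by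
    intro u v _ hv
    have k1 := fourth f hC hf hs hNB ((Ico u v).filter Nat.Prime) fun p hp => by
      rw [mem_filter, mem_Ico] at hp
      exact ⟨hp.2, by omega⟩
    rw [card_range]
    have k2 : ∑ n ∈ Ico u v, gp n = ∑ p ∈ (Ico u v).filter Nat.Prime, 1 / (p : ℝ) := by
      rw [sum_filter]
      rfl
    rw [k2]
    refine le_trans (le_of_eq (sum_congr rfl fun n _ => ?_)) k1
    rw [hSS, Complex.norm_real, Real.norm_eq_abs]
    have : |∑ p ∈ (Ico u v).filter Nat.Prime, XX f p n| ^ 4 =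
        (|∑ p ∈ (Ico u v).filter Nat.Prime, XX f p n| ^ 2) ^ 2 := by ring
    rw [this, sq_abs]
    ring
  obtain ⟨E, hE, hE1, hE2⟩ := H (range B) N X h1 h2
  refine ⟨E, hE, by rwa [card_range] at hE1, fun n hn hne x hx hxN => ?_⟩
  have h3 := hE2 n hn hne x hx hxN
  rw [hSS, Complex.norm_real, Real.norm_eq_abs, ← range_eq_Ico] at h3
  exact h3

end Pool.Agent.Q28.BP
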