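import Pool.Agent.Q28.BP.PolyM
import Pool.Agent.Helper477.Density

/-!
# The primitive characters of conductor at most `Q`
-/

set_option autoImplicit false

open Finset Filter Topology

namespace Pool.Agent.Q28.BP

/-- the character as a function on the natural numbers -/
noncomputable def chi (i : Σ q : ℕ, DirichletCharacter ℂ q) (n : ℕ) : ℂ := i.2 (n : ZMod i.1)

open scoped Classical in
/-- the primitive characters of conductor at most `Q` -/
noncomputable def prims (Q : ℕ) : Finset (Σ q : ℕ, DirichletCharacter ℂ q) :=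
  (Icc 1 Q).sigma fun q => (univ : Finset (DirichletCharacter ℂ q)).filter fun χ => χ.IsPrimitive

open scoped Classical in
/-- the number of primitive characters mod `q` -/
noncomputable def phs (q : ℕ) : ℕ := ((univ : Finset (DirichletCharacter ℂ q)).filter fun χ => χ.IsPrimitive).card

lemma prims_card (Q : ℕ) : (prims Q).card = ∑ q ∈ Icc 1 Q, phs q := by
  unfold prims phs
  rw [card_sigma]

lemma phs_le {q : ℕ} (hq : 0 < q) : phs q ≤ q := by
  classical
  have : NeZero q := ⟨hq.ne'⟩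
  unfold phs
  refine (card_filter_le _ _).trans ?_
  rw [card_char]
  exact Nat.totient_le q

lemma totient_le_phs {n : ℕ} (hn : 0 < n) : n.totient ≤ ∑ d ∈ n.divisors, phs d := by
  classical
  have : NeZero n := ⟨hn.ne'⟩
  rw [← card_char n, card_eq_sum_card_fiberwise (f := fun χ : DirichletCharacter ℂ n => χ.conductor)
    (t := n.divisors)]
  · refine sum_le_sum fun d hd => ?_
    rw [Nat.mem_divisors] at hd
    have hd0 : d ≠ 0 := by
      rintro rfl
      exact hd.2 (Nat.eq_zero_of_zero_dvd hd.1)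
    have : NeZero d := ⟨hd0⟩
    have hsub : (univ : Finset (DirichletCharacter ℂ n)).filter (fun χ => χ.conductor = d) ⊆
        ((univ : Finset (DirichletCharacter ℂ d)).filter fun χ => χ.IsPrimitive).image
          (DirichletCharacter.changeLevel hd.1) := by
      intro χ hχ
      rw [mem_filter] at hχ
      obtain ⟨_, hc⟩ := hχ
      rw [mem_image]
      subst hc
      exact ⟨χ.primitiveCharacter, mem_filter.2 ⟨mem_univ _, χ.primitiveCharacter_isPrimitive⟩,
        χ.changeLevel_primitiveCharacter⟩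
    exact (card_le_card hsub).trans card_image_le
  · intro χ _
    simp only [Finset.mem_coe, Nat.mem_divisors]
    exact ⟨χ.conductor_dvd_level, hn.ne'⟩

/-- a positive proportion of the square -/
lemma prims_lower (Q : ℕ) : Q ^ 2 ≤ 576 * (prims Q).card := by
  classical
  rcases Nat.eq_zero_or_pos Q with rfl | hQ
  · simp
  have h1 := Pool.Agent.Helper477.totient_sum Q
  have h2 : ∑ q ∈ Icc 1 Q, q.totient ≤ ∑ d ∈ Icc 1 Q, phs d * (Q / d) := by
    calc ∑ q ∈ Icc 1 Q, q.totient ≤ ∑ q ∈ Icc 1 Q, ∑ d ∈ q.divisors, phs d :=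
          sum_le_sum fun q hq => totient_le_phs (by
            rw [mem_Icc] at hq
            omega)
      _ = ∑ q ∈ Icc 1 Q, ∑ d ∈ Icc 1 Q, if d ∣ q then phs d else 0 := by
          refine sum_congr rfl fun q hq => ?_
          rw [← sum_filter]
          refine sum_congr ?_ fun _ _ => rfl
          ext d
          rw [mem_Icc] at hq
          rw [Nat.mem_divisors, mem_filter, mem_Icc]
          constructor
          · intro h
            exact ⟨⟨Nat.pos_of_dvd_of_pos h.1 (by omega), (Nat.le_of_dvd (by omega) h.1).trans hq.2⟩, h.1⟩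
          · intro h
            exact ⟨h.2, by omega⟩
      _ = ∑ d ∈ Icc 1 Q, ∑ q ∈ Icc 1 Q, if d ∣ q then phs d else 0 := sum_comm
      _ = ∑ d ∈ Icc 1 Q, phs d * (Q / d) := by
          refine sum_congr rfl fun d hd => ?_
          rw [← sum_filter, sum_const, smul_eq_mul, mul_comm]
          congr 1
          have : (Icc 1 Q).filter (fun q => d ∣ q) = (Ioc 0 Q).filter (fun q => d ∣ q) := by
            refine congrArg₂ _ ?_ ?_ <;> first | rfl | (ext; simp only [mem_Icc, mem_Ioc]; omega)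
          rw [this, Nat.Ioc_filter_dvd_card_eq_div]
  have h3 : ∀ d ∈ Icc 1 Q, phs d * (Q / d) ≤ (if 24 * d ≤ Q then Q else 0) + 24 * phs d := by
    intro d hd
    rw [mem_Icc] at hd
    split_ifs with h
    · have k1 : phs d * (Q / d) ≤ d * (Q / d) := Nat.mul_le_mul_right _ (phs_le (by omega))
      have k2 : d * (Q / d) ≤ Q := Nat.mul_div_le Q d
      omega
    · have k1 : Q / d ≤ 24 := by
        rw [Nat.div_le_iff_le_mul_add_pred (by omega)]
        nlinarith
      calc phs d * (Q / d) ≤ phs d * 24 := Nat.mul_le_mul_left _ k1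
        _ ≤ _ := by omega
  have h4 := sum_le_sum h3
  rw [sum_add_distrib, ← mul_sum, ← prims_card, ← sum_filter, sum_const, smul_eq_mul] at h4
  have h5 : 24 * ((Icc 1 Q).filter fun d => 24 * d ≤ Q).card ≤ Q := by
    have hsub : (Icc 1 Q).filter (fun d => 24 * d ≤ Q) ⊆ Icc 1 (Q / 24) := by
      intro d hd
      rw [mem_filter, mem_Icc] at hd
      rw [mem_Icc]
      omega
    have := card_le_card hsub
    rw [Nat.card_Icc] at this
    omega
  have h6 : ((Icc 1 Q).filter fun d => 24 * d ≤ Q).card * Q * 24 ≤ Q * Q := by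
    calc _ = (24 * ((Icc 1 Q).filter fun d => 24 * d ≤ Q).card) * Q := by ring
      _ ≤ Q * Q := Nat.mul_le_mul_right _ h5
  have h7 : Q ^ 2 = Q * Q := sq Q
  rw [h7] at h1 ⊢
  omega

theorem prims_lsi (Q : ℕ) : LSI (prims Q) chi (Q ^ 2) 6912 where
  mul := fun i _ m n => by unfold chi; push_cast; rw [map_mul]
  le := fun i _ n => DirichletCharacter.norm_le_one _ _
  ls := fun β => by
    classical
    have h1 := Pool.Agent.Helper112.mult_large_sieve (Q ^ 2) Q β
    have h2 : ∑ i ∈ prims Q, ‖∑ n ∈ Icc 1 (Q ^ 2), β n * chi i n‖ ^ 2 ≤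
        ∑ f ∈ Icc 1 Q, ((f : ℝ) / (Nat.totient f : ℝ)) *
        ∑ χ ∈ (univ : Finset (DirichletCharacter ℂ f)).filter (fun χ => χ.IsPrimitive),
          ‖∑ n ∈ Icc 1 (Q ^ 2), β n * χ (n : ZMod f)‖ ^ 2 := by
      unfold prims
      rw [sum_sigma]
      refine sum_le_sum fun f hf => ?_
      rw [mem_Icc] at hf
      have hφ : (0 : ℝ) < Nat.totient f := by exact_mod_cast Nat.totient_pos.2 (by omega)
      have hle : (Nat.totient f : ℝ) ≤ f := by exact_mod_cast Nat.totient_le f
      have h3 : (1 : ℝ) ≤ (f : ℝ) / Nat.totient f := by rwa [one_le_div hφ]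
      have h4 : 0 ≤ ∑ χ ∈ (univ : Finset (DirichletCharacter ℂ f)).filter (fun χ => χ.IsPrimitive),
          ‖∑ n ∈ Icc 1 (Q ^ 2), β n * χ (n : ZMod f)‖ ^ 2 := sum_nonneg fun _ _ => sq_nonneg _
      refine le_trans (le_of_eq ?_) (le_mul_of_one_le_left h4 h3)
      rfl
    refine h2.trans (h1.trans ?_)
    refine mul_le_mul_of_nonneg_right ?_ (sum_nonneg fun _ _ => sq_nonneg _)
    have h5 : ((Q : ℝ)) ^ 2 ≤ 576 * (prims Q).card := by exact_mod_cast prims_lower Q
    push_cast
    linarith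

/-- **Almost all primitive characters.** -/
theorem prims_all (n : ℕ) {η : ℝ} (hη : 0 < η) : ∃ X₀ : ℕ, 16 ≤ X₀ ∧ ∀ (S : Finset ℕ)
    (M : ℕ → Matrix (Fin n) (Fin n) ℂ), (∀ p : ℕ, p.Prime → p ∉ S → EigLe (M p)) → (∀ p < 4, p ∈ S) →
    ∀ Q : ℕ, ∃ E ⊆ prims Q, (E.card : ℝ) ≤ η * (prims Q).card ∧
      ∀ i ∈ prims Q, i ∉ E → ∀ x : ℕ, X₀ ≤ x → x ≤ Q →
        |∑ p ∈ (range (x + 1)).filter Nat.Prime, lc S M (chi i p) p| ≤
          2 * Real.log (Real.log x) ^ (5 / 6 : ℝ) := by
  obtain ⟨X₀, hX₀, H⟩ := lsi_all n 6912 (by norm_num) hη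
  refine ⟨X₀, hX₀, fun S M hM hS Q => ?_⟩
  obtain ⟨E, hE, hEc, HE⟩ := H (prims Q) chi (Q ^ 2) (prims_lsi Q) S M hM hS
  exact ⟨E, hE, hEc, fun i hi hne x hx hxQ => HE i hi hne x hx (Nat.pow_le_pow_left hxQ 2)⟩

/-- **The mean over the primitive characters.** -/
theorem prims_mean (n : ℕ) : ∃ C : ℝ, 0 ≤ C ∧ ∀ (S : Finset ℕ)
    (M : ℕ → Matrix (Fin n) (Fin n) ℂ), (∀ p : ℕ, p.Prime → p ∉ S → EigLe (M p)) → (∀ p < 4, p ∈ S) →
    ∀ Q x : ℕ, 16 ≤ x → x ≤ Q →
      ∑ i ∈ prims Q, |∑ p ∈ (range (x + 1)).filter Nat.Prime, lc S M (chi i p) p| ≤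
        C * (prims Q).card * Real.log (Real.log x) ^ (1 / 2 : ℝ) := by
  obtain ⟨C, hC, H⟩ := lsi_mean n 6912 (by norm_num)
  exact ⟨C, hC, fun S M hM hS Q x hx hxQ => H (prims Q) chi (Q ^ 2) (prims_lsi Q) S M hM hS x hx
    (Nat.pow_le_pow_left hxQ 2)⟩

end Pool.Agent.Q28.BP
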