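import Pool.Agent.Q28.BP.Nagao
import Pool.Agent.TH941.Newform

/-!
# Quadratic twists
-/

set_option autoImplicit false

open Finset Filter Topology

namespace Pool.Agent.Q28.BP

open Pool.Agent.W263.BSD (pointCount GoodPrime rsSum)

/-! ### Rankin-Selberg, summed -/

open scoped Classical in
/-- the terms `(a_p² - p) / p²` -/
noncomputable def rho (a b : ℤ) (p : ℕ) : ℝ :=
  if GoodPrime a b p then (((p : ℝ) - pointCount a b p) ^ 2 - p) / (p : ℝ) ^ 2 else 0

noncomputable def RR (a b : ℤ) (n : ℕ) : ℝ := ∑ p ∈ range (n + 1), rho a b p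

lemma sqrt_lt_nat (n p : ℕ) : √(n : ℝ) < p ↔ Nat.sqrt n < p := by
  rcases Nat.eq_zero_or_pos p with rfl | hp
  · simp only [Nat.cast_zero, Nat.not_lt_zero, iff_false, not_lt]
    exact Real.sqrt_nonneg _
  · rw [Real.sqrt_lt' (by exact_mod_cast hp), Nat.sqrt_lt']
    exact_mod_cast Iff.rfl

lemma RR_sqrt (a b : ℤ) (n : ℕ) : RR a b n = RR a b (Nat.sqrt n) + rsSum a b n := by
  classical
  have h1 : RR a b n = RR a b (Nat.sqrt n) + ∑ p ∈ Ico (Nat.sqrt n + 1) (n + 1), rho a b p := by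
    unfold RR
    rw [range_eq_Ico, range_eq_Ico, sum_Ico_consecutive _ (Nat.zero_le _)
      (by have := Nat.sqrt_le_self n; omega)]
  rw [h1]
  congr 1
  unfold rsSum rho
  rw [Nat.floor_natCast, ← sum_filter]
  refine sum_congr ?_ fun _ _ => rfl
  ext p
  simp only [mem_filter, mem_Ico, mem_range, sqrt_lt_nat]
  constructor
  · rintro ⟨⟨h2, h3⟩, h4⟩
    exact ⟨h3, h4, by omega⟩
  · rintro ⟨h2, h3, h4⟩
    exact ⟨⟨by omega, h2⟩, h3⟩

/-- the double logarithm -/
def ll (n : ℕ) : ℕ := Nat.log 2 (Nat.log 2 n)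

lemma ll_sqrt {n : ℕ} (hn : 4 ≤ n) : ll (Nat.sqrt n) + 1 ≤ ll n := by
  set m := Nat.sqrt n with hm
  have hm2 : 2 ≤ m := by
    rw [hm, Nat.le_sqrt]
    omega
  have h1 : m ^ 2 ≤ n := Nat.sqrt_le' n
  have h2 : 2 ^ Nat.log 2 m ≤ m := Nat.pow_log_le_self 2 (by omega)
  have h3 : 2 * Nat.log 2 m ≤ Nat.log 2 n := by
    refine Nat.le_log_of_pow_le (by norm_num) ?_
    calc 2 ^ (2 * Nat.log 2 m) = (2 ^ Nat.log 2 m) ^ 2 := by rw [← pow_mul]; ring_nf
      _ ≤ m ^ 2 := Nat.pow_le_pow_left h2 2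
      _ ≤ n := h1
  have h4 : 1 ≤ Nat.log 2 m := Nat.le_log_of_pow_le (by norm_num) (by omega)
  have h5 : 2 ^ Nat.log 2 (Nat.log 2 m) ≤ Nat.log 2 m := Nat.pow_log_le_self 2 (by omega)
  unfold ll
  refine Nat.le_log_of_pow_le (by norm_num) ?_
  rw [pow_succ]
  omega

lemma ll_le {n : ℕ} (hn : 3 ≤ n) (hL : 1 ≤ Real.log (Real.log n)) :
    (ll n : ℝ) ≤ 3 * Real.log (Real.log n) := by
  set L := Real.log (Real.log n) with hLdef
  set i := ll n with hi
  have hy0 : Nat.log 2 n ≠ 0 := by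
    have : 1 ≤ Nat.log 2 n := Nat.le_log_of_pow_le (by norm_num) (by omega)
    omega
  have hPi : 2 ^ 2 ^ i ≤ n := by
    refine (Nat.pow_le_pow_right (by norm_num) (Nat.pow_log_le_self 2 hy0)).trans ?_
    exact Nat.pow_log_le_self 2 (by omega)
  have hl2 := Real.log_two_gt_d9
  have h1 : Real.log (Real.log ((2 ^ 2 ^ i : ℕ) : ℝ)) ≤ L := by
    have h2 : (1 : ℝ) < ((2 ^ 2 ^ i : ℕ) : ℝ) := by
      have : 1 < 2 ^ 2 ^ i := Nat.one_lt_two_pow (by positivity)
      exact_mod_cast this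
    have h3 : Real.log ((2 ^ 2 ^ i : ℕ) : ℝ) ≤ Real.log n :=
      Real.log_le_log (by linarith) (by exact_mod_cast hPi)
    exact Real.log_le_log (Real.log_pos h2) h3
  rw [loglog_P] at h1
  have h4 : -(1 / 2 : ℝ) ≤ Real.log (Real.log 2) := by
    have h5 := Real.log_le_sub_one_of_pos (show (0 : ℝ) < (Real.log 2)⁻¹ by positivity)
    rw [Real.log_inv] at h5
    have h6 : (Real.log 2)⁻¹ ≤ 3 / 2 := by
      rw [inv_le_comm₀ (by positivity) (by norm_num)]
      linarith
    linarith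
  have h7 : (i : ℝ) * 0.6931471803 ≤ i * Real.log 2 :=
    mul_le_mul_of_nonneg_left hl2.le (Nat.cast_nonneg i)
  nlinarith

lemma tendsto_loglog : Tendsto (fun x : ℕ => Real.log (Real.log (x : ℝ))) atTop atTop :=
  Real.tendsto_log_atTop.comp (Real.tendsto_log_atTop.comp (tendsto_natCast_atTop_atTop (R := ℝ)))

/-- **Rankin-Selberg**, summed -/
lemma RR_small {a b : ℤ} (h : Tendsto (rsSum a b) atTop (𝓝 0)) {ε : ℝ} (hε : 0 < ε) :
    ∀ᶠ n : ℕ in atTop, |RR a b n| ≤ ε * Real.log (Real.log n) := by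
  have h1 : ∀ᶠ n : ℕ in atTop, |rsSum a b n| < ε / 6 := by
    have := (h.comp (tendsto_natCast_atTop_atTop (R := ℝ))).abs
    rw [abs_zero] at this
    exact this.eventually (gt_mem_nhds (by positivity))
  obtain ⟨n₀, hn₀⟩ := eventually_atTop.1 h1
  set m₀ := max n₀ 4 with hm₀
  set M : ℝ := ∑ p ∈ range (m₀ + 1), |rho a b p| with hM
  have hM0 : 0 ≤ M := sum_nonneg fun _ _ => abs_nonneg _
  have key : ∀ n : ℕ, |RR a b n| ≤ M + ε / 6 * (ll n + 1) := by
    intro n
    induction n using Nat.strong_induction_on with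
    | _ n ih =>
    rcases Nat.lt_or_ge n m₀ with hn | hn
    · have h2 : |RR a b n| ≤ M := by
        unfold RR
        refine (abs_sum_le_sum_abs _ _).trans ?_
        exact sum_le_sum_of_subset_of_nonneg (range_mono (by omega)) fun _ _ _ => abs_nonneg _
      have : 0 ≤ ε / 6 * ((ll n : ℝ) + 1) := by positivity
      linarith
    · have hn4 : 4 ≤ n := (le_max_right _ _).trans hn
      have h2 := ih (Nat.sqrt n) (Nat.sqrt_lt_self (by omega))
      have h3 := hn₀ n ((le_max_left _ _).trans hn)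
      rw [RR_sqrt]
      refine (abs_add_le _ _).trans ?_
      have h4 : (ll (Nat.sqrt n) : ℝ) + 1 ≤ ll n := by exact_mod_cast ll_sqrt hn4
      nlinarith
  filter_upwards [tendsto_loglog.eventually_ge_atTop (max 1 ((M + ε / 6) / (ε / 2))),
    eventually_ge_atTop 3] with n hn hn3
  have hL1 : 1 ≤ Real.log (Real.log n) := (le_max_left _ _).trans hn
  have hL2 : (M + ε / 6) / (ε / 2) ≤ Real.log (Real.log n) := (le_max_right _ _).trans hn
  rw [div_le_iff₀ (by positivity)] at hL2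
  have h2 := key n
  have h3 := ll_le hn3 hL1
  nlinarith

/-! ### The mean values for the twists by the values of a polynomial -/

lemma sum_polyval {p : ℕ} [Fact p.Prime] (D : Polynomial ℤ) (g : ZMod p → ℝ) :
    ∑ j ∈ range p, g ((D.eval (j : ℤ) : ℤ) : ZMod p) =
      ∑ z : ZMod p, g (D.eval₂ (Int.castRingHom (ZMod p)) z) := by
  rw [← sum_range_zmod (fun z : ZMod p => g (D.eval₂ (Int.castRingHom (ZMod p)) z))]
  refine sum_congr rfl fun j _ => ?_
  congr 1
  have := Polynomial.hom_eval₂ D (RingHom.id ℤ) (Int.castRingHom (ZMod p)) (j : ℤ)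
  simpa [Polynomial.eval₂_id] using this

/-- the family of the twists by the values of `D` -/
noncomputable def twA (a : ℤ) (D : Polynomial ℤ) : Polynomial ℤ := Polynomial.C a * D ^ 2
noncomputable def twB (b : ℤ) (D : Polynomial ℤ) : Polynomial ℤ := Polynomial.C b * D ^ 3

lemma good_twist {a b d : ℤ} {p : ℕ} (hp : p.Prime) :
    GoodPrime (a * d ^ 2) (b * d ^ 3) p ↔ GoodPrime a b p ∧ ¬ (p : ℤ) ∣ d := by
  have hp' : Prime (p : ℤ) := Nat.prime_iff_prime_int.1 hp
  unfold GoodPrime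
  have e : 2 * (-4 * (a * d ^ 2) ^ 3 - 27 * (b * d ^ 3) ^ 2) = 2 * (-4 * a ^ 3 - 27 * b ^ 2) * d ^ 6 := by
    ring
  rw [e, hp'.dvd_mul]
  constructor
  · rintro ⟨_, h⟩
    rw [not_or] at h
    exact ⟨⟨hp, h.1⟩, fun h3 => h.2 (dvd_pow h3 (by norm_num))⟩
  · rintro ⟨⟨_, h1⟩, h2⟩
    refine ⟨hp, ?_⟩
    rw [not_or]
    exact ⟨h1, fun h3 => h2 (hp'.dvd_of_dvd_pow h3)⟩

lemma nuf_twist {a b d : ℤ} {p : ℕ} (hp : p.Prime) (hg : GoodPrime a b p) [Fact p.Prime] :
    nuf (a * d ^ 2) (b * d ^ 3) p = (if (d : ZMod p) = 0 then 0 else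
      (1 + ch (d : ZMod p) * cs (a : ZMod p) (b : ZMod p)) / p -
        cs (a : ZMod p) (b : ZMod p) ^ 2 / (2 * (p : ℝ) ^ 2)) := by
  classical
  have hp2 : p ≠ 2 := by
    rintro rfl
    exact not_good_two a b hg
  unfold nuf
  by_cases hd : (d : ZMod p) = 0
  · rw [if_pos hd, if_neg]
    rw [good_twist hp, not_and, not_not]
    intro _
    exact (ZMod.intCast_zmod_eq_zero_iff_dvd d p).1 hd
  · rw [if_neg hd, if_pos]
    · rw [count_eq hp2]
      push_cast
      rw [cs_twist hd]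
      have h1 := ch_sq hd
      have e : ((p : ℝ) - (p + ch (d : ZMod p) * cs (a : ZMod p) (b : ZMod p))) ^ 2 =
          cs (a : ZMod p) (b : ZMod p) ^ 2 := by
        calc _ = ch (d : ZMod p) ^ 2 * cs (a : ZMod p) (b : ZMod p) ^ 2 := by ring
          _ = _ := by rw [h1, one_mul]
      rw [e]
      congr 2
      ring
    · rw [good_twist hp]
      exact ⟨hg, fun h => hd ((ZMod.intCast_zmod_eq_zero_iff_dvd d p).2 h)⟩

/-- the mean value for the twists by the values of `D` -/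
lemma nu_twist {a b : ℤ} {p : ℕ} (hp : p.Prime) (hg : GoodPrime a b p) [Fact p.Prime]
    (D : Polynomial ℤ) :
    nu (twA a D) (twB b D) p =
      ((p - (((univ : Finset (ZMod p)).filter fun z =>
        D.eval₂ (Int.castRingHom (ZMod p)) z = 0).card : ℝ)) *
          (1 / p - cs (a : ZMod p) (b : ZMod p) ^ 2 / (2 * (p : ℝ) ^ 2)) +
        (∑ z : ZMod p, ch (D.eval₂ (Int.castRingHom (ZMod p)) z)) *
          (cs (a : ZMod p) (b : ZMod p) / p)) / p := by
  classical
  unfold nu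
  congr 1
  have h1 : ∀ j ∈ range p, nuf ((twA a D).eval (j : ℤ)) ((twB b D).eval (j : ℤ)) p =
      (fun z : ZMod p => if z = 0 then (0 : ℝ) else (1 + ch z * cs (a : ZMod p) (b : ZMod p)) / p -
        cs (a : ZMod p) (b : ZMod p) ^ 2 / (2 * (p : ℝ) ^ 2)) ((D.eval (j : ℤ) : ℤ) : ZMod p) := by
    intro j _
    have e1 : (twA a D).eval (j : ℤ) = a * D.eval (j : ℤ) ^ 2 := by simp [twA]
    have e2 : (twB b D).eval (j : ℤ) = b * D.eval (j : ℤ) ^ 3 := by simp [twB]
    rw [e1, e2, nuf_twist hp hg]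
  rw [sum_congr rfl h1, sum_polyval D (fun z : ZMod p => if z = 0 then (0 : ℝ) else
    (1 + ch z * cs (a : ZMod p) (b : ZMod p)) / p -
        cs (a : ZMod p) (b : ZMod p) ^ 2 / (2 * (p : ℝ) ^ 2))]
  set w : ZMod p → ZMod p := fun z => D.eval₂ (Int.castRingHom (ZMod p)) z with hw
  set K : ℝ := 1 / p - cs (a : ZMod p) (b : ZMod p) ^ 2 / (2 * (p : ℝ) ^ 2) with hK
  have h2 : ∀ z : ZMod p, (if w z = 0 then (0 : ℝ) else
      (1 + ch (w z) * cs (a : ZMod p) (b : ZMod p)) / p -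
        cs (a : ZMod p) (b : ZMod p) ^ 2 / (2 * (p : ℝ) ^ 2)) =
      K - (if w z = 0 then K else 0) + ch (w z) * (cs (a : ZMod p) (b : ZMod p) / p) := by
    intro z
    split_ifs with hz
    · rw [hz, ch_zero]; ring
    · rw [hK]; ring
  rw [sum_congr rfl fun z _ => h2 z, sum_add_distrib, sum_sub_distrib, sum_const, card_univ,
    ZMod.card, nsmul_eq_mul, ← sum_filter, sum_const, nsmul_eq_mul, ← sum_mul]
  ring

lemma cs_abs {a b : ℤ} {p : ℕ} (hg : GoodPrime a b p) [Fact p.Prime] :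
    cs (a : ZMod p) (b : ZMod p) ^ 2 ≤ 9 * p := by
  have hp : p.Prime := hg.1
  have hp2 : p ≠ 2 := by
    rintro rfl
    exact not_good_two a b hg
  have hp0 : (0 : ℝ) < p := by exact_mod_cast hp.pos
  rcases Nat.lt_or_ge p 5 with h5 | h5
  · have h1 : |cs (a : ZMod p) (b : ZMod p)| ≤ p := by
      unfold cs
      refine (abs_sum_le_sum_abs _ _).trans ((sum_le_sum fun x _ => ch_abs _).trans ?_)
      rw [sum_const, card_univ, ZMod.card, nsmul_eq_mul, mul_one]
    have h2 : cs (a : ZMod p) (b : ZMod p) ^ 2 ≤ (p : ℝ) ^ 2 := by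
      rw [← sq_abs]
      exact pow_le_pow_left₀ (abs_nonneg _) h1 2
    have h3 : (p : ℝ) ≤ 9 := by exact_mod_cast (by omega : p ≤ 9)
    nlinarith
  · have h1 := Pool.Agent.W263.BSD.hasse hg h5
    rw [count_eq hp2] at h1
    have h2 : |cs (a : ZMod p) (b : ZMod p)| ≤ 2 * √p := by
      rw [← abs_neg]
      refine le_trans (le_of_eq ?_) h1
      congr 1
      ring
    have h3 : cs (a : ZMod p) (b : ZMod p) ^ 2 ≤ (2 * √p) ^ 2 := by
      rw [← sq_abs]
      exact pow_le_pow_left₀ (abs_nonneg _) h2 2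
    rw [mul_pow, Real.sq_sqrt hp0.le] at h3
    linarith

lemma rho_eq {a b : ℤ} {p : ℕ} (hg : GoodPrime a b p) [Fact p.Prime] :
    rho a b p = (cs (a : ZMod p) (b : ZMod p) ^ 2 - p) / (p : ℝ) ^ 2 := by
  have hp2 : p ≠ 2 := by
    rintro rfl
    exact not_good_two a b hg
  unfold rho
  rw [if_pos hg, count_eq hp2]
  congr 1
  ring

/-- all the twists -/
lemma nu_all {a b : ℤ} {p : ℕ} (hg : GoodPrime a b p) (D : Polynomial ℤ) (hD : D = Polynomial.X ∨
    D = -Polynomial.X) : |nu (twA a D) (twB b D) p - (1 / (2 * p) - rho a b p / 2)| ≤ 6 / (p : ℝ) ^ 2 := by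
  classical
  have hp : p.Prime := hg.1
  have : Fact p.Prime := ⟨hp⟩
  have hp2 : p ≠ 2 := by
    rintro rfl
    exact not_good_two a b hg
  have hp0 : (0 : ℝ) < p := by exact_mod_cast hp.pos
  rw [nu_twist hp hg]
  have h1 : ∀ z : ZMod p, D.eval₂ (Int.castRingHom (ZMod p)) z = 0 ↔ z = 0 := by
    intro z
    rcases hD with rfl | rfl
    · simp
    · simp
  have h2 : ((univ : Finset (ZMod p)).filter fun z =>
      D.eval₂ (Int.castRingHom (ZMod p)) z = 0).card = 1 := by
    rw [card_eq_one]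
    refine ⟨0, ?_⟩
    ext z
    simp [h1]
  have h3 : ∑ z : ZMod p, ch (D.eval₂ (Int.castRingHom (ZMod p)) z) = 0 := by
    rcases hD with rfl | rfl
    · simp only [Polynomial.eval₂_X]
      exact ch_sum hp2
    · simp only [Polynomial.eval₂_neg, Polynomial.eval₂_X]
      rw [← ch_sum hp2]
      exact Equiv.sum_comp (Equiv.neg (ZMod p)) ch
  rw [h2, h3, rho_eq hg]
  have h4 := cs_abs hg
  have h5 : (0 : ℝ) ≤ cs (a : ZMod p) (b : ZMod p) ^ 2 := sq_nonneg _
  set c := cs (a : ZMod p) (b : ZMod p) ^ 2 with hc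
  have e : ((p - ((1 : ℕ) : ℝ)) * (1 / p - c / (2 * (p : ℝ) ^ 2)) +
      0 * (cs (a : ZMod p) (b : ZMod p) / p)) / p - (1 / (2 * p) - (c - p) / (p : ℝ) ^ 2 / 2) =
      (c / (2 * p) - 1) / (p : ℝ) ^ 2 := by
    field_simp
    push_cast
    ring
  rw [e, abs_div, abs_of_pos (by positivity : (0 : ℝ) < (p : ℝ) ^ 2)]
  refine div_le_div_of_nonneg_right ?_ (by positivity)
  have h6 : c / (2 * p) ≤ 9 / 2 := by
    rw [div_le_iff₀ (by positivity)]
    linarith
  have h7 : 0 ≤ c / (2 * p) := by positivity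
  rw [abs_le]
  constructor <;> linarith

/-- the twists by the values of `x³ + a x + b` -/
lemma nu_self {a b : ℤ} {p : ℕ} (hg : GoodPrime a b p) (D : Polynomial ℤ)
    (hD : D = Polynomial.X ^ 3 + Polynomial.C a * Polynomial.X + Polynomial.C b ∨
      D = -Polynomial.X ^ 3 - Polynomial.C a * Polynomial.X + Polynomial.C b) :
    |nu (twA a D) (twB b D) p - (3 / (2 * p) + rho a b p / 2)| ≤ 30 / (p : ℝ) ^ 2 := by
  classical
  have hp : p.Prime := hg.1
  have : Fact p.Prime := ⟨hp⟩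
  have hp2 : p ≠ 2 := by
    rintro rfl
    exact not_good_two a b hg
  have hp0 : (0 : ℝ) < p := by exact_mod_cast hp.pos
  rw [nu_twist hp hg]
  have h3 : ∑ z : ZMod p, ch (D.eval₂ (Int.castRingHom (ZMod p)) z) =
      cs (a : ZMod p) (b : ZMod p) := by
    rcases hD with rfl | rfl
    · unfold cs
      refine sum_congr rfl fun z _ => ?_
      simp only [Polynomial.eval₂_add, Polynomial.eval₂_mul, Polynomial.eval₂_pow,
        Polynomial.eval₂_X, Polynomial.eval₂_C]
      simp only [eq_intCast]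
    · unfold cs
      rw [← Equiv.sum_comp (Equiv.neg (ZMod p))]
      refine sum_congr rfl fun z _ => ?_
      congr 1
      simp only [Equiv.neg_apply, Polynomial.eval₂_add, Polynomial.eval₂_sub, Polynomial.eval₂_neg,
        Polynomial.eval₂_mul, Polynomial.eval₂_pow, Polynomial.eval₂_X, Polynomial.eval₂_C]
      simp only [eq_intCast]
      ring
  set r := ((univ : Finset (ZMod p)).filter fun z =>
      D.eval₂ (Int.castRingHom (ZMod p)) z = 0).card with hr
  have h2 : r ≤ 3 := by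
    have h4 : ((univ : Finset (ZMod p)).filter fun z =>
        D.eval₂ (Int.castRingHom (ZMod p)) z = 0) ⊆ (D.map (Int.castRingHom (ZMod p))).roots.toFinset := by
      intro z hz
      rw [mem_filter] at hz
      rw [Multiset.mem_toFinset, Polynomial.mem_roots, Polynomial.IsRoot, Polynomial.eval_map]
      · exact hz.2
      · intro h0
        have h5 := congrArg (fun P => P.coeff 3) h0
        rcases hD with rfl | rfl
        · simp only [Polynomial.coeff_map, Polynomial.coeff_add, Polynomial.coeff_X_pow,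
            Polynomial.coeff_C_mul, Polynomial.coeff_X, Polynomial.coeff_C,
            Polynomial.coeff_zero] at h5
          norm_num at h5
        · simp only [Polynomial.coeff_map, Polynomial.coeff_add, Polynomial.coeff_sub,
            Polynomial.coeff_neg, Polynomial.coeff_X_pow, Polynomial.coeff_C_mul,
            Polynomial.coeff_X, Polynomial.coeff_C, Polynomial.coeff_zero] at h5
          norm_num at h5
    have h6 : (D.map (Int.castRingHom (ZMod p))).natDegree ≤ 3 := by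
      refine Polynomial.natDegree_map_le.trans ?_
      rcases hD with rfl | rfl
      · compute_degree
      · compute_degree
    exact (card_le_card h4).trans ((Multiset.toFinset_card_le _).trans
      ((Polynomial.card_roots' _).trans h6))
  rw [h3, rho_eq hg]
  have h4 := cs_abs hg
  have h5 : (0 : ℝ) ≤ cs (a : ZMod p) (b : ZMod p) ^ 2 := sq_nonneg _
  have h2' : (r : ℝ) ≤ 3 := by exact_mod_cast h2
  have hr0 : (0 : ℝ) ≤ r := Nat.cast_nonneg r
  have e : ((p - (r : ℝ)) * (1 / p - cs (a : ZMod p) (b : ZMod p) ^ 2 / (2 * (p : ℝ) ^ 2)) +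
      cs (a : ZMod p) (b : ZMod p) * (cs (a : ZMod p) (b : ZMod p) / p)) / p -
        (3 / (2 * p) + (cs (a : ZMod p) (b : ZMod p) ^ 2 - p) / (p : ℝ) ^ 2 / 2) =
      (r * (cs (a : ZMod p) (b : ZMod p) ^ 2 / (2 * p)) - r) / (p : ℝ) ^ 2 := by
    field_simp
    ring
  rw [e, abs_div, abs_of_pos (by positivity : (0 : ℝ) < (p : ℝ) ^ 2)]
  refine div_le_div_of_nonneg_right ?_ (by positivity)
  have h6 : cs (a : ZMod p) (b : ZMod p) ^ 2 / (2 * p) ≤ 9 / 2 := by
    rw [div_le_iff₀ (by positivity)]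
    linarith
  have h7 : 0 ≤ cs (a : ZMod p) (b : ZMod p) ^ 2 / (2 * p) := by positivity
  rw [abs_le]
  constructor <;> nlinarith

end Pool.Agent.Q28.BP
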