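import Pool.Agent.Q28.BP.RatFam

/-!
# Almost all elliptic curves with rational coefficients
-/

set_option autoImplicit false

open Finset Filter Topology

namespace Pool.Agent.Q28.BP

lemma RF_sum_le (B : ℕ) (G : ℤ → ℕ → ℕ → ℤ → ℝ) (hG : ∀ m n v u, 0 ≤ G m n v u) :
    ∑ q ∈ RF B, G q.1.num q.1.den q.2.den q.2.num ≤
      ∑ m ∈ Icc (-(B : ℤ)) B, ∑ n ∈ Ioc 0 B, ∑ v ∈ Ioc 0 B, ∑ u ∈ Icc (-(B : ℤ)) B, G m n v u := by
  classical
  have e1 : ∑ m ∈ Icc (-(B : ℤ)) B, ∑ n ∈ Ioc 0 B, ∑ v ∈ Ioc 0 B, ∑ u ∈ Icc (-(B : ℤ)) B, G m n v u =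
      ∑ r ∈ (Icc (-(B : ℤ)) B ×ˢ Ioc 0 B) ×ˢ (Ioc 0 B ×ˢ Icc (-(B : ℤ)) B), G r.1.1 r.1.2 r.2.1 r.2.2 := by
    rw [sum_product, sum_product]
    refine sum_congr rfl fun m _ => sum_congr rfl fun n _ => ?_
    rw [sum_product]
  rw [e1]
  set φ : ℚ × ℚ → (ℤ × ℕ) × (ℕ × ℤ) := fun q => ((q.1.num, q.1.den), (q.2.den, q.2.num)) with hφ
  have hinj : Function.Injective φ := by
    intro q q' h
    simp only [hφ, Prod.mk.injEq] at h
    exact Prod.ext (Rat.ext h.1.1 h.1.2) (Rat.ext h.2.2 h.2.1)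
  have e2 : ∑ q ∈ RF B, G q.1.num q.1.den q.2.den q.2.num =
      ∑ r ∈ (RF B).image φ, G r.1.1 r.1.2 r.2.1 r.2.2 := by
    rw [sum_image fun a _ b _ h => hinj h]
  rw [e2]
  refine sum_le_sum_of_subset_of_nonneg ?_ fun r _ _ => hG _ _ _ _
  intro r hr
  rw [mem_image] at hr
  obtain ⟨q, hq, rfl⟩ := hr
  unfold RF at hq
  rw [mem_filter, mem_product, mem_rats, mem_rats] at hq
  obtain ⟨⟨⟨h1, h2⟩, h3, h4⟩, _⟩ := hq
  rw [abs_le] at h1 h3
  simp only [hφ, mem_product, mem_Icc, mem_Ioc]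
  exact ⟨⟨h1, q.1.den_pos, h2⟩, ⟨q.2.den_pos, h4⟩, h3⟩

lemma card_natAbs (B : ℕ) (E : Finset ℕ) :
    ∑ m ∈ Icc (-(B : ℤ)) B, (if m.natAbs ∈ E then (1 : ℝ) else 0) ≤ 2 * E.card := by
  classical
  rw [← sum_filter, sum_const, nsmul_eq_mul, mul_one]
  have h1 : (Icc (-(B : ℤ)) B).filter (fun m => m.natAbs ∈ E) ⊆
      E.image (fun n : ℕ => (n : ℤ)) ∪ E.image (fun n : ℕ => -(n : ℤ)) := by
    intro m hm
    rw [mem_filter] at hm
    rw [mem_union, mem_image, mem_image]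
    rcases Int.natAbs_eq m with e | e
    · left; exact ⟨m.natAbs, hm.2, e.symm⟩
    · right; exact ⟨m.natAbs, hm.2, e.symm⟩
  have h2 := (card_le_card h1).trans ((card_union_le _ _).trans (add_le_add card_image_le card_image_le))
  have h3 : (((Icc (-(B : ℤ)) B).filter (fun m => m.natAbs ∈ E)).card : ℝ) ≤ E.card + E.card := by
    exact_mod_cast h2
  linarith

lemma card_sub {α : Type*} [DecidableEq α] (s E : Finset α) :
    ∑ m ∈ s, (if m ∈ E then (1 : ℝ) else 0) ≤ E.card := by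
  rw [← sum_filter, sum_const, nsmul_eq_mul, mul_one]
  exact_mod_cast card_le_card fun m hm => (mem_filter.1 hm).2

/-- **Almost all curves.** -/
theorem rat_all {η : ℝ} (hη : 0 < η) : ∃ X₀ : ℕ, 16 ≤ X₀ ∧ ∀ B : ℕ, ∃ E ⊆ RF B,
    (E.card : ℝ) ≤ η * (RF B).card ∧ ∀ q ∈ RF B, q ∉ E → ∀ x : ℕ, X₀ ≤ x → x ^ 10 ≤ B →
      |∑ p ∈ (range (x + 1)).filter Nat.Prime, lr q.1.num q.1.den q.2.num q.2.den p -
        1 / 2 * Real.log (Real.log x)| ≤ 2 * Real.log (Real.log x) ^ (5 / 6 : ℝ) := by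
  classical
  set η₁ : ℝ := η / 1152 with hη₁
  have hη₁0 : 0 < η₁ := by positivity
  obtain ⟨X₁, hX₁, H⟩ := one_var 20 η₁ (by norm_num) hη₁0
  obtain ⟨M, hM, HA⟩ := few_A hη₁0
  obtain ⟨K, hK, HK⟩ := sum_gr_mean
  have hL : Tendsto (fun x : ℕ => Real.log (Real.log (x : ℝ)) ^ (5 / 6 : ℝ)) atTop atTop :=
    (tendsto_rpow_atTop (by norm_num)).comp tendsto_loglog
  obtain ⟨X₂, hX₂⟩ := eventually_atTop.1 (hL.eventually_ge_atTop (K + 3 * M))
  obtain ⟨X₃, hX₃⟩ := exists_nat_ge (96 / η)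
  refine ⟨max 16 (max X₁ (max X₂ X₃)), le_max_left _ _, fun B => ?_⟩
  by_cases hbig : ∃ x : ℕ, max 16 (max X₁ (max X₂ X₃)) ≤ x ∧ x ^ 10 ≤ B
  swap
  · refine ⟨∅, empty_subset _, by simpa using by positivity, fun q _ _ x hx hxX => ?_⟩
    exact absurd ⟨x, hx, hxX⟩ hbig
  obtain ⟨x₀, hx₀, hx₀B⟩ := hbig
  have hxB : x₀ ≤ B := (Nat.le_self_pow (by norm_num) x₀).trans hx₀B
  have hx₀1 : 16 ≤ x₀ := (le_max_left _ _).trans hx₀
  have hB1 : (1 : ℝ) ≤ B := by exact_mod_cast (by omega : 1 ≤ B)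
  have hBη : 96 / η ≤ B := by
    refine hX₃.trans ?_
    have : X₃ ≤ B := ((le_max_right _ _).trans ((le_max_right _ _).trans (le_max_right _ _))).trans
      (hx₀.trans hxB)
    exact_mod_cast this
  have hE1 := fun (m : ℤ) (n v : ℕ) => H (gr m n v) (fun p hp z => lr_abs m n _ v hp) (B + 1)
    (rt (B + 1)) (rt_le _)
  have hE2 := fun (m : ℤ) (n v : ℕ) => H (fun p z => gr m n v p (-z)) (fun p hp z => lr_abs m n _ v hp)
    (B + 1) (rt (B + 1)) (rt_le _)
  choose E1 hE1s hE1c hE1 using hE1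
  choose E2 hE2s hE2c hE2 using hE2
  obtain ⟨EA, hEAs, hEAc, hEA⟩ := HA B
  let EU : ℤ → ℕ → ℕ → Finset ℤ := fun m n v =>
    (E1 m n v).image (fun n : ℕ => (n : ℤ)) ∪ (E2 m n v).image (fun n : ℕ => -(n : ℤ))
  have hEU : ∀ m n v, ((EU m n v).card : ℝ) ≤ 4 * η₁ * B := by
    intro m n v
    have k1 := (card_union_le ((E1 m n v).image (fun n : ℕ => (n : ℤ)))
      ((E2 m n v).image (fun n : ℕ => -(n : ℤ)))).trans (add_le_add card_image_le card_image_le)
    have k2 : ((EU m n v).card : ℝ) ≤ (E1 m n v).card + (E2 m n v).card := by exact_mod_cast k1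
    have k3 := hE1c m n v
    have k4 := hE2c m n v
    push_cast at k3 k4
    nlinarith
  let bad : ℤ → ℕ → ℕ → ℤ → Prop := fun m n v u =>
    m = 0 ∨ m.natAbs ∈ EA ∨ n ∈ EA ∨ v ∈ EA ∨ u ∈ EU m n v
  refine ⟨(RF B).filter fun q => bad q.1.num q.1.den q.2.den q.2.num, filter_subset _ _, ?_,
    fun q hq hne x hx hxX => ?_⟩
  · have h1 : (((RF B).filter fun q => bad q.1.num q.1.den q.2.den q.2.num).card : ℝ) =
        ∑ q ∈ RF B, if bad q.1.num q.1.den q.2.den q.2.num then (1 : ℝ) else 0 := by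
      rw [← sum_filter, sum_const, nsmul_eq_mul, mul_one]
    rw [h1]
    refine (RF_sum_le B (fun m n v u => if bad m n v u then (1 : ℝ) else 0) (fun m n v u => by
      split_ifs <;> norm_num)).trans ?_
    have h2 : ∀ m n v u, (if bad m n v u then (1 : ℝ) else 0) ≤ (if m = 0 then 1 else 0) +
        (if m.natAbs ∈ EA then 1 else 0) + (if n ∈ EA then 1 else 0) + (if v ∈ EA then 1 else 0) +
        (if u ∈ EU m n v then 1 else 0) := by
      intro m n v u
      by_cases hb : bad m n v u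
      · rw [if_pos hb]
        rcases hb with h | h | h | h | h
        all_goals
          rw [if_pos h]
          split_ifs <;> norm_num
      · rw [if_neg hb]
        split_ifs <;> norm_num
    have hcard : ((Icc (-(B : ℤ)) B).card : ℝ) ≤ 3 * B := by
      rw [Int.card_Icc]
      have hBn : 1 ≤ B := by omega
      have : ((B : ℤ) + 1 - -(B : ℤ)).toNat ≤ 3 * B := by omega
      calc ((((B : ℤ) + 1 - -(B : ℤ)).toNat : ℕ) : ℝ) ≤ ((3 * B : ℕ) : ℝ) := by exact_mod_cast this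
        _ = 3 * B := by push_cast; ring
    set c : ℝ := ((Icc (-(B : ℤ)) B).card : ℝ) with hc
    have hc0 : 0 ≤ c := Nat.cast_nonneg _
    -- the sums over `u`, `v`, `n`, `m`
    have s1 : ∀ m n v, ∑ u ∈ Icc (-(B : ℤ)) B, (if bad m n v u then (1 : ℝ) else 0) ≤
        c * ((if m = 0 then 1 else 0) + (if m.natAbs ∈ EA then 1 else 0) + (if n ∈ EA then 1 else 0) +
          (if v ∈ EA then 1 else 0)) + 4 * η₁ * B := by
      intro m n v
      refine (sum_le_sum fun u _ => h2 m n v u).trans ?_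
      rw [sum_add_distrib, sum_const, nsmul_eq_mul]
      exact add_le_add le_rfl ((card_sub _ _).trans (hEU m n v))
    have s2 : ∀ m n, ∑ v ∈ Ioc 0 B, ∑ u ∈ Icc (-(B : ℤ)) B, (if bad m n v u then (1 : ℝ) else 0) ≤
        B * (c * ((if m = 0 then 1 else 0) + (if m.natAbs ∈ EA then 1 else 0) + (if n ∈ EA then 1 else 0))) +
          c * (η₁ * B) + B * (4 * η₁ * B) := by
      intro m n
      refine (sum_le_sum fun v _ => s1 m n v).trans ?_
      have e : ∀ v ∈ Ioc 0 B, c * ((if m = 0 then 1 else 0) + (if m.natAbs ∈ EA then 1 else 0) +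
          (if n ∈ EA then 1 else 0) + (if v ∈ EA then 1 else 0)) + 4 * η₁ * B =
          (c * ((if m = 0 then 1 else 0) + (if m.natAbs ∈ EA then 1 else 0) + (if n ∈ EA then 1 else 0)) +
            4 * η₁ * B) + c * (if v ∈ EA then 1 else 0) := fun v _ => by ring
      rw [sum_congr rfl e, sum_add_distrib, sum_const, nsmul_eq_mul, Nat.card_Ioc, Nat.sub_zero, ← mul_sum]
      have k := (card_sub (Ioc 0 B) EA).trans hEAc
      have := mul_le_mul_of_nonneg_left k hc0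
      linarith
    have s3 : ∀ m, ∑ n ∈ Ioc 0 B, ∑ v ∈ Ioc 0 B, ∑ u ∈ Icc (-(B : ℤ)) B,
        (if bad m n v u then (1 : ℝ) else 0) ≤
        B * (B * (c * ((if m = 0 then 1 else 0) + (if m.natAbs ∈ EA then 1 else 0)))) +
          B * c * (η₁ * B) + B * (c * (η₁ * B) + B * (4 * η₁ * B)) := by
      intro m
      refine (sum_le_sum fun n _ => s2 m n).trans ?_
      have e : ∀ n ∈ Ioc 0 B, (B : ℝ) * (c * ((if m = 0 then 1 else 0) + (if m.natAbs ∈ EA then 1 else 0) +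
          (if n ∈ EA then 1 else 0))) + c * (η₁ * B) + B * (4 * η₁ * B) =
          (B * (c * ((if m = 0 then 1 else 0) + (if m.natAbs ∈ EA then 1 else 0))) +
            (c * (η₁ * B) + B * (4 * η₁ * B))) + B * c * (if n ∈ EA then 1 else 0) := fun n _ => by ring
      rw [sum_congr rfl e, sum_add_distrib, sum_const, nsmul_eq_mul, Nat.card_Ioc, Nat.sub_zero, ← mul_sum]
      have k := (card_sub (Ioc 0 B) EA).trans hEAc
      have := mul_le_mul_of_nonneg_left k (show 0 ≤ (B : ℝ) * c by positivity)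
      linarith
    refine (sum_le_sum fun m _ => s3 m).trans ?_
    have e : ∀ m ∈ Icc (-(B : ℤ)) B, (B : ℝ) * (B * (c * ((if m = 0 then 1 else 0) +
        (if m.natAbs ∈ EA then 1 else 0)))) + B * c * (η₁ * B) + B * (c * (η₁ * B) + B * (4 * η₁ * B)) =
        (B * c * (η₁ * B) + B * (c * (η₁ * B) + B * (4 * η₁ * B))) +
        B * B * c * (if m ∈ ({0} : Finset ℤ) then 1 else 0) +
          B * B * c * (if m.natAbs ∈ EA then 1 else 0) := fun m _ => by
      simp only [mem_singleton]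
      ring
    rw [sum_congr rfl e, sum_add_distrib, sum_add_distrib, sum_const, nsmul_eq_mul, ← mul_sum, ← mul_sum,
      ← hc]
    have k1 := card_sub (Icc (-(B : ℤ)) B) ({0} : Finset ℤ)
    rw [card_singleton] at k1
    have k2 := (card_natAbs B EA).trans (mul_le_mul_of_nonneg_left hEAc (by norm_num : (0 : ℝ) ≤ 2))
    have hBB : 0 ≤ (B : ℝ) * B * c := by positivity
    have k3 := mul_le_mul_of_nonneg_left k1 hBB
    have k4 := mul_le_mul_of_nonneg_left k2 hBB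
    have h3 := RF_card B
    rw [div_le_iff₀ hη] at hBη
    have hB0 : (0 : ℝ) < B := by linarith
    -- now everything is explicit
    have k5 : c * (B * c * (η₁ * B) + B * (c * (η₁ * B) + B * (4 * η₁ * B))) ≤
        3 * B * (B * (3 * B) * (η₁ * B) + B * ((3 * B) * (η₁ * B) + B * (4 * η₁ * B))) := by gcongr
    have k6 : (B : ℝ) * B * c * (1 : ℕ) ≤ B * B * (3 * B) * 1 := by
      push_cast
      gcongr
    have k7 : (B : ℝ) * B * c * (2 * (η₁ * B)) ≤ B * B * (3 * B) * (2 * (η₁ * B)) := by gcongr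
    calc _ ≤ 3 * B * (B * (3 * B) * (η₁ * B) + B * ((3 * B) * (η₁ * B) + B * (4 * η₁ * B))) +
          B * B * (3 * B) * 1 + B * B * (3 * B) * (2 * (η₁ * B)) := by linarith
      _ = 36 * η₁ * (B : ℝ) ^ 4 + 3 * (B : ℝ) ^ 3 := by ring
      _ ≤ 36 * η₁ * (B : ℝ) ^ 4 + η / 32 * (B : ℝ) ^ 4 := by
          have : 3 * (B : ℝ) ^ 3 ≤ η / 32 * (B : ℝ) ^ 4 := by
            have e3 : η / 32 * (B : ℝ) ^ 4 = (B * η) * ((B : ℝ) ^ 3 / 32) := by ring
            rw [e3]
            calc 3 * (B : ℝ) ^ 3 = 96 * ((B : ℝ) ^ 3 / 32) := by ring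
              _ ≤ _ := mul_le_mul_of_nonneg_right hBη (by positivity)
          linarith
      _ = η / 16 * (B : ℝ) ^ 4 := by rw [hη₁]; ring
      _ ≤ η / 16 * (16 * (RF B).card) := mul_le_mul_of_nonneg_left h3 (by positivity)
      _ = _ := by ring
  · have hnb : ¬ bad q.1.num q.1.den q.2.den q.2.num := fun h => hne (mem_filter.2 ⟨hq, h⟩)
    simp only [bad, not_or] at hnb
    obtain ⟨hb1, hb2, hb3, hb4, hb5⟩ := hnb
    unfold RF at hq
    rw [mem_filter, mem_product, mem_rats, mem_rats] at hq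
    obtain ⟨⟨⟨h1, h2⟩, h3, h4⟩, _⟩ := hq
    have hxX₁ : X₁ ≤ x := ((le_max_left _ _).trans (le_max_right _ _)).trans hx
    have hxX₂ : X₂ ≤ x := ((le_max_left _ _).trans ((le_max_right _ _).trans (le_max_right _ _))).trans hx
    have h5 := hX₂ x hxX₂
    have hxT' : x ≤ rt (B + 1) := le_rt (by omega)
    have w1 : wt q.1.num x ≤ M := by
      rw [wt_natAbs]
      refine hEA _ (mem_Ioc.2 ⟨Int.natAbs_pos.2 hb1, ?_⟩) hb2 x
      rw [abs_le] at h1
      omega
    have w2 : wt (q.1.den : ℤ) x ≤ M := hEA _ (mem_Ioc.2 ⟨q.1.den_pos, h2⟩) hb3 x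
    have w3 : wt (q.2.den : ℤ) x ≤ M := hEA _ (mem_Ioc.2 ⟨q.2.den_pos, h4⟩) hb4 x
    have h6 := HK q.1.num q.1.den q.2.den x (hX₁.trans hxX₁)
    have e1 : ∑ p ∈ (range (x + 1)).filter Nat.Prime, gr q.1.num q.1.den q.2.den p (q.2.num : ZMod p) =
        ∑ p ∈ (range (x + 1)).filter Nat.Prime, lr q.1.num q.1.den q.2.num q.2.den p :=
      sum_congr rfl fun p hp => gr_eq _ _ _ _ (mem_filter.1 hp).2
    have key : |∑ p ∈ (range (x + 1)).filter Nat.Prime, gr q.1.num q.1.den q.2.den p (q.2.num : ZMod p) -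
        ∑ p ∈ (range (x + 1)).filter Nat.Prime, mn (gr q.1.num q.1.den q.2.den) p| ≤
          Real.log (Real.log x) ^ (5 / 6 : ℝ) := by
      simp only [EU, mem_union, mem_image, not_or] at hb5
      rw [abs_le] at h3
      generalize q.2.num = t at hb5 h3
      rcases le_total 0 t with h0 | h0
      · lift t to ℕ using h0
        have ht' : t ∈ range (B + 1) := by
          rw [mem_range]
          have := h3.2
          omega
        have h7 := hE1 q.1.num q.1.den q.2.den t ht' (fun h => hb5.1 ⟨t, h, rfl⟩) x hxX₁ hxT'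
        simpa only [Int.cast_natCast] using h7
      · obtain ⟨n, rfl⟩ : ∃ n : ℕ, t = -(n : ℤ) := ⟨t.natAbs, by omega⟩
        have ht' : n ∈ range (B + 1) := by
          rw [mem_range]
          have := h3.1
          omega
        have h7 := hE2 q.1.num q.1.den q.2.den n ht' (fun h => hb5.2 ⟨n, h, rfl⟩) x hxX₁ hxT'
        have e2 : ∑ p ∈ (range (x + 1)).filter Nat.Prime, mn (fun p z => gr q.1.num q.1.den q.2.den p (-z)) p =
            ∑ p ∈ (range (x + 1)).filter Nat.Prime, mn (gr q.1.num q.1.den q.2.den) p :=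
          sum_congr rfl fun p hp => mn_neg (gr q.1.num q.1.den q.2.den) (mem_filter.1 hp).2
        rw [e2] at h7
        simpa only [Int.cast_neg, Int.cast_natCast] using h7
    rw [e1] at key
    rw [abs_le] at key h6 ⊢
    constructor <;> linarith [key.1, key.2, h6.1, h6.2]

/-- **The mean over the curves.** -/
theorem rat_mean : ∃ K : ℝ, 0 ≤ K ∧ ∀ B x : ℕ, 16 ≤ x → x ^ 10 ≤ B →
    ∑ q ∈ RF B, |∑ p ∈ (range (x + 1)).filter Nat.Prime, lr q.1.num q.1.den q.2.num q.2.den p -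
      1 / 2 * Real.log (Real.log x)| ≤ K * Real.log (Real.log x) ^ (1 / 2 : ℝ) * (RF B).card := by
  classical
  obtain ⟨K₁, hK₁, H⟩ := one_var_mean (C := 20) (by norm_num)
  obtain ⟨K, hK, HK⟩ := sum_gr_mean
  obtain ⟨S, hS, HS⟩ := sum_wt
  obtain ⟨C', hC'0, hC'⟩ := sum_inv_loglog
  refine ⟨64 * (3 * K₁ + 3 * K + 8 * S + (1 + C')), by positivity, fun B x hx hxB => ?_⟩
  set L := Real.log (Real.log x) with hL
  have hL1 : 1 ≤ L := loglog_ge_one hx
  set l := L ^ (1 / 2 : ℝ) with hl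
  have hl1 : 1 ≤ l := Real.one_le_rpow hL1 (by norm_num)
  have hxB' : x ≤ B := (Nat.le_self_pow (by norm_num) x).trans hxB
  have hxBr : (x : ℝ) ≤ B := by exact_mod_cast hxB'
  have hB1 : (1 : ℝ) ≤ B := by exact_mod_cast (by omega : 1 ≤ B)
  have hB0 : (0 : ℝ) ≤ B := by linarith
  have hx1 : (1 : ℝ) < x := by exact_mod_cast (by omega : 1 < x)
  have hlog : 0 < Real.log x := Real.log_pos hx1
  have hLx : L ≤ B := by
    have h1 : Real.log x ≤ x := (Real.log_le_sub_one_of_pos (by linarith)).trans (by linarith)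
    have h2 : L ≤ Real.log x := (Real.log_le_sub_one_of_pos hlog).trans (by linarith)
    linarith
  refine (RF_sum_le B (fun m n v u => |∑ p ∈ (range (x + 1)).filter Nat.Prime, lr m n u v p -
    1 / 2 * L|) fun m n v u => abs_nonneg _).trans ?_
  have s1 : ∀ (m : ℤ) (n v : ℕ), ∑ u ∈ Icc (-(B : ℤ)) B,
      |∑ p ∈ (range (x + 1)).filter Nat.Prime, lr m n u v p - 1 / 2 * L| ≤
        4 * B * (K₁ * l + K + wt m x + wt n x + wt v x) := by
    intro m n v
    refine (sum_sym (fun u => |∑ p ∈ (range (x + 1)).filter Nat.Prime, lr m n u v p - 1 / 2 * L|)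
      (fun u => abs_nonneg _) (B + 1) _ (fun u hu => by rw [mem_Icc] at hu; omega)).trans ?_
    have h1 := H (gr m n v) (fun p hp z => lr_abs m n _ v hp) (B + 1) x hx (by omega)
    have h2 := H (fun p z => gr m n v p (-z)) (fun p hp z => lr_abs m n _ v hp) (B + 1) x hx (by omega)
    have e2 : ∑ p ∈ (range (x + 1)).filter Nat.Prime, mn (fun p z => gr m n v p (-z)) p =
        ∑ p ∈ (range (x + 1)).filter Nat.Prime, mn (gr m n v) p :=
      sum_congr rfl fun p hp => mn_neg (gr m n v) (mem_filter.1 hp).2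
    rw [e2] at h2
    have h6 := HK m n v x (by omega)
    have e1 : ∀ t : ℤ, ∑ p ∈ (range (x + 1)).filter Nat.Prime, gr m n v p (t : ZMod p) =
        ∑ p ∈ (range (x + 1)).filter Nat.Prime, lr m n t v p := fun t =>
      sum_congr rfl fun p hp => gr_eq m n t v (mem_filter.1 hp).2
    have key : ∀ t : ℤ, |∑ p ∈ (range (x + 1)).filter Nat.Prime, lr m n t v p - 1 / 2 * L| ≤
        |∑ p ∈ (range (x + 1)).filter Nat.Prime, gr m n v p (t : ZMod p) -
          ∑ p ∈ (range (x + 1)).filter Nat.Prime, mn (gr m n v) p| + (K + (wt m x + wt n x + wt v x)) := by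
      intro t
      rw [e1 t]
      set U := ∑ p ∈ (range (x + 1)).filter Nat.Prime, lr m n t v p
      set m' := ∑ p ∈ (range (x + 1)).filter Nat.Prime, mn (gr m n v) p
      have e3 : U - 1 / 2 * L = (U - m') + (m' - 1 / 2 * L) := by ring
      rw [e3]
      exact (abs_add_le _ _).trans (add_le_add le_rfl h6)
    have h7 : ∑ t ∈ range (B + 1), (|∑ p ∈ (range (x + 1)).filter Nat.Prime, lr m n (t : ℤ) v p - 1 / 2 * L| +
        |∑ p ∈ (range (x + 1)).filter Nat.Prime, lr m n (-(t : ℤ)) v p - 1 / 2 * L|) ≤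
        ∑ t ∈ range (B + 1), ((|∑ p ∈ (range (x + 1)).filter Nat.Prime, gr m n v p (t : ZMod p) -
          ∑ p ∈ (range (x + 1)).filter Nat.Prime, mn (gr m n v) p| +
        |∑ p ∈ (range (x + 1)).filter Nat.Prime, gr m n v p (-(t : ZMod p)) -
          ∑ p ∈ (range (x + 1)).filter Nat.Prime, mn (gr m n v) p|) +
            2 * (K + (wt m x + wt n x + wt v x))) := by
      refine sum_le_sum fun t _ => ?_
      have k1 := key (t : ℤ)
      have k2 := key (-(t : ℤ))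
      simp only [Int.cast_neg, Int.cast_natCast] at k1 k2
      linarith
    refine h7.trans ?_
    rw [sum_add_distrib, sum_add_distrib, sum_const, card_range, nsmul_eq_mul]
    push_cast at h1 h2 ⊢
    have w1 := wt_nonneg m x
    have w2 := wt_nonneg n x
    have w3 := wt_nonneg v x
    set W := wt m x + wt n x + wt v x with hW
    have hW0 : 0 ≤ W := by positivity
    have h10 : K₁ * ((B : ℝ) + 1) * l ≤ K₁ * (2 * B) * l := by
      have : (B : ℝ) + 1 ≤ 2 * B := by linarith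
      gcongr
    have h9 : ((B : ℝ) + 1) * (2 * (K + W)) ≤ 2 * B * (2 * (K + W)) :=
      mul_le_mul_of_nonneg_right (by linarith) (by positivity)
    calc _ ≤ K₁ * ((B : ℝ) + 1) * l + K₁ * ((B : ℝ) + 1) * l + ((B : ℝ) + 1) * (2 * (K + W)) := by linarith
      _ ≤ K₁ * (2 * B) * l + K₁ * (2 * B) * l + 2 * B * (2 * (K + W)) := by linarith
      _ = _ := by rw [hW]; ring
  have s2 : ∀ (m : ℤ) (n : ℕ), ∑ v ∈ Ioc 0 B, ∑ u ∈ Icc (-(B : ℤ)) B,
      |∑ p ∈ (range (x + 1)).filter Nat.Prime, lr m n u v p - 1 / 2 * L| ≤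
        4 * (B : ℝ) ^ 2 * (K₁ * l + K + wt m x + wt n x + S) := by
    intro m n
    refine (sum_le_sum fun v _ => s1 m n v).trans ?_
    have e : ∀ v ∈ Ioc 0 B, 4 * (B : ℝ) * (K₁ * l + K + wt m x + wt n x + wt v x) =
        4 * B * (K₁ * l + K + wt m x + wt n x) + 4 * B * wt (v : ℤ) x := fun v _ => by ring
    rw [sum_congr rfl e, sum_add_distrib, sum_const, nsmul_eq_mul, Nat.card_Ioc, Nat.sub_zero, ← mul_sum]
    have h5 := mul_le_mul_of_nonneg_left (HS B x) (show (0 : ℝ) ≤ 4 * B by positivity)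
    calc _ ≤ (B : ℝ) * (4 * B * (K₁ * l + K + wt m x + wt n x)) + 4 * B * (S * B) := by linarith
      _ = _ := by ring
  have s3 : ∀ m : ℤ, ∑ n ∈ Ioc 0 B, ∑ v ∈ Ioc 0 B, ∑ u ∈ Icc (-(B : ℤ)) B,
      |∑ p ∈ (range (x + 1)).filter Nat.Prime, lr m n u v p - 1 / 2 * L| ≤
        4 * (B : ℝ) ^ 3 * (K₁ * l + K + wt m x + 2 * S) := by
    intro m
    refine (sum_le_sum fun n _ => s2 m n).trans ?_
    have e : ∀ n ∈ Ioc 0 B, 4 * (B : ℝ) ^ 2 * (K₁ * l + K + wt m x + wt n x + S) =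
        4 * (B : ℝ) ^ 2 * (K₁ * l + K + wt m x + S) + 4 * (B : ℝ) ^ 2 * wt (n : ℤ) x := fun n _ => by ring
    rw [sum_congr rfl e, sum_add_distrib, sum_const, nsmul_eq_mul, Nat.card_Ioc, Nat.sub_zero, ← mul_sum]
    have h5 := mul_le_mul_of_nonneg_left (HS B x) (show (0 : ℝ) ≤ 4 * (B : ℝ) ^ 2 by positivity)
    calc _ ≤ (B : ℝ) * (4 * (B : ℝ) ^ 2 * (K₁ * l + K + wt m x + S)) + 4 * (B : ℝ) ^ 2 * (S * B) := by linarith
      _ = _ := by ring
  refine (sum_le_sum fun m _ => s3 m).trans ?_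
  have hA : ∑ A ∈ Icc (-(B : ℤ)) B, wt A x ≤ (1 + C') * L + 2 * (S * B) := by
    have h1 : (Icc (-(B : ℤ)) B) ⊆ {0} ∪ ((Ioc 0 B).image (fun n : ℕ => (n : ℤ)) ∪
        (Ioc 0 B).image (fun n : ℕ => -(n : ℤ))) := by
      intro A hA
      rw [mem_Icc] at hA
      by_cases h0 : A = 0
      · exact mem_union_left _ (mem_singleton.2 h0)
      refine mem_union_right _ ?_
      have h2 : A.natAbs ∈ Ioc 0 B := by
        rw [mem_Ioc]
        omega
      rw [mem_union, mem_image, mem_image]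
      rcases Int.natAbs_eq A with e | e
      · left; exact ⟨A.natAbs, h2, e.symm⟩
      · right; exact ⟨A.natAbs, h2, e.symm⟩
    refine (sum_le_sum_of_subset_of_nonneg h1 fun A _ _ => wt_nonneg A x).trans ?_
    have h2 : ∀ s t : Finset ℤ, ∑ A ∈ s ∪ t, wt A x ≤ ∑ A ∈ s, wt A x + ∑ A ∈ t, wt A x := by
      intro s t
      rw [← sum_union_inter]
      have := sum_nonneg (s := s ∩ t) fun A _ => wt_nonneg A x
      linarith
    refine (h2 _ _).trans ?_
    have h3 := h2 ((Ioc 0 B).image (fun n : ℕ => (n : ℤ))) ((Ioc 0 B).image (fun n : ℕ => -(n : ℤ)))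
    rw [sum_image fun a _ b _ h => by exact_mod_cast h,
      sum_image fun a _ b _ h => by simpa using h] at h3
    have h4 : ∀ n : ℕ, wt (-(n : ℤ)) x = wt (n : ℤ) x := by
      intro n
      rw [wt_natAbs, Int.natAbs_neg, Int.natAbs_natCast]
    simp only [h4] at h3
    have h5 := HS B x
    have h6 : ∑ A ∈ ({0} : Finset ℤ), wt A x ≤ (1 + C') * L := by
      rw [sum_singleton]
      unfold wt
      have := (abs_le.1 (hC' x (by omega))).2
      simp only [dvd_zero, if_true]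
      nlinarith
    linarith
  have hcard : ((Icc (-(B : ℤ)) B).card : ℝ) ≤ 3 * B := by
    rw [Int.card_Icc]
    have hBn : 1 ≤ B := by omega
    have : ((B : ℤ) + 1 - -(B : ℤ)).toNat ≤ 3 * B := by omega
    calc ((((B : ℤ) + 1 - -(B : ℤ)).toNat : ℕ) : ℝ) ≤ ((3 * B : ℕ) : ℝ) := by exact_mod_cast this
      _ = 3 * B := by push_cast; ring
  have e : ∀ m ∈ Icc (-(B : ℤ)) B, 4 * (B : ℝ) ^ 3 * (K₁ * l + K + wt m x + 2 * S) =
      4 * (B : ℝ) ^ 3 * (K₁ * l + K + 2 * S) + 4 * (B : ℝ) ^ 3 * wt m x := fun m _ => by ring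
  rw [sum_congr rfl e, sum_add_distrib, sum_const, nsmul_eq_mul, ← mul_sum]
  have k1 := mul_le_mul_of_nonneg_right hcard (show 0 ≤ 4 * (B : ℝ) ^ 3 * (K₁ * l + K + 2 * S) by positivity)
  have k2 := mul_le_mul_of_nonneg_left hA (show 0 ≤ 4 * (B : ℝ) ^ 3 by positivity)
  have k3 : (1 + C') * L ≤ (1 + C') * (B * l) := by
    refine mul_le_mul_of_nonneg_left ?_ (by positivity)
    nlinarith
  have k4 : K ≤ K * l := le_mul_of_one_le_right hK hl1
  have k5 : S ≤ S * l := le_mul_of_one_le_right hS.le hl1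
  have h3 := RF_card B
  have k6 : 3 * (B : ℝ) * (4 * (B : ℝ) ^ 3 * (K₁ * l + K + 2 * S)) +
      4 * (B : ℝ) ^ 3 * ((1 + C') * L + 2 * (S * B)) ≤
      4 * (B : ℝ) ^ 4 * ((3 * K₁ + 3 * K + 8 * S + (1 + C')) * l) := by
    have a1 : 3 * (B : ℝ) * (4 * (B : ℝ) ^ 3 * (K₁ * l + K + 2 * S)) ≤
        3 * (B : ℝ) * (4 * (B : ℝ) ^ 3 * (K₁ * l + K * l + 2 * (S * l))) := by gcongr
    have a2 : 4 * (B : ℝ) ^ 3 * ((1 + C') * L + 2 * (S * B)) ≤
        4 * (B : ℝ) ^ 3 * ((1 + C') * (B * l) + 2 * (S * l * B)) := by gcongr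
    calc _ ≤ 3 * (B : ℝ) * (4 * (B : ℝ) ^ 3 * (K₁ * l + K * l + 2 * (S * l))) +
        4 * (B : ℝ) ^ 3 * ((1 + C') * (B * l) + 2 * (S * l * B)) := add_le_add a1 a2
      _ = _ := by ring
  calc _ ≤ 4 * (B : ℝ) ^ 4 * ((3 * K₁ + 3 * K + 8 * S + (1 + C')) * l) := by linarith
    _ ≤ 4 * (16 * (RF B).card) * ((3 * K₁ + 3 * K + 8 * S + (1 + C')) * l) := by gcongr
    _ = _ := by ring

end Pool.Agent.Q28.BP
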