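import Pool.Agent.Q28.BP.TwoD
import Pool.Agent.TH941.Newform

/-!
# The theorem of Rankin and Selberg, summed
-/

set_option autoImplicit false

open Finset Filter Topology

namespace Pool.Agent.Q28.BP

lemma hf_eq (c : ℕ → ℝ) {n : ℕ} (hn : 1 ≤ n) : Pool.Agent.TH941.hf c (Real.log n) =
    ∑ p ∈ range (n + 1), c p - ∑ p ∈ range (Nat.sqrt n + 1), c p := by
  have hn0 : (0 : ℝ) < n := by exact_mod_cast hn
  have h1 : Real.exp (Real.log n / 2) = Real.sqrt n := by
    rw [Real.sqrt_eq_rpow, Real.rpow_def_of_pos hn0]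
    congr 1
    ring
  unfold Pool.Agent.TH941.hf Pool.Agent.W263.BSD.stp
  rw [Real.exp_log hn0, h1, Nat.floor_natCast, Real.nat_floor_real_sqrt_eq_nat_sqrt]

/-- a sequence whose sums over `√x < p ≤ x` tend to zero -/
lemma half_small {c : ℕ → ℝ} (h : Tendsto (Pool.Agent.TH941.hf c) atTop (𝓝 0)) {ε : ℝ} (hε : 0 < ε) :
    ∀ᶠ n : ℕ in atTop, |∑ p ∈ range (n + 1), c p| ≤ ε * Real.log (Real.log n) := by
  have h1 : ∀ᶠ n : ℕ in atTop, |Pool.Agent.TH941.hf c (Real.log n)| < ε / 6 := by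
    have := ((h.comp Real.tendsto_log_atTop).comp (tendsto_natCast_atTop_atTop (R := ℝ))).abs
    rw [abs_zero] at this
    exact this.eventually (gt_mem_nhds (by positivity))
  obtain ⟨n₀, hn₀⟩ := eventually_atTop.1 h1
  set m₀ := max n₀ 4 with hm₀
  set M : ℝ := ∑ p ∈ range (m₀ + 1), |c p| with hM
  have hM0 : 0 ≤ M := sum_nonneg fun _ _ => abs_nonneg _
  have key : ∀ n : ℕ, |∑ p ∈ range (n + 1), c p| ≤ M + ε / 6 * (ll n + 1) := by
    intro n
    induction n using Nat.strong_induction_on with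
    | _ n ih =>
    rcases Nat.lt_or_ge n m₀ with hn | hn
    · have h2 : |∑ p ∈ range (n + 1), c p| ≤ M := by
        refine (abs_sum_le_sum_abs _ _).trans ?_
        exact sum_le_sum_of_subset_of_nonneg (range_mono (by omega)) fun _ _ _ => abs_nonneg _
      have : 0 ≤ ε / 6 * ((ll n : ℝ) + 1) := by positivity
      linarith
    · have hn4 : 4 ≤ n := (le_max_right _ _).trans hn
      have h2 := ih (Nat.sqrt n) (Nat.sqrt_lt_self (by omega))
      have h3 := hn₀ n ((le_max_left _ _).trans hn)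
      rw [hf_eq c (by omega)] at h3
      have e : ∑ p ∈ range (n + 1), c p = ∑ p ∈ range (Nat.sqrt n + 1), c p +
          (∑ p ∈ range (n + 1), c p - ∑ p ∈ range (Nat.sqrt n + 1), c p) := by ring
      rw [e]
      refine (abs_add_le _ _).trans ?_
      have h4 : (ll (Nat.sqrt n) : ℝ) + 1 ≤ ll n := by exact_mod_cast ll_sqrt hn4
      nlinarith
  filter_upwards [tendsto_loglog.eventually_ge_atTop (max 1 ((M + ε / 6) / (ε / 2))),
    eventually_ge_atTop 3] with n hn hn3
  have hL1 : 1 ≤ Real.log (Real.log n) := (le_max_left _ _).trans hn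
  have hL2 : (M + ε / 6) / (ε / 2) ≤ Real.log (Real.log n) := (le_max_right _ _).trans hn
  rw [div_le_iff₀ (by positivity)] at hL2
  have h2 := key n
  have h3 := ll_le hn3 hL1
  nlinarith

/-- changing finitely many terms -/
lemma half_small' {c d : ℕ → ℝ} (h : Tendsto (Pool.Agent.TH941.hf c) atTop (𝓝 0)) {S : Finset ℕ}
    (hcd : ∀ p, p ∉ S → d p = c p) {ε : ℝ} (hε : 0 < ε) :
    ∀ᶠ n : ℕ in atTop, |∑ p ∈ range (n + 1), d p| ≤ ε * Real.log (Real.log n) := by
  set M : ℝ := ∑ p ∈ S, |d p - c p| with hM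
  have hM0 : 0 ≤ M := sum_nonneg fun _ _ => abs_nonneg _
  filter_upwards [half_small h (show 0 < ε / 2 by positivity),
    tendsto_loglog.eventually_ge_atTop (M / (ε / 2))] with n h1 h2
  rw [div_le_iff₀ (by positivity)] at h2
  have e : ∑ p ∈ range (n + 1), d p = ∑ p ∈ range (n + 1), c p + ∑ p ∈ range (n + 1), (d p - c p) := by
    rw [← sum_add_distrib]
    exact sum_congr rfl fun p _ => by ring
  have h3 : |∑ p ∈ range (n + 1), (d p - c p)| ≤ M := by
    refine (abs_sum_le_sum_abs _ _).trans ?_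
    have h4 : ∑ p ∈ range (n + 1), |d p - c p| = ∑ p ∈ (range (n + 1)).filter (fun p => p ∈ S), |d p - c p| := by
      rw [sum_filter]
      refine sum_congr rfl fun p _ => ?_
      split_ifs with hp
      · rfl
      · rw [hcd p hp, sub_self, abs_zero]
    rw [h4]
    refine sum_le_sum_of_subset_of_nonneg (fun p hp => (mem_filter.1 hp).2) fun _ _ _ => abs_nonneg _
  rw [e]
  refine (abs_add_le _ _).trans ?_
  linarith

end Pool.Agent.Q28.BP
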