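import Pool.Agent.Q28.BP.Loc
import Pool.Agent.Q28.BP.Cheb

/-!
# Artin twists of almost all elliptic curves
-/

set_option autoImplicit false

open Finset Filter Topology NumberField

namespace Pool.Agent.Q28.BP

open Pool.Agent.W263.BSD (pointCount GoodPrime)

section

variable {n : ℕ} (S : Finset ℕ) (M : ℕ → Matrix (Fin n) (Fin n) ℂ)

open scoped Classical in
/-- the logarithm of the local factor -/
noncomputable def twf (A B : ℤ) (p : ℕ) : ℝ :=
  if GoodPrime A B p ∧ p ∉ S then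
    Real.log ‖(1 - ((((p : ℝ) - pointCount A B p) / p : ℝ) : ℂ) • M p + ((1 / (p : ℝ) : ℝ) : ℂ) • M p ^ 2).det‖
  else 0

/-- the second trace -/
noncomputable def tau (p : ℕ) : ℝ := if p ∈ S then 0 else (M p ^ 2).trace.re

lemma twf_congr {A B A' B' : ℤ} {p : ℕ} (ha : (A : ZMod p) = A') (hb : (B : ZMod p) = B') :
    twf S M A B p = twf S M A' B' p := by
  classical
  unfold twf
  rw [count_congr ha hb]
  simp only [good_congr ha hb]

/-- as a function on the residue classes -/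
noncomputable def FE (A : ℤ) (p : ℕ) (z : ZMod p) : ℝ := twf S M A ((z.val : ℕ) : ℤ) p

lemma FE_eq (A B : ℤ) {p : ℕ} (hp : p.Prime) : FE S M A p (B : ZMod p) = twf S M A B p := by
  have : NeZero p := ⟨hp.ne_zero⟩
  refine twf_congr S M rfl ?_
  push_cast
  rw [ZMod.natCast_zmod_val]

variable {m : ℕ} (hm : m ≠ 0) (hM : ∀ p, M p ^ m = 1) (hS : ∀ p < 25, p ∈ S)

include hm hM hS in
lemma twf_main {A B : ℤ} {p : ℕ} (hg : GoodPrime A B p) (hpS : p ∉ S) :
    |twf S M A B p - (-((M p).trace.re * (((p : ℝ) - pointCount A B p) / p)) -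
      (M p ^ 2).trace.re * (((p : ℝ) - pointCount A B p) ^ 2 / (p : ℝ) ^ 2 - 2 / p) / 2)| ≤
        2 * n / (p * Real.sqrt p) := by
  classical
  have h25 : 25 ≤ p := by
    by_contra h
    exact hpS (hS p (by omega))
  have hH := Pool.Agent.W263.BSD.hasse hg (by omega)
  unfold twf
  rw [if_pos ⟨hg, hpS⟩]
  exact (local_factor (M p) hm (hM p) (by exact_mod_cast h25) hH).2

include hm hM hS in
lemma twf_abs (A B : ℤ) {p : ℕ} (hp : p.Prime) : |twf S M A B p| ≤ (7 * n + 1) / Real.sqrt p := by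
  classical
  have hp0 : (0 : ℝ) < p := by exact_mod_cast hp.pos
  have hp1 : (1 : ℝ) ≤ p := by exact_mod_cast hp.one_lt.le
  have hs : 0 < Real.sqrt p := Real.sqrt_pos.2 hp0
  have hs1 : 1 ≤ Real.sqrt p := by rwa [Real.one_le_sqrt]
  have hss : Real.sqrt p * Real.sqrt p = p := Real.mul_self_sqrt hp0.le
  by_cases h : GoodPrime A B p ∧ p ∉ S
  swap
  · unfold twf
    rw [if_neg h, abs_zero]
    positivity
  have h25 : 25 ≤ p := by
    by_contra h'
    exact h.2 (hS p (by omega))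
  have hH := Pool.Agent.W263.BSD.hasse h.1 (by omega)
  have h1 := twf_main S M hm hM hS h.1 h.2
  have h2 := trace_bound (M p) hm (hM p) 1
  have h3 := trace_bound (M p) hm (hM p) 2
  rw [pow_one] at h2
  set a : ℝ := (p : ℝ) - pointCount A B p with ha
  have hn : (0 : ℝ) ≤ n := Nat.cast_nonneg n
  have k1 : |a / p| ≤ 2 / Real.sqrt p := by
    rw [abs_div, abs_of_pos hp0, div_le_div_iff₀ hp0 hs]
    calc |a| * Real.sqrt p ≤ 2 * Real.sqrt p * Real.sqrt p := mul_le_mul_of_nonneg_right hH hs.le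
      _ = 2 * p := by rw [mul_assoc, hss]
  have k2 : |a ^ 2 / (p : ℝ) ^ 2 - 2 / p| ≤ 6 / Real.sqrt p := by
    have h4 : a ^ 2 ≤ 4 * p := by
      rw [← sq_abs]
      calc |a| ^ 2 ≤ (2 * Real.sqrt p) ^ 2 := pow_le_pow_left₀ (abs_nonneg _) hH 2
        _ = 4 * p := by rw [mul_pow, Real.sq_sqrt hp0.le]; norm_num
    have h5 : a ^ 2 / (p : ℝ) ^ 2 ≤ 4 / p := by
      rw [div_le_div_iff₀ (by positivity) hp0]
      nlinarith
    have h6 : 0 ≤ a ^ 2 / (p : ℝ) ^ 2 := by positivity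
    have h7 : (1 : ℝ) / p ≤ 1 / Real.sqrt p := by
      refine one_div_le_one_div_of_le hs ?_
      nlinarith
    have h8 : (0 : ℝ) ≤ 1 / p := by positivity
    have e1 : (4 : ℝ) / p = 4 * (1 / p) := by ring
    have e2 : (2 : ℝ) / p = 2 * (1 / p) := by ring
    have e3 : (6 : ℝ) / Real.sqrt p = 6 * (1 / Real.sqrt p) := by ring
    rw [e1] at h5
    rw [e2, e3, abs_le]
    constructor <;> linarith
  have k3 : |(M p).trace.re * (a / p)| ≤ n * (2 / Real.sqrt p) := by
    rw [abs_mul]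
    exact mul_le_mul h2 k1 (abs_nonneg _) hn
  have k4 : |(M p ^ 2).trace.re * (a ^ 2 / (p : ℝ) ^ 2 - 2 / p)| ≤ n * (6 / Real.sqrt p) := by
    rw [abs_mul]
    exact mul_le_mul h3 k2 (abs_nonneg _) hn
  have k5 : 2 * (n : ℝ) / (p * Real.sqrt p) ≤ 2 * n / Real.sqrt p := by
    refine div_le_div_of_nonneg_left (by positivity) hs ?_
    nlinarith
  have e : (7 * (n : ℝ) + 1) / Real.sqrt p = n * (2 / Real.sqrt p) + n * (6 / Real.sqrt p) / 2 +
      2 * n / Real.sqrt p + 1 / Real.sqrt p := by ring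
  have k6 : 0 ≤ 1 / Real.sqrt p := by positivity
  rw [e]
  rw [abs_le] at h1 k3 k4 ⊢
  constructor <;> linarith [h1.1, h1.2, k3.1, k3.2, k4.1, k4.2]

include hm hM hS in
lemma FE_mean (A : ℤ) {p : ℕ} (hp : p.Prime) :
    |mn (FE S M A) p - tau S M p / (2 * p)| ≤ 10 * n / (p * Real.sqrt p) +
      n * (if (p : ℤ) ∣ A then 1 / (p : ℝ) else 0) := by
  classical
  have : Fact p.Prime := ⟨hp⟩
  have : NeZero p := ⟨hp.ne_zero⟩
  have hp0 : (0 : ℝ) < p := by exact_mod_cast hp.pos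
  have hp1 : (1 : ℝ) ≤ p := by exact_mod_cast hp.one_lt.le
  have hs : 0 < Real.sqrt p := Real.sqrt_pos.2 hp0
  have hs1 : 1 ≤ Real.sqrt p := by rwa [Real.one_le_sqrt]
  have hss : Real.sqrt p * Real.sqrt p = p := Real.mul_self_sqrt hp0.le
  have hn : (0 : ℝ) ≤ n := Nat.cast_nonneg n
  have hite : (0 : ℝ) ≤ (if (p : ℤ) ∣ A then 1 / (p : ℝ) else 0) := by split_ifs <;> positivity
  by_cases hpS : p ∈ S
  · have h1 : mn (FE S M A) p = 0 := by
      unfold mn
      have : ∀ j ∈ range p, FE S M A p (j : ZMod p) = 0 := by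
        intro j _
        unfold FE twf
        rw [if_neg fun h => h.2 hpS]
      rw [sum_congr rfl this, sum_const_zero, zero_div]
    have h2 : tau S M p = 0 := by unfold tau; rw [if_pos hpS]
    rw [h1, h2, zero_div, sub_zero, abs_zero]
    positivity
  have h25 : 25 ≤ p := by
    by_contra h
    exact hpS (hS p (by omega))
  have hp2 : p ≠ 2 := by omega
  have hp3 : p ≠ 3 := by omega
  set τ₁ := (M p).trace.re with hτ₁
  set τ₂ := (M p ^ 2).trace.re with hτ₂
  have hb1 : |τ₁| ≤ n := by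
    have := trace_bound (M p) hm (hM p) 1
    rwa [pow_one] at this
  have hb2 : |τ₂| ≤ n := trace_bound (M p) hm (hM p) 2
  have htau : tau S M p = τ₂ := by unfold tau; rw [if_neg hpS]
  rw [htau]
  set G : ZMod p → ℝ := fun z => τ₁ * (cs (A : ZMod p) z / p) -
    τ₂ * (cs (A : ZMod p) z ^ 2 / (p : ℝ) ^ 2 - 2 / p) / 2 with hG
  have hval : ∀ z : ZMod p, ((((z.val : ℕ) : ℤ)) : ZMod p) = z := by
    intro z
    push_cast
    rw [ZMod.natCast_zmod_val]
  have hgood : ∀ z : ZMod p, 4 * (A : ZMod p) ^ 3 + 27 * z ^ 2 ≠ 0 →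
      |FE S M A p z - G z| ≤ 2 * n / (p * Real.sqrt p) := by
    intro z hz
    have hg : GoodPrime A ((z.val : ℕ) : ℤ) p := by
      rw [good_iff hp2, hval]
      exact hz
    have h1 := twf_main S M hm hM hS hg hpS
    rw [count_eq hp2, hval] at h1
    refine le_trans (le_of_eq ?_) h1
    congr 1
    simp only [hG, FE]
    ring
  have hbad : ∀ z : ZMod p, 4 * (A : ZMod p) ^ 3 + 27 * z ^ 2 = 0 → FE S M A p z = 0 := by
    intro z hz
    unfold FE twf
    rw [if_neg]
    rintro ⟨hg, _⟩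
    rw [good_iff hp2, hval] at hg
    exact hg hz
  have hGbad : ∀ z : ZMod p, 4 * (A : ZMod p) ^ 3 + 27 * z ^ 2 = 0 → |G z| ≤ 3 * n / p := by
    intro z hz
    have h1 := cs_singular hp2 hp3 hz
    have h2 : cs (A : ZMod p) z ^ 2 ≤ 1 := by rw [← sq_abs]; nlinarith [abs_nonneg (cs (A : ZMod p) z)]
    have k1 : |τ₁ * (cs (A : ZMod p) z / p)| ≤ (n : ℝ) * (1 / (p : ℝ)) := by
      rw [abs_mul, abs_div, abs_of_pos hp0]
      exact mul_le_mul hb1 (div_le_div_of_nonneg_right h1 hp0.le) (by positivity) hn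
    have k2 : |τ₂ * (cs (A : ZMod p) z ^ 2 / (p : ℝ) ^ 2 - 2 / p)| ≤ (n : ℝ) * (2 / (p : ℝ)) := by
      rw [abs_mul]
      refine mul_le_mul hb2 ?_ (abs_nonneg _) hn
      have h3 : cs (A : ZMod p) z ^ 2 / (p : ℝ) ^ 2 ≤ 1 / p := by
        rw [div_le_div_iff₀ (by positivity) hp0]
        nlinarith [sq_nonneg (cs (A : ZMod p) z)]
      have h4 : 0 ≤ cs (A : ZMod p) z ^ 2 / (p : ℝ) ^ 2 := by positivity
      have h5 : (2 : ℝ) / p = 2 * (1 / p) := by ring
      have h6 : (0 : ℝ) ≤ 1 / p := by positivity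
      rw [h5, abs_le]
      constructor <;> linarith
    have e : 3 * (n : ℝ) / p = n * (1 / p) + n * (2 / p) := by ring
    have k3 : 0 ≤ n * (2 / (p : ℝ)) := by positivity
    rw [e]
    change |τ₁ * (cs (A : ZMod p) z / p) - τ₂ * (cs (A : ZMod p) z ^ 2 / (p : ℝ) ^ 2 - 2 / p) / 2| ≤ _
    rw [abs_le] at k1 k2 ⊢
    constructor <;> linarith [k1.1, k1.2, k2.1, k2.2]
  have hsumG : ∑ z : ZMod p, G z = τ₂ * (3 - PA (A : ZMod p) / p) / 2 := by
    have h1 := cs_sum hp2 (A : ZMod p)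
    have h2 := cs_sq hp2 (A : ZMod p)
    have e1 : ∑ z : ZMod p, G z = τ₁ / p * ∑ z : ZMod p, cs (A : ZMod p) z -
        τ₂ / (2 * (p : ℝ) ^ 2) * ∑ z : ZMod p, cs (A : ZMod p) z ^ 2 + ∑ _z : ZMod p, τ₂ / p := by
      rw [mul_sum, mul_sum, ← sum_sub_distrib, ← sum_add_distrib]
      refine sum_congr rfl fun z _ => ?_
      simp only [hG]
      field_simp
      ring
    rw [e1, h1, h2, sum_const, card_univ, ZMod.card, nsmul_eq_mul]
    field_simp
    ring
  have hdiff : |∑ z : ZMod p, FE S M A p z - ∑ z : ZMod p, G z| ≤ 2 * n / Real.sqrt p + 6 * n / p := by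
    rw [← sum_sub_distrib]
    have h1 : ∀ z ∈ (univ : Finset (ZMod p)), |FE S M A p z - G z| ≤ 2 * n / (p * Real.sqrt p) +
        (if 4 * (A : ZMod p) ^ 3 + 27 * z ^ 2 = 0 then 3 * (n : ℝ) / p else 0) := by
      intro z _
      have h0 : (0 : ℝ) ≤ 2 * n / (p * Real.sqrt p) := by positivity
      split_ifs with hz
      · rw [hbad z hz, zero_sub, abs_neg]
        linarith [hGbad z hz]
      · linarith [hgood z hz]
    refine (abs_sum_le_sum_abs _ _).trans ((sum_le_sum h1).trans ?_)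
    rw [sum_add_distrib, ← sum_filter, sum_const, sum_const, card_univ, ZMod.card, nsmul_eq_mul,
      nsmul_eq_mul]
    refine add_le_add (le_of_eq ?_) ?_
    · field_simp
    · have h2 := card_bad hp2 hp3 (A : ZMod p)
      calc _ ≤ 2 * (3 * (n : ℝ) / p) := mul_le_mul_of_nonneg_right h2 (by positivity)
        _ = _ := by ring
  have hPA : |∑ z : ZMod p, G z - τ₂ / 2| ≤ 2 * n / p + n * (if (p : ℤ) ∣ A then 1 else 0) := by
    rw [hsumG]
    have e1 : τ₂ * (3 - PA (A : ZMod p) / p) / 2 - τ₂ / 2 = τ₂ * ((2 - PA (A : ZMod p) / p) / 2) := by ring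
    rw [e1, abs_mul]
    by_cases hA : (p : ℤ) ∣ A
    · rw [if_pos hA]
      have hA0 : (A : ZMod p) = 0 := (ZMod.intCast_zmod_eq_zero_iff_dvd A p).2 hA
      rw [hA0]
      have h3 : PA (0 : ZMod p) ≤ 3 * p := PA_zero
      have h4 : (0 : ℝ) ≤ PA (0 : ZMod p) := by unfold PA; positivity
      have h5 : PA (0 : ZMod p) / p ≤ 3 := by
        rw [div_le_iff₀ hp0]
        linarith
      have h6 : 0 ≤ PA (0 : ZMod p) / p := by positivity
      have h7 : |(2 - PA (0 : ZMod p) / p) / 2| ≤ 1 := by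
        rw [abs_le]
        constructor <;> linarith
      have h8 : (0 : ℝ) ≤ 2 * n / p := by positivity
      have h9 := mul_le_mul hb2 h7 (abs_nonneg _) hn
      linarith
    · rw [if_neg hA, mul_zero, add_zero]
      have hA0 : (A : ZMod p) ≠ 0 := fun h => hA ((ZMod.intCast_zmod_eq_zero_iff_dvd A p).1 h)
      have h3 := PA_bound hp2 hp3 hA0
      have e3 : (2 - PA (A : ZMod p) / p) / 2 = -((PA (A : ZMod p) - 2 * p) / (2 * p)) := by
        field_simp
        ring
      have h4 : |(2 - PA (A : ZMod p) / p) / 2| ≤ 2 / p := by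
        rw [e3, abs_neg, abs_div, abs_of_pos (by positivity : (0 : ℝ) < 2 * p),
          div_le_div_iff₀ (by positivity) hp0]
        nlinarith
      refine (mul_le_mul hb2 h4 (abs_nonneg _) hn).trans (le_of_eq ?_)
      ring
  have hmn : mn (FE S M A) p = (∑ z : ZMod p, FE S M A p z) / p := by
    unfold mn
    rw [sum_range_zmod (fun z => FE S M A p z)]
  rw [hmn]
  have e4 : (∑ z : ZMod p, FE S M A p z) / p - τ₂ / (2 * p) =
      ((∑ z : ZMod p, FE S M A p z - ∑ z : ZMod p, G z) + (∑ z : ZMod p, G z - τ₂ / 2)) / p := by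
    field_simp
    ring
  rw [e4, abs_div, abs_of_pos hp0, div_le_iff₀ hp0]
  refine (abs_add_le _ _).trans ((add_le_add hdiff hPA).trans ?_)
  have k1 : (n : ℝ) / p ≤ n / Real.sqrt p := by
    refine div_le_div_of_nonneg_left hn hs ?_
    nlinarith
  have e5 : (10 * (n : ℝ) / (p * Real.sqrt p) + n * (if (p : ℤ) ∣ A then 1 / (p : ℝ) else 0)) * p =
      10 * (n / Real.sqrt p) + n * (if (p : ℤ) ∣ A then 1 else 0) := by
    split_ifs
    · field_simp
    · field_simp
      ring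
  rw [e5]
  have e6 : 2 * (n : ℝ) / Real.sqrt p + 6 * n / p + (2 * n / p + n * (if (p : ℤ) ∣ A then 1 else 0)) =
      2 * (n / Real.sqrt p) + 8 * (n / p) + n * (if (p : ℤ) ∣ A then 1 else 0) := by ring
  rw [e6]
  linarith

include hm hM hS in
lemma sum_FE_mean : ∃ K : ℝ, 0 ≤ K ∧ ∀ (A : ℤ) (x : ℕ),
    |∑ p ∈ (range (x + 1)).filter Nat.Prime, mn (FE S M A) p -
      1 / 2 * ∑ p ∈ (range (x + 1)).filter Nat.Prime, tau S M p / p| ≤ K * (1 + wt A x) := by
  set Z : ℝ := 10 * n * ∑' k : ℕ, (k : ℝ) ^ (-(3 / 2) : ℝ) with hZ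
  have hn : (0 : ℝ) ≤ n := Nat.cast_nonneg n
  have hZ0 : 0 ≤ Z := mul_nonneg (by positivity) (tsum_nonneg fun k => by positivity)
  refine ⟨Z + n, by positivity, fun A x => ?_⟩
  have h2 : |∑ p ∈ (range (x + 1)).filter Nat.Prime, (mn (FE S M A) p - tau S M p / (2 * p))| ≤
      Z + n * wt A x := by
    refine (abs_sum_le_sum_abs _ _).trans ?_
    refine (sum_le_sum fun p hp => FE_mean S M hm hM hS A (mem_filter.1 hp).2).trans ?_
    rw [sum_add_distrib]
    refine add_le_add ?_ ?_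
    · have h4 := sum32 (10 * n) (by positivity) (fun p => 10 * n / (p * Real.sqrt p)) (fun p hp => by
        have hp0 : (0 : ℝ) < p := by exact_mod_cast hp.pos
        have hs : 0 < Real.sqrt p := Real.sqrt_pos.2 hp0
        rw [abs_of_nonneg (by positivity), rpow32 hp.pos, mul_one_div]) x
      exact (le_abs_self _).trans h4
    · unfold wt
      rw [mul_sum]
  have e1 : ∑ p ∈ (range (x + 1)).filter Nat.Prime, (mn (FE S M A) p - tau S M p / (2 * p)) =
      ∑ p ∈ (range (x + 1)).filter Nat.Prime, mn (FE S M A) p -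
      1 / 2 * ∑ p ∈ (range (x + 1)).filter Nat.Prime, tau S M p / p := by
    rw [sum_sub_distrib, mul_sum]
    congr 1
    exact sum_congr rfl fun p _ => by ring
  rw [e1] at h2
  have hw := wt_nonneg A x
  refine h2.trans ?_
  nlinarith [mul_nonneg hZ0 hw]

end

end Pool.Agent.Q28.BP
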