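import Pool.Agent.Q28.BP.ArtinQ
import Pool.Agent.Q28.BP.PolyM

/-!
# Quadratic twists in degree two
-/

set_option autoImplicit false

open Finset Filter Topology

namespace Pool.Agent.Q28.BP

lemma exists_two {a : ℝ} (ha : |a| ≤ 2) : ∃ M : Matrix (Fin 2) (Fin 2) ℂ, EigLe M ∧
    (∀ z : ℂ, (1 - z • M).det = 1 - a * z + z ^ 2) ∧ (M ^ 2).trace.re = a ^ 2 - 2 := by
  obtain ⟨u, v, h1, h2, h3, h4⟩ := exists_uv (a := a) (p := 1) one_pos (by simpa using ha)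
  rw [div_one] at h1 h2
  rw [Complex.ofReal_one] at h2
  rw [Real.sqrt_one, div_one] at h3 h4
  obtain ⟨g1, g2⟩ := eigLe_diagonal ![u, v] (by
    intro j
    fin_cases j
    · exact h3.le
    · exact h4.le)
  refine ⟨Matrix.diagonal ![u, v], g1, fun z => ?_, ?_⟩
  · rw [g2, Fin.prod_univ_two]
    simp only [Matrix.cons_val_zero, Matrix.cons_val_one]
    rw [← h1]
    linear_combination z ^ 2 * h2
  · rw [Matrix.diagonal_pow, Matrix.trace_diagonal, Fin.sum_univ_two]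
    simp only [Pi.pow_apply, Matrix.cons_val_zero, Matrix.cons_val_one]
    have e : u ^ 2 + v ^ 2 = ((a ^ 2 - 2 : ℝ) : ℂ) := by
      push_cast
      rw [← h1]
      linear_combination (-2 : ℂ) * h2
    rw [e, Complex.ofReal_re]

/-- the matrices of a sequence of real numbers -/
lemma exists_twos (a : ℕ → ℝ) : ∃ M : ℕ → Matrix (Fin 2) (Fin 2) ℂ, ∀ p, |a p| ≤ 2 → EigLe (M p) ∧
    (∀ z : ℂ, (1 - z • M p).det = 1 - a p * z + z ^ 2) ∧ (M p ^ 2).trace.re = a p ^ 2 - 2 := by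
  have h : ∀ p, ∃ M : Matrix (Fin 2) (Fin 2) ℂ, |a p| ≤ 2 → EigLe M ∧
      (∀ z : ℂ, (1 - z • M).det = 1 - a p * z + z ^ 2) ∧ (M ^ 2).trace.re = a p ^ 2 - 2 := by
    intro p
    by_cases hp : |a p| ≤ 2
    · obtain ⟨M, hM⟩ := exists_two hp
      exact ⟨M, fun _ => hM⟩
    · exact ⟨0, fun h => absurd h hp⟩
  choose M hM using h
  exact ⟨M, hM⟩

section

variable {n : ℕ} {S : Finset ℕ} {M : ℕ → Matrix (Fin n) (Fin n) ℂ}

/-- **Almost all squarefree numbers.** -/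
theorem sqf_all (n : ℕ) {η : ℝ} (hη : 0 < η) : ∃ X₀ : ℕ, 16 ≤ X₀ ∧ ∀ (S : Finset ℕ)
    (M : ℕ → Matrix (Fin n) (Fin n) ℂ), (∀ p : ℕ, p.Prime → p ∉ S → EigLe (M p)) → (∀ p < 4, p ∈ S) →
    ∀ T : ℕ, ∃ E ⊆ sqf T, (E.card : ℝ) ≤ η * (sqf T).card ∧ ∀ d ∈ sqf T, d ∉ E → ∀ x : ℕ, X₀ ≤ x →
      x ^ 10 ≤ T → |∑ p ∈ (range (x + 1)).filter Nat.Prime, lq S M d p +
        1 / 2 * ∑ p ∈ (range (x + 1)).filter Nat.Prime, ta S M p / p| ≤
          2 * Real.log (Real.log x) ^ (5 / 6 : ℝ) := by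
  classical
  obtain ⟨X₀, hX₀, H⟩ := twists_all n (show 0 < η / 4 by positivity)
  refine ⟨X₀, hX₀, fun S M hM hS T => ?_⟩
  obtain ⟨E, hE, HE⟩ := H S M hM hS T
  refine ⟨E ∩ sqf T, inter_subset_right, ?_, fun d hd hne x hx hxT => ?_⟩
  · have h1 : ((E ∩ sqf T).card : ℝ) ≤ E.card := by exact_mod_cast card_le_card inter_subset_left
    have h2 := sqf_card T
    nlinarith
  · refine HE d ?_ (fun h => hne (mem_inter.2 ⟨h, hd⟩)) x hx hxT
    unfold sqf at hd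
    rw [mem_filter, mem_Icc] at hd
    exact abs_le.2 hd.1

/-- **The mean over the squarefree numbers.** -/
theorem sqf_mean (n : ℕ) : ∃ K : ℝ, 0 ≤ K ∧ ∀ (S : Finset ℕ)
    (M : ℕ → Matrix (Fin n) (Fin n) ℂ), (∀ p : ℕ, p.Prime → p ∉ S → EigLe (M p)) → (∀ p < 4, p ∈ S) →
    ∀ T x : ℕ, 16 ≤ x → x ^ 10 ≤ T → ∑ d ∈ sqf T,
      |∑ p ∈ (range (x + 1)).filter Nat.Prime, lq S M d p +
        1 / 2 * ∑ p ∈ (range (x + 1)).filter Nat.Prime, ta S M p / p| ≤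
          K * (sqf T).card * Real.log (Real.log x) ^ (1 / 2 : ℝ) := by
  classical
  obtain ⟨K, hK, H⟩ := twists_mean n
  refine ⟨K * 4, by positivity, fun S M hM hS T x hx hxT => ?_⟩
  have h1 := H S M hM hS T x hx hxT
  have hsub : sqf T ⊆ Icc (-(T : ℤ)) T := by
    unfold sqf
    exact filter_subset _ _
  refine (sum_le_sum_of_subset_of_nonneg hsub fun _ _ _ => abs_nonneg _).trans (h1.trans ?_)
  have h2 := sqf_card T
  have hl1 := loglog_ge_one hx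
  have hl : 0 ≤ Real.log (Real.log x) ^ (1 / 2 : ℝ) := Real.rpow_nonneg (by linarith) _
  calc K * Real.log (Real.log x) ^ (1 / 2 : ℝ) * T ≤
        K * Real.log (Real.log x) ^ (1 / 2 : ℝ) * (4 * (sqf T).card) :=
        mul_le_mul_of_nonneg_left h2 (mul_nonneg hK hl)
    _ = _ := by ring

/-- the logarithm of a product of local factors -/
lemma log_prod_lq (hM : ∀ p : ℕ, p.Prime → p ∉ S → EigLe (M p)) (hS : ∀ p < 4, p ∈ S) (d : ℤ) (x : ℕ) :
    Real.log (∏ p ∈ (range (x + 1)).filter (fun p => p.Prime ∧ p ∉ S),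
      ‖(1 - (((jacobiSym d p : ℝ) / Real.sqrt p : ℝ) : ℂ) • M p).det‖) =
        ∑ p ∈ (range (x + 1)).filter Nat.Prime, lq S M d p := by
  rw [Real.log_prod]
  · rw [sum_filter, sum_filter]
    refine sum_congr rfl fun p _ => ?_
    unfold lq
    by_cases hp : p.Prime
    · by_cases hpS : p ∈ S
      · rw [if_pos hp, if_pos hpS, if_neg fun h => h.2 hpS]
      · rw [if_pos hp, if_neg hpS, if_pos ⟨hp, hpS⟩]
    · rw [if_neg hp, if_neg fun h => hp h.1]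
  · intro p hp
    obtain ⟨_, hp, hpS⟩ := mem_filter.1 hp
    have : Fact p.Prime := ⟨hp⟩
    have hp0 : (0 : ℝ) < p := by exact_mod_cast hp.pos
    have h4 : (4 : ℝ) ≤ p := by
      have : 4 ≤ p := by
        by_contra h
        exact hpS (hS p (by omega))
      exact_mod_cast this
    have hs : 0 < Real.sqrt p := Real.sqrt_pos.2 hp0
    have hs2 : 2 ≤ Real.sqrt p := by
      rw [show (2 : ℝ) = Real.sqrt 4 by
        rw [show (4 : ℝ) = 2 ^ 2 by norm_num, Real.sqrt_sq (by norm_num)]]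
      exact Real.sqrt_le_sqrt h4
    have hz : |(jacobiSym d p : ℝ) / Real.sqrt p| ≤ 1 / 2 := by
      rw [jac_ch, abs_div, abs_of_pos hs, div_le_div_iff₀ hs (by norm_num)]
      have := ch_abs (d : ZMod p)
      nlinarith
    exact (local_q (hM p hp hpS) hz).1.ne'

end

end Pool.Agent.Q28.BP
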